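import Pool.Agent.H396R3.C.Synth2

/-! Analysis inequality for the refinement differences. -/

set_option autoImplicit false

open Finset

namespace H396C

section
variable {M : ℕ}

/-- translation by one cell of level `a` -/
def sh (a : ℕ) (z : Zm M) : Zm M := z + ((2 ^ (M - a) : ℕ) : Zm M)

theorem cl_cast {k : ℕ} (hk : k ≤ M) (v : ℕ) : cl k ((v : ℕ) : Zm M) = (v / 2 ^ (M - k)) % 2 ^ k := by
  unfold cl
  rw [ZMod.val_natCast]
  have h1 : 2 ^ M = 2 ^ (M - k) * 2 ^ k := by rw [← pow_add]; congr 1; omega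
  rw [h1]
  exact Nat.mod_mul_right_div_self _ _ _

theorem sh_eq (a : ℕ) (z : Zm M) : sh a z = ((z.val + 2 ^ (M - a) : ℕ) : Zm M) := by
  unfold sh
  push_cast
  rw [ZMod.natCast_zmod_val]

theorem cl_sh {k a : ℕ} (hk : k ≤ M) (z : Zm M) : cl k (sh a z) = ((z.val + 2 ^ (M - a)) / 2 ^ (M - k)) % 2 ^ k := by
  rw [sh_eq, cl_cast hk]

/-- positions with a separated translate -/
theorem sep_pos {k a : ℕ} (hka : k ≤ a) (ha : a ≤ M) (z : Zm M) (h : cl k (sh a z) ≠ cl k z) :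
    cl k z * 2 ^ (M - k) + 2 ^ (M - k) ≤ z.val + 2 ^ (M - a) := by
  obtain ⟨L, hL⟩ : ∃ L, L = 2 ^ (M - k) := ⟨_, rfl⟩
  have hL0 : 0 < L := by rw [hL]; positivity
  have hk : k ≤ M := hka.trans ha
  by_contra hcon
  apply h
  rw [cl_sh hk]
  rw [← hL] at hcon ⊢
  have hc : cl k z = z.val / L := by unfold cl; rw [hL]
  have e1 := Nat.div_add_mod z.val L
  rw [← hc, mul_comm] at e1
  have e2 : (z.val + 2 ^ (M - a)) / L = cl k z := by
    obtain ⟨Y, hY⟩ : ∃ Y, Y = cl k z * L := ⟨_, rfl⟩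
    rw [← hY] at e1 hcon
    generalize z.val % L = ρ at e1
    generalize 2 ^ (M - a) = W at hcon ⊢
    apply Nat.div_eq_of_lt_le
    · rw [← hY]; omega
    · rw [Nat.succ_mul, ← hY]; omega
  rw [e2]
  exact Nat.mod_eq_of_lt (cl_lt hk z)

theorem sh_same {k a : ℕ} (hka : k ≤ a) (ha : a ≤ M) (z : Zm M) (h : cl k (sh a z) ≠ cl k z) :
    cl k (sh a z) = cl k (sh k z) := by
  have h1 := sep_pos hka ha z h
  have hk : k ≤ M := hka.trans ha
  rw [cl_sh hk, cl_sh hk]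
  obtain ⟨L, hL⟩ : ∃ L, L = 2 ^ (M - k) := ⟨_, rfl⟩
  have hL0 : 0 < L := by rw [hL]; positivity
  have hLa : 2 ^ (M - a) ≤ L := by rw [hL]; exact Nat.pow_le_pow_right (by norm_num) (by omega)
  rw [← hL] at h1 ⊢
  have hc : cl k z = z.val / L := by unfold cl; rw [hL]
  have e1 := Nat.div_add_mod z.val L
  have e3 := Nat.mod_lt z.val hL0
  rw [← hc, mul_comm] at e1
  have e2 : (z.val + 2 ^ (M - a)) / L = cl k z + 1 := by
    obtain ⟨Y, hY⟩ : ∃ Y, Y = cl k z * L := ⟨_, rfl⟩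
    rw [← hY] at e1 h1
    generalize z.val % L = ρ at e1 e3
    apply Nat.div_eq_of_lt_le
    · rw [add_mul, one_mul, ← hY]; omega
    · rw [Nat.succ_mul, add_mul, one_mul, ← hY]; omega
  have e2' : (z.val + L) / L = cl k z + 1 := by
    rw [Nat.add_div_right _ hL0, ← hc]
  rw [e2, e2']

/-- number of separated positions of a cell -/
theorem sep_card {k a : ℕ} (hka : k ≤ a) (ha : a ≤ M) (x : Zm M) :
    (univ.filter fun y : Zm M => cl k y = cl k x ∧ cl k (sh a y) ≠ cl k y).card ≤ 2 ^ (M - a) := by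
  obtain ⟨L, hL⟩ : ∃ L, L = 2 ^ (M - k) := ⟨_, rfl⟩
  have hL0 : 0 < L := by rw [hL]; positivity
  obtain ⟨c, hc⟩ : ∃ c, c = cl k x := ⟨_, rfl⟩
  have hLa : 2 ^ (M - a) ≤ L := by rw [hL]; exact Nat.pow_le_pow_right (by norm_num) (by omega)
  have hsub : (univ.filter fun y : Zm M => cl k y = cl k x ∧ cl k (sh a y) ≠ cl k y).image ZMod.val ⊆
      Finset.Ico (c * L + L - 2 ^ (M - a)) (c * L + L) := by
    intro v hv
    obtain ⟨Y, hY⟩ : ∃ Y, Y = c * L := ⟨_, rfl⟩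
    obtain ⟨y, hy, rfl⟩ := Finset.mem_image.1 hv
    obtain ⟨h1, h2⟩ := (Finset.mem_filter.1 hy).2
    have h3 := sep_pos hka ha y h2
    rw [h1, ← hc, ← hL, ← hY] at h3
    rw [Finset.mem_Ico, ← hY]
    constructor
    · omega
    · have h4 : y.val / L = c := by rw [hc, ← h1, hL]; rfl
      have h5 := Nat.div_add_mod y.val L
      have h6 := Nat.mod_lt y.val hL0
      rw [h4, mul_comm, ← hY] at h5
      generalize y.val % L = ρ at h5 h6
      omega
  have h2 := Finset.card_le_card hsub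
  rw [Finset.card_image_of_injective _ (ZMod.val_injective (2^M)), Nat.card_Ico] at h2
  refine h2.trans ?_
  generalize c * L = Y
  clear hsub h2
  generalize 2 ^ (M - a) = W
  omega

/-- indicator of the separated positions -/
noncomputable def th (k a : ℕ) (z : Zm M) : ℝ := if cl k (sh a z) ≠ cl k z then 1 else 0

theorem th_nonneg (k a : ℕ) (z : Zm M) : 0 ≤ th k a z := by unfold th; split_ifs <;> norm_num

theorem th_le_one (k a : ℕ) (z : Zm M) : th k a z ≤ 1 := by unfold th; split_ifs <;> norm_num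

theorem th_av {k a : ℕ} (hka : k ≤ a) (ha : a ≤ M) (x : Zm M) : Av k (th k a) x ≤ 2 ^ (M - a) / 2 ^ (M - k) := by
  rw [Av_apply]
  apply div_le_div_of_nonneg_right _ (by positivity)
  have h1 : (∑ y : Zm M, if cl k y = cl k x then th k a y else 0) =
      (((univ.filter fun y : Zm M => cl k y = cl k x ∧ cl k (sh a y) ≠ cl k y).card : ℕ) : ℝ) := by
    rw [Finset.card_filter]
    push_cast
    refine Finset.sum_congr rfl fun y _ => ?_
    unfold th
    by_cases h1 : cl k y = cl k x <;> by_cases h2 : cl k (sh a y) ≠ cl k y <;> simp [h1]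
  rw [h1]
  exact_mod_cast sep_card hka ha x

/-- martingale difference -/
noncomputable def Dm (m : ℕ) (h : Zm M → ℝ) (z : Zm M) : ℝ := sgn m z * (fil M).c m h z

theorem Dm_sq (m : ℕ) (h : Zm M → ℝ) (z : Zm M) : Dm m h z ^ 2 = ((fil M).c m h z) ^ 2 := by
  unfold Dm
  have := sgn_sq m z
  linear_combination ((fil M).c m h z)^2 * this

theorem Av_tele (h : Zm M → ℝ) (a : ℕ) (ha : a ≤ M) (z : Zm M) :
    Av a h z = Av 0 h z + ∑ m ∈ range a, Dm m h z := by
  induction a with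
  | zero => simp
  | succ a ih =>
    rw [Finset.sum_range_succ, ← add_assoc, ← ih (by omega)]
    exact congrFun ((fil M).haar a h (by omega)) z

theorem Dm_cl {m : ℕ} (hm : m < M) (h : Zm M → ℝ) {x y : Zm M} (hxy : cl (m+1) x = cl (m+1) y) : Dm m h x = Dm m h y := by
  unfold Dm
  have h1 : sgn m x = sgn m y := by unfold sgn; rw [hxy]
  have h2 : (fil M).c m h x = (fil M).c m h y := Av_same m _ (cl_mono (by omega) hxy)
  rw [h1, h2]

theorem cl_zero (z : Zm M) : cl 0 z = 0 := by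
  unfold cl
  rw [Nat.sub_zero]
  exact Nat.div_eq_of_lt (ZMod.val_lt z)

/-- the difference of neighbouring averages -/
noncomputable def Zd (a : ℕ) (h : Zm M → ℝ) (z : Zm M) : ℝ := Av a h z - Av a h (sh a z)

theorem Zd_tele (a : ℕ) (ha : a ≤ M) (h : Zm M → ℝ) (z : Zm M) :
    Zd a h z = ∑ m ∈ range a, (Dm m h z - Dm m h (sh a z)) := by
  unfold Zd
  rw [Av_tele h a ha z, Av_tele h a ha (sh a z), Finset.sum_sub_distrib,
    Av_same 0 h (show cl 0 z = cl 0 (sh a z) by rw [cl_zero, cl_zero])]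
  ring

theorem Dd_sq {m a : ℕ} (hma : m + 1 ≤ a) (ha : a ≤ M) (h : Zm M → ℝ) (z : Zm M) :
    (Dm m h z - Dm m h (sh a z)) ^ 2 ≤
      th (m+1) a z * (2 * (((fil M).c m h z) ^ 2 + ((fil M).c m h (sh (m+1) z)) ^ 2)) := by
  unfold th
  by_cases h1 : cl (m+1) (sh a z) = cl (m+1) z
  · rw [Dm_cl (by omega) h h1.symm, sub_self]
    simp [h1]
  · rw [if_pos h1, one_mul, Dm_cl (by omega) h (sh_same hma ha z h1), ← Dm_sq, ← Dm_sq]
    nlinarith [sq_nonneg (Dm m h z + Dm m h (sh (m+1) z))]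

/-- the translate is bounded by a ball average -/
theorem sh_B {m : ℕ} (hm : m < M) {f : Zm M → ℝ} (hf : ∀ x, 0 ≤ f x)
    (hfm : ∀ x y : Zm M, cl m x = cl m y → f x = f y) (z : Zm M) :
    f (sh (m+1) z) ≤ 2 * (nrm M).B m f z := by
  have h1 : f (sh (m+1) z) = Av (m+1) f (sh (m+1) z) :=
    (Av_const (m+1) f _ (fun y hy => hfm _ _ (cl_mono (by omega) hy))).symm
  rw [h1, Av_apply]
  unfold Nrm.B
  have h2 : sc M m = 2 * 2 ^ (M - (m+1)) := by
    rw [← sc_eq (by omega)]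
    rw [← pow_succ']; congr 1; omega
  have h3 : (0:ℝ) < 2 ^ (M - (m+1)) := by positivity
  have h4 : (∑ y, if cl (m+1) y = cl (m+1) (sh (m+1) z) then f y else 0) ≤
      ∑ y, if ((nrm M).ν (z - y) : ℝ) ≤ sc M m then f y else 0 := by
    refine Finset.sum_le_sum fun y _ => ?_
    split_ifs with h5 h6 h6
    · exact le_rfl
    · exfalso
      apply h6
      have h7 : (nu (sh (m+1) z - y) : ℝ) ≤ sc M (m+1) := nu_cell (by omega) h5.symm
      have h8 : (nu (z - sh (m+1) z) : ℝ) ≤ 2 ^ (M - (m+1)) := by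
        have h9 : nu (z - sh (m+1) z) = nu ((2 ^ (M - (m+1)) : ℕ) : Zm M) := by
          have : z - sh (m+1) z = - ((2 ^ (M - (m+1)) : ℕ) : Zm M) := by unfold sh; ring
          rw [this]; exact (nrm M).neg _
        rw [h9]
        have hlt : 2 ^ (M - (m+1)) < 2 ^ M := Nat.pow_lt_pow_right (by norm_num) (by omega)
        have h10 := nu_le_val_sub ((2 ^ (M - (m+1)) : ℕ) : Zm M) 0
        rw [sub_zero, ZMod.val_zero, ZMod.val_cast_of_lt hlt, Nat.cast_zero, sub_zero, abs_of_nonneg (by positivity)] at h10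
        have h11 : nu ((2 ^ (M - (m+1)) : ℕ) : Zm M) ≤ 2 ^ (M - (m+1)) := by exact_mod_cast h10
        exact_mod_cast h11
      have h9 : (nu (z - y) : ℝ) ≤ nu (z - sh (m+1) z) + nu (sh (m+1) z - y) := by
        have := (nrm M).add (z - sh (m+1) z) (sh (m+1) z - y)
        rw [sub_add_sub_cancel] at this
        exact_mod_cast this
      have h10 : sc M (m+1) = 2 ^ (M - (m+1)) := (sc_eq (by omega)).symm
      show (nu (z - y) : ℝ) ≤ sc M m
      rw [h2]; rw [h10] at h7; linarith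
    · exact hf y
    · exact le_rfl
  rw [h2, div_le_iff₀ h3]
  have h5 : 2 * ((∑ y, if ((nrm M).ν (z - y) : ℝ) ≤ 2 * 2 ^ (M - (m+1)) then f y else 0) / (2 * 2 ^ (M - (m+1)))) * 2 ^ (M - (m+1)) =
      ∑ y, if ((nrm M).ν (z - y) : ℝ) ≤ 2 * 2 ^ (M - (m+1)) then f y else 0 := by field_simp
  rw [h5, ← h2]
  exact h4

/-- the analysis operator -/
noncomputable def Ga (n : ℕ) (h : Zm M → ℝ) (z : Zm M) : ℝ :=
  match n with
  | 0 => Av 0 h z
  | n+1 => Dm n h z + (if cl (n+1) z % 2 = 1 then Zd n h z / 2 else 0)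

theorem Ga_sq (n : ℕ) (h : Zm M → ℝ) (z : Zm M) :
    Ga (n+1) h z ^ 2 ≤ 2 * ((fil M).c n h z) ^ 2 + Zd n h z ^ 2 := by
  have h1 : Ga (n+1) h z = Dm n h z + (if cl (n+1) z % 2 = 1 then Zd n h z / 2 else 0) := rfl
  rw [h1, ← Dm_sq]
  split_ifs
  · nlinarith [sq_nonneg (Dm n h z - Zd n h z / 2), sq_nonneg (Zd n h z)]
  · nlinarith [sq_nonneg (Dm n h z), sq_nonneg (Zd n h z)]

theorem sh_meas {k : ℕ} {x y : Zm M} (h : cl k x = cl k y) : cl k (sh k x) = cl k (sh k y) := by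
  rcases le_or_gt k M with hk | hk
  · rw [cl_sh hk, cl_sh hk, Nat.add_div_right _ (by positivity), Nat.add_div_right _ (by positivity)]
    have h1 : x.val / 2 ^ (M - k) = y.val / 2 ^ (M - k) := h
    rw [h1]
  · unfold cl at h
    rw [show M - k = 0 by omega, pow_zero, Nat.div_one, Nat.div_one] at h
    rw [ZMod.val_injective _ h]

theorem geo_rev {η : ℝ} (hη : 0 < η) (a : ℕ) :
    ∑ m ∈ range a, (2:ℝ) ^ (-(η * ((a:ℝ) - m))) ≤ Nrm.geoC η := by
  have h1 : ∀ m ∈ range a, (2:ℝ) ^ (-(η * ((a:ℝ) - m))) = (2:ℝ) ^ (-(η * ((a - m : ℕ):ℝ))) := by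
    intro m hm
    rw [Nat.cast_sub (Finset.mem_range.1 hm).le]
  rw [Finset.sum_congr rfl h1]
  refine (inj_sum _ (range (a+1)) (fun m => a - m) (fun j => (2:ℝ) ^ (-(η * (j:ℝ)))) (fun _ _ => by positivity)
    (fun i hi => ?_) (fun i hi j hj h => ?_)).trans (Nrm.geo_le hη (a+1))
  · exact Finset.mem_range.2 (by omega)
  · have h1 := Finset.mem_range.1 (Finset.mem_coe.1 hi)
    have h2 := Finset.mem_range.1 (Finset.mem_coe.1 hj)
    simp only at h
    omega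

/-- triangular sums -/
theorem tri_sum (R : ℕ) (f : ℕ → ℕ → ℝ) :
    ∑ a ∈ range R, ∑ m ∈ range a, f a m = ∑ u ∈ range R, ∑ m ∈ range (R - 1 - u), f (m + 1 + u) m := by
  induction R with
  | zero => simp
  | succ R ih =>
    rw [Finset.sum_range_succ, ih]
    have h1 : ∀ u ∈ range R, ∑ m ∈ range (R + 1 - 1 - u), f (m+1+u) m =
        ∑ m ∈ range (R - 1 - u), f (m+1+u) m + f R (R - 1 - u) := by
      intro u hu
      have hu' := Finset.mem_range.1 hu
      rw [show R + 1 - 1 - u = (R - 1 - u) + 1 by omega, Finset.sum_range_succ, show R - 1 - u + 1 + u = R by omega]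
    rw [Finset.sum_range_succ (fun u => ∑ m ∈ range (R + 1 - 1 - u), f (m+1+u) m), Finset.sum_congr rfl h1,
      Finset.sum_add_distrib, show R + 1 - 1 - R = 0 by omega, Finset.range_zero, Finset.sum_empty, add_zero]
    congr 1
    exact (Finset.sum_range_reflect (fun m => f R m) R).symm

/-- **Analysis inequality** -/
theorem anal (q : ℕ) :
    ∃ K : ℝ, 0 < K ∧ ∀ (M R : ℕ), R ≤ M → ∀ {α : Type} (A : Finset α) (h : α → Zm M → ℝ),
      ∑ x, (∑ n ∈ range (R+1), ∑ i ∈ A, (Ga n (h i) x) ^ 2) ^ (q+1) ≤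
        K * ∑ x, (∑ i ∈ A, (h i x) ^ 2) ^ (q+1) := by
  obtain ⟨η, hη⟩ : ∃ η : ℝ, η = 1 / (2 * (q+1)) := ⟨_, rfl⟩
  have hη0 : 0 < η := by rw [hη]; positivity
  obtain ⟨W, hW⟩ : ∃ W : ℝ, W = Nrm.geoC η := ⟨_, rfl⟩
  have hg : 0 < W := by rw [hW]; exact Nrm.geoC_pos hη0
  obtain ⟨KB, hKB⟩ : ∃ K : ℝ, K = (2 * (q+1)) ^ (q+1) := ⟨_, rfl⟩
  obtain ⟨KC, hKC⟩ : ∃ K : ℝ, K = (2 * ((q+1) * (3 * 2 ^ q))) ^ (q+1) := ⟨_, rfl⟩
  have hKB0 : 0 < KB := by rw [hKB]; positivity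
  have hKC0 : 0 < KC := by rw [hKC]; positivity
  obtain ⟨KG, hKG⟩ : ∃ K : ℝ, K = 2 ^ q * (1 + 2 ^ (q+1) * KC) := ⟨_, rfl⟩
  obtain ⟨KZ, hKZ⟩ : ∃ K : ℝ, K = (2 * W * 2 ^ η) ^ (q+1) * (W ^ q * (W * (q+1))) * KG := ⟨_, rfl⟩
  have hKG0 : 0 < KG := by rw [hKG]; positivity
  have hKZ0 : 0 < KZ := by rw [hKZ]; positivity
  refine ⟨2 ^ q * (2 ^ (q+1) + KZ) * KB, by positivity, ?_⟩
  intro M R hR α A h
  obtain ⟨Sf, hSf⟩ : ∃ Sf : Zm M → ℝ, Sf = (fil M).sf A h := ⟨_, rfl⟩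
  have hSf0 : ∀ x, 0 ≤ Sf x := fun x => by rw [hSf]; exact (fil M).sf_nonneg A h x
  obtain ⟨ck, hck⟩ : ∃ ck : ℕ → Zm M → ℝ, ck = (fil M).ck A h := ⟨_, rfl⟩
  have hck0 : ∀ m x, 0 ≤ ck m x := fun m x => by rw [hck]; exact (fil M).ck_nonneg A h m x
  have hckx : ∀ m x, ck m x = ∑ i ∈ A, ((fil M).c m (h i) x) ^ 2 := by
    intro m x; rw [hck]; unfold Fil.ck; simp
  have hckm : ∀ m (x y : Zm M), cl m x = cl m y → ck m x = ck m y := by
    intro m x y hxy
    rw [hckx, hckx]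
    refine Finset.sum_congr rfl fun i _ => ?_
    have : (fil M).c m (h i) x = (fil M).c m (h i) y := Av_same m _ hxy
    rw [this]
  have hcksum : ∀ x, ∑ m ∈ range R, ck m x ≤ Sf x := by
    intro x
    rw [hSf]
    unfold Fil.sf
    simp only [Pi.add_apply, Finset.sum_apply]
    rw [← hck]
    have h1 := (fil M).nk_nonneg A h 0 x
    have h2 : ∑ m ∈ range R, ck m x ≤ ∑ m ∈ range M, ck m x :=
      Finset.sum_le_sum_of_subset_of_nonneg (Finset.range_subset_range.2 hR) fun m _ _ => hck0 m x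
    linarith
  have hnk : ∀ x, (fil M).nk A h 0 x + ∑ m ∈ range R, ck m x ≤ Sf x := by
    intro x
    rw [hSf]
    unfold Fil.sf
    simp only [Pi.add_apply, Finset.sum_apply]
    rw [← hck]
    have h2 : ∑ m ∈ range R, ck m x ≤ ∑ m ∈ range M, ck m x :=
      Finset.sum_le_sum_of_subset_of_nonneg (Finset.range_subset_range.2 hR) fun m _ _ => hck0 m x
    linarith
  obtain ⟨g, hgd⟩ : ∃ g : ℕ → Zm M → ℝ, g = fun m x => ck m x + ck m (sh (m+1) x) := ⟨_, rfl⟩
  have hg0 : ∀ m x, 0 ≤ g m x := fun m x => by rw [hgd]; exact add_nonneg (hck0 _ _) (hck0 _ _)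
  have hgm : ∀ k, (fil M).E (k+1) (g k) = g k := by
    intro k
    refine (Av_meas_iff (k+1) (g k)).2 fun x y hxy => ?_
    rw [hgd]
    simp only
    rw [hckm k x y (cl_mono (by omega) hxy), hckm k _ _ (cl_mono (show k ≤ k+1 by omega) (sh_meas hxy))]
  obtain ⟨Zs, hZs⟩ : ∃ Zs : Zm M → ℝ, Zs = fun x => ∑ n ∈ range R, ∑ i ∈ A, Zd n (h i) x ^ 2 := ⟨_, rfl⟩
  have hZs0 : ∀ x, 0 ≤ Zs x := fun x => by
    rw [hZs]; exact Finset.sum_nonneg fun _ _ => Finset.sum_nonneg fun _ _ => sq_nonneg _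
  -- reduction
  have hred : ∀ x, ∑ n ∈ range (R+1), ∑ i ∈ A, (Ga n (h i) x) ^ 2 ≤ 2 * Sf x + Zs x := by
    intro x
    rw [Finset.sum_range_succ']
    have h0 : ∑ i ∈ A, (Ga 0 (h i) x) ^ 2 = (fil M).nk A h 0 x := by
      unfold Fil.nk; simp only [Finset.sum_apply, Pi.pow_apply]; rfl
    rw [h0]
    have h1 : ∑ n ∈ range R, ∑ i ∈ A, (Ga (n+1) (h i) x) ^ 2 ≤ 2 * ∑ n ∈ range R, ck n x + Zs x := by
      rw [hZs, Finset.mul_sum, ← Finset.sum_add_distrib]
      refine Finset.sum_le_sum fun n _ => ?_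
      rw [hckx, Finset.mul_sum, ← Finset.sum_add_distrib]
      exact Finset.sum_le_sum fun i _ => Ga_sq n (h i) x
    have h2 := hnk x
    have h3 := (fil M).nk_nonneg A h 0 x
    linarith
  -- the T_u
  obtain ⟨T, hT⟩ : ∃ T : ℕ → Zm M → ℝ, T = fun u x => ∑ m ∈ range (R - 1 - u), th (m+1) (m+1+u) x * g m x := ⟨_, rfl⟩
  have hT0 : ∀ u x, 0 ≤ T u x := fun u x => by
    rw [hT]; exact Finset.sum_nonneg fun m _ => mul_nonneg (th_nonneg _ _ _) (hg0 m x)
  have hZT : ∀ x, Zs x ≤ (2 * W * 2 ^ η) * ∑ u ∈ range R, (2:ℝ) ^ (-(η * u)) * ((2:ℝ) ^ (2 * η * u) * T u x) := by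
    intro x
    have h1 : ∀ a ∈ range R, ∑ i ∈ A, Zd a (h i) x ^ 2 ≤ ∑ m ∈ range a, (2 * W) * ((2:ℝ) ^ (η * ((a:ℝ) - m)) * (th (m+1) a x * g m x)) := by
      intro a ha
      have haR := Finset.mem_range.1 ha
      have h2 : ∀ i ∈ A, Zd a (h i) x ^ 2 ≤ W * ∑ m ∈ range a, (2:ℝ) ^ (η * ((a:ℝ) - m)) *
          (th (m+1) a x * (2 * (((fil M).c m (h i) x) ^ 2 + ((fil M).c m (h i) (sh (m+1) x)) ^ 2))) := by
        intro i _
        rw [Zd_tele a (by omega)]
        refine (wcs (range a) (fun m => (2:ℝ) ^ (-(η * ((a:ℝ) - m)))) _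
          (fun m => (2:ℝ) ^ (η * ((a:ℝ) - m)) *
          (th (m+1) a x * (2 * (((fil M).c m (h i) x) ^ 2 + ((fil M).c m (h i) (sh (m+1) x)) ^ 2))))
          (fun _ _ => by positivity) (fun m hm => ?_)).trans ?_
        · have hm' := Finset.mem_range.1 hm
          have h3 := Dd_sq (show m + 1 ≤ a by omega) (by omega) (h i) x
          rw [← mul_assoc, ← Real.rpow_add (by norm_num), neg_add_cancel, Real.rpow_zero, one_mul]
          exact h3
        · apply mul_le_mul_of_nonneg_right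
          · rw [hW]; exact geo_rev hη0 a
          · refine Finset.sum_nonneg fun m _ => ?_
            have := th_nonneg (m+1) a x
            positivity
      refine (Finset.sum_le_sum h2).trans (le_of_eq ?_)
      rw [← Finset.mul_sum, Finset.sum_comm, Finset.mul_sum]
      refine Finset.sum_congr rfl fun m _ => ?_
      rw [hgd]
      simp only
      rw [hckx, hckx, ← Finset.mul_sum, ← Finset.mul_sum, ← Finset.mul_sum, Finset.sum_add_distrib]
      ring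
    have h2 : Zs x ≤ ∑ a ∈ range R, ∑ m ∈ range a, (2 * W) * ((2:ℝ) ^ (η * ((a:ℝ) - m)) * (th (m+1) a x * g m x)) := by
      rw [hZs]; exact Finset.sum_le_sum h1
    rw [tri_sum R (fun a m => (2 * W) * ((2:ℝ) ^ (η * ((a:ℝ) - m)) * (th (m+1) a x * g m x)))] at h2
    refine h2.trans (le_of_eq ?_)
    rw [Finset.mul_sum]
    refine Finset.sum_congr rfl fun u _ => ?_
    rw [hT]
    simp only
    rw [Finset.mul_sum, Finset.mul_sum, Finset.mul_sum]
    refine Finset.sum_congr rfl fun m _ => ?_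
    have e1 : (2:ℝ) ^ (η * (((m+1+u : ℕ):ℝ) - m)) = 2 ^ η * ((2:ℝ) ^ (-(η * u)) * (2:ℝ) ^ (2 * η * u)) := by
      rw [← Real.rpow_add (by norm_num), ← Real.rpow_add (by norm_num)]
      congr 1; push_cast; ring
    rw [e1]; ring
  obtain ⟨Sg, hSg⟩ : ∃ S : ℝ, S = ∑ x, (∑ m ∈ range R, g m x) ^ (q+1) := ⟨_, rfl⟩
  have hSg0 : 0 ≤ Sg := by
    rw [hSg]; exact Finset.sum_nonneg fun x _ => pow_nonneg (Finset.sum_nonneg fun m _ => hg0 m x) _
  have hTs : ∀ u ∈ range R, ∑ x, ((2:ℝ) ^ (2 * η * u) * T u x) ^ (q+1) ≤ (q+1) * Sg := by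
    intro u hu
    have hu' := Finset.mem_range.1 hu
    have h1 := (fil M).thmD q (R - 1 - u) g (fun m => th (m+1) (m+1+u)) (1 / 2 ^ u) hg0 hgm
      (fun _ _ => th_nonneg _ _ _) (fun _ _ => th_le_one _ _ _) (fun k hk x => by
        refine (th_av (by omega) (by omega) x).trans (le_of_eq ?_)
        rw [sc_eq (by omega), sc_eq (by omega), sc_add M (k+1) u]
        have := sc_pos M (k+1+u)
        field_simp)
    have h2 : ∑ x, (∑ k ∈ range (R - 1 - u), g k x) ^ (q+1) ≤ Sg := by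
      rw [hSg]
      refine Finset.sum_le_sum fun x _ => ?_
      apply pow_le_pow_left₀ (Finset.sum_nonneg fun m _ => hg0 m x)
      exact Finset.sum_le_sum_of_subset_of_nonneg (Finset.range_subset_range.2 (by omega)) fun m _ _ => hg0 m x
    have h3 : ((2:ℝ) ^ (2 * η * u)) ^ (q+1) = 2 ^ u := by
      rw [← Real.rpow_natCast, ← Real.rpow_mul (by norm_num), ← Real.rpow_natCast]
      congr 1
      rw [hη]; push_cast; field_simp
    simp only [mul_pow, h3]
    rw [← Finset.mul_sum]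
    have h4 : ∑ x, (T u x) ^ (q+1) ≤ (q+1) * (1 / 2 ^ u) * Sg := by
      rw [hT]
      exact h1.trans (mul_le_mul_of_nonneg_left h2 (by positivity))
    calc (2:ℝ) ^ u * ∑ x, (T u x) ^ (q+1) ≤ 2 ^ u * ((q+1) * (1 / 2 ^ u) * Sg) :=
          mul_le_mul_of_nonneg_left h4 (by positivity)
      _ = _ := by field_simp
  have hZfin : ∑ x, (Zs x) ^ (q+1) ≤ (2 * W * 2 ^ η) ^ (q+1) * (W ^ q * (W * (q+1))) * Sg := by
    have hWs : ∑ u ∈ range R, (2:ℝ) ^ (-(η * u)) ≤ W := by rw [hW]; exact Nrm.geo_le hη0 R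
    have hWs0 : 0 ≤ ∑ u ∈ range R, (2:ℝ) ^ (-(η * u)) := Finset.sum_nonneg fun _ _ => by positivity
    calc ∑ x, (Zs x) ^ (q+1) ≤ ∑ x, (2 * W * 2 ^ η) ^ (q+1) *
          (W ^ q * ∑ u ∈ range R, (2:ℝ) ^ (-(η * u)) * ((2:ℝ) ^ (2 * η * u) * T u x) ^ (q+1)) := by
          refine Finset.sum_le_sum fun x _ => ?_
          refine (pow_le_pow_left₀ (hZs0 x) (hZT x) _).trans ?_
          rw [mul_pow]
          apply mul_le_mul_of_nonneg_left _ (by positivity)
          refine (wpm _ _ _ (fun _ _ => by positivity) (fun u _ => mul_nonneg (by positivity) (hT0 u x)) q).trans ?_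
          apply mul_le_mul_of_nonneg_right (pow_le_pow_left₀ hWs0 hWs q)
          exact Finset.sum_nonneg fun u _ => mul_nonneg (by positivity) (pow_nonneg (mul_nonneg (by positivity) (hT0 u x)) _)
      _ = (2 * W * 2 ^ η) ^ (q+1) * (W ^ q * ∑ u ∈ range R, (2:ℝ) ^ (-(η * u)) * ∑ x, ((2:ℝ) ^ (2 * η * u) * T u x) ^ (q+1)) := by
          rw [← Finset.mul_sum, ← Finset.mul_sum, Finset.sum_comm]
          congr 2
          refine Finset.sum_congr rfl fun u _ => ?_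
          rw [Finset.mul_sum]
      _ ≤ (2 * W * 2 ^ η) ^ (q+1) * (W ^ q * ∑ u ∈ range R, (2:ℝ) ^ (-(η * u)) * ((q+1) * Sg)) := by
          apply mul_le_mul_of_nonneg_left _ (by positivity)
          apply mul_le_mul_of_nonneg_left _ (by positivity)
          refine Finset.sum_le_sum fun u hu => ?_
          exact mul_le_mul_of_nonneg_left (hTs u hu) (by positivity)
      _ ≤ (2 * W * 2 ^ η) ^ (q+1) * (W ^ q * (W * ((q+1) * Sg))) := by
          rw [← Finset.sum_mul]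
          gcongr
      _ = _ := by ring
  have hGfin : Sg ≤ KG * ∑ x, (Sf x) ^ (q+1) := by
    obtain ⟨Bs, hBs⟩ : ∃ B : Zm M → ℝ, B = fun x => ∑ m ∈ range R, (nrm M).B m (ck m) x := ⟨_, rfl⟩
    have hBs0 : ∀ x, 0 ≤ Bs x := fun x => by
      rw [hBs]; exact Finset.sum_nonneg fun m _ => (nrm M).B_nonneg m (hck0 m) x
    have h1 : ∀ x, ∑ m ∈ range R, g m x ≤ Sf x + 2 * Bs x := by
      intro x
      rw [hgd, hBs]
      simp only
      rw [Finset.sum_add_distrib, Finset.mul_sum]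
      refine add_le_add (hcksum x) (Finset.sum_le_sum fun m hm => ?_)
      have hm' := Finset.mem_range.1 hm
      exact sh_B (by omega) (hck0 m) (hckm m) x
    have h2 : ∑ x, (Bs x) ^ (q+1) ≤ KC * ∑ x, (Sf x) ^ (q+1) := by
      rcases R with _ | R'
      · have : ∀ x, Bs x = 0 := by intro x; rw [hBs]; simp
        simp only [this]
        rw [zero_pow (by omega), Finset.sum_const_zero]
        exact mul_nonneg hKC0.le (Finset.sum_nonneg fun x _ => pow_nonneg (hSf0 x) _)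
      · have h3 := (nrm M).thmC q R' (by omega) ck hck0 0
        simp only [Nat.sub_zero] at h3
        rw [← hKC] at h3
        rw [hBs]
        refine h3.trans ?_
        apply mul_le_mul_of_nonneg_left _ hKC0.le
        exact Finset.sum_le_sum fun x _ => pow_le_pow_left₀ (Finset.sum_nonneg fun m _ => hck0 m x) (hcksum x) _
    rw [hSg]
    calc ∑ x, (∑ m ∈ range R, g m x) ^ (q+1) ≤ ∑ x, 2 ^ q * ((Sf x) ^ (q+1) + (2 * Bs x) ^ (q+1)) := by
          refine Finset.sum_le_sum fun x _ => ?_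
          refine (pow_le_pow_left₀ (Finset.sum_nonneg fun m _ => hg0 m x) (h1 x) _).trans ?_
          have := add_pow_le (hSf0 x) (mul_nonneg zero_le_two (hBs0 x)) (q+1)
          simpa using this
      _ = 2 ^ q * (∑ x, (Sf x) ^ (q+1) + 2 ^ (q+1) * ∑ x, (Bs x) ^ (q+1)) := by
          rw [← Finset.mul_sum, Finset.sum_add_distrib]
          simp only [mul_pow]
          rw [← Finset.mul_sum]
      _ ≤ 2 ^ q * (∑ x, (Sf x) ^ (q+1) + 2 ^ (q+1) * (KC * ∑ x, (Sf x) ^ (q+1))) := by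
          gcongr
      _ = _ := by rw [hKG]; ring
  have hB := (fil M).thmB A h q
  rw [← hKB, ← hSf] at hB
  have hnn : ∀ x, Fil.nn A h x = ∑ i ∈ A, (h i x) ^ 2 := by
    intro x; unfold Fil.nn; simp
  simp only [hnn] at hB
  have hSfs : 0 ≤ ∑ x, (Sf x) ^ (q+1) := Finset.sum_nonneg fun x _ => pow_nonneg (hSf0 x) _
  calc ∑ x, (∑ n ∈ range (R+1), ∑ i ∈ A, (Ga n (h i) x) ^ 2) ^ (q+1)
      ≤ ∑ x, 2 ^ q * ((2 * Sf x) ^ (q+1) + (Zs x) ^ (q+1)) := by
        refine Finset.sum_le_sum fun x _ => ?_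
        refine (pow_le_pow_left₀ (Finset.sum_nonneg fun _ _ => Finset.sum_nonneg fun _ _ => sq_nonneg _) (hred x) _).trans ?_
        have := add_pow_le (mul_nonneg zero_le_two (hSf0 x)) (hZs0 x) (q+1)
        simpa using this
    _ = 2 ^ q * (2 ^ (q+1) * ∑ x, (Sf x) ^ (q+1) + ∑ x, (Zs x) ^ (q+1)) := by
        rw [← Finset.mul_sum, Finset.sum_add_distrib]
        simp only [mul_pow]
        rw [← Finset.mul_sum]
    _ ≤ 2 ^ q * (2 ^ (q+1) * ∑ x, (Sf x) ^ (q+1) + KZ * ∑ x, (Sf x) ^ (q+1)) := by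
        have : ∑ x, (Zs x) ^ (q+1) ≤ KZ * ∑ x, (Sf x) ^ (q+1) := by
          refine hZfin.trans ?_
          rw [hKZ]
          have h5 : 0 ≤ (2 * W * 2 ^ η) ^ (q+1) * (W ^ q * (W * (q+1))) := by positivity
          calc _ ≤ (2 * W * 2 ^ η) ^ (q+1) * (W ^ q * (W * (q+1))) * (KG * ∑ x, (Sf x) ^ (q+1)) :=
                mul_le_mul_of_nonneg_left hGfin h5
            _ = _ := by ring
        gcongr
    _ = 2 ^ q * (2 ^ (q+1) + KZ) * ∑ x, (Sf x) ^ (q+1) := by ring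
    _ ≤ 2 ^ q * (2 ^ (q+1) + KZ) * (KB * ∑ x, (∑ i ∈ A, (h i x) ^ 2) ^ (q+1)) := by
        gcongr
    _ = _ := by ring

end

end H396C
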