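import Pool.Agent.H396R3.C.Mart

/-! Ball averages on a finite abelian group. -/

set_option autoImplicit false

open Finset

namespace H396C

structure Nrm (Z : Type) [AddCommGroup Z] [Fintype Z] (M : ℕ) where
  ν : Z → ℕ
  neg : ∀ z, ν (-z) = ν z
  add : ∀ a b, ν (a + b) ≤ ν a + ν b
  card : ∀ ρ : ℕ, (univ.filter fun z => ν z ≤ ρ).card ≤ 2 * ρ + 1
  bd : ∀ z, ν z ≤ 2 ^ M
  tot : Fintype.card Z = 2 ^ M

/-- the scale `2^(M-j)` -/
noncomputable def sc (M j : ℕ) : ℝ := 2 ^ M / 2 ^ j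

theorem sc_pos (M j : ℕ) : 0 < sc M j := by unfold sc; positivity

theorem sc_one {M j : ℕ} (h : j ≤ M) : 1 ≤ sc M j := by
  unfold sc
  rw [le_div_iff₀ (by positivity), one_mul]
  exact pow_le_pow_right₀ (by norm_num) h

theorem sc_anti {M i j : ℕ} (h : i ≤ j) : sc M j ≤ sc M i := by
  unfold sc
  apply div_le_div_of_nonneg_left (by positivity) (by positivity)
  exact pow_le_pow_right₀ (by norm_num) h

theorem sc_succ (M j : ℕ) : sc M j = 2 * sc M (j+1) := by
  unfold sc; rw [pow_succ]; field_simp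

theorem sc_add (M j i : ℕ) : sc M j = 2 ^ i * sc M (j+i) := by
  unfold sc; rw [pow_add]; field_simp

theorem sc_zero (M : ℕ) : sc M 0 = 2 ^ M := by unfold sc; simp

variable {Z : Type} [AddCommGroup Z] [Fintype Z] {M : ℕ} (V : Nrm Z M)

namespace Nrm

theorem card_real {ρ : ℝ} (hρ : 1 ≤ ρ) : (((univ.filter fun z => (V.ν z : ℝ) ≤ ρ).card : ℕ) : ℝ) ≤ 3 * ρ := by
  have h1 := V.card ⌊ρ⌋₊
  have h2 : (univ.filter fun z => (V.ν z : ℝ) ≤ ρ) = univ.filter fun z => V.ν z ≤ ⌊ρ⌋₊ := by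
    ext z
    simp only [mem_filter, mem_univ, true_and]
    exact (Nat.le_floor_iff (by linarith)).symm
  rw [h2]
  have h3 : (⌊ρ⌋₊ : ℝ) ≤ ρ := Nat.floor_le (by linarith)
  have h4 : (((univ.filter fun z => V.ν z ≤ ⌊ρ⌋₊).card : ℕ) : ℝ) ≤ 2 * (⌊ρ⌋₊ : ℝ) + 1 := by exact_mod_cast h1
  linarith

/-- ball average of scale `j` -/
noncomputable def B (j : ℕ) (f : Z → ℝ) (x : Z) : ℝ :=
  (∑ y, if (V.ν (x - y) : ℝ) ≤ sc M j then f y else 0) / sc M j

theorem B_nonneg (j : ℕ) {f : Z → ℝ} (hf : ∀ x, 0 ≤ f x) (x : Z) : 0 ≤ V.B j f x := by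
  unfold B
  apply div_nonneg _ (sc_pos M j).le
  exact Finset.sum_nonneg fun y _ => by split_ifs; exacts [hf y, le_rfl]

theorem B_mono (j : ℕ) {f g : Z → ℝ} (h : ∀ x, f x ≤ g x) (x : Z) : V.B j f x ≤ V.B j g x := by
  unfold B
  apply div_le_div_of_nonneg_right _ (sc_pos M j).le
  exact Finset.sum_le_sum fun y _ => by split_ifs; exacts [h y, le_rfl]

theorem B_sum {ι : Type} (J : Finset ι) (j : ℕ) (f : ι → Z → ℝ) (x : Z) :
    V.B j (fun y => ∑ i ∈ J, f i y) x = ∑ i ∈ J, V.B j (f i) x := by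
  unfold B
  rw [← Finset.sum_div, Finset.sum_comm]
  congr 1
  refine Finset.sum_congr rfl fun y _ => ?_
  split_ifs <;> simp

theorem B_adj (j : ℕ) (f g : Z → ℝ) : ∑ x, V.B j f x * g x = ∑ x, f x * V.B j g x := by
  unfold B
  have h1 : ∀ x, (∑ y, if (V.ν (x - y) : ℝ) ≤ sc M j then f y else 0) / sc M j * g x =
      ∑ y, (if (V.ν (x - y) : ℝ) ≤ sc M j then f y * g x else 0) / sc M j := by
    intro x
    rw [Finset.sum_div, Finset.sum_mul]
    refine Finset.sum_congr rfl fun y _ => ?_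
    split_ifs
    · ring
    · simp
  have h2 : ∀ x, f x * ((∑ y, if (V.ν (x - y) : ℝ) ≤ sc M j then g y else 0) / sc M j) =
      ∑ y, (if (V.ν (x - y) : ℝ) ≤ sc M j then f x * g y else 0) / sc M j := by
    intro x
    rw [Finset.sum_div, Finset.mul_sum]
    refine Finset.sum_congr rfl fun y _ => ?_
    split_ifs
    · ring
    · simp
  simp only [h1, h2]
  rw [Finset.sum_comm]
  refine Finset.sum_congr rfl fun y _ => Finset.sum_congr rfl fun x _ => ?_
  have : V.ν (x - y) = V.ν (y - x) := by rw [← V.neg (x - y), neg_sub]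
  rw [this]

theorem B_const (j : ℕ) (hj : j ≤ M) {f : Z → ℝ} {c : ℝ} (hc : 0 ≤ c) (x : Z)
    (h : ∀ y, (V.ν (x - y) : ℝ) ≤ sc M j → f y ≤ c) : V.B j f x ≤ 3 * c := by
  unfold B
  rw [div_le_iff₀ (sc_pos M j)]
  calc (∑ y, if (V.ν (x - y) : ℝ) ≤ sc M j then f y else 0)
      ≤ ∑ y, if (V.ν (x - y) : ℝ) ≤ sc M j then c else 0 :=
        Finset.sum_le_sum fun y _ => by split_ifs with h1; exacts [h y h1, le_rfl]
    _ = ∑ z, if (V.ν z : ℝ) ≤ sc M j then c else 0 :=
        Fintype.sum_equiv (Equiv.subLeft x) _ _ (fun y => rfl)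
    _ = ((univ.filter fun z => (V.ν z : ℝ) ≤ sc M j).card : ℝ) * c := by
        rw [← Finset.sum_filter, Finset.sum_const, nsmul_eq_mul]
    _ ≤ (3 * sc M j) * c := mul_le_mul_of_nonneg_right (V.card_real (sc_one hj)) hc
    _ = _ := by ring

theorem B_shift (r l : ℕ) {f : Z → ℝ} (hf : ∀ x, 0 ≤ f x) (x y : Z)
    (h : (V.ν (x - y) : ℝ) ≤ sc M (l - r)) : V.B (l - r) f y ≤ 2 * V.B (l - (r+1)) f x := by
  unfold B
  by_cases hl : l - r = 0
  · have h2 : l - (r+1) = 0 := by omega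
    rw [hl, h2]
    have hall : ∀ a b : Z, (V.ν (a - b) : ℝ) ≤ sc M 0 := by
      intro a b
      rw [sc_zero]; exact_mod_cast V.bd _
    simp only [hall, if_true]
    have : 0 ≤ (∑ y, f y) / sc M 0 := div_nonneg (Finset.sum_nonneg fun y _ => hf y) (sc_pos M 0).le
    linarith
  · have h2 : l - r = l - (r+1) + 1 := by omega
    have h3 : sc M (l - (r+1)) = 2 * sc M (l - r) := by rw [h2]; exact sc_succ M _
    have hp := sc_pos M (l - r)
    rw [h3]
    have h4 : (∑ z, if (V.ν (y - z) : ℝ) ≤ sc M (l - r) then f z else 0) ≤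
        ∑ z, if (V.ν (x - z) : ℝ) ≤ 2 * sc M (l - r) then f z else 0 := by
      refine Finset.sum_le_sum fun z _ => ?_
      split_ifs with h5 h6 h6
      · exact le_rfl
      · exfalso
        apply h6
        have h7 := V.add (x - y) (y - z)
        rw [sub_add_sub_cancel] at h7
        have h8 : (V.ν (x - z) : ℝ) ≤ V.ν (x - y) + V.ν (y - z) := by exact_mod_cast h7
        linarith
      · exact hf z
      · exact le_rfl
    calc (∑ z, if (V.ν (y - z) : ℝ) ≤ sc M (l - r) then f z else 0) / sc M (l - r)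
        ≤ (∑ z, if (V.ν (x - z) : ℝ) ≤ 2 * sc M (l - r) then f z else 0) / sc M (l - r) :=
          div_le_div_of_nonneg_right h4 hp.le
      _ = _ := by field_simp

/-- dual maximal inequality for ball averages -/
theorem thmC (n R : ℕ) (hR : R ≤ M) (f : ℕ → Z → ℝ) (hf : ∀ j x, 0 ≤ f j x) (r : ℕ) :
    ∑ x, (∑ j ∈ range (R+1), V.B (j - r) (f j) x) ^ (n+1) ≤
      (2 * ((n+1) * (3 * 2 ^ n))) ^ (n+1) * ∑ x, (∑ j ∈ range (R+1), f j x) ^ (n+1) := by
  obtain ⟨K, hK⟩ : ∃ K : ℝ, K = (n+1) * (3 * 2 ^ n) := ⟨_, rfl⟩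
  have hK1 : 1 ≤ K := by
    rw [hK]
    have h1 : (1:ℝ) ≤ 2 ^ n := one_le_pow₀ (by norm_num)
    have h2 : (0:ℝ) ≤ n := Nat.cast_nonneg n
    nlinarith
  rw [← hK]
  obtain ⟨F, hF⟩ : ∃ F : Z → ℝ, F = fun x => ∑ j ∈ range (R+1), f j x := ⟨_, rfl⟩
  have hF0 : ∀ x, 0 ≤ F x := fun x => by rw [hF]; exact Finset.sum_nonneg fun j _ => hf j x
  obtain ⟨G, hG⟩ : ∃ G : ℕ → ℕ → Z → ℝ, G = fun r k x => ∑ j ∈ range k, V.B (j - r) (f j) x := ⟨_, rfl⟩
  have hG0 : ∀ r k x, 0 ≤ G r k x := fun r k x => by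
    rw [hG]; exact Finset.sum_nonneg fun j _ => V.B_nonneg _ (hf j) x
  have hGs : ∀ r k x, G r (k+1) x = G r k x + V.B (k - r) (f k) x := fun r k x => by
    rw [hG]; simp only [Finset.sum_range_succ]
  have hGmono : ∀ r k, k ≤ R+1 → ∀ x, G r k x ≤ G r (R+1) x := by
    intro r k hk x
    rw [hG]
    exact Finset.sum_le_sum_of_subset_of_nonneg (Finset.range_subset_range.2 hk) fun j _ _ => V.B_nonneg _ (hf j) x
  have goal : ∀ i r, R ≤ r + i → ∑ x, (G r (R+1) x) ^ (n+1) ≤ (2*K) ^ (n+1) * ∑ x, (F x) ^ (n+1) := by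
    intro i
    induction i with
    | zero =>
      intro r hr
      have hpt : ∀ x, G r (R+1) x = (∑ y, F y) / 2 ^ M := by
        intro x
        rw [hG, hF]
        have : ∀ j ∈ range (R+1), V.B (j - r) (f j) x = (∑ y, f j y) / 2 ^ M := by
          intro j hj
          have h1 : j - r = 0 := by have := Finset.mem_range.1 hj; omega
          unfold B
          rw [h1, sc_zero]
          congr 1
          refine Finset.sum_congr rfl fun y _ => ?_
          rw [if_pos]
          exact_mod_cast V.bd _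
        simp only
        rw [Finset.sum_congr rfl this, ← Finset.sum_div, Finset.sum_comm]
      have h1 : ∑ x, (G r (R+1) x) ^ (n+1) ≤ ∑ x, (F x) ^ (n+1) := by
        simp only [hpt]
        rw [Finset.sum_const, Finset.card_univ, V.tot, nsmul_eq_mul]
        have h3 := Real.pow_arith_mean_le_arith_mean_pow univ (fun _ : Z => (1:ℝ) / 2 ^ M) F
          (fun _ _ => by positivity) (by
            rw [Finset.sum_const, Finset.card_univ, V.tot, nsmul_eq_mul]; push_cast; field_simp) (fun x _ => hF0 x) (n+1)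
        simp only [← Finset.mul_sum] at h3
        have h4 : (1:ℝ) / 2 ^ M * ∑ y, F y = (∑ y, F y) / 2 ^ M := by ring
        rw [h4] at h3
        have h5 : (0:ℝ) < 2 ^ M := by positivity
        push_cast
        calc (2:ℝ) ^ M * ((∑ y, F y) / 2 ^ M) ^ (n+1) ≤ 2 ^ M * (1 / 2 ^ M * ∑ x, (F x) ^ (n+1)) :=
              mul_le_mul_of_nonneg_left h3 h5.le
          _ = _ := by field_simp
      have h6 : 0 ≤ ∑ x, (F x) ^ (n+1) := Finset.sum_nonneg fun x _ => pow_nonneg (hF0 x) _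
      have h7 : (1:ℝ) ≤ (2*K) ^ (n+1) := one_le_pow₀ (by linarith)
      nlinarith
    | succ i ih =>
      intro r hr
      have hnext := ih (r+1) (by omega)
      -- one step
      have hstep : ∑ x, (G r (R+1) x) ^ (n+1) ≤ K * ∑ x, (G (r+1) (R+1) x) ^ n * F x := by
        have h1 : ∑ x, (G r (R+1) x) ^ (n+1) = ∑ j ∈ range (R+1), ∑ x, ((G r (j+1) x) ^ (n+1) - (G r j x) ^ (n+1)) := by
          rw [Finset.sum_comm]
          refine Finset.sum_congr rfl fun x _ => ?_
          rw [Finset.sum_range_sub (fun j => (G r j x) ^ (n+1))]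
          have : G r 0 x = 0 := by rw [hG]; simp
          rw [this]; simp
        have h2 : ∀ j ∈ range (R+1), ∑ x, ((G r (j+1) x) ^ (n+1) - (G r j x) ^ (n+1)) ≤
            K * ∑ x, (G (r+1) (R+1) x) ^ n * f j x := by
          intro j hj
          have hjR : j ≤ R := by have := Finset.mem_range.1 hj; omega
          calc ∑ x, ((G r (j+1) x) ^ (n+1) - (G r j x) ^ (n+1))
              ≤ ∑ x, (n+1) * (V.B (j - r) (f j) x * (G r (j+1) x) ^ n) := by
                refine Finset.sum_le_sum fun x _ => ?_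
                have h3 : G r j x ≤ G r (j+1) x := by
                  rw [hGs]; have := V.B_nonneg (j - r) (hf j) x; linarith
                refine (pow_sub_le n (hG0 r j x) h3).trans (le_of_eq ?_)
                rw [hGs]; ring
            _ = (n+1) * ∑ x, f j x * V.B (j - r) (fun y => (G r (j+1) y) ^ n) x := by
                rw [← Finset.mul_sum, V.B_adj (j - r) (f j) (fun y => (G r (j+1) y) ^ n)]
            _ ≤ (n+1) * ∑ x, f j x * (3 * (2 * G (r+1) (R+1) x) ^ n) := by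
                apply mul_le_mul_of_nonneg_left _ (by positivity)
                refine Finset.sum_le_sum fun x _ => ?_
                apply mul_le_mul_of_nonneg_left _ (hf j x)
                apply V.B_const _ (by omega) (pow_nonneg (mul_nonneg (by norm_num) (hG0 _ _ x)) n)
                intro y hy
                apply pow_le_pow_left₀ (hG0 r (j+1) y)
                calc G r (j+1) y ≤ 2 * G (r+1) (j+1) x := by
                      rw [hG]
                      simp only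
                      rw [Finset.mul_sum]
                      refine Finset.sum_le_sum fun l hl => ?_
                      have hlj : l ≤ j := by have := Finset.mem_range.1 hl; omega
                      exact V.B_shift r l (hf l) x y (hy.trans (sc_anti (by omega)))
                  _ ≤ 2 * G (r+1) (R+1) x := by
                      have := hGmono (r+1) (j+1) (by omega) x
                      linarith
            _ = _ := by
                rw [hK, Finset.mul_sum, Finset.mul_sum]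
                refine Finset.sum_congr rfl fun x _ => ?_
                rw [mul_pow]; ring
        rw [h1]
        refine (Finset.sum_le_sum h2).trans (le_of_eq ?_)
        rw [← Finset.mul_sum, Finset.sum_comm, hF]
        congr 1
        refine Finset.sum_congr rfl fun x _ => ?_
        simp only
        rw [Finset.mul_sum]
      have hY : ∑ x, (G (r+1) (R+1) x) ^ n * F x ≤ (∑ x, (G (r+1) (R+1) x) ^ (n+1)) / (2*K) +
          (2*K) ^ n * ∑ x, (F x) ^ (n+1) := by
        rw [Finset.sum_div, Finset.mul_sum, ← Finset.sum_add_distrib]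
        exact Finset.sum_le_sum fun x _ => young n (by linarith) (hG0 _ _ x) (hF0 x)
      have hK0 : 0 < K := by linarith
      calc ∑ x, (G r (R+1) x) ^ (n+1) ≤ K * ((∑ x, (G (r+1) (R+1) x) ^ (n+1)) / (2*K) +
          (2*K) ^ n * ∑ x, (F x) ^ (n+1)) := hstep.trans (mul_le_mul_of_nonneg_left hY hK0.le)
        _ ≤ K * (((2*K) ^ (n+1) * ∑ x, (F x) ^ (n+1)) / (2*K) + (2*K) ^ n * ∑ x, (F x) ^ (n+1)) := by
            gcongr
        _ = _ := by rw [pow_succ]; field_simp; ring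
  have := goal R r (by omega)
  rw [hG, hF] at this
  exact this

/-! kernels with polynomial decay -/

/-- the majorant of scale `n` -/
noncomputable def pk (δ : ℝ) (n : ℕ) (z : Z) : ℝ := (1 + V.ν z / sc M n) ^ (-(1 + δ)) / sc M n

theorem pk_pos (δ : ℝ) (n : ℕ) (z : Z) : 0 < V.pk δ n z := by
  unfold pk
  have := sc_pos M n
  positivity

theorem pk_le (δ : ℝ) (hδ : 0 ≤ δ) (n : ℕ) (z : Z) : V.pk δ n z ≤
    2 ^ (1 + δ) * ∑ i ∈ range (n+1), (2:ℝ) ^ (-(δ * i)) *
      ((if (V.ν z : ℝ) ≤ sc M (n - i) then 1 else 0) / sc M (n - i)) := by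
  classical
  have hex : ∃ i, i ≤ n ∧ (V.ν z : ℝ) ≤ sc M (n - i) := by
    refine ⟨n, le_rfl, ?_⟩
    rw [Nat.sub_self, sc_zero]; exact_mod_cast V.bd z
  have hterm : ∀ i ∈ range (n+1), 0 ≤ (2:ℝ) ^ (-(δ * i)) *
      ((if (V.ν z : ℝ) ≤ sc M (n - i) then (1:ℝ) else 0) / sc M (n - i)) := by
    intro i _
    have := sc_pos M (n - i)
    split_ifs <;> positivity
  obtain ⟨i, hi⟩ : ∃ i, i = Nat.find hex := ⟨_, rfl⟩
  have hin : i ≤ n := by rw [hi]; exact (Nat.find_spec hex).1
  have hiv : (V.ν z : ℝ) ≤ sc M (n - i) := by rw [hi]; exact (Nat.find_spec hex).2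
  have hone := Finset.single_le_sum hterm (Finset.mem_range.2 (Nat.lt_succ_of_le hin))
  rw [if_pos hiv] at hone
  refine le_trans ?_ (mul_le_mul_of_nonneg_left hone (by positivity))
  have hsn := sc_pos M n
  have hsi : sc M (n - i) = 2 ^ i * sc M n := by
    have := sc_add M (n - i) i
    rwa [Nat.sub_add_cancel hin] at this
  have hge1 : (1:ℝ) ≤ 1 + V.ν z / sc M n := by
    have : 0 ≤ (V.ν z : ℝ) / sc M n := by positivity
    linarith
  rcases Nat.eq_zero_or_pos i with h0 | h0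
  · rw [h0]
    simp only [Nat.cast_zero, mul_zero, neg_zero, Real.rpow_zero, one_mul, Nat.sub_zero]
    unfold pk
    have h1 : (1 + V.ν z / sc M n) ^ (-(1 + δ)) ≤ 1 :=
      Real.rpow_le_one_of_one_le_of_nonpos hge1 (by linarith)
    have h2 : (1:ℝ) ≤ 2 ^ (1 + δ) := Real.one_le_rpow (by norm_num) (by linarith)
    calc (1 + V.ν z / sc M n) ^ (-(1 + δ)) / sc M n ≤ 1 / sc M n := by gcongr
      _ ≤ 2 ^ (1 + δ) * (1 / sc M n) := by
        have : 0 ≤ 1 / sc M n := by positivity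
        nlinarith
  · have hlt : sc M (n - (i-1)) < V.ν z := by
      by_contra hcon
      have := Nat.find_min hex (m := i - 1) (by omega)
      exact this ⟨by omega, not_lt.1 hcon⟩
    have hsi' : sc M (n - (i-1)) = 2 ^ (i-1) * sc M n := by
      have := sc_add M (n - (i-1)) (i-1)
      rwa [Nat.sub_add_cancel (by omega)] at this
    have h1 : (2:ℝ) ^ (i-1) ≤ 1 + V.ν z / sc M n := by
      have : (2:ℝ) ^ (i-1) ≤ V.ν z / sc M n := by
        rw [le_div_iff₀ hsn, ← hsi']; exact hlt.le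
      linarith
    unfold pk
    have h2 : (1 + V.ν z / sc M n) ^ (-(1 + δ)) ≤ ((2:ℝ) ^ (i-1)) ^ (-(1 + δ)) :=
      Real.rpow_le_rpow_of_nonpos (by positivity) h1 (by linarith)
    have h3 : ((2:ℝ) ^ (i-1)) ^ (-(1 + δ)) = 2 ^ (1 + δ) * ((2:ℝ) ^ (-(δ * i)) * (1 / 2 ^ i)) := by
      rw [← Real.rpow_natCast 2 (i-1), ← Real.rpow_mul (by norm_num), ← Real.rpow_natCast 2 i,
        one_div, ← Real.rpow_neg (by norm_num), ← Real.rpow_add (by norm_num), ← Real.rpow_add (by norm_num)]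
      congr 1
      rw [Nat.cast_sub h0]; push_cast; ring
    rw [h3] at h2
    rw [hsi]
    calc (1 + V.ν z / sc M n) ^ (-(1 + δ)) / sc M n
        ≤ (2 ^ (1 + δ) * ((2:ℝ) ^ (-(δ * i)) * (1 / 2 ^ i))) / sc M n := by gcongr
      _ = _ := by field_simp

/-- sum of a geometric series -/
theorem geo_le {δ : ℝ} (hδ : 0 < δ) (n : ℕ) : ∑ i ∈ range n, (2:ℝ) ^ (-(δ * i)) ≤ (1 - (2:ℝ)^(-δ))⁻¹ := by
  have h0 : (0:ℝ) < (2:ℝ)^(-δ) := by positivity
  have h1 : (2:ℝ)^(-δ) < 1 := Real.rpow_lt_one_of_one_lt_of_neg (by norm_num) (by linarith)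
  have h2 : ∀ i : ℕ, (2:ℝ) ^ (-(δ * i)) = ((2:ℝ)^(-δ))^i := by
    intro i
    rw [← Real.rpow_natCast, ← Real.rpow_mul (by norm_num)]
    congr 1; ring
  simp only [h2]
  rw [← tsum_geometric_of_lt_one h0.le h1]
  exact (summable_geometric_of_lt_one h0.le h1).sum_le_tsum _ (fun i _ => by positivity)

noncomputable def geoC (δ : ℝ) : ℝ := (1 - (2:ℝ)^(-δ))⁻¹

theorem geoC_pos {δ : ℝ} (hδ : 0 < δ) : 0 < geoC δ := by
  unfold geoC
  have h1 : (2:ℝ)^(-δ) < 1 := Real.rpow_lt_one_of_one_lt_of_neg (by norm_num) (by linarith)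
  apply inv_pos.2; linarith

theorem pk_sum (δ : ℝ) (hδ : 0 < δ) (n : ℕ) (hn : n ≤ M) :
    ∑ z, V.pk δ n z ≤ 2 ^ (1 + δ) * (geoC δ * 3) := by
  calc ∑ z, V.pk δ n z ≤ ∑ z, 2 ^ (1 + δ) * ∑ i ∈ range (n+1), (2:ℝ) ^ (-(δ * i)) *
      ((if (V.ν z : ℝ) ≤ sc M (n - i) then 1 else 0) / sc M (n - i)) :=
        Finset.sum_le_sum fun z _ => V.pk_le δ hδ.le n z
    _ = 2 ^ (1 + δ) * ∑ i ∈ range (n+1), (2:ℝ) ^ (-(δ * i)) *
      ((((univ.filter fun z => (V.ν z : ℝ) ≤ sc M (n-i)).card : ℕ) : ℝ) / sc M (n - i)) := by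
        rw [← Finset.mul_sum, Finset.sum_comm]
        congr 1
        refine Finset.sum_congr rfl fun i _ => ?_
        rw [← Finset.mul_sum, ← Finset.sum_div]
        congr 2
        rw [← Finset.sum_filter]; simp
    _ ≤ 2 ^ (1 + δ) * ∑ i ∈ range (n+1), (2:ℝ) ^ (-(δ * i)) * 3 := by
        apply mul_le_mul_of_nonneg_left _ (by positivity)
        refine Finset.sum_le_sum fun i _ => ?_
        apply mul_le_mul_of_nonneg_left _ (by positivity)
        rw [div_le_iff₀ (sc_pos M _)]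
        exact V.card_real (sc_one (by omega))
    _ ≤ _ := by
        rw [← Finset.sum_mul]
        have := geo_le hδ (n+1)
        unfold geoC
        gcongr

/-- convolution with the majorant -/
noncomputable def P (δ : ℝ) (n : ℕ) (f : Z → ℝ) (x : Z) : ℝ := ∑ y, V.pk δ n (x - y) * f y

theorem P_nonneg (δ : ℝ) (n : ℕ) {f : Z → ℝ} (hf : ∀ x, 0 ≤ f x) (x : Z) : 0 ≤ V.P δ n f x :=
  Finset.sum_nonneg fun y _ => mul_nonneg (V.pk_pos δ n _).le (hf y)

theorem P_le (δ : ℝ) (hδ : 0 ≤ δ) (n : ℕ) {f : Z → ℝ} (hf : ∀ x, 0 ≤ f x) (x : Z) :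
    V.P δ n f x ≤ 2 ^ (1 + δ) * ∑ i ∈ range (n+1), (2:ℝ) ^ (-(δ * i)) * V.B (n - i) f x := by
  unfold P B
  calc ∑ y, V.pk δ n (x - y) * f y ≤ ∑ y, (2 ^ (1 + δ) * ∑ i ∈ range (n+1), (2:ℝ) ^ (-(δ * i)) *
      ((if (V.ν (x - y) : ℝ) ≤ sc M (n - i) then 1 else 0) / sc M (n - i))) * f y :=
        Finset.sum_le_sum fun y _ => mul_le_mul_of_nonneg_right (V.pk_le δ hδ n _) (hf y)
    _ = _ := by
        simp only [mul_assoc, Finset.sum_mul, ← Finset.mul_sum]
        congr 1
        rw [Finset.sum_comm]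
        refine Finset.sum_congr rfl fun i _ => ?_
        rw [← Finset.mul_sum]
        congr 1
        rw [Finset.sum_div]
        refine Finset.sum_congr rfl fun y _ => ?_
        split_ifs
        · ring
        · simp

end Nrm

end H396C
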