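import Pool.Agent.H396R3.C.Four

/-! The univariate Bernoulli kernel. -/

set_option autoImplicit false

open Finset MeasureTheory Filter Topology

namespace H396C

/-- partial sums of the Bernoulli kernel -/
noncomputable def bernPart (r : ℝ) (N : ℕ) (t : ℝ) : ℝ :=
  1 + 2 * ∑ k ∈ range N, ((k:ℝ) + 1) ^ (-r) * Real.cos (((k:ℝ) + 1) * t - r * Real.pi / 2)

/-- the Bernoulli kernel, the limit of the partial sums of its trigonometric series -/
noncomputable def bern (r t : ℝ) : ℝ := limUnder atTop (fun N => bernPart r N t)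

theorem bernPart_per (r : ℝ) (N : ℕ) (t : ℝ) : bernPart r N (t + 2 * Real.pi) = bernPart r N t := by
  unfold bernPart
  congr 2
  refine Finset.sum_congr rfl fun k _ => ?_
  congr 1
  have : ((k:ℝ) + 1) * (t + 2 * Real.pi) - r * Real.pi / 2 = (((k:ℝ) + 1) * t - r * Real.pi / 2) + ((k+1 : ℕ):ℝ) * (2 * Real.pi) := by
    push_cast; ring
  rw [this, Real.cos_add_nat_mul_two_pi]

theorem bern_per (r t : ℝ) : bern r (t + 2 * Real.pi) = bern r t := by
  unfold bern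
  simp only [bernPart_per]

/-- complex partial sums -/
noncomputable def SN (r : ℝ) (z : ℂ) (N : ℕ) : ℂ := ∑ k ∈ range N, ((((k:ℝ) + 1) ^ (-r) : ℝ) : ℂ) * z ^ (k+1)

theorem bernPart_eq (r : ℝ) (N : ℕ) (s : ℝ) :
    bernPart r N (2 * Real.pi * s) = 1 + 2 * (Complex.exp (-(r * Real.pi / 2 * Complex.I)) * SN r (Complex.exp (2 * Real.pi * s * Complex.I)) N).re := by
  unfold bernPart SN
  congr 2
  rw [Finset.mul_sum, Complex.re_sum]
  refine Finset.sum_congr rfl fun k _ => ?_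
  rw [mul_left_comm (Complex.exp (-(r * Real.pi / 2 * Complex.I))), Complex.re_ofReal_mul, ← Complex.exp_nat_mul, ← Complex.exp_add]
  have : (-(r * Real.pi / 2 * Complex.I) + ((k+1 : ℕ) : ℂ) * (2 * Real.pi * s * Complex.I) : ℂ) =
      (((((k:ℝ) + 1) * (2 * Real.pi * s) - r * Real.pi / 2 : ℝ)) : ℂ) * Complex.I := by push_cast; ring
  rw [this, Complex.exp_ofReal_mul_I_re]

/-- Abel summation -/
theorem abel (f : ℕ → ℝ) (hf0 : ∀ k, 0 ≤ f k) (hf : Antitone f) {z : ℂ} (hz : ‖z‖ = 1) (a n : ℕ) :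
    ‖(1 - z) * ∑ k ∈ range n, (f (a+k) : ℂ) * z ^ (a+k+1)‖ ≤ 2 * f a := by
  have h1 : ∀ n, ‖(1 - z) * ∑ k ∈ range n, (f (a+k) : ℂ) * z ^ (a+k+1) + (f (a+n) : ℂ) * z ^ (a+n+1)‖ ≤ 2 * f a - f (a+n) := by
    intro n
    induction n with
    | zero =>
      simp only [Finset.range_zero, Finset.sum_empty, mul_zero, zero_add, add_zero]
      rw [norm_mul, norm_pow, hz, one_pow, mul_one, Complex.norm_real, Real.norm_eq_abs, abs_of_nonneg (hf0 a)]
      linarith
    | succ n ih =>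
      rw [Finset.sum_range_succ]
      have e : (1 - z) * (∑ k ∈ range n, (f (a+k) : ℂ) * z ^ (a+k+1) + (f (a+n) : ℂ) * z ^ (a+n+1)) + (f (a+(n+1)) : ℂ) * z ^ (a+(n+1)+1) =
        ((1 - z) * ∑ k ∈ range n, (f (a+k) : ℂ) * z ^ (a+k+1) + (f (a+n) : ℂ) * z ^ (a+n+1)) - ((f (a+n) - f (a+(n+1)) : ℝ) : ℂ) * z ^ (a+n+2) := by
        push_cast; ring
      rw [e]
      refine (norm_sub_le _ _).trans ?_
      have h2 : f (a+(n+1)) ≤ f (a+n) := hf (by omega)
      rw [norm_mul, norm_pow, hz, one_pow, mul_one, Complex.norm_real, Real.norm_eq_abs, abs_of_nonneg (by linarith : 0 ≤ f (a+n) - f (a+(n+1)))]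
      linarith
  have h2 := h1 n
  have h3 : ‖(f (a+n) : ℂ) * z ^ (a+n+1)‖ = f (a+n) := by
    rw [norm_mul, norm_pow, hz, one_pow, mul_one, Complex.norm_real, Real.norm_eq_abs, abs_of_nonneg (hf0 _)]
  have h4 := norm_sub_le ((1 - z) * ∑ k ∈ range n, (f (a+k) : ℂ) * z ^ (a+k+1) + (f (a+n) : ℂ) * z ^ (a+n+1)) ((f (a+n) : ℂ) * z ^ (a+n+1))
  rw [add_sub_cancel_right, h3] at h4
  linarith

theorem pow_anti {r : ℝ} (hr0 : 0 < r) : Antitone (fun k : ℕ => ((k:ℝ) + 1) ^ (-r)) := by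
  intro a b hab
  apply Real.rpow_le_rpow_of_nonpos (by positivity) _ (by linarith)
  have : (a:ℝ) ≤ b := by exact_mod_cast hab
  linarith

theorem sum_pow_le {r : ℝ} (hr0 : 0 < r) (hr1 : r < 1) (K : ℕ) :
    ∑ k ∈ range K, ((k:ℝ) + 1) ^ (-r) ≤ (K:ℝ) ^ (1 - r) / (1 - r) := by
  induction K with
  | zero => simp [Real.zero_rpow (by linarith : 1 - r ≠ 0)]
  | succ K ih =>
    rw [Finset.sum_range_succ]
    have h1r : 0 < 1 - r := by linarith
    have hd2 : ∀ x : ℝ, 0 < x → HasDerivAt (fun x : ℝ => x ^ (1 - r)) ((1 - r) * x ^ (1 - r - 1)) x := fun x hx =>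
      Real.hasDerivAt_rpow_const (Or.inl hx.ne')
    have hcont : ContinuousOn (fun x : ℝ => x ^ (1 - r)) (Set.Icc (K:ℝ) (K + 1)) :=
      (continuous_id.rpow_const (fun _ => Or.inr h1r.le)).continuousOn
    obtain ⟨c, hc, hceq⟩ := exists_hasDerivAt_eq_slope (fun x : ℝ => x ^ (1 - r)) (fun x => (1 - r) * x ^ (1 - r - 1))
      (show (K:ℝ) < K + 1 by linarith) hcont
      (fun x hx => hd2 x (by have := hx.1; have : (0:ℝ) ≤ K := Nat.cast_nonneg K; linarith))
    have hc0 : 0 < c := by have := hc.1; have : (0:ℝ) ≤ K := Nat.cast_nonneg K; linarith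
    have h2 : ((K:ℝ) + 1) ^ (-r) ≤ c ^ (1 - r - 1) := by
      rw [show 1 - r - 1 = -r by ring]
      exact Real.rpow_le_rpow_of_nonpos hc0 hc.2.le (by linarith)
    have h3 : (1 - r) * c ^ (1 - r - 1) = ((K:ℝ) + 1) ^ (1 - r) - (K:ℝ) ^ (1 - r) := by
      rw [hceq]; simp
    have h4 : ((K:ℝ) + 1) ^ (-r) ≤ (((K:ℝ) + 1) ^ (1 - r) - (K:ℝ) ^ (1 - r)) / (1 - r) := by
      rw [le_div_iff₀ h1r, ← h3, mul_comm]
      exact mul_le_mul_of_nonneg_left h2 h1r.le
    rw [sub_div] at h4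
    push_cast
    linarith

theorem SN_bound {r : ℝ} (hr0 : 0 < r) (hr1 : r < 1) {z : ℂ} (hz : ‖z‖ = 1) {x : ℝ} (hx0 : 0 < x)
    (hx : 4 * x ≤ ‖1 - z‖) (N : ℕ) : ‖SN r z N‖ ≤ (1 / (1 - r) + 1) * x ^ (r - 1) := by
  have h1r : 0 < 1 - r := by linarith
  obtain ⟨K0, hK0⟩ : ∃ K0, K0 = ⌊1 / x⌋₊ := ⟨_, rfl⟩
  have hK0x : (K0:ℝ) ≤ 1 / x := by rw [hK0]; exact Nat.floor_le (by positivity)
  have hxK0 : 1 / x < (K0:ℝ) + 1 := by rw [hK0]; exact Nat.lt_floor_add_one _
  have hhead : ∀ K ≤ K0, ‖SN r z K‖ ≤ 1 / (1 - r) * x ^ (r - 1) := by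
    intro K hK
    unfold SN
    refine (norm_sum_le _ _).trans ?_
    have h1 : ∀ k ∈ range K, ‖((((k:ℝ) + 1) ^ (-r) : ℝ) : ℂ) * z ^ (k+1)‖ = ((k:ℝ) + 1) ^ (-r) := by
      intro k _
      rw [norm_mul, norm_pow, hz, one_pow, mul_one, Complex.norm_real, Real.norm_eq_abs, abs_of_nonneg (by positivity)]
    rw [Finset.sum_congr rfl h1]
    refine (sum_pow_le hr0 hr1 K).trans ?_
    have h2 : (K:ℝ) ^ (1 - r) ≤ x ^ (r - 1) := by
      have h3 : (K:ℝ) ≤ x⁻¹ := by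
        have : (K:ℝ) ≤ K0 := by exact_mod_cast hK
        rw [one_div] at hK0x; linarith
      calc (K:ℝ) ^ (1 - r) ≤ (x⁻¹) ^ (1 - r) := Real.rpow_le_rpow (by positivity) h3 h1r.le
        _ = x ^ (r - 1) := by
          rw [Real.inv_rpow hx0.le, ← Real.rpow_neg hx0.le]; congr 1; ring
    rw [div_mul_eq_mul_div, one_mul]
    exact div_le_div_of_nonneg_right h2 h1r.le
  have hxp : 0 < x ^ (r - 1) := by positivity
  rcases le_or_gt N K0 with hN | hN
  · have := hhead N hN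
    linarith
  · obtain ⟨n, rfl⟩ : ∃ n, N = K0 + n := ⟨N - K0, by omega⟩
    have hsplit : SN r z (K0 + n) = SN r z K0 + ∑ k ∈ range n, (((((K0 + k : ℕ):ℝ) + 1) ^ (-r) : ℝ) : ℂ) * z ^ (K0+k+1) := by
      unfold SN
      rw [Finset.sum_range_add]
    have htail : ‖∑ k ∈ range n, (((((K0 + k : ℕ):ℝ) + 1) ^ (-r) : ℝ) : ℂ) * z ^ (K0+k+1)‖ ≤ x ^ (r - 1) := by
      have h1 := abel (fun k : ℕ => ((k:ℝ) + 1) ^ (-r)) (fun k => by positivity) (pow_anti hr0) hz K0 n
      rw [norm_mul] at h1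
      have h2 : ((K0:ℝ) + 1) ^ (-r) ≤ x ^ r := by
        calc ((K0:ℝ) + 1) ^ (-r) ≤ (1 / x) ^ (-r) := Real.rpow_le_rpow_of_nonpos (by positivity) hxK0.le (by linarith)
          _ = x ^ r := by rw [one_div, Real.inv_rpow hx0.le, Real.rpow_neg hx0.le, inv_inv]
      have h3 : x ^ r = x * x ^ (r - 1) := by
        rw [Real.rpow_sub_one hx0.ne']; field_simp
      obtain ⟨S, hS⟩ : ∃ S : ℝ, S = ‖∑ k ∈ range n, (((((K0 + k : ℕ):ℝ) + 1) ^ (-r) : ℝ) : ℂ) * z ^ (K0+k+1)‖ := ⟨_, rfl⟩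
      rw [← hS] at h1 ⊢
      have hS0 : 0 ≤ S := by rw [hS]; exact norm_nonneg _
      have h4 : 4 * x * S ≤ 2 * (x * x ^ (r - 1)) := by
        calc 4 * x * S ≤ ‖1 - z‖ * S := mul_le_mul_of_nonneg_right hx hS0
          _ ≤ 2 * ((K0:ℝ) + 1) ^ (-r) := h1
          _ ≤ _ := by rw [← h3]; linarith
      have h5 : x * (4 * S) ≤ x * (2 * x ^ (r - 1)) := by linarith
      have h6 := le_of_mul_le_mul_left h5 hx0
      linarith
    rw [hsplit]
    refine (norm_add_le _ _).trans ?_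
    have := hhead K0 le_rfl
    linarith

theorem SN_cauchy {r : ℝ} (hr0 : 0 < r) {z : ℂ} (hz : ‖z‖ = 1) (hz1 : z ≠ 1) : CauchySeq (SN r z) := by
  have hpos : 0 < ‖1 - z‖ := norm_pos_iff.2 (sub_ne_zero.2 (Ne.symm hz1))
  refine cauchySeq_of_le_tendsto_0' (fun n => 2 * ((n:ℝ) + 1) ^ (-r) / ‖1 - z‖) ?_ ?_
  · intro a b hab
    obtain ⟨n, rfl⟩ : ∃ n, b = a + n := ⟨b - a, by omega⟩
    have hsplit : SN r z (a + n) = SN r z a + ∑ k ∈ range n, (((((a + k : ℕ):ℝ) + 1) ^ (-r) : ℝ) : ℂ) * z ^ (a+k+1) := by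
      unfold SN
      rw [Finset.sum_range_add]
    rw [hsplit, dist_eq_norm, sub_add_cancel_left, norm_neg, le_div_iff₀ hpos, mul_comm, ← norm_mul]
    exact abel (fun k : ℕ => ((k:ℝ) + 1) ^ (-r)) (fun k => by positivity) (pow_anti hr0) hz a n
  · have h1 : Tendsto (fun n : ℕ => ((n:ℝ) + 1) ^ (-r)) atTop (𝓝 0) := by
      have h2 : Tendsto (fun n : ℕ => (n:ℝ) + 1) atTop atTop :=
        tendsto_atTop_add_const_right _ _ tendsto_natCast_atTop_atTop
      exact (tendsto_rpow_neg_atTop hr0).comp h2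
    have h2 := (h1.const_mul 2).div_const ‖1 - z‖
    simpa using h2

/-- convergence of the partial sums -/
theorem bern_tendsto {r : ℝ} (hr0 : 0 < r) {s : ℝ} (hs : Complex.exp (2 * Real.pi * s * Complex.I) ≠ 1) :
    Tendsto (fun N => bernPart r N (2 * Real.pi * s)) atTop (𝓝 (bern r (2 * Real.pi * s))) := by
  have hz : ‖Complex.exp (2 * Real.pi * s * Complex.I)‖ = 1 := by
    have : (2 * Real.pi * s * Complex.I : ℂ) = ((2 * Real.pi * s : ℝ) : ℂ) * Complex.I := by push_cast; ring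
    rw [this, Complex.norm_exp_ofReal_mul_I]
  obtain ⟨L, hL⟩ := cauchySeq_tendsto_of_complete (SN_cauchy hr0 hz hs)
  have h1 : Tendsto (fun N => bernPart r N (2 * Real.pi * s)) atTop
      (𝓝 (1 + 2 * (Complex.exp (-(r * Real.pi / 2 * Complex.I)) * L).re)) := by
    simp only [bernPart_eq]
    apply Tendsto.const_add
    apply Tendsto.const_mul
    exact (Complex.continuous_re.tendsto _).comp (hL.const_mul _)
  exact tendsto_nhds_limUnder ⟨_, h1⟩

/-- lower bound for the distance to one -/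
theorem one_sub_exp {s : ℝ} (hs0 : 0 ≤ s) (hs1 : s ≤ 1) : 4 * min s (1 - s) ≤ ‖1 - Complex.exp (2 * Real.pi * s * Complex.I)‖ := by
  have h1 : ‖1 - Complex.exp (2 * Real.pi * s * Complex.I)‖ = 2 * Real.sin (Real.pi * s) := by
    rw [← norm_neg, neg_sub]
    have h2 : (2 * Real.pi * s * Complex.I : ℂ) = Complex.I * ((2 * Real.pi * s : ℝ) : ℂ) := by push_cast; ring
    rw [h2, Complex.norm_exp_I_mul_ofReal_sub_one, Real.norm_eq_abs, abs_of_nonneg]
    · congr 2; ring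
    · rw [show 2 * Real.pi * s / 2 = Real.pi * s by ring]
      have := Real.sin_nonneg_of_nonneg_of_le_pi (x := Real.pi * s) (by have := Real.pi_pos; positivity) (by nlinarith [Real.pi_pos])
      linarith
  rw [h1]
  have hπ := Real.pi_pos
  rcases le_total s (1/2) with h | h
  · rw [min_eq_left (by linarith)]
    have h2 := Real.mul_le_sin (x := Real.pi * s) (by positivity) (by nlinarith)
    have h3 : 2 / Real.pi * (Real.pi * s) = 2 * s := by field_simp
    linarith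
  · rw [min_eq_right (by linarith)]
    have h2 := Real.mul_le_sin (x := Real.pi * (1 - s)) (mul_nonneg hπ.le (by linarith)) (by nlinarith)
    have h3 : 2 / Real.pi * (Real.pi * (1 - s)) = 2 * (1 - s) := by field_simp
    have h4 : Real.sin (Real.pi * (1 - s)) = Real.sin (Real.pi * s) := by
      rw [show Real.pi * (1 - s) = Real.pi - Real.pi * s by ring, Real.sin_pi_sub]
    rw [h4] at h2
    linarith

/-- the integrable majorant -/
noncomputable def maj (r s : ℝ) : ℝ := 1 + 2 * ((1 / (1 - r) + 1) * (s ^ (r - 1) + (1 - s) ^ (r - 1)))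

theorem bernPart_maj {r : ℝ} (hr0 : 0 < r) (hr1 : r < 1) {s : ℝ} (hs0 : 0 < s) (hs1 : s < 1) (N : ℕ) :
    |bernPart r N (2 * Real.pi * s)| ≤ maj r s := by
  have hz : ‖Complex.exp (2 * Real.pi * s * Complex.I)‖ = 1 := by
    have : (2 * Real.pi * s * Complex.I : ℂ) = ((2 * Real.pi * s : ℝ) : ℂ) * Complex.I := by push_cast; ring
    rw [this, Complex.norm_exp_ofReal_mul_I]
  have hm : 0 < min s (1 - s) := lt_min hs0 (by linarith)
  have h1 := SN_bound hr0 hr1 hz hm (one_sub_exp hs0.le hs1.le) N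
  have h2 : (min s (1 - s)) ^ (r - 1) ≤ s ^ (r - 1) + (1 - s) ^ (r - 1) := by
    have a1 : 0 ≤ s ^ (r - 1) := by positivity
    have a2 : 0 ≤ (1 - s) ^ (r - 1) := Real.rpow_nonneg (by linarith) _
    rcases min_choice s (1 - s) with h | h <;> rw [h] <;> linarith
  have h1r : 0 < 1 / (1 - r) + 1 := by
    have : 0 < 1 - r := by linarith
    positivity
  rw [bernPart_eq]
  unfold maj
  have h3 : |(Complex.exp (-(r * Real.pi / 2 * Complex.I)) * SN r (Complex.exp (2 * Real.pi * s * Complex.I)) N).re| ≤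
      (1 / (1 - r) + 1) * (s ^ (r - 1) + (1 - s) ^ (r - 1)) := by
    refine (Complex.abs_re_le_norm _).trans ?_
    rw [norm_mul]
    have h4 : ‖Complex.exp (-(r * Real.pi / 2 * Complex.I))‖ = 1 := by
      have : (-(r * Real.pi / 2 * Complex.I) : ℂ) = ((-(r * Real.pi / 2) : ℝ) : ℂ) * Complex.I := by push_cast; ring
      rw [this, Complex.norm_exp_ofReal_mul_I]
    rw [h4, one_mul]
    exact h1.trans (mul_le_mul_of_nonneg_left h2 h1r.le)
  rw [abs_le] at h3 ⊢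
  constructor <;> linarith [h3.1, h3.2]

theorem maj_int {r : ℝ} (hr0 : 0 < r) : IntervalIntegrable (maj r) volume 0 1 := by
  have h1 : IntervalIntegrable (fun s : ℝ => s ^ (r - 1)) volume 0 1 := intervalIntegral.intervalIntegrable_rpow' (by linarith)
  have h2 : IntervalIntegrable (fun s : ℝ => (1 - s) ^ (r - 1)) volume 0 1 := by
    have h3 := h1.comp_sub_left 1
    simp only [sub_zero, sub_self] at h3
    exact h3.symm
  unfold maj
  exact intervalIntegrable_const.add (((h1.add h2).const_mul _).const_mul 2)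

theorem exp_ne_one {s : ℝ} (hs0 : 0 < s) (hs1 : s < 1) : Complex.exp (2 * Real.pi * s * Complex.I) ≠ 1 := by
  intro h
  have h1 := one_sub_exp hs0.le hs1.le
  rw [h, sub_self, norm_zero] at h1
  have : 0 < min s (1 - s) := lt_min hs0 (by linarith)
  linarith

end H396C
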