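import Pool.Agent.H396R3.C.Ref

/-! The main discrete inequality. -/

set_option autoImplicit false

open Finset

namespace H396C

/-- normalised kernels -/
noncomputable def an {M : ℕ} (r : ℝ) (κ : ℕ → Zm M → ℤ → ℝ) (n : ℕ) (x y : Zm M) : ℝ :=
  (2:ℝ) ^ (-(r * n)) * km κ n x y

/-- weight of an index above `m` -/
noncomputable def wgt (r : ℝ) {d : ℕ} (m s : Fin d → ℕ) : ℝ :=
  if ∀ i, m i ≤ s i then (2:ℝ) ^ (-(r * ((∑ i, (s i : ℝ)) - ∑ i, (m i : ℝ)))) else 0

theorem wgt_nonneg (r : ℝ) {d : ℕ} (m s : Fin d → ℕ) : 0 ≤ wgt r m s := by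
  unfold wgt; split_ifs <;> positivity

theorem wgt_prod (r : ℝ) {d : ℕ} (m s : Fin d → ℕ) :
    wgt r m s = ∏ i, (if m i ≤ s i then (2:ℝ) ^ (-(r * ((s i - m i : ℕ) : ℝ))) else 0) := by
  unfold wgt
  by_cases h : ∀ i, m i ≤ s i
  · rw [if_pos h]
    have h1 : ∀ i ∈ (univ : Finset (Fin d)), (if m i ≤ s i then (2:ℝ) ^ (-(r * ((s i - m i : ℕ) : ℝ))) else 0) =
        (2:ℝ) ^ (-(r * ((s i : ℝ) - m i))) := by
      intro i _
      rw [if_pos (h i), Nat.cast_sub (h i)]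
    rw [Finset.prod_congr rfl h1, ← Real.rpow_sum_of_pos (by norm_num)]
    congr 1
    rw [Finset.sum_neg_distrib, ← Finset.mul_sum, Finset.sum_sub_distrib]
  · rw [if_neg h]
    push Not at h
    obtain ⟨i, hi⟩ := h
    symm
    apply Finset.prod_eq_zero (Finset.mem_univ i)
    rw [if_neg (by omega)]

theorem wgt_sum {r : ℝ} (hr : 0 < r) {d : ℕ} (R : ℕ) (m : Fin d → ℕ) :
    ∑ s ∈ box d R, wgt r m s ≤ (Nrm.geoC r) ^ d := by
  simp only [wgt_prod]
  unfold box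
  rw [← Finset.prod_univ_sum (t := fun _ : Fin d => range (R+1)) (f := fun i n => if m i ≤ n then (2:ℝ) ^ (-(r * ((n - m i : ℕ) : ℝ))) else 0)]
  have h1 : ∀ i ∈ (univ : Finset (Fin d)), ∑ n ∈ range (R+1), (if m i ≤ n then (2:ℝ) ^ (-(r * ((n - m i : ℕ) : ℝ))) else 0) ≤ Nrm.geoC r := by
    intro i _
    rw [← Finset.sum_filter]
    refine (inj_sum _ (range (R+1)) (fun n => n - m i) (fun j => (2:ℝ) ^ (-(r * (j:ℝ)))) (fun _ _ => by positivity)
      (fun k hk => ?_) (fun k hk j hj h => ?_)).trans (Nrm.geo_le hr (R+1))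
    · have := Finset.mem_range.1 (Finset.mem_filter.1 hk).1
      exact Finset.mem_range.2 (by omega)
    · have h1 := (Finset.mem_filter.1 (Finset.mem_coe.1 hk)).2
      have h2 := (Finset.mem_filter.1 (Finset.mem_coe.1 hj)).2
      simp only at h
      omega
  refine (Finset.prod_le_prod (fun i _ => Finset.sum_nonneg fun n _ => by split_ifs <;> positivity) h1).trans ?_
  rw [Finset.prod_const, Finset.card_univ, Fintype.card_fin]

theorem tp_an {M d : ℕ} (r : ℝ) (κ : Fin d → ℕ → Zm M → ℤ → ℝ) (m : Fin d → ℕ) (G : (Fin d → Zm M) → ℝ) (x : Fin d → Zm M) :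
    tp (fun i => km (κ i)) m G x = (2:ℝ) ^ (r * ∑ i, (m i : ℝ)) * tp (fun i => an r (κ i)) m G x := by
  unfold tp
  rw [Finset.mul_sum]
  refine Finset.sum_congr rfl fun y _ => ?_
  have : tk (fun i => an r (κ i)) m x y = (2:ℝ) ^ (-(r * ∑ i, (m i : ℝ))) * tk (fun i => km (κ i)) m x y := by
    unfold tk an
    rw [Finset.prod_mul_distrib, ← Real.rpow_sum_of_pos (by norm_num)]
    congr 2
    rw [Finset.sum_neg_distrib, ← Finset.mul_sum]
  rw [this, ← mul_assoc, ← mul_assoc, ← Real.rpow_add (by norm_num), add_neg_cancel, Real.rpow_zero, one_mul]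

theorem tp_smul {M d : ℕ} (a : Fin d → ℕ → Zm M → Zm M → ℝ) (m : Fin d → ℕ) (c : ℝ) (G : (Fin d → Zm M) → ℝ) (x : Fin d → Zm M) :
    tp a m (fun y => c * G y) x = c * tp a m G x := by
  unfold tp
  rw [Finset.mul_sum]
  exact Finset.sum_congr rfl fun y _ => by ring

theorem tp_sum {M d : ℕ} (a : Fin d → ℕ → Zm M → Zm M → ℝ) (m : Fin d → ℕ) {β : Type} (S : Finset β)
    (G : β → (Fin d → Zm M) → ℝ) (x : Fin d → Zm M) :
    tp a m (fun y => ∑ b ∈ S, G b y) x = ∑ b ∈ S, tp a m (G b) x := by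
  unfold tp
  rw [Finset.sum_comm]
  refine Finset.sum_congr rfl fun y _ => ?_
  rw [Finset.mul_sum]

theorem mainD (r δ ε C : ℝ) (hr : 0 < r) (hδ : 0 < δ) (hδ2 : δ ≤ 2) (hε : 0 < ε) (hεδ : ε ≤ δ/2) (hC : 0 < C) (q d : ℕ) :
    ∃ K : ℝ, 0 < K ∧ ∀ (M R : ℕ), R ≤ M → ∀ (κ : Fin d → ℕ → Zm M → ℤ → ℝ),
      (∀ i n x c, κ i n x (c + 2 ^ n) = κ i n x c) →
      (∀ i n x c, κ i n x c = κ i (n+1) x (2 * c) + (κ i (n+1) x (2 * c + 1) + κ i (n+1) x (2 * c - 1)) / 2) →
      (∀ i, KF δ ε C M R (an r (κ i))) → ∀ {ι : Type} (J : Finset ι) (l : ι → ℕ) (A : ι → Finset (Fin d → ℕ)),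
      (∀ i ∈ J, ∀ j ∈ J, i ≠ j → Disjoint (A i) (A j)) →
      (∀ j ∈ J, ∀ s ∈ A j, (∑ i, s i = l j) ∧ ∀ i, s i ≤ R) →
      ∀ h : ι → (Fin d → Zm M) → ℝ, (∀ j ∈ J, ∀ x, |h j x| ≤ 1) →
      ∑ x, ((∑ j ∈ J, ∑ s ∈ A j, tp (fun i => km (κ i)) s (h j) x) ^ 2) ^ (q+1) ≤
        K * (∑ j ∈ J, (2:ℝ) ^ (2 * r * l j)) ^ (q+1) * (2 ^ M) ^ d := by
  obtain ⟨K1, hK1, hsyn⟩ := synth δ ε C hδ hδ2 hε hεδ hC q
  obtain ⟨K2, hK2, hana⟩ := anal q
  obtain ⟨W, hW⟩ : ∃ W, W = (Nrm.geoC r) ^ d := ⟨_, rfl⟩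
  have hW0 : 0 < W := by rw [hW]; exact pow_pos (Nrm.geoC_pos hr) d
  refine ⟨K1 ^ d * ((W * W) ^ (q+1) * K2 ^ d), by positivity, ?_⟩
  intro M R hR κ hper href hKF ι J l A hdisj hA h hh
  classical
  obtain ⟨g, hg⟩ : ∃ g : ι → (Fin d → ℕ) → (Fin d → Zm M) → ℝ, g = fun j m => tp (fun _ => gam) m (h j) := ⟨_, rfl⟩
  obtain ⟨F, hF⟩ : ∃ F : (Fin d → ℕ) → (Fin d → Zm M) → ℝ, F = fun m y => ∑ j ∈ J, ∑ s ∈ A j,
      (if ∀ i, m i ≤ s i then (2:ℝ) ^ (r * ∑ i, (m i : ℝ)) else 0) * g j m y := ⟨_, rfl⟩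
  -- the rewriting
  have hrew : ∀ x, ∑ j ∈ J, ∑ s ∈ A j, tp (fun i => km (κ i)) s (h j) x = ∑ m ∈ box d R, tp (fun i => an r (κ i)) m (F m) x := by
    intro x
    have h1 : ∀ j ∈ J, ∀ s ∈ A j, tp (fun i => km (κ i)) s (h j) x = ∑ m ∈ box d R, tp (fun i => an r (κ i)) m
        (fun y => (if ∀ i, m i ≤ s i then (2:ℝ) ^ (r * ∑ i, (m i : ℝ)) else 0) * g j m y) x := by
      intro j hj s hs
      rw [refine_tp κ hper href s (fun i => ((hA j hj s hs).2 i).trans hR)]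
      have hsub : Fintype.piFinset (fun i => range (s i + 1)) ⊆ box d R := by
        intro m hm
        rw [Fintype.mem_piFinset] at hm
        rw [mem_box]
        intro i
        have h2 := Finset.mem_range.1 (hm i)
        have h3 := (hA j hj s hs).2 i
        omega
      rw [← Finset.sum_subset hsub]
      · refine Finset.sum_congr rfl fun m hm => ?_
        rw [Fintype.mem_piFinset] at hm
        have hms : ∀ i, m i ≤ s i := fun i => Nat.lt_succ_iff.1 (Finset.mem_range.1 (hm i))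
        rw [tp_smul, if_pos hms, tp_an r κ, hg]
      · intro m _ hm
        rw [Fintype.mem_piFinset] at hm
        have hms : ¬ ∀ i, m i ≤ s i := fun hh => hm fun i => Finset.mem_range.2 (Nat.lt_succ_of_le (hh i))
        rw [tp_smul, if_neg hms, zero_mul]
    have h2 : ∑ j ∈ J, ∑ s ∈ A j, tp (fun i => km (κ i)) s (h j) x = ∑ j ∈ J, ∑ s ∈ A j, ∑ m ∈ box d R, tp (fun i => an r (κ i)) m
        (fun y => (if ∀ i, m i ≤ s i then (2:ℝ) ^ (r * ∑ i, (m i : ℝ)) else 0) * g j m y) x :=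
      Finset.sum_congr rfl fun j hj => Finset.sum_congr rfl fun s hs => h1 j hj s hs
    rw [h2]
    have h3 : ∀ m ∈ box d R, tp (fun i => an r (κ i)) m (F m) x = ∑ j ∈ J, ∑ s ∈ A j, tp (fun i => an r (κ i)) m
        (fun y => (if ∀ i, m i ≤ s i then (2:ℝ) ^ (r * ∑ i, (m i : ℝ)) else 0) * g j m y) x := by
      intro m _
      rw [hF]
      simp only
      rw [tp_sum (fun i => an r (κ i)) m J (fun j y => ∑ s ∈ A j, (if ∀ i, m i ≤ s i then (2:ℝ) ^ (r * ∑ i, (m i : ℝ)) else 0) * g j m y)]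
      refine Finset.sum_congr rfl fun j _ => ?_
      rw [tp_sum]
    rw [Finset.sum_congr rfl h3, Finset.sum_comm]
    refine Finset.sum_congr rfl fun j _ => ?_
    rw [Finset.sum_comm]
  -- synthesis
  have hS := synthD (K := K1) hK1.le d (fun i => an r (κ i)) (fun i _ A G => hsyn M R hR (an r (κ i)) (hKF i) A G) ({()} : Finset Unit) (fun m _ => F m)
  simp only [Finset.sum_singleton] at hS
  simp only [hrew]
  refine hS.trans ?_
  -- pointwise bound
  have hpt : ∀ x, ∑ m ∈ box d R, (F m x) ^ 2 ≤ (W * W) * ∑ j ∈ J, (2:ℝ) ^ (2 * r * l j) * ∑ m ∈ box d R, (g j m x) ^ 2 := by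
    intro x
    have h1 : ∀ m ∈ box d R, (F m x) ^ 2 ≤ W * ∑ j ∈ J, W * ((2:ℝ) ^ (2 * r * l j) * (g j m x) ^ 2) := by
      intro m _
      have h2 : F m x = ∑ p ∈ J.sigma A, (if ∀ i, m i ≤ p.2 i then (2:ℝ) ^ (r * ∑ i, (m i : ℝ)) else 0) * g p.1 m x := by
        rw [hF, Finset.sum_sigma]
      have hl : ∀ p ∈ J.sigma A, (∑ i, (p.2 i : ℝ)) = l p.1 := by
        intro p hp
        have := (hA p.1 (Finset.mem_sigma.1 hp).1 p.2 (Finset.mem_sigma.1 hp).2).1
        rw [← this]; push_cast; rfl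
      rw [h2]
      have h3 := Finset.sum_sq_le_sum_mul_sum_of_sq_eq_mul (J.sigma A)
        (r := fun p => (if ∀ i, m i ≤ p.2 i then (2:ℝ) ^ (r * ∑ i, (m i : ℝ)) else 0) * g p.1 m x)
        (f := fun p => wgt r m p.2)
        (g := fun p => wgt r m p.2 * ((2:ℝ) ^ (2 * r * l p.1) * (g p.1 m x) ^ 2))
        (fun p _ => wgt_nonneg r m p.2)
        (fun p _ => mul_nonneg (wgt_nonneg r m p.2) (by positivity))
        (fun p hp => by
          unfold wgt
          rw [hl p hp]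
          by_cases hc : ∀ i, m i ≤ p.2 i
          · simp only [if_pos hc]
            rw [mul_pow, ← mul_assoc, ← mul_assoc]
            congr 1
            rw [← Real.rpow_add (by norm_num), ← Real.rpow_add (by norm_num), ← Real.rpow_natCast, ← Real.rpow_mul (by norm_num)]
            congr 1
            push_cast; ring
          · simp only [if_neg hc]; simp)
      refine h3.trans ?_
      have h4 : ∑ p ∈ J.sigma A, wgt r m p.2 ≤ W := by
        rw [hW]
        refine le_trans ?_ (wgt_sum hr R m)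
        have hinj : Set.InjOn (fun p : (_ : ι) × (Fin d → ℕ) => p.2) (J.sigma A : Finset _) := by
          intro p hp p' hp' heq
          have e1 := Finset.mem_sigma.1 (Finset.mem_coe.1 hp)
          have e2 := Finset.mem_sigma.1 (Finset.mem_coe.1 hp')
          have heq' : p.2 = p'.2 := heq
          by_cases hne : p.1 = p'.1
          · rcases p with ⟨p1, p2⟩
            rcases p' with ⟨p1', p2'⟩
            simp only at hne heq'
            subst hne; subst heq'; rfl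
          · exfalso
            have := Finset.disjoint_left.1 (hdisj p.1 e1.1 p'.1 e2.1 hne) e1.2
            rw [heq'] at this
            exact this e2.2
        rw [← Finset.sum_image (f := fun s => wgt r m s) (g := fun p : (_ : ι) × (Fin d → ℕ) => p.2) hinj]
        apply Finset.sum_le_sum_of_subset_of_nonneg
        · intro s hs
          obtain ⟨p, hp, rfl⟩ := Finset.mem_image.1 hs
          have e1 := Finset.mem_sigma.1 hp
          rw [mem_box]
          exact (hA p.1 e1.1 p.2 e1.2).2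
        · intro s _ _; exact wgt_nonneg r m s
      have h5 : ∑ p ∈ J.sigma A, wgt r m p.2 * ((2:ℝ) ^ (2 * r * l p.1) * (g p.1 m x) ^ 2) ≤
          ∑ j ∈ J, W * ((2:ℝ) ^ (2 * r * l j) * (g j m x) ^ 2) := by
        rw [Finset.sum_sigma]
        refine Finset.sum_le_sum fun j hj => ?_
        simp only
        rw [← Finset.sum_mul]
        apply mul_le_mul_of_nonneg_right _ (by positivity)
        rw [hW]
        refine le_trans ?_ (wgt_sum hr R m)
        apply Finset.sum_le_sum_of_subset_of_nonneg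
        · intro s hs
          rw [mem_box]; exact (hA j hj s hs).2
        · intro s _ _; exact wgt_nonneg r m s
      have h6 : 0 ≤ ∑ p ∈ J.sigma A, wgt r m p.2 * ((2:ℝ) ^ (2 * r * l p.1) * (g p.1 m x) ^ 2) :=
        Finset.sum_nonneg fun p _ => mul_nonneg (wgt_nonneg r m p.2) (by positivity)
      exact mul_le_mul h4 h5 h6 hW0.le
    refine (Finset.sum_le_sum h1).trans (le_of_eq ?_)
    rw [← Finset.mul_sum, Finset.sum_comm, mul_assoc]
    congr 1
    rw [Finset.mul_sum]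
    refine Finset.sum_congr rfl fun j _ => ?_
    rw [← Finset.mul_sum, ← Finset.mul_sum]
  -- analysis
  have hAj : ∀ j ∈ J, ∑ x, (∑ m ∈ box d R, (g j m x) ^ 2) ^ (q+1) ≤ K2 ^ d * (2 ^ M) ^ d := by
    intro j hj
    have h1 := analD (K := K2) hK2.le (R := R) d (fun _ => gam) (fun _ _ A h => by
      have := hana M R hR A h
      refine le_trans (le_of_eq ?_) this
      refine Finset.sum_congr rfl fun x _ => ?_
      congr 1
      refine Finset.sum_congr rfl fun n hn => ?_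
      refine Finset.sum_congr rfl fun i _ => ?_
      have hn' := Finset.mem_range.1 hn
      rw [Ga_gam n (by omega)]) ({()} : Finset Unit) (fun _ => h j)
    simp only [Finset.sum_singleton] at h1
    rw [hg]
    refine h1.trans ?_
    apply mul_le_mul_of_nonneg_left _ (by positivity)
    calc ∑ x, ((h j x) ^ 2) ^ (q+1) ≤ ∑ _x : Fin d → Zm M, (1:ℝ) := by
          refine Finset.sum_le_sum fun x _ => ?_
          apply pow_le_one₀ (sq_nonneg _)
          rw [← sq_abs]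
          exact pow_le_one₀ (abs_nonneg _) (hh j hj x)
      _ = (2 ^ M) ^ d := by
          rw [Finset.sum_const, Finset.card_univ, Fintype.card_fun, ZMod.card, Fintype.card_fin, nsmul_eq_mul, mul_one]
          push_cast; rfl
  have hL0 : 0 ≤ ∑ j ∈ J, (2:ℝ) ^ (2 * r * l j) := Finset.sum_nonneg fun _ _ => by positivity
  have hfin : ∑ x, (∑ m ∈ box d R, (F m x) ^ 2) ^ (q+1) ≤ (W * W) ^ (q+1) * ((∑ j ∈ J, (2:ℝ) ^ (2 * r * l j)) ^ (q+1) * (K2 ^ d * (2 ^ M) ^ d)) := by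
    calc ∑ x, (∑ m ∈ box d R, (F m x) ^ 2) ^ (q+1)
        ≤ ∑ x, (W * W) ^ (q+1) * ((∑ j ∈ J, (2:ℝ) ^ (2 * r * l j)) ^ q * ∑ j ∈ J, (2:ℝ) ^ (2 * r * l j) * (∑ m ∈ box d R, (g j m x) ^ 2) ^ (q+1)) := by
          refine Finset.sum_le_sum fun x _ => ?_
          refine (pow_le_pow_left₀ (Finset.sum_nonneg fun _ _ => sq_nonneg _) (hpt x) _).trans ?_
          rw [mul_pow]
          apply mul_le_mul_of_nonneg_left _ (by positivity)
          exact wpm J _ _ (fun _ _ => by positivity) (fun j _ => Finset.sum_nonneg fun _ _ => sq_nonneg _) q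
      _ = (W * W) ^ (q+1) * ((∑ j ∈ J, (2:ℝ) ^ (2 * r * l j)) ^ q * ∑ j ∈ J, (2:ℝ) ^ (2 * r * l j) * ∑ x, (∑ m ∈ box d R, (g j m x) ^ 2) ^ (q+1)) := by
          rw [← Finset.mul_sum, ← Finset.mul_sum, Finset.sum_comm]
          congr 2
          refine Finset.sum_congr rfl fun j _ => ?_
          rw [Finset.mul_sum]
      _ ≤ (W * W) ^ (q+1) * ((∑ j ∈ J, (2:ℝ) ^ (2 * r * l j)) ^ q * ∑ j ∈ J, (2:ℝ) ^ (2 * r * l j) * (K2 ^ d * (2 ^ M) ^ d)) := by
          apply mul_le_mul_of_nonneg_left _ (pow_nonneg (mul_nonneg hW0.le hW0.le) _)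
          apply mul_le_mul_of_nonneg_left _ (pow_nonneg hL0 _)
          exact Finset.sum_le_sum fun j hj => mul_le_mul_of_nonneg_left (hAj j hj) (by positivity)
      _ = _ := by rw [← Finset.sum_mul, pow_succ (∑ j ∈ J, (2:ℝ) ^ (2 * r * l j)) q]; ring
  calc K1 ^ d * ∑ x, (∑ m ∈ box d R, (F m x) ^ 2) ^ (q+1) ≤ K1 ^ d * ((W * W) ^ (q+1) * ((∑ j ∈ J, (2:ℝ) ^ (2 * r * l j)) ^ (q+1) * (K2 ^ d * (2 ^ M) ^ d))) :=
        mul_le_mul_of_nonneg_left hfin (by positivity)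
    _ = _ := by ring

end H396C
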