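import Pool.Agent.H396R3.C.Ker2
import Pool.Agent.H396R3.C.MainD

/-! The kernels of the fractional derivatives of hat functions satisfy the hypotheses. -/

set_option autoImplicit false

open Finset

namespace H396C

/-- the fractional derivative of the hat function of level `n` -/
noncomputable def kt (b r : ℝ) (n : ℕ) (t : ℝ) : ℝ := 1 / 2 ^ n + b * (2:ℝ) ^ (r * n) * PW r n t

/-- sampled kernel -/
noncomputable def kap (b r : ℝ) (M : ℕ) (t0 : ℝ) (n : ℕ) (x : Zm M) (c : ℤ) : ℝ :=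
  kt b r n (t0 + x.val / 2 ^ M - c / 2 ^ n)

theorem kap_per (b r : ℝ) (M : ℕ) (t0 : ℝ) (n : ℕ) (x : Zm M) (c : ℤ) :
    kap b r M t0 n x (c + 2 ^ n) = kap b r M t0 n x c := by
  unfold kap kt
  have h0 : (0:ℝ) < 2 ^ n := by positivity
  have h1 : t0 + (x.val : ℝ) / 2 ^ M - ((c + 2 ^ n : ℤ) : ℝ) / 2 ^ n = (t0 + x.val / 2 ^ M - c / 2 ^ n) + ((-1 : ℤ) : ℝ) := by
    push_cast; field_simp; ring
  rw [h1, PW_per]

theorem kap_ref {b r : ℝ} (hr0 : 0 < r) (hr1 : r < 1) (M : ℕ) (t0 : ℝ) (n : ℕ) (x : Zm M) (c : ℤ) :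
    kap b r M t0 n x c = kap b r M t0 (n+1) x (2 * c) +
      (kap b r M t0 (n+1) x (2 * c + 1) + kap b r M t0 (n+1) x (2 * c - 1)) / 2 := by
  unfold kap
  obtain ⟨T, hT⟩ : ∃ T : ℝ, T = t0 + x.val / 2 ^ M - c / 2 ^ n := ⟨_, rfl⟩
  have h0 : (0:ℝ) < 2 ^ n := by positivity
  have e1 : t0 + (x.val:ℝ) / 2 ^ M - ((2 * c : ℤ) : ℝ) / 2 ^ (n+1) = T := by
    rw [hT]; push_cast; rw [pow_succ]; field_simp
  have e2 : t0 + (x.val:ℝ) / 2 ^ M - ((2 * c + 1 : ℤ) : ℝ) / 2 ^ (n+1) = T - 1 / 2 ^ (n+1) := by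
    rw [hT]; push_cast; rw [pow_succ]; field_simp; ring
  have e3 : t0 + (x.val:ℝ) / 2 ^ M - ((2 * c - 1 : ℤ) : ℝ) / 2 ^ (n+1) = T + 1 / 2 ^ (n+1) := by
    rw [hT]; push_cast; rw [pow_succ]; field_simp; ring
  rw [e1, e2, e3, ← hT]
  unfold kt
  rw [PW_refine hr0 hr1 n T]
  have e4 : (2:ℝ) ^ (r * ((n+1 : ℕ) : ℝ)) = (2:ℝ) ^ (r * n) * 2 ^ r := by
    rw [← Real.rpow_add (by norm_num)]; congr 1; push_cast; ring
  rw [e4, pow_succ]
  field_simp
  ring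

theorem exists_shift {M n : ℕ} (hn : n ≤ M) (x y : Zm M) {t0 : ℝ} (ht0 : 0 ≤ t0) (ht1 : t0 * 2 ^ M ≤ 1) :
    ∃ (w ρ : ℝ) (k : ℤ), |w| ≤ 1/2 ∧ 0 ≤ ρ ∧ ρ * 2 ^ n ≤ 1 ∧
      t0 + (x.val:ℝ) / 2 ^ M - ((cl n y : ℤ) : ℝ) / 2 ^ n = w + k + ρ ∧ 2 ^ n * |w| = (nu (x - y) : ℝ) / sc M n := by
  have hN : (0:ℝ) < 2 ^ M := by positivity
  have hn0 : (0:ℝ) < 2 ^ n := by positivity
  -- integer shift
  have h1 : (((x.val : ℤ) - (y.val : ℤ) : ℤ) : ZMod (2 ^ M)) = (((x - y).valMinAbs : ℤ) : ZMod (2 ^ M)) := by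
    rw [ZMod.coe_valMinAbs]; push_cast
    rw [ZMod.natCast_zmod_val, ZMod.natCast_zmod_val]
  rw [ZMod.intCast_eq_intCast_iff_dvd_sub] at h1
  obtain ⟨k, hk⟩ := h1
  obtain ⟨L, hL⟩ : ∃ L, L = 2 ^ (M - n) := ⟨_, rfl⟩
  have hL0 : 0 < L := by rw [hL]; positivity
  obtain ⟨ρ', hρ'⟩ : ∃ ρ', ρ' = y.val % L := ⟨_, rfl⟩
  have hy : L * cl n y + ρ' = y.val := by
    rw [hρ']
    have : cl n y = y.val / L := by unfold cl; rw [hL]
    rw [this]; exact Nat.div_add_mod _ _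
  have hρL : ρ' + 1 ≤ L := by rw [hρ']; exact Nat.mod_lt _ hL0
  have hLN : (2:ℝ) ^ M = L * 2 ^ n := by
    rw [hL]; push_cast; rw [← pow_add]; congr 1; omega
  have hLr : (0:ℝ) < L := by exact_mod_cast hL0
  refine ⟨((x - y).valMinAbs : ℝ) / 2 ^ M, t0 + ρ' / 2 ^ M, -k, ?_, by positivity, ?_, ?_, ?_⟩
  · rw [abs_div, abs_of_pos hN, div_le_iff₀ hN]
    have h2 := ZMod.natAbs_valMinAbs_le (x - y)
    have h3 : 2 * (x - y).valMinAbs.natAbs ≤ 2 ^ M := by omega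
    have h4 : (2:ℝ) * |((x - y).valMinAbs : ℝ)| ≤ 2 ^ M := by
      have h5 : |((x - y).valMinAbs : ℝ)| = (((x - y).valMinAbs.natAbs : ℕ) : ℝ) := by
        rw [Nat.cast_natAbs]; push_cast; rfl
      rw [h5]; exact_mod_cast h3
    linarith
  · have h2 : ((ρ':ℝ) + 1) ≤ L := by exact_mod_cast hρL
    have h3 : (t0 + ρ' / 2 ^ M) * 2 ^ n * L = t0 * 2 ^ M + ρ' := by
      rw [hLN]; field_simp
    have h4 : (t0 + ρ' / 2 ^ M) * 2 ^ n * L ≤ 1 * L := by rw [h3]; linarith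
    exact le_of_mul_le_mul_right h4 hLr
  · have h2 : (x.val : ℝ) = y.val + (x - y).valMinAbs - 2 ^ M * k := by
      have h3 : (x.val : ℤ) = y.val + (x - y).valMinAbs - 2 ^ M * k := by
        push_cast at hk; linarith
      exact_mod_cast h3
    have h3 : (y.val : ℝ) = L * (cl n y : ℝ) + ρ' := by exact_mod_cast hy.symm
    rw [h2, h3]
    push_cast
    rw [hLN]
    field_simp
    ring
  · rw [abs_div, abs_of_pos hN]
    have h5 : |((x - y).valMinAbs : ℝ)| = (nu (x - y) : ℝ) := by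
      unfold nu
      rw [Nat.cast_natAbs]; push_cast; rfl
    rw [h5]
    unfold sc
    field_simp

theorem sum_val {M : ℕ} (F : ℕ → ℝ) : ∑ x : Zm M, F x.val = ∑ v ∈ range (2 ^ M), F v := by
  refine Finset.sum_nbij (fun x => x.val) ?_ ?_ ?_ ?_
  · intro x _; exact Finset.mem_range.2 (ZMod.val_lt x)
  · intro a _ b _ h; exact ZMod.val_injective _ h
  · intro v hv
    have hv' := Finset.mem_range.1 (Finset.mem_coe.1 hv)
    exact ⟨(v : Zm M), by simp, ZMod.val_cast_of_lt hv'⟩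
  · intro x _; rfl

/-- the exponents -/
noncomputable def ee (r : ℝ) : ℝ := min ((1 - r) * ((r/2) / (1 + r))) (r/2/2)

theorem ee_pos {r : ℝ} (hr0 : 0 < r) (hr1 : r < 1) : 0 < ee r := by
  unfold ee
  apply lt_min
  · have : 0 < 1 - r := by linarith
    positivity
  · positivity

theorem ee_le (r : ℝ) : ee r ≤ r/2/2 := min_le_right _ _

noncomputable def CC (b r : ℝ) : ℝ := 2 ^ (1 + r/2) * (1 + 1000 * b * Cz (r/2)) + 1

theorem CC_pos {b : ℝ} (hb : 0 < b) (r : ℝ) : 0 < CC b r := by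
  unfold CC; have := Cz_pos (r/2); positivity

theorem kap_KF {b r : ℝ} (hb : 0 < b) (hr0 : 0 < r) (hr1 : r < 1) {M R : ℕ} (hR : R ≤ M) {t0 : ℝ} (ht0 : 0 ≤ t0) (ht1 : t0 * 2 ^ M ≤ 1) :
    KF (r/2) (ee r) (CC b r) M R (an r (kap b r M t0)) := by
  have hδ : 0 < r/2 := by linarith
  have hCz := Cz_pos (r/2)
  have h2p : (0:ℝ) < 2 ^ (1 + r/2) := by positivity
  constructor
  · intro n hn x y
    obtain ⟨w, ρ, k, hw, hρ0, hρ1, ht, hnu⟩ := exists_shift (hn.trans hR) x y ht0 ht1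
    have hsc := sc_pos M n
    have hPW := (perB hδ n hw hρ0 hρ1 ht (by norm_num : (0:ℝ) ≤ 108) (fun j => PW_term hr0 hr1 n _ j)).2
    rw [hnu] at hPW
    have hpk : (nrm M).pk (r/2) n (x - y) = (1 + (nu (x - y) : ℝ) / sc M n) ^ (-(1 + r/2)) / sc M n := rfl
    obtain ⟨p, hp⟩ : ∃ p : ℝ, p = (1 + (nu (x - y) : ℝ) / sc M n) ^ (-(1 + r/2)) := ⟨_, rfl⟩
    have hp0 : 0 < p := by rw [hp]; positivity
    rw [hpk, ← hp]
    rw [← hp] at hPW
    have hone : (2:ℝ) ^ (-(r * n)) * (1 / 2 ^ n) ≤ 2 ^ (1 + r/2) * p := by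
      have h1 : (2:ℝ) ^ (-(r * n)) * (1 / 2 ^ n) ≤ (2 ^ n : ℝ) ^ (-(1 + r/2)) := by
        rw [one_div, ← Real.rpow_natCast, ← Real.rpow_neg (by norm_num), ← Real.rpow_add (by norm_num), ← Real.rpow_mul (by norm_num)]
        apply Real.rpow_le_rpow_of_exponent_le (by norm_num)
        have : (0:ℝ) ≤ n := Nat.cast_nonneg n
        nlinarith
      have h2 : (2 * 2 ^ n : ℝ) ^ (-(1 + r/2)) ≤ p := by
        rw [hp]
        apply Real.rpow_le_rpow_of_nonpos (by positivity) _ (by linarith)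
        have h3 : (nu (x - y) : ℝ) / sc M n ≤ 2 ^ n := by
          rw [div_le_iff₀ hsc]
          have h4 : (nu (x - y) : ℝ) ≤ 2 ^ M := by exact_mod_cast (nrm M).bd (x - y)
          have h5 : (2:ℝ) ^ n * sc M n = 2 ^ M := by unfold sc; field_simp
          rw [h5]; exact h4
        have h6 : (1:ℝ) ≤ 2 ^ n := one_le_pow₀ (by norm_num)
        linarith
      have h3 : (2 ^ n : ℝ) ^ (-(1 + r/2)) = 2 ^ (1 + r/2) * (2 * 2 ^ n : ℝ) ^ (-(1 + r/2)) := by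
        rw [Real.mul_rpow (by norm_num) (by positivity), ← mul_assoc, ← Real.rpow_add (by norm_num), add_neg_cancel,
          Real.rpow_zero, one_mul]
      rw [h3] at h1
      exact h1.trans (mul_le_mul_of_nonneg_left h2 h2p.le)
    have hval : an r (kap b r M t0) n x y = ((2:ℝ) ^ (-(r * n)) * (1 / 2 ^ n) +
        b * PW r n (t0 + (x.val:ℝ) / 2 ^ M - ((cl n y : ℤ) : ℝ) / 2 ^ n)) / sc M n := by
      unfold an km kap kt
      have : (2:ℝ) ^ (-(r * n)) * (2:ℝ) ^ (r * n) = 1 := by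
        rw [← Real.rpow_add (by norm_num), neg_add_cancel, Real.rpow_zero]
      rw [mul_div_assoc', mul_add]
      congr 2
      rw [mul_comm b, mul_assoc, ← mul_assoc, this, one_mul]
    rw [hval, abs_div, abs_of_pos hsc, ← mul_div_assoc (CC b r) p (sc M n)]
    apply div_le_div_of_nonneg_right _ hsc.le
    refine (abs_add_le _ _).trans ?_
    rw [abs_of_nonneg (by positivity : (0:ℝ) ≤ (2:ℝ) ^ (-(r * n)) * (1 / 2 ^ n)), abs_mul, abs_of_pos hb]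
    have h7 : b * |PW r n (t0 + (x.val:ℝ) / 2 ^ M - ((cl n y : ℤ) : ℝ) / 2 ^ n)| ≤ b * (108 * 2 ^ (1 + r/2) * Cz (r/2) * p) :=
      mul_le_mul_of_nonneg_left hPW hb.le
    unfold CC
    have h8 : 0 ≤ 2 ^ (1 + r/2) * b * Cz (r/2) * p := by positivity
    nlinarith
  · intro n hn m hnm hm x x' y hcl
    obtain ⟨w, ρ, k, hw, hρ0, hρ1, ht, hnu⟩ := exists_shift (hn.trans hR) x y ht0 ht1
    have hsc := sc_pos M n
    obtain ⟨T, hT⟩ : ∃ T : ℝ, T = t0 + (x.val:ℝ) / 2 ^ M - ((cl n y : ℤ) : ℝ) / 2 ^ n := ⟨_, rfl⟩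
    obtain ⟨T', hT'⟩ : ∃ T' : ℝ, T' = t0 + (x'.val:ℝ) / 2 ^ M - ((cl n y : ℤ) : ℝ) / 2 ^ n := ⟨_, rfl⟩
    rw [← hT] at ht
    have hcast : ((m - n : ℕ) : ℝ) = (m:ℝ) - n := Nat.cast_sub hnm
    have hn0 : (0:ℝ) < 2 ^ n := by positivity
    have hm0 : (0:ℝ) < 2 ^ m := by positivity
    have hdiff : |2 ^ n * T' - 2 ^ n * T| ≤ (2:ℝ) ^ (-((m:ℝ) - n)) := by
      obtain ⟨L, hL⟩ : ∃ L, L = 2 ^ (M - m) := ⟨_, rfl⟩
      have hL0 : 0 < L := by rw [hL]; positivity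
      have h1 : |(x'.val : ℤ) - x.val| ≤ L := by
        unfold cl at hcl
        rw [← hL] at hcl
        have h2 := Nat.div_add_mod x'.val L
        have h3 := Nat.div_add_mod x.val L
        have h4 := Nat.mod_lt x'.val hL0
        have h5 := Nat.mod_lt x.val hL0
        rw [hcl] at h2
        rw [abs_le]
        constructor <;> omega
      have h2 : |(x'.val : ℝ) - x.val| ≤ L := by exact_mod_cast h1
      have h3 : 2 ^ n * T' - 2 ^ n * T = (2 ^ n / 2 ^ M) * ((x'.val : ℝ) - x.val) := by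
        rw [hT, hT']; field_simp; ring
      have h4 : (2:ℝ) ^ (-((m:ℝ) - n)) = (2 ^ n / 2 ^ M) * L := by
        rw [hL]; push_cast
        rw [Real.rpow_neg (by norm_num), ← hcast, Real.rpow_natCast, pow_sub₀ _ (by norm_num) hm, pow_sub₀ _ (by norm_num) hnm]
        field_simp
      rw [h3, h4, abs_mul, abs_of_pos (by positivity : (0:ℝ) < 2 ^ n / 2 ^ M)]
      exact mul_le_mul_of_nonneg_left h2 (by positivity)
    have hmn0 : (0:ℝ) ≤ (m:ℝ) - n := by rw [← hcast]; positivity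
    have hle1 : (2:ℝ) ^ (-((m:ℝ) - n)) ≤ 1 := Real.rpow_le_one_of_one_le_of_nonpos (by norm_num) (by linarith)
    obtain ⟨γ, hγ⟩ : ∃ γ : ℝ, γ = (1 - r) * ((r/2) / (1 + r)) := ⟨_, rfl⟩
    have hγ0 : 0 < γ := by
      rw [hγ]; have : 0 < 1 - r := by linarith
      positivity
    have heγ : ee r ≤ γ := by rw [hγ]; exact min_le_left _ _
    obtain ⟨D, hD⟩ : ∃ D : ℝ, D = 1000 * (2:ℝ) ^ (-(ee r * ((m:ℝ) - n))) := ⟨_, rfl⟩
    have hD0 : 0 ≤ D := by rw [hD]; positivity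
    have hterm : ∀ j : ℤ, |Wp r (2 ^ n * (T' + j)) - Wp r (2 ^ n * (T + j))| ≤ D * (1 + 2 ^ n * |T + j|) ^ (-(1 + r/2)) := by
      intro j
      have h1 : |2 ^ n * (T + j) - 2 ^ n * (T' + j)| ≤ (2:ℝ) ^ (-((m:ℝ) - n)) := by
        rw [abs_sub_comm, show 2 ^ n * (T' + (j:ℝ)) - 2 ^ n * (T + j) = 2 ^ n * T' - 2 ^ n * T by ring]; exact hdiff
      have h2 := Wp_interp hr0 hr1 (h1.trans hle1)
      rw [abs_sub_comm (Wp r (2 ^ n * (T + j))), abs_mul (2 ^ n) (T + (j:ℝ)), abs_of_pos hn0, ← hγ] at h2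
      refine h2.trans ?_
      apply mul_le_mul_of_nonneg_right _ (by positivity)
      rw [hD]
      apply mul_le_mul_of_nonneg_left _ (by norm_num)
      calc |2 ^ n * (T + j) - 2 ^ n * (T' + j)| ^ γ ≤ ((2:ℝ) ^ (-((m:ℝ) - n))) ^ γ :=
            Real.rpow_le_rpow (abs_nonneg _) h1 hγ0.le
        _ = (2:ℝ) ^ (-(γ * ((m:ℝ) - n))) := by rw [← Real.rpow_mul (by norm_num)]; congr 1; ring
        _ ≤ _ := by
          apply Real.rpow_le_rpow_of_exponent_le (by norm_num)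
          nlinarith
    have hPW := (perB (show 0 < r/2 by linarith) n hw hρ0 hρ1 ht hD0 hterm).2
    have hPWd : PW r n T' - PW r n T = ∑' j : ℤ, (Wp r (2 ^ n * (T' + j)) - Wp r (2 ^ n * (T + j))) := by
      unfold PW
      rw [(PW_summable hr0 hr1 n T').tsum_sub (PW_summable hr0 hr1 n T)]
    rw [← hPWd, hnu] at hPW
    have hpk : (nrm M).pk (r/2) n (x - y) = (1 + (nu (x - y) : ℝ) / sc M n) ^ (-(1 + r/2)) / sc M n := rfl
    obtain ⟨p, hp⟩ : ∃ p : ℝ, p = (1 + (nu (x - y) : ℝ) / sc M n) ^ (-(1 + r/2)) := ⟨_, rfl⟩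
    have hp0 : 0 < p := by rw [hp]; positivity
    rw [hpk, ← hp]
    rw [← hp] at hPW
    have hval : an r (kap b r M t0) n x' y - an r (kap b r M t0) n x y = (b * (PW r n T' - PW r n T)) / sc M n := by
      unfold an km kap kt
      have : (2:ℝ) ^ (-(r * n)) * (2:ℝ) ^ (r * n) = 1 := by
        rw [← Real.rpow_add (by norm_num), neg_add_cancel, Real.rpow_zero]
      rw [← hT, ← hT', ← mul_sub, ← sub_div, mul_div_assoc']
      congr 1
      linear_combination (b * (PW r n T' - PW r n T)) * this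
    rw [hval, abs_div, abs_of_pos hsc, mul_div_assoc', abs_mul, abs_of_pos hb]
    apply div_le_div_of_nonneg_right _ hsc.le
    have h7 : b * |PW r n T' - PW r n T| ≤ b * (D * 2 ^ (1 + r/2) * Cz (r/2) * p) := mul_le_mul_of_nonneg_left hPW hb.le
    refine h7.trans ?_
    rw [hD]
    unfold CC
    have h8 : 0 ≤ (2:ℝ) ^ (-(ee r * ((m:ℝ) - n))) * p := by positivity
    have h9 : b * (1000 * 2 ^ (-(ee r * ((m:ℝ) - n))) * 2 ^ (1 + r/2) * Cz (r/2) * p) =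
        (2 ^ (1 + r/2) * (1000 * b * Cz (r/2))) * ((2:ℝ) ^ (-(ee r * ((m:ℝ) - n))) * p) := by ring
    rw [h9, mul_assoc (2 ^ (1 + r/2) * (1 + 1000 * b * Cz (r/2)) + 1)]
    apply mul_le_mul_of_nonneg_right _ h8
    linarith
  · intro n hn y
    have hsc := sc_pos M n
    have hsum : ∑ x : Zm M, an r (kap b r M t0) n x y = (2:ℝ) ^ (-(r * n)) := by
      unfold an km kap
      rw [← Finset.mul_sum, ← Finset.sum_div]
      have h1 : ∑ x : Zm M, kt b r n (t0 + (x.val:ℝ) / 2 ^ M - ((cl n y : ℤ) : ℝ) / 2 ^ n) = sc M n := by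
        rw [sum_val (fun v => kt b r n (t0 + (v:ℝ) / 2 ^ M - ((cl n y : ℤ) : ℝ) / 2 ^ n))]
        unfold kt
        rw [Finset.sum_add_distrib, ← Finset.mul_sum]
        have h2 := PW_zero hr0 hr1 (hn.trans hR) (t0 - ((cl n y : ℤ) : ℝ) / 2 ^ n)
        have h3 : ∀ v ∈ range (2 ^ M), PW r n (t0 + (v:ℝ) / 2 ^ M - ((cl n y : ℤ) : ℝ) / 2 ^ n) =
            PW r n (t0 - ((cl n y : ℤ) : ℝ) / 2 ^ n + v / 2 ^ M) := fun v _ => by congr 1; ring
        rw [Finset.sum_congr rfl h3, h2, mul_zero, add_zero, Finset.sum_const, Finset.card_range, nsmul_eq_mul]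
        unfold sc
        push_cast; ring
      rw [h1, div_self hsc.ne', mul_one]
    rw [hsum, abs_of_pos (by positivity)]
    have h1 : (2:ℝ) ^ (-(r * n)) ≤ (2:ℝ) ^ (-(ee r * n)) := by
      apply Real.rpow_le_rpow_of_exponent_le (by norm_num)
      have h2 := ee_le r
      have h3 : (0:ℝ) ≤ n := Nat.cast_nonneg n
      nlinarith
    have h2 : 1 ≤ CC b r := by
      unfold CC
      have : 0 ≤ 2 ^ (1 + r/2) * (1 + 1000 * b * Cz (r/2)) := by positivity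
      linarith
    have h3 : 0 < (2:ℝ) ^ (-(ee r * n)) := by positivity
    nlinarith

end H396C
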