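import Pool.Agent.H396R3.C.Bern1
import Pool.Agent.H396R3.C.Ker3

/-! Convolution of the Bernoulli kernel with the fractional derivatives of hat functions. -/

set_option autoImplicit false

open Finset MeasureTheory Filter Topology

namespace H396C

/-- the normalising constant -/
noncomputable def bc (r : ℝ) : ℝ := (2 * Real.pi) ^ (-r) / Real.Gamma (2 - r)

theorem bc_pos {r : ℝ} (hr1 : r < 1) : 0 < bc r := by
  unfold bc
  have := Real.Gamma_pos_of_pos (by linarith : 0 < 2 - r)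
  have := Real.pi_pos
  positivity

theorem kt_per (b r : ℝ) (n : ℕ) (t : ℝ) (m : ℤ) : kt b r n (t + m) = kt b r n t := by
  unfold kt; rw [PW_per]

theorem kt_cont {b r : ℝ} (hr0 : 0 < r) (hr1 : r < 1) (n : ℕ) : Continuous (kt b r n) := by
  unfold kt
  have := PW_cont hr1 n (by linarith : 1 < 1 + r) (Wp_dec hr0 hr1)
  fun_prop

/-- Fourier coefficients of `kt` -/
noncomputable def cm (r : ℝ) (n : ℕ) (m : ℤ) : ℂ :=
  ∫ x in (0:ℝ)..1, (kt (bc r) r n x : ℂ) * Complex.exp (-(2 * Real.pi * m * Complex.I * x))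

theorem exp_coef (m : ℤ) : ∫ x in (0:ℝ)..1, Complex.exp (-(2 * Real.pi * m * Complex.I * x)) = if m = 0 then 1 else 0 := by
  by_cases hm : m = 0
  · simp [hm]
  · rw [if_neg hm]
    have hc : (-(2 * Real.pi * m * Complex.I) : ℂ) ≠ 0 := by
      simp [Real.pi_ne_zero, hm]
    have h1 : ∀ x : ℝ, Complex.exp (-(2 * Real.pi * m * Complex.I * x)) = Complex.exp (-(2 * Real.pi * m * Complex.I) * x) := by
      intro x; congr 1; ring
    simp only [h1]
    rw [integral_exp_mul_complex hc]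
    have h2 : Complex.exp (-(2 * Real.pi * m * Complex.I) * ((1:ℝ):ℂ)) = 1 := by
      rw [Complex.exp_eq_one_iff]
      exact ⟨-m, by push_cast; ring⟩
    rw [h2]; simp

theorem cm_eq {r : ℝ} (hr0 : 0 < r) (hr1 : r < 1) (n : ℕ) (m : ℤ) :
    cm r n m = (if m = 0 then 1 / 2 ^ n else 0) + (bc r * (2:ℝ) ^ (r * n) : ℝ) * ((1 / 2 ^ n) * wh r (m / 2 ^ n)) := by
  unfold cm
  have hP := PW_cont hr1 n (by linarith : 1 < 1 + r) (Wp_dec hr0 hr1)
  have h1 : ∀ x : ℝ, (kt (bc r) r n x : ℂ) * Complex.exp (-(2 * Real.pi * m * Complex.I * x)) =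
      (1 / 2 ^ n : ℂ) * Complex.exp (-(2 * Real.pi * m * Complex.I * x)) +
      (bc r * (2:ℝ) ^ (r * n) : ℝ) * ((PW r n x : ℂ) * Complex.exp (-(2 * Real.pi * m * Complex.I * x))) := by
    intro x; unfold kt; push_cast; ring
  simp only [h1]
  have i1 : IntervalIntegrable (fun x : ℝ => (1 / 2 ^ n : ℂ) * Complex.exp (-(2 * Real.pi * m * Complex.I * x))) volume 0 1 := by
    apply Continuous.intervalIntegrable; fun_prop
  have i2 : IntervalIntegrable (fun x : ℝ => (bc r * (2:ℝ) ^ (r * n) : ℝ) * ((PW r n x : ℂ) * Complex.exp (-(2 * Real.pi * m * Complex.I * x)))) volume 0 1 := by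
    apply Continuous.intervalIntegrable; fun_prop
  rw [intervalIntegral.integral_add i1 i2, intervalIntegral.integral_const_mul, intervalIntegral.integral_const_mul,
    exp_coef, coefPW hr1 n (by linarith : 1 < 1 + r) (Wp_dec hr0 hr1)]
  split_ifs <;> simp

/-- Fourier coefficient of the hat function -/
noncomputable def vh (n : ℕ) (m : ℤ) : ℂ := (1 / 2 ^ n : ℂ) * wh 0 (m / 2 ^ n)

theorem cm_zero {r : ℝ} (hr0 : 0 < r) (hr1 : r < 1) (n : ℕ) : cm r n 0 = vh n 0 := by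
  rw [cm_eq hr0 hr1]
  unfold vh
  simp only [if_true, Int.cast_zero, zero_div]
  rw [wh_zero hr0 hr1, wh_hat_zero]; simp

theorem cm_ne {r : ℝ} (hr0 : 0 < r) (hr1 : r < 1) (n : ℕ) (m : ℤ) (hm : m ≠ 0) :
    cm r n m = ((2 * Real.pi) ^ (-r) * (2:ℝ) ^ (r * n) : ℝ) * (2 * Real.pi * ((m / 2 ^ n : ℝ)) * Complex.I) ^ (r:ℂ) * vh n m := by
  have hmr : (m:ℝ) ≠ 0 := by exact_mod_cast hm
  have hξ : (m:ℝ) / 2 ^ n ≠ 0 := div_ne_zero hmr (by positivity)
  have hz : (2 * Real.pi * ((m / 2 ^ n : ℝ)) * Complex.I : ℂ) ≠ 0 := by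
    simp [Real.pi_ne_zero, hm]
  rw [cm_eq hr0 hr1, if_neg hm, zero_add]
  unfold vh
  rw [wh_hat hξ]
  have h1 := fou_W hr1 (Wp_int hr1 (by linarith : 1 < 1 + r) (Wp_dec hr0 hr1)) hξ
  unfold wh
  rw [h1]
  obtain ⟨z, hzd⟩ : ∃ z : ℂ, z = 2 * Real.pi * ((m / 2 ^ n : ℝ)) * Complex.I := ⟨_, rfl⟩
  rw [← hzd] at hz ⊢
  have h2 : z ^ (-(2 - r : ℂ)) = z ^ (r:ℂ) * (z ^ 2)⁻¹ := by
    rw [show (-(2 - r : ℂ)) = (r:ℂ) + (-2) by ring, Complex.cpow_add _ _ hz, Complex.cpow_neg, Complex.cpow_ofNat]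
  rw [h2]
  have h3 : Complex.Gamma (2 - r) = (Real.Gamma (2 - r) : ℂ) := by
    rw [← Complex.Gamma_ofReal]; push_cast; rfl
  have h4 : (Real.Gamma (2 - r) : ℂ) ≠ 0 := by
    have := Real.Gamma_pos_of_pos (by linarith : 0 < 2 - r)
    exact_mod_cast this.ne'
  rw [h3]
  unfold bc
  push_cast
  field_simp

/-- power of an imaginary number -/
theorem cpow_I {r x : ℝ} (hx : 0 < x) : ((x:ℂ) * Complex.I) ^ (r:ℂ) = ((x ^ r : ℝ) : ℂ) * Complex.exp (r * Real.pi / 2 * Complex.I) := by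
  have h0 : ((x:ℂ) * Complex.I) ≠ 0 := by simp [hx.ne']
  rw [Complex.cpow_def_of_ne_zero h0, Complex.log_ofReal_mul hx Complex.I_ne_zero, Complex.log_I, Real.rpow_def_of_pos hx]
  push_cast
  rw [← Complex.exp_add]
  congr 1; ring

theorem cpow_neg_I {r x : ℝ} (hx : 0 < x) : ((x:ℂ) * (-Complex.I)) ^ (r:ℂ) = ((x ^ r : ℝ) : ℂ) * Complex.exp (-(r * Real.pi / 2 * Complex.I)) := by
  have h0 : ((x:ℂ) * (-Complex.I)) ≠ 0 := by simp [hx.ne']
  rw [Complex.cpow_def_of_ne_zero h0, Complex.log_ofReal_mul hx (neg_ne_zero.2 Complex.I_ne_zero), Complex.log_neg_I, Real.rpow_def_of_pos hx]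
  push_cast
  rw [← Complex.exp_add]
  congr 1; ring

theorem scal {r : ℝ} (n : ℕ) {k : ℝ} (hk : 0 < k) :
    ((2 * Real.pi) ^ (-r) * (2:ℝ) ^ (r * n)) * (2 * Real.pi * (k / 2 ^ n)) ^ r = k ^ r := by
  have hπ := Real.pi_pos
  have h0 : (2 * Real.pi * (k / 2 ^ n)) ^ r = (2 * Real.pi) ^ r * (k ^ r / (2:ℝ) ^ (r * n)) := by
    rw [Real.mul_rpow (by positivity) (by positivity), Real.div_rpow hk.le (by positivity), ← Real.rpow_natCast 2 n,
      ← Real.rpow_mul (by norm_num), mul_comm (n:ℝ) r]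
  have h00 : (2 * Real.pi) ^ (-r) = ((2 * Real.pi) ^ r)⁻¹ := Real.rpow_neg (by positivity) _
  rw [h0, h00]
  have h1 : (2 * Real.pi) ^ r ≠ 0 := (Real.rpow_pos_of_pos (by positivity) _).ne'
  have h2 : (2:ℝ) ^ (r * n) ≠ 0 := (Real.rpow_pos_of_pos (by norm_num) _).ne'
  field_simp

theorem coef_pos {r : ℝ} (hr0 : 0 < r) (hr1 : r < 1) (n k : ℕ) :
    ((((k:ℝ) + 1) ^ (-r) : ℝ) : ℂ) * Complex.exp (-(r * Real.pi / 2 * Complex.I)) * cm r n ((k:ℤ) + 1) = vh n ((k:ℤ) + 1) := by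
  have hk : (0:ℝ) < (k:ℝ) + 1 := by positivity
  rw [cm_ne hr0 hr1 n ((k:ℤ)+1) (by omega)]
  have hz : (2 * Real.pi * (((((k:ℤ) + 1 : ℤ) : ℝ) / 2 ^ n : ℝ)) * Complex.I : ℂ) = ((2 * Real.pi * (((k:ℝ)+1) / 2 ^ n) : ℝ) : ℂ) * Complex.I := by
    push_cast; ring
  rw [hz, cpow_I (by have := Real.pi_pos; positivity)]
  have h1 := scal (r := r) n hk
  have h2 : (((k:ℝ) + 1) ^ (-r)) * (((k:ℝ) + 1) ^ r) = 1 := by
    rw [← Real.rpow_add hk, neg_add_cancel, Real.rpow_zero]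
  have h3 : Complex.exp (-(r * Real.pi / 2 * Complex.I)) * Complex.exp (r * Real.pi / 2 * Complex.I) = 1 := by
    rw [← Complex.exp_add, neg_add_cancel, Complex.exp_zero]
  have h4 : ((((k:ℝ) + 1) ^ (-r) : ℝ) : ℂ) * ((((2 * Real.pi) ^ (-r) * (2:ℝ) ^ (r * n)) : ℝ) * (((2 * Real.pi * (((k:ℝ)+1) / 2 ^ n)) ^ r : ℝ) : ℂ)) = 1 := by
    rw [← Complex.ofReal_mul, ← Complex.ofReal_mul, h1, h2, Complex.ofReal_one]
  calc _ = (((((k:ℝ) + 1) ^ (-r) : ℝ) : ℂ) * ((((2 * Real.pi) ^ (-r) * (2:ℝ) ^ (r * n)) : ℝ) * (((2 * Real.pi * (((k:ℝ)+1) / 2 ^ n)) ^ r : ℝ) : ℂ))) *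
        (Complex.exp (-(r * Real.pi / 2 * Complex.I)) * Complex.exp (r * Real.pi / 2 * Complex.I)) * vh n ((k:ℤ)+1) := by ring
    _ = _ := by rw [h4, h3]; ring

theorem coef_neg {r : ℝ} (hr0 : 0 < r) (hr1 : r < 1) (n k : ℕ) :
    ((((k:ℝ) + 1) ^ (-r) : ℝ) : ℂ) * Complex.exp (r * Real.pi / 2 * Complex.I) * cm r n (-((k:ℤ) + 1)) = vh n (-((k:ℤ) + 1)) := by
  have hk : (0:ℝ) < (k:ℝ) + 1 := by positivity
  rw [cm_ne hr0 hr1 n (-((k:ℤ)+1)) (by omega)]
  have hz : (2 * Real.pi * ((((-((k:ℤ) + 1) : ℤ) : ℝ) / 2 ^ n : ℝ)) * Complex.I : ℂ) = ((2 * Real.pi * (((k:ℝ)+1) / 2 ^ n) : ℝ) : ℂ) * (-Complex.I) := by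
    push_cast; ring
  rw [hz, cpow_neg_I (by have := Real.pi_pos; positivity)]
  have h1 := scal (r := r) n hk
  have h2 : (((k:ℝ) + 1) ^ (-r)) * (((k:ℝ) + 1) ^ r) = 1 := by
    rw [← Real.rpow_add hk, neg_add_cancel, Real.rpow_zero]
  have h3 : Complex.exp (r * Real.pi / 2 * Complex.I) * Complex.exp (-(r * Real.pi / 2 * Complex.I)) = 1 := by
    rw [← Complex.exp_add, add_neg_cancel, Complex.exp_zero]
  have h4 : ((((k:ℝ) + 1) ^ (-r) : ℝ) : ℂ) * ((((2 * Real.pi) ^ (-r) * (2:ℝ) ^ (r * n)) : ℝ) * (((2 * Real.pi * (((k:ℝ)+1) / 2 ^ n)) ^ r : ℝ) : ℂ)) = 1 := by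
    rw [← Complex.ofReal_mul, ← Complex.ofReal_mul, h1, h2, Complex.ofReal_one]
  calc _ = (((((k:ℝ) + 1) ^ (-r) : ℝ) : ℂ) * ((((2 * Real.pi) ^ (-r) * (2:ℝ) ^ (r * n)) : ℝ) * (((2 * Real.pi * (((k:ℝ)+1) / 2 ^ n)) ^ r : ℝ) : ℂ))) *
        (Complex.exp (r * Real.pi / 2 * Complex.I) * Complex.exp (-(r * Real.pi / 2 * Complex.I))) * vh n (-((k:ℤ)+1)) := by ring
    _ = _ := by rw [h4, h3]; ring

/-- reflection of the integration variable -/
theorem refl_int {E : Type} [NormedAddCommGroup E] [NormedSpace ℝ E] (g : ℝ → E) (hg : Function.Periodic g 1) (u : ℝ) :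
    ∫ s in (0:ℝ)..1, g (u - s) = ∫ s in (0:ℝ)..1, g s := by
  rw [intervalIntegral.integral_comp_sub_left]
  have := hg.intervalIntegral_add_eq (u - 1) 0
  rw [sub_add_cancel, zero_add] at this
  rw [sub_zero]; exact this

theorem kt_shift_coef (r : ℝ) (n : ℕ) (m : ℤ) (u : ℝ) :
    ∫ s in (0:ℝ)..1, Complex.exp (2 * Real.pi * m * Complex.I * s) * (kt (bc r) r n (u - s) : ℂ) =
      Complex.exp (2 * Real.pi * m * Complex.I * u) * cm r n m := by
  obtain ⟨g, hg⟩ : ∃ g : ℝ → ℂ, g = fun s : ℝ => (kt (bc r) r n s : ℂ) * Complex.exp (-(2 * Real.pi * m * Complex.I * s)) := ⟨_, rfl⟩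
  have hper : Function.Periodic g 1 := by
    intro s
    rw [hg]
    simp only
    have h1 : kt (bc r) r n (s + 1) = kt (bc r) r n s := by
      have := kt_per (bc r) r n s 1
      simpa using this
    rw [h1]
    congr 1
    have h2 : (-(2 * Real.pi * m * Complex.I * ((s + 1 : ℝ) : ℂ)) : ℂ) = -(2 * Real.pi * m * Complex.I * s) + ((-m : ℤ) : ℂ) * (2 * Real.pi * Complex.I) := by
      push_cast; ring
    rw [h2, Complex.exp_add, Complex.exp_int_mul_two_pi_mul_I, mul_one]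
  have h1 : ∀ s : ℝ, Complex.exp (2 * Real.pi * m * Complex.I * s) * (kt (bc r) r n (u - s) : ℂ) =
      Complex.exp (2 * Real.pi * m * Complex.I * u) * g (u - s) := by
    intro s
    rw [hg]
    simp only
    rw [mul_left_comm, ← Complex.exp_add, mul_comm]
    congr 2
    push_cast; ring
  simp only [h1]
  rw [intervalIntegral.integral_const_mul, refl_int g hper u]
  unfold cm
  rw [hg]

/-- the complex form of the partial sums -/
theorem bernPart_cplx (r : ℝ) (N : ℕ) (s : ℝ) :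
    (bernPart r N (2 * Real.pi * s) : ℂ) = 1 + ∑ k ∈ range N,
      (((((k:ℝ) + 1) ^ (-r) : ℝ) : ℂ) * Complex.exp (-(r * Real.pi / 2 * Complex.I)) * Complex.exp (2 * Real.pi * (((k:ℤ) + 1 : ℤ)) * Complex.I * s) +
      ((((k:ℝ) + 1) ^ (-r) : ℝ) : ℂ) * Complex.exp (r * Real.pi / 2 * Complex.I) * Complex.exp (2 * Real.pi * ((-((k:ℤ) + 1) : ℤ)) * Complex.I * s)) := by
  unfold bernPart
  push_cast
  congr 1
  rw [Finset.mul_sum]
  refine Finset.sum_congr rfl fun k _ => ?_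
  rw [mul_left_comm, Complex.two_cos, mul_assoc _ (Complex.exp _) (Complex.exp _), mul_assoc _ (Complex.exp _) (Complex.exp _), ← mul_add]
  congr 1
  rw [← Complex.exp_add, ← Complex.exp_add]
  congr 1
  · congr 1; ring
  · congr 1; ring

theorem part_int {r : ℝ} (hr0 : 0 < r) (hr1 : r < 1) (n N : ℕ) (u : ℝ) :
    ((∫ s in (0:ℝ)..1, bernPart r N (2 * Real.pi * s) * kt (bc r) r n (u - s) : ℝ) : ℂ) =
      vh n 0 + ∑ k ∈ range N, (vh n ((k:ℤ)+1) * Complex.exp (2 * Real.pi * (((k:ℤ) + 1 : ℤ)) * Complex.I * u) +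
        vh n (-((k:ℤ)+1)) * Complex.exp (2 * Real.pi * ((-((k:ℤ) + 1) : ℤ)) * Complex.I * u)) := by
  have hk := kt_cont (b := bc r) hr0 hr1 n
  rw [← intervalIntegral.integral_ofReal]
  have h1 : ∀ s : ℝ, ((bernPart r N (2 * Real.pi * s) * kt (bc r) r n (u - s) : ℝ) : ℂ) =
      Complex.exp (2 * Real.pi * ((0:ℤ)) * Complex.I * s) * (kt (bc r) r n (u - s) : ℂ) + ∑ k ∈ range N,
      (((((k:ℝ) + 1) ^ (-r) : ℝ) : ℂ) * Complex.exp (-(r * Real.pi / 2 * Complex.I)) * (Complex.exp (2 * Real.pi * (((k:ℤ) + 1 : ℤ)) * Complex.I * s) * (kt (bc r) r n (u - s) : ℂ)) +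
      ((((k:ℝ) + 1) ^ (-r) : ℝ) : ℂ) * Complex.exp (r * Real.pi / 2 * Complex.I) * (Complex.exp (2 * Real.pi * ((-((k:ℤ) + 1) : ℤ)) * Complex.I * s) * (kt (bc r) r n (u - s) : ℂ))) := by
    intro s
    rw [Complex.ofReal_mul, bernPart_cplx, add_mul, Finset.sum_mul]
    congr 1
    · simp
    · refine Finset.sum_congr rfl fun k _ => ?_
      ring
  simp only [h1]
  have hi : ∀ m : ℤ, IntervalIntegrable (fun s : ℝ => Complex.exp (2 * Real.pi * m * Complex.I * s) * (kt (bc r) r n (u - s) : ℂ)) volume 0 1 := by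
    intro m; apply Continuous.intervalIntegrable; fun_prop
  have hi2 : ∀ k ∈ range N, IntervalIntegrable (fun s : ℝ => ((((k:ℝ) + 1) ^ (-r) : ℝ) : ℂ) * Complex.exp (-(r * Real.pi / 2 * Complex.I)) * (Complex.exp (2 * Real.pi * (((k:ℤ) + 1 : ℤ)) * Complex.I * s) * (kt (bc r) r n (u - s) : ℂ)) +
      ((((k:ℝ) + 1) ^ (-r) : ℝ) : ℂ) * Complex.exp (r * Real.pi / 2 * Complex.I) * (Complex.exp (2 * Real.pi * ((-((k:ℤ) + 1) : ℤ)) * Complex.I * s) * (kt (bc r) r n (u - s) : ℂ))) volume 0 1 := by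
    intro k _
    exact ((hi _).const_mul _).add ((hi _).const_mul _)
  have hi3 : IntervalIntegrable (fun s : ℝ => ∑ k ∈ range N, (((((k:ℝ) + 1) ^ (-r) : ℝ) : ℂ) * Complex.exp (-(r * Real.pi / 2 * Complex.I)) * (Complex.exp (2 * Real.pi * (((k:ℤ) + 1 : ℤ)) * Complex.I * s) * (kt (bc r) r n (u - s) : ℂ)) +
      ((((k:ℝ) + 1) ^ (-r) : ℝ) : ℂ) * Complex.exp (r * Real.pi / 2 * Complex.I) * (Complex.exp (2 * Real.pi * ((-((k:ℤ) + 1) : ℤ)) * Complex.I * s) * (kt (bc r) r n (u - s) : ℂ)))) volume 0 1 := by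
    apply Continuous.intervalIntegrable
    fun_prop
  rw [intervalIntegral.integral_add (hi 0) hi3, intervalIntegral.integral_finsetSum hi2, kt_shift_coef, cm_zero hr0 hr1]
  congr 1
  · simp
  · refine Finset.sum_congr rfl fun k _ => ?_
    rw [intervalIntegral.integral_add ((hi _).const_mul _) ((hi _).const_mul _), intervalIntegral.integral_const_mul,
      intervalIntegral.integral_const_mul, kt_shift_coef, kt_shift_coef, ← coef_pos hr0 hr1 n k, ← coef_neg hr0 hr1 n k]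
    ring

theorem part_lim {r : ℝ} (hr0 : 0 < r) (hr1 : r < 1) (n : ℕ) (u : ℝ) :
    Tendsto (fun N => ∫ s in (0:ℝ)..1, bernPart r N (2 * Real.pi * s) * kt (bc r) r n (u - s)) atTop (𝓝 (PW 0 n u)) := by
  have h1 := (hatFS n u).nat_add_neg
  have h2 := h1.tendsto_sum_nat.comp (tendsto_add_atTop_nat 1)
  have h3 : Tendsto (fun N : ℕ => ((∫ s in (0:ℝ)..1, bernPart r N (2 * Real.pi * s) * kt (bc r) r n (u - s) : ℝ) : ℂ)) atTop (𝓝 (PW 0 n u : ℂ)) := by
    have h4 := h2.sub_const (vh n 0)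
    have e1 : (PW 0 n u : ℂ) + ((1 / 2 ^ n : ℂ) * wh 0 (((0:ℤ):ℝ) / 2 ^ n)) * Complex.exp (2 * Real.pi * ((0:ℤ)) * Complex.I * u) - vh n 0 = (PW 0 n u : ℂ) := by
      unfold vh; simp
    rw [e1] at h4
    refine h4.congr fun N => ?_
    rw [part_int hr0 hr1 n N u]
    simp only [Function.comp]
    rw [Finset.sum_range_succ']
    unfold vh
    simp
    have : ∀ a b c : ℂ, a + (b + b) - b = b + a + 0 * c := fun a b c => by ring
    ring
  exact_mod_cast (Complex.continuous_re.tendsto _).comp h3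

/-- **the fractional integral of `kt` is the hat function** -/
theorem bern_conv {r : ℝ} (hr0 : 0 < r) (hr1 : r < 1) (n : ℕ) (u : ℝ) :
    ∫ s in (0:ℝ)..1, bern r (2 * Real.pi * s) * kt (bc r) r n (u - s) = PW 0 n u := by
  have hk := kt_cont (b := bc r) hr0 hr1 n
  obtain ⟨B, hB⟩ : ∃ B : ℝ, ∀ t, |kt (bc r) r n t| ≤ B := by
    refine ⟨1 / 2 ^ n + bc r * (2:ℝ) ^ (r * n) * (108 * 2 ^ (1 + r/2) * Cz (r/2)), fun t => ?_⟩
    unfold kt
    refine (abs_add_le _ _).trans ?_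
    rw [abs_of_pos (by positivity : (0:ℝ) < 1 / 2 ^ n), abs_mul, abs_mul, abs_of_pos (bc_pos hr1), abs_of_pos (by positivity : (0:ℝ) < (2:ℝ) ^ (r * n))]
    have := bc_pos hr1
    have := PW_bdd hr0 hr1 n t
    gcongr
  have hlim : Tendsto (fun N => ∫ s in (0:ℝ)..1, bernPart r N (2 * Real.pi * s) * kt (bc r) r n (u - s)) atTop
      (𝓝 (∫ s in (0:ℝ)..1, bern r (2 * Real.pi * s) * kt (bc r) r n (u - s))) := by
    have hne : ∀ᵐ s : ℝ ∂volume, s ≠ 1 := by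
      have : (volume : Measure ℝ) {1} = 0 := by simp
      exact (measure_eq_zero_iff_ae_notMem.1 this)
    apply intervalIntegral.tendsto_integral_filter_of_dominated_convergence (fun s => maj r s * B)
    · refine Filter.Eventually.of_forall fun N => ?_
      apply Continuous.aestronglyMeasurable
      unfold bernPart
      fun_prop
    · refine Filter.Eventually.of_forall fun N => ?_
      filter_upwards [hne] with s hs1 hs
      rw [Set.uIoc_of_le zero_le_one] at hs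
      have hs1' : s < 1 := lt_of_le_of_ne hs.2 hs1
      rw [norm_mul, Real.norm_eq_abs, Real.norm_eq_abs]
      exact mul_le_mul (bernPart_maj hr0 hr1 hs.1 hs1' N) (hB _) (abs_nonneg _) ((abs_nonneg _).trans (bernPart_maj hr0 hr1 hs.1 hs1' N))
    · exact (maj_int hr0).mul_const B
    · filter_upwards [hne] with s hs1 hs
      rw [Set.uIoc_of_le zero_le_one] at hs
      have hs1' : s < 1 := lt_of_le_of_ne hs.2 hs1
      exact (bern_tendsto hr0 (exp_ne_one hs.1 hs1')).mul_const _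
  exact tendsto_nhds_unique hlim (part_lim hr0 hr1 n u)

end H396C
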