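import Pool.Agent.H396R3.C.Ball

/-! The dyadic filtration and the norm on `ZMod (2^M)`. -/

set_option autoImplicit false

open Finset

namespace H396C

/-- cyclic group with `2^M` elements -/
abbrev Zm (M : ℕ) : Type := ZMod (2 ^ M)

/-- number of the dyadic cell of level `k` -/
def cl {M : ℕ} (k : ℕ) (z : Zm M) : ℕ := z.val / 2 ^ (M - k)

theorem cl_coarse {M : ℕ} {k l : ℕ} (hkl : k ≤ l) (z : Zm M) :
    cl k z = cl l z / 2 ^ ((M - k) - (M - l)) := by
  unfold cl
  rw [Nat.div_div_eq_div_mul, ← pow_add]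
  congr 2; omega

theorem cl_mono {M : ℕ} {k l : ℕ} (hkl : k ≤ l) {x y : Zm M} (h : cl l x = cl l y) : cl k x = cl k y := by
  rw [cl_coarse hkl, cl_coarse hkl, h]

theorem cl_lt {M k : ℕ} (hk : k ≤ M) (z : Zm M) : cl k z < 2 ^ k := by
  unfold cl
  rw [Nat.div_lt_iff_lt_mul (by positivity), ← pow_add]
  have := ZMod.val_lt z
  rwa [show k + (M - k) = M by omega]

theorem cell_card {M : ℕ} (k : ℕ) (x : Zm M) :
    (univ.filter fun y : Zm M => cl k y = cl k x).card = 2 ^ (M - k) := by
  obtain ⟨L, hL⟩ : ∃ L, L = 2 ^ (M - k) := ⟨_, rfl⟩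
  have hL0 : 0 < L := by rw [hL]; positivity
  have hdvd : L ∣ 2 ^ M := by rw [hL]; exact pow_dvd_pow 2 (Nat.sub_le M k)
  obtain ⟨c, hc⟩ := hdvd
  have himg : (univ.filter fun y : Zm M => cl k y = cl k x).image ZMod.val =
      Finset.Ico (cl k x * L) (cl k x * L + L) := by
    ext v
    simp only [mem_image, mem_filter, mem_univ, true_and, mem_Ico]
    constructor
    · rintro ⟨y, hy, rfl⟩
      unfold cl at hy ⊢
      rw [← hL] at hy ⊢
      rw [← hy]
      have h1 := Nat.div_add_mod y.val L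
      have h2 := Nat.mod_lt y.val hL0
      constructor
      · rw [mul_comm]; omega
      · rw [mul_comm]; omega
    · rintro ⟨h1, h2⟩
      have hxl : cl k x < c := by
        unfold cl
        rw [← hL, Nat.div_lt_iff_lt_mul hL0, mul_comm, ← hc]
        exact ZMod.val_lt x
      have hv : v < 2 ^ M := by
        rw [hc]
        calc v < cl k x * L + L := h2
          _ = (cl k x + 1) * L := by ring
          _ ≤ c * L := Nat.mul_le_mul_right _ hxl
          _ = L * c := mul_comm _ _
      refine ⟨(v : Zm M), ?_, ZMod.val_cast_of_lt hv⟩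
      unfold cl at h1 h2 ⊢
      rw [ZMod.val_cast_of_lt hv, ← hL]
      rw [← hL] at h1 h2
      apply Nat.div_eq_of_lt_le h1
      rw [Nat.succ_mul]; exact h2
  rw [← Finset.card_image_of_injective _ (ZMod.val_injective (2 ^ M)), himg, Nat.card_Ico, hL]
  omega

/-- average over the cell -/
noncomputable def Av {M : ℕ} (k : ℕ) : (Zm M → ℝ) →ₗ[ℝ] (Zm M → ℝ) where
  toFun f x := (∑ y, if cl k y = cl k x then f y else 0) / 2 ^ (M - k)
  map_add' f g := by
    funext x
    simp only [Pi.add_apply]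
    rw [← add_div, ← Finset.sum_add_distrib]
    congr 1
    refine Finset.sum_congr rfl fun y _ => ?_
    split_ifs <;> simp
  map_smul' t f := by
    funext x
    simp only [Pi.smul_apply, smul_eq_mul, RingHom.id_apply]
    rw [← mul_div_assoc, Finset.mul_sum]
    congr 1
    refine Finset.sum_congr rfl fun y _ => ?_
    split_ifs <;> simp

theorem Av_apply {M : ℕ} (k : ℕ) (f : Zm M → ℝ) (x : Zm M) :
    Av k f x = (∑ y, if cl k y = cl k x then f y else 0) / 2 ^ (M - k) := rfl

theorem Av_const {M : ℕ} (k : ℕ) (f : Zm M → ℝ) (x : Zm M) (h : ∀ y : Zm M, cl k y = cl k x → f y = f x) :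
    Av k f x = f x := by
  rw [Av_apply]
  have h1 : (∑ y : Zm M, if cl k y = cl k x then f y else 0) = ∑ y : Zm M, if cl k y = cl k x then f x else 0 := by
    refine Finset.sum_congr rfl fun y _ => ?_
    split_ifs with h2
    · exact h y h2
    · rfl
  rw [h1, ← Finset.sum_filter, Finset.sum_const, cell_card, nsmul_eq_mul]
  push_cast
  field_simp

theorem Av_same {M : ℕ} (k : ℕ) (f : Zm M → ℝ) {x y : Zm M} (h : cl k x = cl k y) : Av k f x = Av k f y := by
  rw [Av_apply, Av_apply, h]

theorem Av_meas_iff {M : ℕ} (k : ℕ) (f : Zm M → ℝ) : Av k f = f ↔ ∀ x y : Zm M, cl k x = cl k y → f x = f y := by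
  constructor
  · intro h x y hxy
    rw [← h]; exact Av_same k f hxy
  · intro h
    funext x
    exact Av_const k f x (fun y hy => h y x hy)

theorem Av_congr {M : ℕ} (k : ℕ) {f g : Zm M → ℝ} (x : Zm M) (h : ∀ y : Zm M, cl k y = cl k x → f y = g y) :
    Av k f x = Av k g x := by
  rw [Av_apply, Av_apply]
  congr 1
  refine Finset.sum_congr rfl fun y _ => ?_
  split_ifs with h1
  · exact h y h1
  · rfl

/-- Haar sign -/
def sgn {M : ℕ} (k : ℕ) (x : Zm M) : ℝ := if cl (k+1) x % 2 = 0 then 1 else -1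

theorem sgn_sq {M : ℕ} (k : ℕ) (x : Zm M) : sgn k x * sgn k x = 1 := by
  unfold sgn; split_ifs <;> norm_num

theorem cl_half {M k : ℕ} (hk : k < M) (x : Zm M) : cl k x = cl (k+1) x / 2 := by
  rw [cl_coarse (show k ≤ k+1 by omega)]
  have : (M - k) - (M - (k+1)) = 1 := by omega
  rw [this, pow_one]

theorem sgn_mul {M k : ℕ} (hk : k < M) (x y : Zm M) (f : ℝ) :
    (if cl k y = cl k x then f else 0) + sgn k x * (if cl k y = cl k x then sgn k y * f else 0) =
      2 * if cl (k+1) y = cl (k+1) x then f else 0 := by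
  rw [cl_half hk x, cl_half hk y]
  unfold sgn
  rcases Nat.mod_two_eq_zero_or_one (cl (k+1) x) with hx | hx <;>
  rcases Nat.mod_two_eq_zero_or_one (cl (k+1) y) with hy | hy <;>
  rw [hx, hy] <;> simp only [if_true, one_ne_zero, if_false]
  · have : (cl (k+1) y / 2 = cl (k+1) x / 2) ↔ cl (k+1) y = cl (k+1) x := by omega
    simp only [this]; split_ifs <;> ring
  · have : ¬ (cl (k+1) y = cl (k+1) x) := by omega
    simp only [this, if_false]; split_ifs <;> ring
  · have : ¬ (cl (k+1) y = cl (k+1) x) := by omega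
    simp only [this, if_false]; split_ifs <;> ring
  · have : (cl (k+1) y / 2 = cl (k+1) x / 2) ↔ cl (k+1) y = cl (k+1) x := by omega
    simp only [this]; split_ifs <;> ring

/-- the dyadic filtration -/
noncomputable def fil (M : ℕ) : Fil (Zm M) M where
  E := Av
  s := sgn
  mono k f g h x := by
    rw [Av_apply, Av_apply]
    apply div_le_div_of_nonneg_right _ (by positivity)
    exact Finset.sum_le_sum fun y _ => by split_ifs; exacts [h y, le_rfl]
  one k := by
    funext x
    exact Av_const k 1 x (fun _ _ => rfl)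
  pull k φ f h := by
    funext x
    rw [Pi.mul_apply, Av_apply, Av_apply, ← mul_div_assoc, Finset.mul_sum]
    congr 1
    refine Finset.sum_congr rfl fun y _ => ?_
    split_ifs with h1
    · rw [Pi.mul_apply, (Av_meas_iff k φ).1 h y x h1]
    · simp
  idem k f := (Av_meas_iff k _).2 fun x y h => Av_same k f h
  meas k l φ hkl h := (Av_meas_iff l φ).2 fun x y hxy => (Av_meas_iff k φ).1 h x y (cl_mono hkl hxy)
  sum k f := by
    simp only [Av_apply]
    rw [← Finset.sum_div, Finset.sum_comm]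
    have : ∀ y, ∑ x : Zm M, (if cl k y = cl k x then f y else 0) = 2 ^ (M - k) * f y := by
      intro y
      have h1 : ∀ x : Zm M, (if cl k y = cl k x then f y else 0) = if cl k x = cl k y then f y else 0 := by
        intro x; simp only [eq_comm]
      simp only [h1]
      rw [← Finset.sum_filter, Finset.sum_const, cell_card, nsmul_eq_mul]
      push_cast; rfl
    simp only [this, ← Finset.mul_sum]
    field_simp
  top f := by
    funext x
    apply Av_const
    intro y hy
    unfold cl at hy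
    rw [Nat.sub_self, pow_zero, Nat.div_one, Nat.div_one] at hy
    rw [ZMod.val_injective _ hy]
  sq := sgn_sq
  haar k f hk := by
    funext x
    simp only [Pi.add_apply, Pi.mul_apply, Av_apply]
    have h1 : (2:ℝ) ^ (M - k) = 2 * 2 ^ (M - (k+1)) := by
      rw [← pow_succ']; congr 1; omega
    have h2 : ∑ y, (if cl k y = cl k x then f y else 0) + sgn k x * ∑ y, (if cl k y = cl k x then sgn k y * f y else 0) =
        2 * ∑ y, if cl (k+1) y = cl (k+1) x then f y else 0 := by
      rw [Finset.mul_sum, Finset.mul_sum, ← Finset.sum_add_distrib]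
      exact Finset.sum_congr rfl fun y _ => sgn_mul hk x y (f y)
    rw [h1, ← mul_div_assoc, ← add_div, h2]
    field_simp

/-- the cyclic norm -/
def nu {M : ℕ} (z : Zm M) : ℕ := z.valMinAbs.natAbs

theorem nu_card (M ρ : ℕ) : (univ.filter fun z : Zm M => nu z ≤ ρ).card ≤ 2 * ρ + 1 := by
  classical
  have h1 : ((univ.filter fun z : Zm M => nu z ≤ ρ).image ZMod.valMinAbs) ⊆ Finset.Icc (-(ρ:ℤ)) ρ := by
    intro v hv
    obtain ⟨z, hz, rfl⟩ := Finset.mem_image.1 hv
    have h2 : z.valMinAbs.natAbs ≤ ρ := (Finset.mem_filter.1 hz).2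
    rw [Finset.mem_Icc]
    omega
  have h2 := Finset.card_le_card h1
  rw [Finset.card_image_of_injective _ ZMod.injective_valMinAbs, Int.card_Icc] at h2
  refine h2.trans ?_
  omega

noncomputable def nrm (M : ℕ) : Nrm (Zm M) M where
  ν := nu
  neg z := ZMod.natAbs_valMinAbs_neg z
  add a b := (ZMod.natAbs_valMinAbs_add_le a b).trans (Int.natAbs_add_le _ _)
  card := nu_card M
  bd z := by
    have := ZMod.natAbs_valMinAbs_le z
    unfold nu
    omega
  tot := ZMod.card _

theorem nu_le_val_sub {M : ℕ} (x y : Zm M) : (nu (x - y) : ℤ) ≤ |(x.val : ℤ) - y.val| := by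
  unfold nu
  rw [Int.abs_eq_natAbs]
  have h1 : ((x - y).valMinAbs : Zm M) = (((x.val : ℤ) - y.val : ℤ) : Zm M) := by
    rw [ZMod.coe_valMinAbs]
    push_cast
    rw [ZMod.natCast_zmod_val, ZMod.natCast_zmod_val]
  have := ZMod.natAbs_min_of_le_div_two (2^M) _ _ h1 (ZMod.natAbs_valMinAbs_le _)
  exact_mod_cast this

/-- points of one cell are close -/
theorem nu_cell {M k : ℕ} (hk : k ≤ M) {x y : Zm M} (h : cl k x = cl k y) : (nu (x - y) : ℝ) ≤ sc M k := by
  have h1 := nu_le_val_sub x y
  unfold cl at h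
  obtain ⟨L, hL⟩ : ∃ L, L = 2 ^ (M - k) := ⟨_, rfl⟩
  rw [← hL] at h
  have hL0 : 0 < L := by rw [hL]; positivity
  have h2 := Nat.div_add_mod x.val L
  have h3 := Nat.div_add_mod y.val L
  have h4 := Nat.mod_lt x.val hL0
  have h5 := Nat.mod_lt y.val hL0
  rw [h] at h2
  have h6 : |(x.val : ℤ) - y.val| ≤ L := by
    rw [abs_le]
    constructor <;> omega
  have h7 : (nu (x - y) : ℤ) ≤ L := h1.trans h6
  have h8 : nu (x - y) ≤ L := by exact_mod_cast h7
  have h9 : sc M k = (L : ℝ) := by
    rw [hL]; unfold sc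
    push_cast
    rw [pow_sub₀ _ (by norm_num) hk]; rfl
  rw [h9]; exact_mod_cast h8

theorem Av_le_B {M k : ℕ} (hk : k ≤ M) {f : Zm M → ℝ} (hf : ∀ x, 0 ≤ f x) (x : Zm M) :
    Av k f x ≤ (nrm M).B k f x := by
  rw [Av_apply]
  unfold Nrm.B
  have h9 : sc M k = 2 ^ (M - k) := by
    unfold sc
    rw [pow_sub₀ _ (by norm_num) hk]; rfl
  rw [h9]
  apply div_le_div_of_nonneg_right _ (by positivity)
  refine Finset.sum_le_sum fun y _ => ?_
  split_ifs with h1 h2 h2
  · exact le_rfl
  · exact absurd (by rw [← h9]; exact nu_cell hk h1.symm) h2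
  · exact hf y
  · exact le_rfl

end H396C
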