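import Pool.Agent.H396R3.C.Cell

/-! Points of a cell separated by a translation. -/

set_option autoImplicit false

open Finset

namespace H396C

theorem adj {M k : ℕ} {y : Zm M} (h : cl k (y+1) ≠ cl k y) :
    y.val % 2 ^ (M - k) = 2 ^ (M - k) - 1 ∧ (y+1).val % 2 ^ (M - k) = 0 := by
  obtain ⟨L, hL⟩ : ∃ L, L = 2 ^ (M - k) := ⟨_, rfl⟩
  have hL0 : 0 < L := by rw [hL]; positivity
  have hdvd : L ∣ 2 ^ M := by rw [hL]; exact pow_dvd_pow 2 (Nat.sub_le M k)
  unfold cl at h
  rw [← hL] at h ⊢
  have hy := ZMod.val_lt y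
  have h1 : (y + 1).val = (y.val + 1) % 2 ^ M := by
    have : y + 1 = ((y.val + 1 : ℕ) : Zm M) := by push_cast; rw [ZMod.natCast_zmod_val]
    conv_lhs => rw [this]
    rw [ZMod.val_natCast]
  rcases Nat.lt_or_ge (y.val + 1) (2 ^ M) with h2 | h2
  · rw [Nat.mod_eq_of_lt h2] at h1
    rw [h1] at h ⊢
    have e1 := Nat.div_add_mod y.val L
    have e2 := Nat.mod_lt y.val hL0
    have key : y.val % L = L - 1 := by
      by_contra hcon
      apply h
      have : y.val % L + 1 < L := by omega
      have e3 : y.val + 1 = L * (y.val / L) + (y.val % L + 1) := by omega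
      rw [e3, Nat.mul_add_div hL0, Nat.div_eq_of_lt this, add_zero]
    refine ⟨key, ?_⟩
    have e3 : y.val + 1 = L * (y.val / L + 1) := by
      rw [mul_add, mul_one]; omega
    rw [e3, Nat.mul_mod_right]
  · have h3 : y.val + 1 = 2 ^ M := by omega
    rw [h3, Nat.mod_self] at h1
    obtain ⟨c, hc⟩ := hdvd
    refine ⟨?_, by rw [h1, Nat.zero_mod]⟩
    have hc0 : 0 < c := by
      rcases Nat.eq_zero_or_pos c with h | h
      · rw [h, mul_zero] at hc; have : 0 < 2^M := by positivity
        omega
      · exact h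
    obtain ⟨c', rfl⟩ : ∃ c', c = c' + 1 := ⟨c - 1, by omega⟩
    have e3 : y.val = L * c' + (L - 1) := by
      have : y.val + 1 = L * c' + L := by rw [h3, hc]; ring
      omega
    rw [e3, Nat.mul_add_mod]
    exact Nat.mod_eq_of_lt (by omega)

theorem right_one {M k : ℕ} (c : ℕ) :
    (univ.filter fun y : Zm M => cl k y = c ∧ cl k (y+1) ≠ c).card ≤ 1 := by
  rw [Finset.card_le_one]
  intro a ha b hb
  simp only [mem_filter, mem_univ, true_and] at ha hb
  have h1 := (adj (k := k) (y := a) (by rw [ha.1]; exact ha.2)).1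
  have h2 := (adj (k := k) (y := b) (by rw [hb.1]; exact hb.2)).1
  apply ZMod.val_injective
  have e1 := Nat.div_add_mod a.val (2 ^ (M - k))
  have e2 := Nat.div_add_mod b.val (2 ^ (M - k))
  have h3 : a.val / 2 ^ (M - k) = b.val / 2 ^ (M - k) := by
    have := ha.1.trans hb.1.symm
    exact this
  rw [← e1, ← e2, h1, h2, h3]

theorem left_one {M k : ℕ} (c : ℕ) :
    (univ.filter fun y : Zm M => cl k y = c ∧ cl k (y-1) ≠ c).card ≤ 1 := by
  rw [Finset.card_le_one]
  intro a ha b hb
  simp only [mem_filter, mem_univ, true_and] at ha hb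
  have h1 := (adj (k := k) (y := a - 1) (by rw [sub_add_cancel, ha.1]; exact fun h => ha.2 h.symm)).2
  have h2 := (adj (k := k) (y := b - 1) (by rw [sub_add_cancel, hb.1]; exact fun h => hb.2 h.symm)).2
  rw [sub_add_cancel] at h1 h2
  apply ZMod.val_injective
  have e1 := Nat.div_add_mod a.val (2 ^ (M - k))
  have e2 := Nat.div_add_mod b.val (2 ^ (M - k))
  have h3 : a.val / 2 ^ (M - k) = b.val / 2 ^ (M - k) := by
    have := ha.1.trans hb.1.symm
    exact this
  rw [← e1, ← e2, h1, h2, h3]

theorem right_t {M k : ℕ} (c t : ℕ) :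
    (univ.filter fun y : Zm M => cl k y = c ∧ cl k (y + (t : Zm M)) ≠ c).card ≤ t := by
  classical
  induction t with
  | zero => simp
  | succ t ih =>
    have hsub : (univ.filter fun y : Zm M => cl k y = c ∧ cl k (y + ((t+1 : ℕ) : Zm M)) ≠ c) ⊆
        (univ.filter fun y : Zm M => cl k y = c ∧ cl k (y + (t : Zm M)) ≠ c) ∪
        (univ.filter fun y : Zm M => cl k y = c ∧ cl k (y+1) ≠ c).image (fun y => y - (t : Zm M)) := by
      intro y hy
      simp only [mem_filter, mem_univ, true_and, mem_union, mem_image] at hy ⊢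
      by_cases h : cl k (y + (t : Zm M)) = c
      · right
        refine ⟨y + t, ⟨h, ?_⟩, by ring⟩
        have := hy.2
        push_cast at this
        rwa [← add_assoc] at this
      · left; exact ⟨hy.1, h⟩
    refine (Finset.card_le_card hsub).trans ((Finset.card_union_le _ _).trans ?_)
    exact add_le_add ih (Finset.card_image_le.trans (right_one c))

theorem left_t {M k : ℕ} (c t : ℕ) :
    (univ.filter fun y : Zm M => cl k y = c ∧ cl k (y - (t : Zm M)) ≠ c).card ≤ t := by
  classical
  induction t with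
  | zero => simp
  | succ t ih =>
    have hsub : (univ.filter fun y : Zm M => cl k y = c ∧ cl k (y - ((t+1 : ℕ) : Zm M)) ≠ c) ⊆
        (univ.filter fun y : Zm M => cl k y = c ∧ cl k (y - (t : Zm M)) ≠ c) ∪
        (univ.filter fun y : Zm M => cl k y = c ∧ cl k (y-1) ≠ c).image (fun y => y + (t : Zm M)) := by
      intro y hy
      simp only [mem_filter, mem_univ, true_and, mem_union, mem_image] at hy ⊢
      by_cases h : cl k (y - (t : Zm M)) = c
      · right
        refine ⟨y - t, ⟨h, ?_⟩, by ring⟩
        have := hy.2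
        push_cast at this
        rwa [← sub_sub] at this
      · left; exact ⟨hy.1, h⟩
    refine (Finset.card_le_card hsub).trans ((Finset.card_union_le _ _).trans ?_)
    exact add_le_add ih (Finset.card_image_le.trans (left_one c))

/-- the number of points of a cell moved out by a translation -/
theorem cut {M k : ℕ} (c : ℕ) (z : Zm M) :
    (univ.filter fun y : Zm M => cl k y = c ∧ cl k (y + z) ≠ c).card ≤ nu z := by
  rcases Int.natAbs_eq z.valMinAbs with h | h
  · have h1 : z = ((nu z : ℕ) : Zm M) := by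
      have := ZMod.coe_valMinAbs z
      rw [h, Int.cast_natCast] at this
      exact this.symm
    have h2 := right_t (M := M) (k := k) c (nu z)
    rw [← h1] at h2
    exact h2
  · have h1 : -z = ((nu z : ℕ) : Zm M) := by
      have := ZMod.coe_valMinAbs z
      rw [h, Int.cast_neg, Int.cast_natCast] at this
      have h3 : -z = -(-((z.valMinAbs.natAbs : ℕ) : Zm M)) := by rw [this]
      rw [neg_neg] at h3
      exact h3
    have h2 := left_t (M := M) (k := k) c (nu z)
    rw [← h1] at h2
    simpa [sub_neg_eq_add] using h2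

theorem cut_le {M k : ℕ} (hk : k ≤ M) (x : Zm M) (z : Zm M) :
    (((univ.filter fun y : Zm M => cl k y = cl k x ∧ cl k (y + z) ≠ cl k x).card : ℕ) : ℝ) ≤
      min (nu z : ℝ) (sc M k) := by
  apply le_min
  · exact_mod_cast cut (cl k x) z
  · have h1 : (univ.filter fun y : Zm M => cl k y = cl k x ∧ cl k (y + z) ≠ cl k x).card ≤ 2 ^ (M - k) := by
      rw [← cell_card k x]
      apply Finset.card_le_card
      intro y hy
      simp only [mem_filter, mem_univ, true_and] at hy ⊢
      exact hy.1
    have h9 : sc M k = 2 ^ (M - k) := by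
      unfold sc
      rw [pow_sub₀ _ (by norm_num) hk]; rfl
    rw [h9]; exact_mod_cast h1

end H396C
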