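import Pool.Agent.H396R3.C.Bern2

/-! Integration on the torus. -/

set_option autoImplicit false

open Finset MeasureTheory Filter Topology

namespace H396C

/-- the normalised Lebesgue measure `(2π)^{-d} dx` on `[0,2π)^d` -/
noncomputable def torus (d : ℕ) : Measure (Fin d → ℝ) :=
  (ENNReal.ofReal (2 * Real.pi)⁻¹) ^ d • (volume.restrict (Set.univ.pi fun _ => Set.Ico 0 (2 * Real.pi)))

theorem tp_pos : 0 < 2 * Real.pi := by have := Real.pi_pos; positivity

instance torus_prob (d : ℕ) : IsProbabilityMeasure (torus d) := by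
  constructor
  unfold torus
  rw [Measure.smul_apply, Measure.restrict_apply_univ, Real.volume_pi_Ico]
  simp only [sub_zero, Finset.prod_const, Finset.card_univ, Fintype.card_fin, smul_eq_mul]
  rw [← mul_pow, ← ENNReal.ofReal_mul (inv_nonneg.2 tp_pos.le), inv_mul_cancel₀ tp_pos.ne', ENNReal.ofReal_one, one_pow]

theorem torus_restrict (d : ℕ) : (volume : Measure (Fin d → ℝ)).restrict (Set.univ.pi fun _ => Set.Ico 0 (2 * Real.pi)) =
    Measure.pi (fun _ => (volume : Measure ℝ).restrict (Set.Ico 0 (2 * Real.pi))) := by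
  rw [volume_pi]
  exact Measure.restrict_pi_pi _ _

theorem torus_prod {d : ℕ} (G : Fin d → ℝ → ℝ) :
    ∫ y, ∏ i, G i (y i) ∂(torus d) = ∏ i, ((2 * Real.pi)⁻¹ * ∫ y in Set.Ico 0 (2 * Real.pi), G i y) := by
  unfold torus
  rw [integral_smul_measure, torus_restrict]
  have h1 := integral_fintype_prod_eq_prod (𝕜 := ℝ) (μ := fun _ : Fin d => (volume : Measure ℝ).restrict (Set.Ico 0 (2 * Real.pi))) G
  rw [h1, Finset.prod_mul_distrib, ENNReal.toReal_pow, ENNReal.toReal_ofReal (inv_nonneg.2 tp_pos.le), smul_eq_mul]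
  simp

theorem torus_prod_int {d : ℕ} (G : Fin d → ℝ → ℝ) (hG : ∀ i, IntegrableOn (G i) (Set.Ico 0 (2 * Real.pi))) :
    Integrable (fun y : Fin d → ℝ => ∏ i, G i (y i)) (torus d) := by
  unfold torus
  apply Integrable.smul_measure
  · rw [torus_restrict]
    exact Integrable.fintype_prod (f := G) hG
  · exact ENNReal.pow_ne_top ENNReal.ofReal_ne_top

/-- integrability of the Bernoulli kernel -/
theorem bern_int {r : ℝ} (hr0 : 0 < r) (hr1 : r < 1) : IntervalIntegrable (fun s => bern r (2 * Real.pi * s)) volume 0 1 := by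
  have hne : ∀ᵐ s : ℝ ∂volume, s ≠ 1 := by
    have : (volume : Measure ℝ) {1} = 0 := by simp
    exact (measure_eq_zero_iff_ae_notMem.1 this)
  have hlim : ∀ᵐ s : ℝ ∂(volume.restrict (Set.Ioc (0:ℝ) 1)), Tendsto (fun N => bernPart r N (2 * Real.pi * s)) atTop (𝓝 (bern r (2 * Real.pi * s))) := by
    rw [ae_restrict_iff' measurableSet_Ioc]
    filter_upwards [hne] with s hs1 hs
    exact bern_tendsto hr0 (exp_ne_one hs.1 (lt_of_le_of_ne hs.2 hs1))
  have hmeas : AEStronglyMeasurable (fun s => bern r (2 * Real.pi * s)) (volume.restrict (Set.Ioc (0:ℝ) 1)) := by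
    apply aestronglyMeasurable_of_tendsto_ae atTop (f := fun N s => bernPart r N (2 * Real.pi * s)) _ hlim
    intro N
    apply Continuous.aestronglyMeasurable
    unfold bernPart
    fun_prop
  rw [intervalIntegrable_iff_integrableOn_Ioc_of_le zero_le_one]
  have hm := (maj_int (r := r) hr0)
  rw [intervalIntegrable_iff_integrableOn_Ioc_of_le zero_le_one] at hm
  refine Integrable.mono' hm hmeas ?_
  rw [ae_restrict_iff' measurableSet_Ioc]
  filter_upwards [hne] with s hs1 hs
  have hs1' : s < 1 := lt_of_le_of_ne hs.2 hs1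
  have h1 := (bern_tendsto hr0 (exp_ne_one hs.1 hs1')).abs
  rw [Real.norm_eq_abs]
  exact le_of_tendsto h1 (Filter.Eventually.of_forall fun N => bernPart_maj hr0 hr1 hs.1 hs1' N)

/-- one dimensional convolution identity -/
theorem conv1 {r : ℝ} (hr0 : 0 < r) (hr1 : r < 1) (n : ℕ) (x a : ℝ) :
    IntegrableOn (fun y => bern r (x - y) * kt (bc r) r n (y / (2 * Real.pi) - a)) (Set.Ico 0 (2 * Real.pi)) ∧
    (2 * Real.pi)⁻¹ * ∫ y in Set.Ico 0 (2 * Real.pi), bern r (x - y) * kt (bc r) r n (y / (2 * Real.pi) - a) =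
      PW 0 n (x / (2 * Real.pi) - a) := by
  have h2π := tp_pos
  obtain ⟨u, hu⟩ : ∃ u, u = x / (2 * Real.pi) - a := ⟨_, rfl⟩
  obtain ⟨U, hU⟩ : ∃ U, U = x / (2 * Real.pi) := ⟨_, rfl⟩
  obtain ⟨g, hg⟩ : ∃ g : ℝ → ℝ, g = fun s => bern r (2 * Real.pi * s) * kt (bc r) r n (u - s) := ⟨_, rfl⟩
  obtain ⟨G, hG⟩ : ∃ G : ℝ → ℝ, G = fun y => bern r (x - y) * kt (bc r) r n (y / (2 * Real.pi) - a) := ⟨_, rfl⟩
  have hper : Function.Periodic g 1 := by
    intro s
    rw [hg]
    simp only
    have h1 : bern r (2 * Real.pi * (s + 1)) = bern r (2 * Real.pi * s) := by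
      rw [mul_add, mul_one]; exact bern_per r _
    have h2 : kt (bc r) r n (u - (s + 1)) = kt (bc r) r n (u - s) := by
      have := kt_per (bc r) r n (u - s) (-1)
      rw [← this]; congr 1; push_cast; ring
    rw [h1, h2]
  have hGg : ∀ s, G (2 * Real.pi * s) = g (U - s) := by
    intro s
    rw [hG, hg]
    simp only
    congr 2
    · rw [hU]; field_simp
    · rw [hU, hu]; field_simp; ring
  have hk := kt_cont (b := bc r) hr0 hr1 n
  have hgi : IntervalIntegrable g volume 0 1 := by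
    rw [hg]
    exact (bern_int hr0 hr1).mul_continuousOn (by fun_prop)
  have hgi2 : ∀ a b, IntervalIntegrable g volume a b := fun a b =>
    hper.intervalIntegrable one_ne_zero (t := 0) (by simpa using hgi) a b
  have hGi : IntervalIntegrable (fun s => G (2 * Real.pi * s)) volume 0 1 := by
    simp only [hGg]
    have h1 := (hgi2 U (U - 1)).comp_sub_left U
    simp only [sub_self, sub_sub_cancel] at h1
    exact h1
  have hGi2 : IntervalIntegrable G volume 0 (2 * Real.pi) := by
    have h1 := hGi.comp_mul_left (c := (2 * Real.pi)⁻¹)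
    simp only [zero_div, one_div, inv_inv] at h1
    have h2 : (fun x => G (2 * Real.pi * ((2 * Real.pi)⁻¹ * x))) = G := by
      funext x
      rw [← mul_assoc, mul_inv_cancel₀ h2π.ne', one_mul]
    rw [h2] at h1
    exact h1
  constructor
  · rw [integrableOn_Ico_iff_integrableOn_Ioo, ← integrableOn_Ioc_iff_integrableOn_Ioo, ← intervalIntegrable_iff_integrableOn_Ioc_of_le h2π.le]
    rw [hG] at hGi2
    exact hGi2
  · rw [← hu]
    have h1 := bern_conv hr0 hr1 n u
    have h2 := refl_int g hper U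
    rw [hg] at h2
    simp only at h2
    rw [h1] at h2
    rw [← h2]
    have h3 : ∀ s, bern r (2 * Real.pi * (U - s)) * kt (bc r) r n (u - (U - s)) = G (2 * Real.pi * s) := by
      intro s
      rw [hGg, hg]
    simp only [h3]
    have h4 : (2 * Real.pi) * ∫ s in (0:ℝ)..1, G (2 * Real.pi * s) = ∫ y in (0:ℝ)..(2 * Real.pi), G y := by
      rw [intervalIntegral.mul_integral_comp_mul_left]; simp
    rw [integral_Ico_eq_integral_Ioc, ← intervalIntegral.integral_of_le h2π.le]
    rw [hG] at h4 ⊢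
    rw [← h4, ← mul_assoc, inv_mul_cancel₀ h2π.ne', one_mul]

/-- integral of the periodic hat function -/
theorem hat_int (n : ℕ) (a : ℝ) :
    IntegrableOn (fun y => PW 0 n (y / (2 * Real.pi) - a)) (Set.Ico 0 (2 * Real.pi)) ∧
    (2 * Real.pi)⁻¹ * ∫ y in Set.Ico 0 (2 * Real.pi), PW 0 n (y / (2 * Real.pi) - a) = 1 / 2 ^ n := by
  have h2π := tp_pos
  have hc := PW_cont one_pos n (by norm_num : (1:ℝ) < 2) hat_dec
  obtain ⟨G, hG⟩ : ∃ G : ℝ → ℝ, G = fun y => PW 0 n (y / (2 * Real.pi) - a) := ⟨_, rfl⟩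
  have hGc : Continuous G := by rw [hG]; fun_prop
  have hGi2 : IntervalIntegrable G volume 0 (2 * Real.pi) := hGc.intervalIntegrable _ _
  constructor
  · rw [integrableOn_Ico_iff_integrableOn_Ioo, ← integrableOn_Ioc_iff_integrableOn_Ioo, ← intervalIntegrable_iff_integrableOn_Ioc_of_le h2π.le, ← hG]
    exact hGi2
  · rw [integral_Ico_eq_integral_Ioc, ← intervalIntegral.integral_of_le h2π.le]
    have h4 : (2 * Real.pi) * ∫ s in (0:ℝ)..1, G (2 * Real.pi * s) = ∫ y in (0:ℝ)..(2 * Real.pi), G y := by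
      rw [intervalIntegral.mul_integral_comp_mul_left]; simp
    rw [hG] at h4
    rw [← h4, ← mul_assoc, inv_mul_cancel₀ h2π.ne', one_mul]
    have h5 : ∀ s : ℝ, PW 0 n (2 * Real.pi * s / (2 * Real.pi) - a) = PW 0 n (s - a) := by
      intro s; congr 2; field_simp
    simp only [h5]
    have hper : Function.Periodic (PW 0 n) 1 := by
      intro s
      have := PW_per 0 n s 1
      simpa using this
    rw [intervalIntegral.integral_comp_sub_right]
    have h6 := hper.intervalIntegral_add_eq (0 - a) 0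
    rw [show (0:ℝ) - a + 1 = 1 - a by ring, zero_add] at h6
    rw [h6]
    have h7 := coefPW one_pos n (by norm_num : (1:ℝ) < 2) hat_dec 0
    simp only [Int.cast_zero, mul_zero, zero_mul, neg_zero, Complex.exp_zero, mul_one, zero_div] at h7
    rw [wh_hat_zero, mul_one, intervalIntegral.integral_ofReal] at h7
    apply Complex.ofReal_injective
    rw [h7]; push_cast; rfl

/-- averaging over the lattice translates -/
theorem torus_cover {d : ℕ} (M : ℕ) (g : (Fin d → ℝ) → ENNReal) (C : ENNReal) (hgm : Measurable g)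
    (hg : ∀ t : Fin d → ℝ, (∀ i, 0 ≤ t i ∧ t i * 2 ^ M ≤ 1) →
      ∑ x : Fin d → Zm M, g (fun i => 2 * Real.pi * (t i + (x i).val / 2 ^ M)) ≤ C * (2 ^ M) ^ d) :
    ∫⁻ y, g y ∂(torus d) ≤ C := by
  have h2π := tp_pos
  have hN : (0:ℝ) < 2 ^ M := by positivity
  obtain ⟨w, hw⟩ : ∃ w : ℝ, w = 2 * Real.pi / 2 ^ M := ⟨_, rfl⟩
  have hw0 : 0 < w := by rw [hw]; positivity
  obtain ⟨Q, hQ⟩ : ∃ Q : Set (Fin d → ℝ), Q = Set.univ.pi fun _ => Set.Ico 0 w := ⟨_, rfl⟩
  have hcover : (Set.univ.pi fun _ : Fin d => Set.Ico 0 (2 * Real.pi)) ⊆ ⋃ x : Fin d → Zm M, (fun y => y + fun i => w * ((x i).val : ℝ)) '' Q := by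
    intro y hy
    rw [Set.mem_iUnion]
    have hfl : ∀ i, (⌊y i / w⌋₊ : ℕ) < 2 ^ M := by
      intro i
      have := hy i (Set.mem_univ i)
      rw [Nat.floor_lt (div_nonneg this.1 hw0.le), div_lt_iff₀ hw0]
      push_cast
      rw [hw]
      have h1 : 2 ^ M * (2 * Real.pi / 2 ^ M) = 2 * Real.pi := by field_simp
      rw [h1]; exact this.2
    refine ⟨fun i => ((⌊y i / w⌋₊ : ℕ) : Zm M), fun i => y i - w * ⌊y i / w⌋₊, ?_, ?_⟩
    · rw [hQ]
      intro i _
      have := hy i (Set.mem_univ i)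
      have h1 := Nat.floor_le (div_nonneg this.1 hw0.le)
      have h2 := Nat.lt_floor_add_one (y i / w)
      rw [le_div_iff₀ hw0] at h1
      rw [div_lt_iff₀ hw0] at h2
      constructor
      · simp only; linarith
      · simp only; linarith
    · funext i
      simp only [Pi.add_apply]
      rw [ZMod.val_cast_of_lt (hfl i)]
      ring
  have hQm : MeasurableSet Q := by
    rw [hQ]; exact MeasurableSet.univ_pi fun _ => measurableSet_Ico
  have hQv : volume Q = (ENNReal.ofReal w) ^ d := by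
    rw [hQ, Real.volume_pi_Ico]; simp
  unfold torus
  rw [lintegral_smul_measure]
  have h1 : ∫⁻ y in (Set.univ.pi fun _ : Fin d => Set.Ico 0 (2 * Real.pi)), g y ≤ C * (2 ^ M) ^ d * (ENNReal.ofReal w) ^ d := by
    calc ∫⁻ y in (Set.univ.pi fun _ : Fin d => Set.Ico 0 (2 * Real.pi)), g y
        ≤ ∫⁻ y in (⋃ x : Fin d → Zm M, (fun y => y + fun i => w * ((x i).val : ℝ)) '' Q), g y :=
          lintegral_mono_set hcover
      _ ≤ ∑' x : Fin d → Zm M, ∫⁻ y in ((fun y => y + fun i => w * ((x i).val : ℝ)) '' Q), g y :=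
          lintegral_iUnion_le _ _
      _ = ∑ x : Fin d → Zm M, ∫⁻ y in Q, g (y + fun i => w * ((x i).val : ℝ)) := by
          rw [tsum_fintype]
          refine Finset.sum_congr rfl fun x _ => ?_
          have h2 := (measurePreserving_add_right (volume : Measure (Fin d → ℝ)) (fun i => w * ((x i).val : ℝ)))
          rw [← h2.setLIntegral_comp_emb (MeasurableEquiv.addRight (fun i => w * ((x i).val : ℝ))).measurableEmbedding g Q]
      _ = ∫⁻ y in Q, ∑ x : Fin d → Zm M, g (y + fun i => w * ((x i).val : ℝ)) := by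
          rw [lintegral_finsetSum]
          intro x _
          fun_prop
      _ ≤ ∫⁻ y in Q, C * (2 ^ M) ^ d := by
          refine setLIntegral_mono' hQm fun y hy => ?_
          have h3 := hg (fun i => y i / (2 * Real.pi)) (fun i => by
            rw [hQ] at hy
            have h4 := hy i (Set.mem_univ i)
            refine ⟨div_nonneg h4.1 h2π.le, ?_⟩
            have h5 := h4.2
            rw [hw, lt_div_iff₀ hN] at h5
            rw [div_mul_eq_mul_div, div_le_one h2π]
            exact h5.le)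
          refine le_trans (le_of_eq ?_) h3
          refine Finset.sum_congr rfl fun x _ => ?_
          congr 1
          funext i
          simp only [Pi.add_apply]
          rw [hw]; field_simp
      _ = _ := by
          rw [setLIntegral_const, hQv]
  refine (mul_le_mul_right h1 _).trans (le_of_eq ?_)
  have h5 : (ENNReal.ofReal (2 * Real.pi)⁻¹) ^ d * ((2:ENNReal) ^ M) ^ d * (ENNReal.ofReal w) ^ d = 1 := by
    rw [← mul_pow, ← mul_pow]
    have h6 : ENNReal.ofReal (2 * Real.pi)⁻¹ * (2:ENNReal) ^ M * ENNReal.ofReal w = 1 := by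
      have h7 : (2:ENNReal) ^ M = ENNReal.ofReal (2 ^ M) := by
        rw [ENNReal.ofReal_pow (by norm_num)]; simp
      rw [h7, ← ENNReal.ofReal_mul (inv_nonneg.2 h2π.le), ← ENNReal.ofReal_mul (by positivity), hw]
      have h8 : (2 * Real.pi)⁻¹ * 2 ^ M * (2 * Real.pi / 2 ^ M) = 1 := by field_simp
      rw [h8, ENNReal.ofReal_one]
    rw [h6, one_pow]
  calc (ENNReal.ofReal (2 * Real.pi)⁻¹) ^ d * (C * (2 ^ M) ^ d * (ENNReal.ofReal w) ^ d)
      = C * ((ENNReal.ofReal (2 * Real.pi)⁻¹) ^ d * ((2:ENNReal) ^ M) ^ d * (ENNReal.ofReal w) ^ d) := by ring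
    _ = C := by rw [h5, mul_one]

end H396C
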