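import Pool.Agent.H396R3.C.Fool1

/-! The fooling function. -/

set_option autoImplicit false

open Finset MeasureTheory Filter Topology

namespace H396C

/-- the multivariate Bernoulli kernel -/
noncomputable def bernD (r : ℝ) {d : ℕ} (x : Fin d → ℝ) : ℝ := ∏ j, bern r (x j)

/-- the Sobolev class of functions with bounded mixed derivative -/
def SobolevClass (d : ℕ) (r p : ℝ) : Set ((Fin d → ℝ) → ℝ) :=
  {f | ∃ φ : (Fin d → ℝ) → ℝ, AEStronglyMeasurable φ (torus d) ∧ eLpNorm φ (ENNReal.ofReal p) (torus d) ≤ 1 ∧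
    ∀ x, f x = ∫ y, bernD r (x - y) * φ y ∂(torus d)}

/-- superpositions of tensor products -/
noncomputable def Ph {ι : Type} {M d : ℕ} (g : ℕ → ℝ → ℝ) (J : Finset ι) (A : ι → Finset (Fin d → ℕ))
    (h : ι → (Fin d → Zm M) → ℝ) (x : Fin d → ℝ) : ℝ :=
  ∑ j ∈ J, ∑ s ∈ A j, ∑ y, (∏ i, (g (s i) (x i / (2 * Real.pi) - (cl (s i) (y i) : ℝ) / 2 ^ (s i)) / sc M (s i))) * h j y

theorem Ph_cont {ι : Type} {M d : ℕ} {g : ℕ → ℝ → ℝ} (hg : ∀ n, Continuous (g n)) (J : Finset ι) (A : ι → Finset (Fin d → ℕ))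
    (h : ι → (Fin d → Zm M) → ℝ) : Continuous (Ph g J A h) := by
  unfold Ph
  refine continuous_finset_sum _ fun j _ => continuous_finset_sum _ fun s _ => continuous_finset_sum _ fun y _ => ?_
  refine Continuous.mul ?_ continuous_const
  refine continuous_finset_prod _ fun i _ => ?_
  have := hg (s i)
  fun_prop

/-- the convolution identity -/
theorem Ph_conv {r : ℝ} (hr0 : 0 < r) (hr1 : r < 1) {ι : Type} {M d : ℕ} (J : Finset ι) (A : ι → Finset (Fin d → ℕ))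
    (h : ι → (Fin d → Zm M) → ℝ) (x : Fin d → ℝ) :
    ∫ y, bernD r (x - y) * Ph (kt (bc r) r) J A h y ∂(torus d) = Ph (PW 0) J A h x := by
  have hterm : ∀ (s : Fin d → ℕ) (z : Fin d → Zm M) (c : ℝ),
      Integrable (fun y : Fin d → ℝ => bernD r (x - y) * ((∏ i, (kt (bc r) r (s i) (y i / (2 * Real.pi) - (cl (s i) (z i) : ℝ) / 2 ^ (s i)) / sc M (s i))) * c)) (torus d) ∧
      ∫ y, bernD r (x - y) * ((∏ i, (kt (bc r) r (s i) (y i / (2 * Real.pi) - (cl (s i) (z i) : ℝ) / 2 ^ (s i)) / sc M (s i))) * c) ∂(torus d) =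
      (∏ i, (PW 0 (s i) (x i / (2 * Real.pi) - (cl (s i) (z i) : ℝ) / 2 ^ (s i)) / sc M (s i))) * c := by
    intro s z c
    obtain ⟨G, hG⟩ : ∃ G : Fin d → ℝ → ℝ, G = fun i y => (bern r (x i - y) * kt (bc r) r (s i) (y / (2 * Real.pi) - (cl (s i) (z i) : ℝ) / 2 ^ (s i))) / sc M (s i) := ⟨_, rfl⟩
    have h1 : ∀ y : Fin d → ℝ, bernD r (x - y) * ((∏ i, (kt (bc r) r (s i) (y i / (2 * Real.pi) - (cl (s i) (z i) : ℝ) / 2 ^ (s i)) / sc M (s i))) * c) =
        (∏ i, G i (y i)) * c := by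
      intro y
      unfold bernD
      rw [← mul_assoc, ← Finset.prod_mul_distrib, hG]
      congr 1
      refine Finset.prod_congr rfl fun i _ => ?_
      simp only [Pi.sub_apply]
      ring
    have hGi : ∀ i, IntegrableOn (G i) (Set.Ico 0 (2 * Real.pi)) := by
      intro i
      rw [hG]
      exact (conv1 hr0 hr1 (s i) (x i) ((cl (s i) (z i) : ℝ) / 2 ^ (s i))).1.div_const _
    simp only [h1]
    refine ⟨(torus_prod_int G hGi).mul_const c, ?_⟩
    rw [integral_mul_const, torus_prod]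
    congr 1
    refine Finset.prod_congr rfl fun i _ => ?_
    rw [hG]
    simp only
    rw [integral_div, ← (conv1 hr0 hr1 (s i) (x i) ((cl (s i) (z i) : ℝ) / 2 ^ (s i))).2]
    ring
  unfold Ph
  have h2 : ∀ y : Fin d → ℝ, bernD r (x - y) * ∑ j ∈ J, ∑ s ∈ A j, ∑ z, (∏ i, (kt (bc r) r (s i) (y i / (2 * Real.pi) - (cl (s i) (z i) : ℝ) / 2 ^ (s i)) / sc M (s i))) * h j z =
      ∑ j ∈ J, ∑ s ∈ A j, ∑ z, bernD r (x - y) * ((∏ i, (kt (bc r) r (s i) (y i / (2 * Real.pi) - (cl (s i) (z i) : ℝ) / 2 ^ (s i)) / sc M (s i))) * h j z) := by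
    intro y
    rw [Finset.mul_sum]
    refine Finset.sum_congr rfl fun j _ => ?_
    rw [Finset.mul_sum]
    refine Finset.sum_congr rfl fun s _ => ?_
    rw [Finset.mul_sum]
  simp only [h2]
  rw [integral_finsetSum]
  · refine Finset.sum_congr rfl fun j _ => ?_
    rw [integral_finsetSum]
    · refine Finset.sum_congr rfl fun s _ => ?_
      rw [integral_finsetSum]
      · refine Finset.sum_congr rfl fun z _ => ?_
        exact (hterm s z (h j z)).2
      · intro z _; exact (hterm s z (h j z)).1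
    · intro s _
      exact integrable_finset_sum _ fun z _ => (hterm s z (h j z)).1
  · intro j _
    exact integrable_finset_sum _ fun s _ => integrable_finset_sum _ fun z _ => (hterm s z (h j z)).1

/-- the integral of the superposition of hat functions -/
theorem Ph_int {ι : Type} {M d : ℕ} (J : Finset ι) (A : ι → Finset (Fin d → ℕ))
    (h : ι → (Fin d → Zm M) → ℝ) :
    ∫ y, Ph (PW 0) J A h y ∂(torus d) = ∑ j ∈ J, ∑ _s ∈ A j, (∑ y, h j y) / (2 ^ M) ^ d := by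
  have hterm : ∀ (s : Fin d → ℕ) (z : Fin d → Zm M) (c : ℝ),
      Integrable (fun y : Fin d → ℝ => (∏ i, (PW 0 (s i) (y i / (2 * Real.pi) - (cl (s i) (z i) : ℝ) / 2 ^ (s i)) / sc M (s i))) * c) (torus d) ∧
      ∫ y, (∏ i, (PW 0 (s i) (y i / (2 * Real.pi) - (cl (s i) (z i) : ℝ) / 2 ^ (s i)) / sc M (s i))) * c ∂(torus d) =
      c / (2 ^ M) ^ d := by
    intro s z c
    obtain ⟨G, hG⟩ : ∃ G : Fin d → ℝ → ℝ, G = fun i y => PW 0 (s i) (y / (2 * Real.pi) - (cl (s i) (z i) : ℝ) / 2 ^ (s i)) / sc M (s i) := ⟨_, rfl⟩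
    have h1 : ∀ y : Fin d → ℝ, (∏ i, (PW 0 (s i) (y i / (2 * Real.pi) - (cl (s i) (z i) : ℝ) / 2 ^ (s i)) / sc M (s i))) * c =
        (∏ i, G i (y i)) * c := by
      intro y; rw [hG]
    have hGi : ∀ i, IntegrableOn (G i) (Set.Ico 0 (2 * Real.pi)) := by
      intro i
      rw [hG]
      exact (hat_int (s i) ((cl (s i) (z i) : ℝ) / 2 ^ (s i))).1.div_const _
    simp only [h1]
    refine ⟨(torus_prod_int G hGi).mul_const c, ?_⟩
    rw [integral_mul_const, torus_prod]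
    have h2 : ∀ i ∈ (univ : Finset (Fin d)), (2 * Real.pi)⁻¹ * ∫ y in Set.Ico 0 (2 * Real.pi), G i y = 1 / 2 ^ M := by
      intro i _
      rw [hG]
      simp only
      rw [integral_div, ← mul_div_assoc, (hat_int (s i) ((cl (s i) (z i) : ℝ) / 2 ^ (s i))).2]
      unfold sc
      field_simp
    rw [Finset.prod_congr rfl h2, Finset.prod_const, Finset.card_univ, Fintype.card_fin, one_div, inv_pow]
    ring
  unfold Ph
  rw [integral_finsetSum]
  · refine Finset.sum_congr rfl fun j _ => ?_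
    rw [integral_finsetSum]
    · refine Finset.sum_congr rfl fun s _ => ?_
      rw [integral_finsetSum]
      · rw [Finset.sum_div]
        refine Finset.sum_congr rfl fun z _ => ?_
        exact (hterm s z (h j z)).2
      · intro z _; exact (hterm s z (h j z)).1
    · intro s _
      exact integrable_finset_sum _ fun z _ => (hterm s z (h j z)).1
  · intro j _
    exact integrable_finset_sum _ fun s _ => integrable_finset_sum _ fun z _ => (hterm s z (h j z)).1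

/-- the norm of the derivative -/
theorem Ph_norm {r : ℝ} (hr0 : 0 < r) (hr1 : r < 1) (q d : ℕ) :
    ∃ K : ℝ, 0 < K ∧ ∀ (M : ℕ) {ι : Type} (J : Finset ι) (l : ι → ℕ) (A : ι → Finset (Fin d → ℕ)),
      (∀ i ∈ J, ∀ j ∈ J, i ≠ j → Disjoint (A i) (A j)) →
      (∀ j ∈ J, ∀ s ∈ A j, (∑ i, s i = l j) ∧ ∀ i, s i ≤ M) →
      ∀ h : ι → (Fin d → Zm M) → ℝ, (∀ j ∈ J, ∀ x, |h j x| ≤ 1) →
      eLpNorm (Ph (kt (bc r) r) J A h) ((2 * (q+1) : ℕ) : ENNReal) (torus d) ≤
        ENNReal.ofReal (K * Real.sqrt (∑ j ∈ J, (2:ℝ) ^ (2 * r * l j))) := by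
  obtain ⟨K, hK, hmain⟩ := mainD r (r/2) (ee r) (CC (bc r) r) hr0 (by linarith) (by linarith) (ee_pos hr0 hr1) (ee_le r)
    (CC_pos (bc_pos hr1) r) q d
  obtain ⟨e, he⟩ : ∃ e : ℝ, e = ((2 * (q+1) : ℕ) : ℝ) := ⟨_, rfl⟩
  have he0 : 0 < e := by rw [he]; positivity
  refine ⟨K ^ (1 / e), by positivity, ?_⟩
  intro M ι J l A hdisj hA h hh
  obtain ⟨L, hL⟩ : ∃ L : ℝ, L = ∑ j ∈ J, (2:ℝ) ^ (2 * r * l j) := ⟨_, rfl⟩
  have hL0 : 0 ≤ L := by rw [hL]; exact Finset.sum_nonneg fun _ _ => by positivity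
  obtain ⟨φ, hφ⟩ : ∃ φ : (Fin d → ℝ) → ℝ, φ = Ph (kt (bc r) r) J A h := ⟨_, rfl⟩
  have hφc : Continuous φ := by rw [hφ]; exact Ph_cont (fun n => kt_cont hr0 hr1 n) J A h
  rw [← hL, ← hφ]
  have hcov : ∫⁻ y, ENNReal.ofReal ((φ y ^ 2) ^ (q+1)) ∂(torus d) ≤ ENNReal.ofReal (K * L ^ (q+1)) := by
    apply torus_cover M _ _ (by fun_prop)
    intro t ht
    have h1 := hmain M M le_rfl (fun i => kap (bc r) r M (t i)) (fun i => kap_per _ _ _ _) (fun i => kap_ref hr0 hr1 _ _)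
      (fun i => kap_KF (bc_pos hr1) hr0 hr1 le_rfl (ht i).1 (ht i).2) J l A hdisj hA h hh
    rw [← hL] at h1
    have h2 : ∀ x : Fin d → Zm M, φ (fun i => 2 * Real.pi * (t i + (x i).val / 2 ^ M)) =
        ∑ j ∈ J, ∑ s ∈ A j, tp (fun i => km (kap (bc r) r M (t i))) s (h j) x := by
      intro x
      rw [hφ]
      unfold Ph tp tk km kap
      refine Finset.sum_congr rfl fun j _ => Finset.sum_congr rfl fun s _ => Finset.sum_congr rfl fun y _ => ?_
      congr 1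
      refine Finset.prod_congr rfl fun i _ => ?_
      have h3 : 2 * Real.pi * (t i + ((x i).val : ℝ) / 2 ^ M) / (2 * Real.pi) = t i + ((x i).val : ℝ) / 2 ^ M := by
        rw [mul_div_cancel_left₀ _ tp_pos.ne']
      rw [h3]; push_cast; rfl
    simp only [h2]
    rw [← ENNReal.ofReal_sum_of_nonneg (fun x _ => by positivity)]
    have h4 : ENNReal.ofReal (K * L ^ (q+1)) * (2 ^ M) ^ d = ENNReal.ofReal (K * L ^ (q+1) * (2 ^ M) ^ d) := by
      rw [ENNReal.ofReal_mul (p := K * L ^ (q+1)) (by positivity), ENNReal.ofReal_pow (by positivity), ENNReal.ofReal_pow (by norm_num)]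
      simp
    rw [h4]
    exact ENNReal.ofReal_le_ofReal h1
  rw [eLpNorm_eq_lintegral_rpow_enorm_toReal (by simp) (ENNReal.natCast_ne_top _)]
  have h5 : (((2 * (q+1) : ℕ) : ENNReal)).toReal = e := by rw [he]; exact ENNReal.toReal_natCast _
  rw [h5]
  have h6 : ∀ y, ‖φ y‖ₑ ^ e = ENNReal.ofReal ((φ y ^ 2) ^ (q+1)) := by
    intro y
    rw [he, ENNReal.rpow_natCast, Real.enorm_eq_ofReal_abs, ← ENNReal.ofReal_pow (abs_nonneg _), pow_mul, sq_abs]
  simp only [h6]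
  calc (∫⁻ y, ENNReal.ofReal ((φ y ^ 2) ^ (q+1)) ∂(torus d)) ^ (1 / e) ≤ (ENNReal.ofReal (K * L ^ (q+1))) ^ (1 / e) :=
        ENNReal.rpow_le_rpow hcov (by positivity)
    _ = ENNReal.ofReal ((K * L ^ (q+1)) ^ (1 / e)) := by
        rw [ENNReal.ofReal_rpow_of_nonneg (by positivity) (by positivity)]
    _ = _ := by
        congr 1
        rw [Real.mul_rpow hK.le (by positivity)]
        congr 1
        rw [← Real.rpow_natCast L (q+1), ← Real.rpow_mul hL0, Real.sqrt_eq_rpow]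
        congr 1
        rw [he]; push_cast; field_simp

/-- support of the periodic hat function -/
theorem hat_supp {n : ℕ} {t : ℝ} {c : ℕ} (hc : c < 2 ^ n) (h : PW 0 n (t - c / 2 ^ n) ≠ 0) :
    (c : ℤ) = ⌊2 ^ n * t⌋ % 2 ^ n ∨ (c : ℤ) = (⌊2 ^ n * t⌋ + 1) % 2 ^ n := by
  have hn : (0:ℝ) < 2 ^ n := by positivity
  obtain ⟨j, hj⟩ : ∃ j : ℤ, Wp 0 (2 ^ n * (t - c / 2 ^ n + j)) ≠ 0 := by
    by_contra hcon
    push Not at hcon
    apply h
    unfold PW
    simp only [hcon, tsum_zero]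
  have h1 : |2 ^ n * (t - c / 2 ^ n + j)| < 1 := by
    by_contra hcon
    apply hj
    rw [hat_eq, max_eq_right]
    push Not at hcon; linarith
  have h2 : 2 ^ n * (t - c / 2 ^ n + j) = 2 ^ n * t - ((c:ℤ) - 2 ^ n * j : ℤ) := by
    push_cast; field_simp; ring
  rw [h2, abs_lt] at h1
  have hc' : (c:ℤ) < 2 ^ n := by exact_mod_cast hc
  have hmod : (c:ℤ) = ((c:ℤ) - 2 ^ n * j) % 2 ^ n := by
    rw [Int.sub_mul_emod_self_left, Int.emod_eq_of_lt (by positivity) hc']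
  rcases le_or_gt (((c:ℤ) - 2 ^ n * j : ℤ) : ℝ) (2 ^ n * t) with h3 | h3
  · left
    have : ⌊2 ^ n * t⌋ = (c:ℤ) - 2 ^ n * j := by
      rw [Int.floor_eq_iff]
      exact ⟨h3, by linarith [h1.2]⟩
    rw [this]; exact hmod
  · right
    have : ⌊2 ^ n * t⌋ = (c:ℤ) - 2 ^ n * j - 1 := by
      rw [Int.floor_eq_iff]
      constructor
      · push_cast; push_cast at h1; linarith [h1.1]
      · push_cast; push_cast at h3; linarith
    rw [this, sub_add_cancel]; exact hmod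

/-- number of cells seen by a point -/
theorem hat_card {M n : ℕ} (hn : n ≤ M) (t : ℝ) :
    (univ.filter fun z : Zm M => PW 0 n (t - (cl n z : ℝ) / 2 ^ n) ≠ 0).card ≤ 2 * 2 ^ (M - n) := by
  obtain ⟨c1, hc1⟩ : ∃ c1 : ℕ, c1 = (⌊2 ^ n * t⌋ % 2 ^ n).toNat := ⟨_, rfl⟩
  obtain ⟨c2, hc2⟩ : ∃ c2 : ℕ, c2 = ((⌊2 ^ n * t⌋ + 1) % 2 ^ n).toNat := ⟨_, rfl⟩
  have hp : (0:ℤ) < 2 ^ n := by positivity
  have hsub : (univ.filter fun z : Zm M => PW 0 n (t - (cl n z : ℝ) / 2 ^ n) ≠ 0) ⊆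
      (univ.filter fun z : Zm M => cl n z = c1) ∪ (univ.filter fun z : Zm M => cl n z = c2) := by
    intro z hz
    rw [Finset.mem_filter] at hz
    rw [Finset.mem_union, Finset.mem_filter, Finset.mem_filter]
    rcases hat_supp (cl_lt hn z) hz.2 with h | h
    · left; exact ⟨Finset.mem_univ _, by rw [hc1, ← h]; simp⟩
    · right; exact ⟨Finset.mem_univ _, by rw [hc2, ← h]; simp⟩
  have hlt : ∀ a : ℤ, (a % 2 ^ n).toNat < 2 ^ n := by
    intro a
    have h1 := Int.emod_lt_of_pos a hp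
    have h2 := Int.emod_nonneg a hp.ne'
    zify
    rw [Int.toNat_of_nonneg h2]
    exact h1
  refine (Finset.card_le_card hsub).trans ((Finset.card_union_le _ _).trans ?_)
  rw [cell_card' n hn c1 (by rw [hc1]; exact hlt _), cell_card' n hn c2 (by rw [hc2]; exact hlt _)]
  omega

end H396C
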