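import Pool.Agent.H396R3.C.Fool2

/-! The general lower bound. -/

set_option autoImplicit false

open Finset MeasureTheory Filter Topology

namespace H396C

/-- positions seen by the nodes -/
noncomputable def Bad {M d m : ℕ} (ξ : Fin m → Fin d → ℝ) (s : Fin d → ℕ) : Finset (Fin d → Zm M) :=
  open Classical in
  univ.filter fun y => ∃ k : Fin m, ∀ i, PW 0 (s i) (ξ k i / (2 * Real.pi) - (cl (s i) (y i) : ℝ) / 2 ^ (s i)) ≠ 0

theorem Bad_card {M d m : ℕ} (ξ : Fin m → Fin d → ℝ) (s : Fin d → ℕ) (hs : ∀ i, s i ≤ M) :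
    ((Bad (M := M) ξ s).card : ℝ) * 2 ^ (∑ i, s i) ≤ m * 2 ^ d * (2 ^ M) ^ d := by
  classical
  have h1 : (Bad (M := M) ξ s).card ≤ m * ∏ i, (2 * 2 ^ (M - s i)) := by
    have hsub : Bad (M := M) ξ s ⊆ (univ : Finset (Fin m)).biUnion fun k => Fintype.piFinset fun i =>
        univ.filter fun z : Zm M => PW 0 (s i) (ξ k i / (2 * Real.pi) - (cl (s i) z : ℝ) / 2 ^ (s i)) ≠ 0 := by
      intro y hy
      unfold Bad at hy
      obtain ⟨k, hk⟩ := (Finset.mem_filter.1 hy).2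
      rw [Finset.mem_biUnion]
      refine ⟨k, Finset.mem_univ _, ?_⟩
      rw [Fintype.mem_piFinset]
      intro i
      exact Finset.mem_filter.2 ⟨Finset.mem_univ _, hk i⟩
    refine (Finset.card_le_card hsub).trans (Finset.card_biUnion_le.trans ?_)
    calc ∑ k : Fin m, (Fintype.piFinset fun i => univ.filter fun z : Zm M => PW 0 (s i) (ξ k i / (2 * Real.pi) - (cl (s i) z : ℝ) / 2 ^ (s i)) ≠ 0).card
        ≤ ∑ _k : Fin m, ∏ i, (2 * 2 ^ (M - s i)) := by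
          refine Finset.sum_le_sum fun k _ => ?_
          rw [Fintype.card_piFinset]
          exact Finset.prod_le_prod' fun i _ => hat_card (hs i) _
      _ = _ := by rw [Finset.sum_const, Finset.card_univ, Fintype.card_fin, smul_eq_mul]
  have h2 : (m * ∏ i, (2 * 2 ^ (M - s i))) * 2 ^ (∑ i, s i) = m * 2 ^ d * (2 ^ M) ^ d := by
    rw [Finset.prod_mul_distrib, Finset.prod_const, Finset.card_univ, Fintype.card_fin, ← Finset.prod_pow_eq_pow_sum]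
    have h3 : (∏ i, 2 ^ (M - s i)) * ∏ i, 2 ^ (s i) = (2 ^ M) ^ d := by
      rw [← Finset.prod_mul_distrib]
      have h4 : ∀ i ∈ (univ : Finset (Fin d)), 2 ^ (M - s i) * 2 ^ (s i) = 2 ^ M := by
        intro i _
        rw [← pow_add, Nat.sub_add_cancel (hs i)]
      rw [Finset.prod_congr rfl h4, Finset.prod_const, Finset.card_univ, Fintype.card_fin]
    calc m * (2 ^ d * ∏ i, 2 ^ (M - s i)) * ∏ i, 2 ^ (s i) = m * 2 ^ d * ((∏ i, 2 ^ (M - s i)) * ∏ i, 2 ^ (s i)) := by ring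
      _ = _ := by rw [h3]
  have h3 : (Bad (M := M) ξ s).card * 2 ^ (∑ i, s i) ≤ m * 2 ^ d * (2 ^ M) ^ d := by
    rw [← h2]; exact Nat.mul_le_mul_right _ h1
  exact_mod_cast h3

theorem lower {r : ℝ} (hr0 : 0 < r) (hr1 : r < 1) (q d : ℕ) {p : ℝ} (hp : p ≤ 2 * (q + 1)) :
    ∃ c : ℝ, 0 < c ∧ ∀ (m : ℕ) (ξ : Fin m → Fin d → ℝ) (w : Fin m → ℝ) {ι : Type} (J : Finset ι), J.Nonempty →
      ∀ (l : ι → ℕ) (A : ι → Finset (Fin d → ℕ)),
      (∀ i ∈ J, ∀ j ∈ J, i ≠ j → Disjoint (A i) (A j)) →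
      (∀ j ∈ J, ∀ s ∈ A j, ∑ i, s i = l j) →
      (∀ j ∈ J, m * (A j).card * 2 ^ (d+1) ≤ 2 ^ (l j)) →
      ∃ f ∈ SobolevClass d r p, c * (∑ j ∈ J, ((A j).card : ℝ)) / Real.sqrt (∑ j ∈ J, (2:ℝ) ^ (2 * r * l j)) ≤
        |∫ x, f x ∂(torus d) - ∑ j, w j * f (ξ j)| := by
  classical
  obtain ⟨K, hK, hnorm⟩ := Ph_norm hr0 hr1 q d
  refine ⟨1 / (2 * K), by positivity, ?_⟩
  intro m ξ w ι J hJ l A hdisj hA hm
  obtain ⟨M, hM⟩ : ∃ M, M = ∑ j ∈ J, l j := ⟨_, rfl⟩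
  have hlM : ∀ j ∈ J, l j ≤ M := fun j hj => by rw [hM]; exact Finset.single_le_sum (fun _ _ => Nat.zero_le _) hj
  have hsM : ∀ j ∈ J, ∀ s ∈ A j, ∀ i, s i ≤ M := by
    intro j hj s hs i
    have h1 : s i ≤ ∑ i, s i := Finset.single_le_sum (fun _ _ => Nat.zero_le _) (Finset.mem_univ i)
    rw [hA j hj s hs] at h1
    exact h1.trans (hlM j hj)
  obtain ⟨h, hh⟩ : ∃ h : ι → (Fin d → Zm M) → ℝ, h = fun j y => if y ∈ (A j).biUnion (fun s => Bad ξ s) then 0 else 1 := ⟨_, rfl⟩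
  have hh01 : ∀ j y, 0 ≤ h j y ∧ h j y ≤ 1 := by
    intro j y; rw [hh]; simp only; split_ifs <;> norm_num
  have hN : (0:ℝ) < (2 ^ M) ^ d := by positivity
  have hmean : ∀ j ∈ J, 1/2 ≤ (∑ y, h j y) / (2 ^ M) ^ d := by
    intro j hj
    rw [le_div_iff₀ hN]
    have h1 : ∑ y, h j y = (2 ^ M) ^ d - (((A j).biUnion (fun s => Bad (M := M) ξ s)).card : ℝ) := by
      have h2 : ∀ y, h j y = 1 - (if y ∈ (A j).biUnion (fun s => Bad ξ s) then (1:ℝ) else 0) := by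
        intro y; rw [hh]; simp only; split_ifs <;> norm_num
      simp only [h2]
      rw [Finset.sum_sub_distrib, Finset.sum_const, Finset.card_univ, Fintype.card_fun, ZMod.card, Fintype.card_fin,
        nsmul_eq_mul, mul_one]
      congr 1
      · push_cast; rfl
      · rw [Finset.sum_ite_mem, Finset.univ_inter, Finset.sum_const, nsmul_eq_mul, mul_one]
    have h3 : (((A j).biUnion (fun s => Bad (M := M) ξ s)).card : ℝ) ≤ ∑ s ∈ A j, ((Bad (M := M) ξ s).card : ℝ) := by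
      exact_mod_cast Finset.card_biUnion_le
    have h4 : ∀ s ∈ A j, ((Bad (M := M) ξ s).card : ℝ) ≤ m * 2 ^ d * (2 ^ M) ^ d / 2 ^ (l j) := by
      intro s hs
      rw [le_div_iff₀ (by positivity), ← hA j hj s hs]
      exact Bad_card ξ s (hsM j hj s hs)
    have h5 : ∑ s ∈ A j, ((Bad (M := M) ξ s).card : ℝ) ≤ (A j).card * (m * 2 ^ d * (2 ^ M) ^ d / 2 ^ (l j)) := by
      refine (Finset.sum_le_sum h4).trans (le_of_eq ?_)
      rw [Finset.sum_const, nsmul_eq_mul]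
    have h6 : ((A j).card : ℝ) * (m * 2 ^ d * (2 ^ M) ^ d / 2 ^ (l j)) ≤ (2 ^ M) ^ d / 2 := by
      have h7 : (m:ℝ) * (A j).card * 2 ^ (d+1) ≤ 2 ^ (l j) := by exact_mod_cast hm j hj
      rw [← mul_div_assoc, div_le_div_iff₀ (by positivity) (by norm_num)]
      have h8 := mul_le_mul_of_nonneg_left h7 hN.le
      rw [pow_succ] at h8
      nlinarith
    rw [h1]; linarith
  obtain ⟨L, hL⟩ : ∃ L : ℝ, L = ∑ j ∈ J, (2:ℝ) ^ (2 * r * l j) := ⟨_, rfl⟩
  have hL0 : 0 < L := by rw [hL]; exact Finset.sum_pos (fun _ _ => by positivity) hJ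
  obtain ⟨Λ, hΛ⟩ : ∃ Λ : ℝ, Λ = K * Real.sqrt L := ⟨_, rfl⟩
  have hΛ0 : 0 < Λ := by rw [hΛ]; exact mul_pos hK (Real.sqrt_pos.2 hL0)
  have hn := hnorm M J l A hdisj (fun j hj s hs => ⟨hA j hj s hs, hsM j hj s hs⟩) h (fun j _ x => by
    rw [abs_of_nonneg (hh01 j x).1]; exact (hh01 j x).2)
  rw [← hL, ← hΛ] at hn
  obtain ⟨φ, hφ⟩ : ∃ φ : (Fin d → ℝ) → ℝ, φ = Ph (kt (bc r) r) J A h := ⟨_, rfl⟩
  have hφc : Continuous φ := by rw [hφ]; exact Ph_cont (fun n => kt_cont hr0 hr1 n) J A h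
  rw [← hφ] at hn
  refine ⟨fun x => Λ⁻¹ * Ph (PW 0) J A h x, ⟨Λ⁻¹ • φ, ?_, ?_, ?_⟩, ?_⟩
  · exact (hφc.const_smul Λ⁻¹).aestronglyMeasurable
  · have h1 : eLpNorm (Λ⁻¹ • φ) (ENNReal.ofReal p) (torus d) ≤ eLpNorm (Λ⁻¹ • φ) ((2 * (q+1) : ℕ) : ENNReal) (torus d) := by
      apply eLpNorm_le_eLpNorm_of_exponent_le
      · have : ((2 * (q+1) : ℕ) : ENNReal) = ENNReal.ofReal (2 * (q+1)) := by
          rw [← ENNReal.ofReal_natCast]; congr 1; push_cast; ring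
        rw [this]
        exact ENNReal.ofReal_le_ofReal hp
      · exact (hφc.const_smul Λ⁻¹).aestronglyMeasurable
    refine h1.trans ?_
    rw [eLpNorm_const_smul]
    have h2 : ‖Λ⁻¹‖ₑ = ENNReal.ofReal Λ⁻¹ := by
      rw [Real.enorm_eq_ofReal (inv_nonneg.2 hΛ0.le)]
    rw [h2]
    calc ENNReal.ofReal Λ⁻¹ * eLpNorm φ ((2 * (q+1) : ℕ) : ENNReal) (torus d) ≤ ENNReal.ofReal Λ⁻¹ * ENNReal.ofReal Λ :=
          mul_le_mul_right hn _
      _ = 1 := by rw [← ENNReal.ofReal_mul (inv_nonneg.2 hΛ0.le), inv_mul_cancel₀ hΛ0.ne', ENNReal.ofReal_one]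
  · intro x
    have h1 : ∀ y, bernD r (x - y) * (Λ⁻¹ • φ) y = Λ⁻¹ * (bernD r (x - y) * φ y) := by
      intro y; simp only [Pi.smul_apply, smul_eq_mul]; ring
    simp only [h1]
    rw [integral_const_mul, hφ, Ph_conv hr0 hr1]
  · have hzero : ∀ k, Ph (PW 0) J A h (ξ k) = 0 := by
      intro k
      unfold Ph
      refine Finset.sum_eq_zero fun j hj => Finset.sum_eq_zero fun s hs => Finset.sum_eq_zero fun y _ => ?_
      by_cases hb : ∀ i, PW 0 (s i) (ξ k i / (2 * Real.pi) - (cl (s i) (y i) : ℝ) / 2 ^ (s i)) ≠ 0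
      · have : h j y = 0 := by
          rw [hh]; simp only
          rw [if_pos]
          rw [Finset.mem_biUnion]
          refine ⟨s, hs, ?_⟩
          unfold Bad
          exact Finset.mem_filter.2 ⟨Finset.mem_univ _, k, hb⟩
        rw [this, mul_zero]
      · push Not at hb
        obtain ⟨i, hi⟩ := hb
        rw [Finset.prod_eq_zero (Finset.mem_univ i) (by rw [hi, zero_div]), zero_mul]
    have hint := Ph_int J A h
    have hsum0 : ∑ k, w k * (Λ⁻¹ * Ph (PW 0) J A h (ξ k)) = 0 := by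
      refine Finset.sum_eq_zero fun k _ => ?_
      rw [hzero k]; ring
    simp only
    rw [hsum0, sub_zero, integral_const_mul, hint]
    have h1 : (∑ j ∈ J, ((A j).card : ℝ)) / 2 ≤ ∑ j ∈ J, ∑ _s ∈ A j, (∑ y, h j y) / (2 ^ M) ^ d := by
      rw [Finset.sum_div]
      refine Finset.sum_le_sum fun j hj => ?_
      rw [Finset.sum_const, nsmul_eq_mul]
      have := mul_le_mul_of_nonneg_left (hmean j hj) (Nat.cast_nonneg (α := ℝ) (A j).card)
      linarith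
    refine le_trans ?_ (le_abs_self _)
    have h2 : 1 / (2 * K) * (∑ j ∈ J, ((A j).card : ℝ)) / Real.sqrt (∑ j ∈ J, (2:ℝ) ^ (2 * r * l j)) =
        Λ⁻¹ * ((∑ j ∈ J, ((A j).card : ℝ)) / 2) := by
      rw [← hL, hΛ]
      have := Real.sqrt_pos.2 hL0
      field_simp
    rw [h2]
    exact mul_le_mul_of_nonneg_left h1 (inv_nonneg.2 hΛ0.le)

end H396C
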