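import Pool.Agent.H396R3.C.Lap

/-! Fourier coefficients of the periodised kernels. -/

set_option autoImplicit false

open Finset MeasureTheory Filter Topology Asymptotics

namespace H396C

/-- Fourier transform of `Wp r` -/
noncomputable def wh (r ξ : ℝ) : ℂ := ∫ u : ℝ, (Wp r u : ℂ) * Complex.exp (-((2 * Real.pi * ξ * Complex.I) * u))

theorem Wp_int {r : ℝ} (hr1 : r < 1) {D b : ℝ} (hb : 1 < b) (hdec : ∀ u, |Wp r u| ≤ D * (1 + |u|) ^ (-b)) : Integrable (Wp r) := by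
  have h1 : Integrable (fun x : ℝ => (1 + ‖x‖) ^ (-b)) := integrable_one_add_norm (by simpa using hb)
  refine (h1.const_mul D).mono' (Wp_cont hr1).aestronglyMeasurable (Filter.Eventually.of_forall fun u => ?_)
  rw [Real.norm_eq_abs, Real.norm_eq_abs]
  exact hdec u

/-- the scaled function as a continuous map -/
noncomputable def fW (r : ℝ) (hr1 : r < 1) (n : ℕ) : C(ℝ, ℂ) :=
  ⟨fun x => (Wp r (2 ^ n * x) : ℂ), by have := Wp_cont hr1; fun_prop⟩

theorem fW_norm {r : ℝ} (hr1 : r < 1) (n : ℕ) {D b : ℝ} (hb : 1 < b) (hdec : ∀ u, |Wp r u| ≤ D * (1 + |u|) ^ (-b)) :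
    ∀ K : TopologicalSpace.Compacts ℝ, Summable fun m : ℤ => ‖((fW r hr1 n).comp (ContinuousMap.addRight (m:ℝ))).restrict K‖ := by
  intro K
  have hf : IsBigO (cocompact ℝ) (fW r hr1 n) fun x : ℝ => |x| ^ (-b) := by
    have hD : 0 ≤ D := by
      have h1 := (abs_nonneg _).trans (hdec 0)
      simpa using h1
    apply IsBigO.of_bound D
    have h0 : ∀ᶠ x : ℝ in cocompact ℝ, x ≠ 0 := by
      have : ({0} : Set ℝ)ᶜ ∈ cocompact ℝ := isCompact_singleton.compl_mem_cocompact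
      exact this
    filter_upwards [h0] with x hx
    have hx' : 0 < |x| := abs_pos.2 hx
    show ‖(Wp r (2 ^ n * x) : ℂ)‖ ≤ D * ‖|x| ^ (-b)‖
    rw [Complex.norm_real, Real.norm_eq_abs, Real.norm_eq_abs, abs_of_nonneg (by positivity : 0 ≤ |x| ^ (-b))]
    refine (hdec _).trans (mul_le_mul_of_nonneg_left ?_ hD)
    apply Real.rpow_le_rpow_of_nonpos hx' _ (by linarith)
    rw [abs_mul, abs_of_pos (by positivity : (0:ℝ) < 2 ^ n)]
    have h1 : (1:ℝ) ≤ 2 ^ n := one_le_pow₀ (by norm_num)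
    nlinarith
  exact summable_of_isBigO (Real.summable_abs_int_rpow hb)
    ((isBigO_norm_restrict_cocompact (fW r hr1 n) (zero_lt_one.trans hb) hf K).comp_tendsto
    Int.tendsto_coe_cofinite)

theorem fW_sum {r : ℝ} (hr1 : r < 1) (n : ℕ) {D b : ℝ} (hb : 1 < b) (hdec : ∀ u, |Wp r u| ≤ D * (1 + |u|) ^ (-b)) (x : ℝ) :
    (∑' m : ℤ, (fW r hr1 n).comp (ContinuousMap.addRight (m:ℝ))) x = (PW r n x : ℂ) := by
  have h1 := ContinuousMap.summable_of_locally_summable_norm (fW_norm hr1 n hb hdec)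
  rw [← ContinuousMap.tsum_apply h1]
  unfold PW
  rw [Complex.ofReal_tsum]
  rfl

theorem PW_cont {r : ℝ} (hr1 : r < 1) (n : ℕ) {D b : ℝ} (hb : 1 < b) (hdec : ∀ u, |Wp r u| ≤ D * (1 + |u|) ^ (-b)) :
    Continuous (PW r n) := by
  have h1 := (∑' m : ℤ, (fW r hr1 n).comp (ContinuousMap.addRight (m:ℝ))).continuous
  have h2 : (fun x => ((∑' m : ℤ, (fW r hr1 n).comp (ContinuousMap.addRight (m:ℝ))) x).re) = PW r n := by
    funext x; rw [fW_sum hr1 n hb hdec x, Complex.ofReal_re]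
  rw [← h2]
  exact Complex.continuous_re.comp h1

theorem fou_fW {r : ℝ} (hr1 : r < 1) (n : ℕ) (m : ℤ) :
    FourierTransform.fourier (fW r hr1 n : ℝ → ℂ) (m:ℝ) = (1 / 2 ^ n) * wh r (m / 2 ^ n) := by
  rw [Real.fourier_real_eq_integral_exp_smul]
  obtain ⟨g, hg⟩ : ∃ g : ℝ → ℂ, g = fun u : ℝ => (Wp r u : ℂ) * Complex.exp (-((2 * Real.pi * ((m:ℝ) / 2 ^ n : ℝ) * Complex.I) * u)) := ⟨_, rfl⟩
  have h1 : ∀ v : ℝ, Complex.exp (((-2 * Real.pi * v * m : ℝ) : ℂ) * Complex.I) • (fW r hr1 n : ℝ → ℂ) v = g (2 ^ n * v) := by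
    intro v
    rw [hg, smul_eq_mul, mul_comm]
    show (Wp r (2 ^ n * v) : ℂ) * _ = _
    simp only
    congr 2
    push_cast
    field_simp
  simp only [h1]
  rw [Measure.integral_comp_mul_left g (2 ^ n)]
  unfold wh
  rw [hg, abs_of_pos (by positivity), Complex.real_smul]
  push_cast
  congr 1
  rw [one_div]

theorem coefPW {r : ℝ} (hr1 : r < 1) (n : ℕ) {D b : ℝ} (hb : 1 < b) (hdec : ∀ u, |Wp r u| ≤ D * (1 + |u|) ^ (-b)) (m : ℤ) :
    ∫ x in (0:ℝ)..1, (PW r n x : ℂ) * Complex.exp (-(2 * Real.pi * m * Complex.I * x)) = (1 / 2 ^ n) * wh r (m / 2 ^ n) := by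
  have h1 := Real.fourierCoeff_tsum_comp_add (fW_norm hr1 n hb hdec) m
  rw [fou_fW, fourierCoeff_eq_intervalIntegral _ m 0] at h1
  rw [← h1]
  simp only [div_one, one_smul, zero_add]
  refine intervalIntegral.integral_congr fun x _ => ?_
  show (PW r n x : ℂ) * Complex.exp (-(2 * Real.pi * m * Complex.I * x)) = _
  rw [smul_eq_mul, mul_comm, fourier_coe_apply]
  congr 1
  · congr 1; push_cast; ring
  · rw [Function.Periodic.lift_coe]
    simp only [zsmul_one]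
    exact (fW_sum hr1 n hb hdec x).symm

theorem Wp_dec {r : ℝ} (hr0 : 0 < r) (hr1 : r < 1) : ∀ u, |Wp r u| ≤ 108 * (1 + |u|) ^ (-(1 + r)) :=
  fun u => Wp_decay hr0.le hr1 u

theorem wh_zero {r : ℝ} (hr0 : 0 < r) (hr1 : r < 1) : wh r 0 = 0 := by
  have h1 := coefPW hr1 0 (by linarith : 1 < 1 + r) (Wp_dec hr0 hr1) 0
  have h2 : ∀ x, PW r 0 x = 0 := by
    intro x
    have := PW_zero hr0 hr1 (n := 0) (M := 0) le_rfl x
    simpa using this
  simp only [h2] at h1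
  simp at h1
  rcases h1 with h1
  exact h1.symm

/-! the hat function -/

theorem hat_eq (u : ℝ) : Wp 0 u = max (1 - |u|) 0 := by
  unfold Wp Gp
  simp only [sub_zero, Real.rpow_one]
  rcases le_total u (-1) with h | h
  · rw [abs_of_nonpos (by linarith), max_eq_right (by linarith), max_eq_right (by linarith), max_eq_right (by linarith), max_eq_right (by linarith)]; ring
  rcases le_total u 0 with h0 | h0
  · rw [abs_of_nonpos h0, max_eq_left (by linarith), max_eq_right (by linarith), max_eq_right (by linarith), max_eq_left (by linarith)]; ring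
  rcases le_total u 1 with h1 | h1
  · rw [abs_of_nonneg h0, max_eq_left (by linarith), max_eq_left (by linarith), max_eq_right (by linarith), max_eq_left (by linarith)]; ring
  · rw [abs_of_nonneg h0, max_eq_left (by linarith), max_eq_left (by linarith), max_eq_left (by linarith), max_eq_right (by linarith)]; ring

theorem hat_dec : ∀ u, |Wp 0 u| ≤ 8 * (1 + |u|) ^ (-(2:ℝ)) := by
  intro u
  have h0 : 0 < 1 + |u| := by positivity
  rw [hat_eq, Real.rpow_neg h0.le, ← div_eq_mul_inv, le_div_iff₀ (by positivity), abs_of_nonneg (le_max_right _ _)]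
  rcases le_total (1 - |u|) 0 with h | h
  · rw [max_eq_right h]; simp
  · rw [max_eq_left h]
    have h1 : (1 + |u|) ^ (2:ℝ) ≤ 4 := by
      rw [Real.rpow_two]
      have := abs_nonneg u
      nlinarith
    have h2 := abs_nonneg u
    have h3 : 0 ≤ (1 + |u|) ^ (2:ℝ) := by positivity
    have h4 : (1 - |u|) * (1 + |u|) ^ (2:ℝ) ≤ 1 * (1 + |u|) ^ (2:ℝ) := mul_le_mul_of_nonneg_right (by linarith) h3
    linarith

theorem wh_hat_zero : wh 0 0 = 1 := by
  unfold wh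
  simp only [Complex.ofReal_zero, mul_zero, zero_mul, neg_zero, Complex.exp_zero, mul_one]
  rw [integral_complex_ofReal]
  have h1 : ∫ u : ℝ, Wp 0 u = ∫ u in (-1:ℝ)..1, Wp 0 u := by
    rw [intervalIntegral.integral_of_le (by norm_num), ← integral_indicator measurableSet_Ioc]
    congr 1
    funext u
    by_cases hu : u ∈ Set.Ioc (-1:ℝ) 1
    · rw [Set.indicator_of_mem hu]
    · rw [Set.indicator_of_notMem hu, hat_eq, max_eq_right]
      rw [Set.mem_Ioc, not_and_or] at hu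
      rcases hu with hu | hu
      · push Not at hu
        rw [abs_of_nonpos (by linarith)]; linarith
      · push Not at hu
        rw [abs_of_pos (by linarith)]; linarith
  have hc : Continuous (Wp 0) := Wp_cont one_pos
  have h2 : ∫ u in (-1:ℝ)..1, Wp 0 u = (∫ u in (-1:ℝ)..0, Wp 0 u) + ∫ u in (0:ℝ)..1, Wp 0 u :=
    (intervalIntegral.integral_add_adjacent_intervals (hc.intervalIntegrable _ _) (hc.intervalIntegrable _ _)).symm
  have h3 : ∫ u in (-1:ℝ)..0, Wp 0 u = ∫ u in (-1:ℝ)..0, (1 + u) := by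
    apply intervalIntegral.integral_congr
    intro u hu
    rw [Set.uIcc_of_le (by norm_num)] at hu
    show Wp 0 u = 1 + u
    rw [hat_eq, abs_of_nonpos hu.2, max_eq_left (by linarith [hu.1])]; ring
  have h4 : ∫ u in (0:ℝ)..1, Wp 0 u = ∫ u in (0:ℝ)..1, (1 - u) := by
    apply intervalIntegral.integral_congr
    intro u hu
    rw [Set.uIcc_of_le (by norm_num)] at hu
    show Wp 0 u = 1 - u
    rw [hat_eq, abs_of_nonneg hu.1, max_eq_left (by linarith [hu.2])]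
  rw [h1, h2, h3, h4, intervalIntegral.integral_add (by simp) (by simp), intervalIntegral.integral_sub (by simp) (by simp)]
  simp
  norm_num

theorem wh_hat {ξ : ℝ} (hξ : ξ ≠ 0) :
    wh 0 ξ = (Complex.exp (2 * Real.pi * ξ * Complex.I) - 2 + Complex.exp (-(2 * Real.pi * ξ * Complex.I))) *
        ((2 * Real.pi * ξ * Complex.I) ^ 2)⁻¹ := by
  have h1 := fou_W (r := 0) one_pos (Wp_int one_pos (by norm_num : (1:ℝ) < 2) hat_dec) hξ
  unfold wh
  rw [h1]
  congr 1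
  simp only [Complex.ofReal_zero, sub_zero]
  rw [Complex.cpow_neg, Complex.cpow_ofNat]
  have : Complex.Gamma 2 = 1 := by
    have := Complex.Gamma_nat_eq_factorial 1
    rw [show ((1:ℕ):ℂ) + 1 = 2 by norm_num] at this
    rw [this]; simp
  rw [this, mul_one]

theorem wh_hat_norm (n : ℕ) (m : ℤ) (hm : m ≠ 0) : ‖(1 / 2 ^ n : ℂ) * wh 0 (m / 2 ^ n)‖ ≤ (4 * 2 ^ n) * (1 / (m:ℝ) ^ 2) := by
  have hmr : (m:ℝ) ≠ 0 := by exact_mod_cast hm
  have hn : (0:ℝ) < 2 ^ n := by positivity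
  have hξ : (m:ℝ) / 2 ^ n ≠ 0 := div_ne_zero hmr hn.ne'
  have hm2 : (0:ℝ) < (m:ℝ) ^ 2 := by positivity
  rw [wh_hat hξ, norm_mul, norm_mul]
  have h1 : ‖(1 / 2 ^ n : ℂ)‖ = 1 / 2 ^ n := by
    rw [norm_div, norm_pow]; simp
  have e : ∀ t : ℝ, ‖Complex.exp (2 * Real.pi * t * Complex.I)‖ = 1 := by
    intro t
    have : (2 * Real.pi * t * Complex.I : ℂ) = ((2 * Real.pi * t : ℝ) : ℂ) * Complex.I := by push_cast; ring
    rw [this, Complex.norm_exp_ofReal_mul_I]
  have e' : ∀ t : ℝ, ‖Complex.exp (-(2 * Real.pi * t * Complex.I))‖ = 1 := by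
    intro t
    have : (-(2 * Real.pi * t * Complex.I) : ℂ) = ((-(2 * Real.pi * t) : ℝ) : ℂ) * Complex.I := by push_cast; ring
    rw [this, Complex.norm_exp_ofReal_mul_I]
  have h2 : ‖Complex.exp (2 * Real.pi * ((m:ℝ) / 2 ^ n : ℝ) * Complex.I) - 2 + Complex.exp (-(2 * Real.pi * ((m:ℝ) / 2 ^ n : ℝ) * Complex.I))‖ ≤ 4 := by
    refine (norm_add_le _ _).trans ?_
    rw [e']
    refine (add_le_add_left (norm_sub_le _ _) 1).trans ?_
    rw [e]; norm_num
  have h3 : ‖((2 * Real.pi * ((m:ℝ) / 2 ^ n : ℝ) * Complex.I : ℂ) ^ 2)⁻¹‖ ≤ (2 ^ n) ^ 2 / (m:ℝ) ^ 2 := by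
    rw [norm_inv, norm_pow]
    have h4 : ‖(2 * Real.pi * ((m:ℝ) / 2 ^ n : ℝ) * Complex.I : ℂ)‖ = 2 * Real.pi * |(m:ℝ)| / 2 ^ n := by
      rw [norm_mul, norm_mul, norm_mul, Complex.norm_I, Complex.norm_real, Complex.norm_real, mul_one, Real.norm_eq_abs, Real.norm_eq_abs,
        abs_of_pos Real.pi_pos, abs_div, abs_of_pos hn]
      simp; ring
    rw [h4, div_pow, inv_div, mul_pow, sq_abs]
    apply div_le_div_of_nonneg_left (by positivity) hm2
    have : 1 ≤ (2 * Real.pi) ^ 2 := by nlinarith [Real.pi_gt_three]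
    nlinarith
  rw [h1]
  calc 1 / 2 ^ n * (‖Complex.exp (2 * Real.pi * ((m:ℝ) / 2 ^ n : ℝ) * Complex.I) - 2 + Complex.exp (-(2 * Real.pi * ((m:ℝ) / 2 ^ n : ℝ) * Complex.I))‖ *
      ‖((2 * Real.pi * ((m:ℝ) / 2 ^ n : ℝ) * Complex.I : ℂ) ^ 2)⁻¹‖) ≤ 1 / 2 ^ n * (4 * ((2 ^ n) ^ 2 / (m:ℝ) ^ 2)) := by
        gcongr
    _ = _ := by field_simp

theorem hatFS (n : ℕ) (x : ℝ) :
    HasSum (fun m : ℤ => ((1 / 2 ^ n : ℂ) * wh 0 (m / 2 ^ n)) * Complex.exp (2 * Real.pi * m * Complex.I * x)) (PW 0 n x : ℂ) := by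
  have hsum : Summable fun m : ℤ => (1 / 2 ^ n : ℂ) * wh 0 (m / 2 ^ n) := by
    have h1 : Summable fun m : ℤ => (4 * 2 ^ n) * (1 / (m:ℝ) ^ 2) := (Real.summable_one_div_int_pow.2 one_lt_two).mul_left _
    refine Summable.of_norm_bounded_eventually h1 ?_
    have : ({0} : Set ℤ)ᶜ ∈ cofinite := (Set.finite_singleton (0:ℤ)).compl_mem_cofinite
    filter_upwards [this] with m hm
    exact wh_hat_norm n m hm
  have hFs : Summable fun m : ℤ => FourierTransform.fourier (fW 0 one_pos n : ℝ → ℂ) (m:ℝ) := by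
    simp only [fou_fW]; exact hsum
  have h1 := Real.tsum_eq_tsum_fourier (fW_norm one_pos n (by norm_num : (1:ℝ) < 2) hat_dec) hFs x
  have h2 : ∑' m : ℤ, (fW 0 one_pos n : ℝ → ℂ) (x + m) = (PW 0 n x : ℂ) := by
    unfold PW
    rw [Complex.ofReal_tsum]
    rfl
  rw [h2] at h1
  rw [h1]
  have h3 : ∀ m : ℤ, FourierTransform.fourier (fW 0 one_pos n : ℝ → ℂ) (m:ℝ) * fourier m (x : UnitAddCircle) =
      ((1 / 2 ^ n : ℂ) * wh 0 (m / 2 ^ n)) * Complex.exp (2 * Real.pi * m * Complex.I * x) := by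
    intro m
    rw [fou_fW, fourier_coe_apply]
    congr 2
    push_cast; ring
  simp only [h3]
  apply Summable.hasSum
  refine Summable.of_norm ?_
  have h4 : ∀ m : ℤ, ‖((1 / 2 ^ n : ℂ) * wh 0 (m / 2 ^ n)) * Complex.exp (2 * Real.pi * m * Complex.I * x)‖ = ‖(1 / 2 ^ n : ℂ) * wh 0 (m / 2 ^ n)‖ := by
    intro m
    rw [norm_mul]
    have : (2 * Real.pi * m * Complex.I * x : ℂ) = ((2 * Real.pi * m * x : ℝ) : ℂ) * Complex.I := by push_cast; ring
    rw [this, Complex.norm_exp_ofReal_mul_I, mul_one]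
  simp only [h4]
  exact hsum.norm

end H396C
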