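import Mathlib

/-! The second difference of a truncated power. -/

set_option autoImplicit false

open Finset

namespace H396C

/-- truncated power -/
noncomputable def Gp (r : ℝ) (u : ℝ) : ℝ := (max u 0) ^ (1 - r)

/-- its second difference -/
noncomputable def Wp (r : ℝ) (u : ℝ) : ℝ := Gp r (u + 1) - 2 * Gp r u + Gp r (u - 1)

theorem Gp_cont {r : ℝ} (hr1 : r < 1) : Continuous (Gp r) := by
  unfold Gp
  exact (continuous_id.max continuous_const).rpow_const (fun _ => Or.inr (by linarith))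

theorem Wp_cont {r : ℝ} (hr1 : r < 1) : Continuous (Wp r) := by
  unfold Wp
  have := Gp_cont hr1
  fun_prop

theorem Gp_neg {r : ℝ} (hr1 : r < 1) {u : ℝ} (hu : u ≤ 0) : Gp r u = 0 := by
  unfold Gp
  rw [max_eq_right hu, Real.zero_rpow (by linarith)]

theorem Wp_neg {r : ℝ} (hr1 : r < 1) {u : ℝ} (hu : u ≤ -1) : Wp r u = 0 := by
  unfold Wp
  rw [Gp_neg hr1 (by linarith), Gp_neg hr1 (by linarith), Gp_neg hr1 (by linarith)]; ring

theorem Gp_holder {r : ℝ} (hr0 : 0 ≤ r) (hr1 : r < 1) (u v : ℝ) : |Gp r u - Gp r v| ≤ |u - v| ^ (1 - r) := by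
  wlog h : v ≤ u generalizing u v with H
  · rw [abs_sub_comm, abs_sub_comm u v]; exact H v u (le_of_not_ge h)
  have hm : max v 0 ≤ max u 0 := max_le_max h le_rfl
  have hmono : Gp r v ≤ Gp r u := Real.rpow_le_rpow (le_max_right _ _) hm (by linarith)
  rw [abs_of_nonneg (by linarith), abs_of_nonneg (by linarith)]
  unfold Gp at hmono ⊢
  have h1 := Real.rpow_add_le_add_rpow (le_max_right v 0) (show 0 ≤ max u 0 - max v 0 by linarith) (show 0 ≤ 1 - r by linarith) (show 1 - r ≤ 1 by linarith)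
  rw [add_sub_cancel] at h1
  have h2 : max u 0 - max v 0 ≤ u - v := by
    rcases le_total u 0 with hu | hu <;> rcases le_total v 0 with hv | hv
    · rw [max_eq_right hu, max_eq_right hv]; linarith
    · rw [max_eq_right hu, max_eq_left hv]; linarith
    · rw [max_eq_left hu, max_eq_right hv]; linarith
    · rw [max_eq_left hu, max_eq_left hv]
  have h3 : (max u 0 - max v 0) ^ (1 - r) ≤ (u - v) ^ (1 - r) := Real.rpow_le_rpow (by linarith) h2 (by linarith)
  linarith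

theorem Wp_holder {r : ℝ} (hr0 : 0 ≤ r) (hr1 : r < 1) (u v : ℝ) : |Wp r u - Wp r v| ≤ 4 * |u - v| ^ (1 - r) := by
  have h1 := Gp_holder hr0 hr1 (u+1) (v+1)
  have h2 := Gp_holder hr0 hr1 u v
  have h3 := Gp_holder hr0 hr1 (u-1) (v-1)
  rw [show u + 1 - (v + 1) = u - v by ring] at h1
  rw [show u - 1 - (v - 1) = u - v by ring] at h3
  have e : Wp r u - Wp r v = (Gp r (u+1) - Gp r (v+1)) - 2 * (Gp r u - Gp r v) + (Gp r (u-1) - Gp r (v-1)) := by
    unfold Wp; ring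
  rw [e]
  rw [abs_le] at h1 h2 h3 ⊢
  constructor <;> linarith [h1.1, h1.2, h2.1, h2.2, h3.1, h3.2]

theorem Wp_far {r : ℝ} (hr0 : 0 ≤ r) (hr1 : r < 1) {u : ℝ} (hu : 2 ≤ u) :
    |Wp r u| ≤ (u - 1) ^ (-(1 + r)) := by
  have hd1 : ∀ x, 0 < x → HasDerivAt (fun x : ℝ => (x+1) ^ (1 - r) - x ^ (1 - r)) ((1 - r) * ((x+1) ^ (-r) - x ^ (-r))) x := by
    intro x hx
    have h1 : HasDerivAt (fun x : ℝ => (x+1) ^ (1 - r)) ((1 - r) * (x+1) ^ (1 - r - 1)) x := by
      have := ((hasDerivAt_id' x).add_const (1:ℝ)).rpow_const (p := 1 - r) (Or.inl (by positivity))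
      simpa using this
    have h2 : HasDerivAt (fun x : ℝ => x ^ (1 - r)) ((1 - r) * x ^ (1 - r - 1)) x :=
      Real.hasDerivAt_rpow_const (Or.inl hx.ne')
    have h3 := h1.fun_sub h2
    rw [show 1 - r - 1 = -r by ring, ← mul_sub] at h3
    exact h3
  obtain ⟨c, hc, hceq⟩ := exists_hasDerivAt_eq_slope (fun x : ℝ => (x+1) ^ (1 - r) - x ^ (1 - r))
    (fun x => (1 - r) * ((x+1) ^ (-r) - x ^ (-r))) (show u - 1 < u by linarith)
    (fun x hx => (hd1 x (by have := hx.1; linarith)).continuousAt.continuousWithinAt)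
    (fun x hx => hd1 x (by have := hx.1; linarith))
  have hc1 : u - 1 < c := hc.1
  have hd2 : ∀ x, 0 < x → HasDerivAt (fun x : ℝ => x ^ (-r)) (-r * x ^ (-r - 1)) x := fun x hx =>
    Real.hasDerivAt_rpow_const (Or.inl hx.ne')
  obtain ⟨c', hc', hceq'⟩ := exists_hasDerivAt_eq_slope (fun x : ℝ => x ^ (-r)) (fun x => -r * x ^ (-r - 1))
    (show c < c + 1 by linarith)
    (fun x hx => (hd2 x (by have := hx.1; linarith)).continuousAt.continuousWithinAt)
    (fun x hx => hd2 x (by have := hx.1; linarith))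
  have hc1' : c < c' := hc'.1
  have hW : Wp r u = (1 - r) * (-r * c' ^ (-r - 1)) := by
    rw [hceq', show c + 1 - c = 1 by ring, div_one, hceq, show u - (u - 1) = 1 by ring, div_one]
    unfold Wp Gp
    rw [max_eq_left (by linarith), max_eq_left (by linarith), max_eq_left (by linarith),
      show u - 1 + 1 = u by ring]
    ring
  rw [hW, abs_mul, abs_mul, abs_neg, abs_of_nonneg hr0, abs_of_nonneg (by linarith : 0 ≤ 1 - r),
    abs_of_nonneg (Real.rpow_nonneg (by linarith) _)]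
  have h1 : c' ^ (-r - 1) ≤ (u - 1) ^ (-(1 + r)) := by
    rw [show -r - 1 = -(1 + r) by ring]
    exact Real.rpow_le_rpow_of_nonpos (by linarith) (by linarith) (by linarith)
  have h2 : 0 ≤ c' ^ (-r - 1) := Real.rpow_nonneg (by linarith) _
  have h3 : (1 - r) * (r * c' ^ (-r - 1)) ≤ 1 * (1 * c' ^ (-r - 1)) := by
    apply mul_le_mul (by linarith) _ (by positivity) zero_le_one
    exact mul_le_mul_of_nonneg_right hr1.le h2
  linarith

theorem Wp_decay {r : ℝ} (hr0 : 0 ≤ r) (hr1 : r < 1) (u : ℝ) : |Wp r u| ≤ 108 * (1 + |u|) ^ (-(1 + r)) := by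
  have hp : 0 ≤ (1 + |u|) ^ (-(1 + r)) := by positivity
  rcases le_or_gt u (-1) with h | h
  · rw [Wp_neg hr1 h, abs_zero]; positivity
  rcases le_or_gt 2 u with h2 | h2
  · refine (Wp_far hr0 hr1 h2).trans ?_
    have habs : |u| = u := abs_of_nonneg (by linarith)
    rw [habs]
    have h3 : (u - 1) ^ (-(1 + r)) ≤ ((1 + u) / 3) ^ (-(1 + r)) :=
      Real.rpow_le_rpow_of_nonpos (by positivity) (by linarith) (by linarith)
    have h4 : ((1 + u) / 3) ^ (-(1 + r)) = (1 + u) ^ (-(1 + r)) * 3 ^ (1 + r) := by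
      rw [Real.div_rpow (by linarith) (by norm_num), Real.rpow_neg (by norm_num : (0:ℝ) ≤ 3), div_inv_eq_mul]
    have h5 : (3:ℝ) ^ (1 + r) ≤ 3 ^ (2:ℝ) := Real.rpow_le_rpow_of_exponent_le (by norm_num) (by linarith)
    have h6 : (3:ℝ) ^ (2:ℝ) = 9 := by norm_num
    rw [h4] at h3
    have h7 : 0 ≤ (1 + u) ^ (-(1 + r)) := by positivity
    nlinarith
  · have h1 := Wp_holder hr0 hr1 u (-1)
    rw [Wp_neg hr1 le_rfl, sub_zero] at h1
    have h3 : |u - -1| ^ (1 - r) ≤ 3 := by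
      have h4 : |u - -1| ≤ 3 := by rw [abs_le]; constructor <;> linarith
      calc |u - -1| ^ (1 - r) ≤ 3 ^ (1 - r) := Real.rpow_le_rpow (abs_nonneg _) h4 (by linarith)
        _ ≤ 3 ^ (1:ℝ) := Real.rpow_le_rpow_of_exponent_le (by norm_num) (by linarith)
        _ = 3 := by norm_num
    have h5 : 1 + |u| ≤ 3 := by
      have : |u| ≤ 2 := by rw [abs_le]; constructor <;> linarith
      linarith
    have h6 : (3:ℝ) ^ (-(1 + r)) ≤ (1 + |u|) ^ (-(1 + r)) :=
      Real.rpow_le_rpow_of_nonpos (by positivity) h5 (by linarith)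
    have h7 : (3:ℝ) ^ (-(2:ℝ)) ≤ 3 ^ (-(1 + r)) := Real.rpow_le_rpow_of_exponent_le (by norm_num) (by linarith)
    have h8 : (3:ℝ) ^ (-(2:ℝ)) = 1 / 9 := by rw [Real.rpow_neg (by norm_num)]; norm_num
    rw [h8] at h7
    have h9 : 1 / 9 ≤ (1 + |u|) ^ (-(1 + r)) := h7.trans h6
    linarith

/-- interpolation of the two bounds -/
theorem Wp_interp {r : ℝ} (hr0 : 0 < r) (hr1 : r < 1) {a b : ℝ} (hab : |a - b| ≤ 1) :
    |Wp r a - Wp r b| ≤ 1000 * |a - b| ^ ((1 - r) * ((r/2) / (1 + r))) * (1 + |a|) ^ (-(1 + r/2)) := by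
  obtain ⟨X, hX⟩ : ∃ X, X = |Wp r a - Wp r b| := ⟨_, rfl⟩
  have hX0 : 0 ≤ X := by rw [hX]; exact abs_nonneg _
  have h1 : X ≤ 4 * |a - b| ^ (1 - r) := by rw [hX]; exact Wp_holder hr0.le hr1 a b
  have h2 : X ≤ 540 * (1 + |a|) ^ (-(1 + r)) := by
    have e1 := Wp_decay hr0.le hr1 a
    have e2 := Wp_decay hr0.le hr1 b
    have e3 : (1 + |b|) ^ (-(1 + r)) ≤ 4 * (1 + |a|) ^ (-(1 + r)) := by
      have e4 : (1 + |a|) / 2 ≤ 1 + |b| := by
        have := abs_sub_abs_le_abs_sub a b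
        have := abs_nonneg b
        linarith
      have e5 : (1 + |b|) ^ (-(1 + r)) ≤ ((1 + |a|) / 2) ^ (-(1 + r)) :=
        Real.rpow_le_rpow_of_nonpos (by positivity) e4 (by linarith)
      have e6 : ((1 + |a|) / 2) ^ (-(1 + r)) = (1 + |a|) ^ (-(1 + r)) * 2 ^ (1 + r) := by
        rw [Real.div_rpow (by positivity) (by norm_num), Real.rpow_neg (by norm_num : (0:ℝ) ≤ 2), div_inv_eq_mul]
      have e7 : (2:ℝ) ^ (1 + r) ≤ 2 ^ (2:ℝ) := Real.rpow_le_rpow_of_exponent_le (by norm_num) (by linarith)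
      have e8 : (2:ℝ) ^ (2:ℝ) = 4 := by norm_num
      rw [e6] at e5
      have : 0 ≤ (1 + |a|) ^ (-(1 + r)) := by positivity
      nlinarith
    rw [hX]
    have e9 : |Wp r a - Wp r b| ≤ |Wp r a| + |Wp r b| := abs_sub _ _
    linarith
  obtain ⟨lam, hlam⟩ : ∃ lam, lam = (r/2) / (1 + r) := ⟨_, rfl⟩
  have hl0 : 0 < lam := by rw [hlam]; positivity
  have hl1 : lam < 1 := by rw [hlam, div_lt_one (by linarith)]; linarith
  rw [← hX, ← hlam]
  have h3 : X = X ^ lam * X ^ (1 - lam) := by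
    rcases hX0.eq_or_lt with h | h
    · rw [← h, Real.zero_rpow hl0.ne', zero_mul]
    · rw [← Real.rpow_add h]; simp
  have h4 : X ^ lam ≤ (4 * |a - b| ^ (1 - r)) ^ lam := Real.rpow_le_rpow hX0 h1 hl0.le
  have h5 : X ^ (1 - lam) ≤ (540 * (1 + |a|) ^ (-(1 + r))) ^ (1 - lam) := Real.rpow_le_rpow hX0 h2 (by linarith)
  have h6 : (4 * |a - b| ^ (1 - r)) ^ lam = 4 ^ lam * |a - b| ^ ((1 - r) * lam) := by
    rw [Real.mul_rpow (by norm_num) (by positivity), ← Real.rpow_mul (abs_nonneg _)]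
  have h7 : (540 * (1 + |a|) ^ (-(1 + r))) ^ (1 - lam) = 540 ^ (1 - lam) * (1 + |a|) ^ (-(1 + r/2)) := by
    rw [Real.mul_rpow (by norm_num) (by positivity), ← Real.rpow_mul (by positivity)]
    congr 2
    rw [hlam]; field_simp; ring
  have h8 : (4:ℝ) ^ lam * 540 ^ (1 - lam) ≤ 540 := by
    calc (4:ℝ) ^ lam * 540 ^ (1 - lam) ≤ 540 ^ lam * 540 ^ (1 - lam) := by
          apply mul_le_mul_of_nonneg_right _ (by positivity)
          exact Real.rpow_le_rpow (by norm_num) (by norm_num) hl0.le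
      _ = 540 := by rw [← Real.rpow_add (by norm_num)]; simp
  have h9 : 0 ≤ |a - b| ^ ((1 - r) * lam) * (1 + |a|) ^ (-(1 + r/2)) := by positivity
  calc X = X ^ lam * X ^ (1 - lam) := h3
    _ ≤ (4 ^ lam * |a - b| ^ ((1 - r) * lam)) * (540 ^ (1 - lam) * (1 + |a|) ^ (-(1 + r/2))) := by
        rw [← h6, ← h7]; gcongr
    _ = (4 ^ lam * 540 ^ (1 - lam)) * (|a - b| ^ ((1 - r) * lam) * (1 + |a|) ^ (-(1 + r/2))) := by ring
    _ ≤ 540 * (|a - b| ^ ((1 - r) * lam) * (1 + |a|) ^ (-(1 + r/2))) := mul_le_mul_of_nonneg_right h8 h9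
    _ ≤ _ := by nlinarith

/-- refinement -/
theorem Wp_refine {r : ℝ} (u : ℝ) : Wp r (u / 2) = 2 ^ r * (Wp r u + (Wp r (u - 1) + Wp r (u + 1)) / 2) := by
  have hG : ∀ v, Gp r (v / 2) = 2 ^ r / 2 * Gp r v := by
    intro v
    unfold Gp
    have : max (v / 2) 0 = max v 0 / 2 := by
      rcases le_total v 0 with h | h
      · rw [max_eq_right h, max_eq_right (by linarith)]; simp
      · rw [max_eq_left h, max_eq_left (by linarith)]
    rw [this, Real.div_rpow (le_max_right _ _) (by norm_num), Real.rpow_sub (by norm_num : (0:ℝ) < 2), Real.rpow_one]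
    have : (0:ℝ) < 2 ^ r := by positivity
    field_simp
  unfold Wp
  rw [show u / 2 + 1 = (u + 2) / 2 by ring, show u / 2 - 1 = (u - 2) / 2 by ring, hG, hG, hG,
    show u - 1 + 1 = u by ring, show u - 1 - 1 = u - 2 by ring, show u + 1 + 1 = u + 2 by ring, show u + 1 - 1 = u by ring]
  ring

/-- first difference -/
noncomputable def Dp (r : ℝ) (u : ℝ) : ℝ := Gp r (u + 1) - Gp r u

theorem Wp_Dp (r u : ℝ) : Wp r u = Dp r u - Dp r (u - 1) := by
  unfold Wp Dp
  rw [show u - 1 + 1 = u by ring]; ring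

theorem Dp_neg {r : ℝ} (hr1 : r < 1) {u : ℝ} (hu : u ≤ -1) : Dp r u = 0 := by
  unfold Dp
  rw [Gp_neg hr1 (by linarith), Gp_neg hr1 (by linarith)]; ring

theorem Dp_far {r : ℝ} (hr1 : r < 1) {u : ℝ} (hu : 1 ≤ u) (hr0 : 0 < r) : |Dp r u| ≤ u ^ (-r) := by
  have hd2 : ∀ x, 0 < x → HasDerivAt (fun x : ℝ => x ^ (1 - r)) ((1 - r) * x ^ (1 - r - 1)) x := fun x hx =>
    Real.hasDerivAt_rpow_const (Or.inl hx.ne')
  obtain ⟨c, hc, hceq⟩ := exists_hasDerivAt_eq_slope (fun x : ℝ => x ^ (1 - r)) (fun x => (1 - r) * x ^ (1 - r - 1))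
    (show u < u + 1 by linarith)
    (fun x hx => (hd2 x (by have := hx.1; linarith)).continuousAt.continuousWithinAt)
    (fun x hx => hd2 x (by have := hx.1; linarith))
  have hc1 := hc.1
  have hD : Dp r u = (1 - r) * c ^ (1 - r - 1) := by
    rw [hceq, show u + 1 - u = 1 by ring, div_one]
    unfold Dp Gp
    rw [max_eq_left (by linarith), max_eq_left (by linarith)]
  have h0 : 0 ≤ c ^ (1 - r - 1) := Real.rpow_nonneg (by linarith) _
  rw [hD, abs_mul, abs_of_nonneg (by linarith : 0 ≤ 1 - r), abs_of_nonneg h0]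
  have h1 : c ^ (1 - r - 1) ≤ u ^ (-r) := by
    rw [show 1 - r - 1 = -r by ring]
    exact Real.rpow_le_rpow_of_nonpos (by linarith) hc1.le (by linarith)
  nlinarith

theorem Dp_tendsto {r : ℝ} (hr0 : 0 < r) (hr1 : r < 1) : Filter.Tendsto (Dp r) Filter.atTop (nhds 0) := by
  have h1 : Filter.Tendsto (fun u : ℝ => u ^ (-r)) Filter.atTop (nhds 0) := tendsto_rpow_neg_atTop hr0
  refine squeeze_zero_norm' ?_ h1
  filter_upwards [Filter.eventually_ge_atTop 1] with u hu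
  rw [Real.norm_eq_abs]
  exact Dp_far hr1 hu hr0

end H396C
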