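import Pool.Agent.H396R3.C.Ker1

/-! Periodisation. -/

set_option autoImplicit false

open Finset

namespace H396C

noncomputable def Zc (δ : ℝ) : ℝ := ∑' i : ℤ, |(i:ℝ)| ^ (-(1 + δ))

theorem Zc_summable {δ : ℝ} (hδ : 0 < δ) : Summable fun i : ℤ => |(i:ℝ)| ^ (-(1 + δ)) :=
  Real.summable_abs_int_rpow (by linarith)

theorem Zc_nonneg (δ : ℝ) : 0 ≤ Zc δ := tsum_nonneg fun i => by positivity

noncomputable def Cz (δ : ℝ) : ℝ := 1 + 4 ^ (1 + δ) * Zc δ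

theorem Cz_pos (δ : ℝ) : 0 < Cz δ := by
  unfold Cz
  have := Zc_nonneg δ
  positivity

theorem geoZ {δ : ℝ} (hδ : 0 < δ) (n : ℕ) {w : ℝ} (hw : |w| ≤ 1/2) :
    Summable (fun i : ℤ => (1 + 2 ^ n * |w + i|) ^ (-(1 + δ))) ∧
    ∑' i : ℤ, (1 + 2 ^ n * |w + i|) ^ (-(1 + δ)) ≤ Cz δ * (1 + 2 ^ n * |w|) ^ (-(1 + δ)) := by
  classical
  obtain ⟨T, hT⟩ : ∃ T : ℝ, T = (1 + 2 ^ n * |w|) ^ (-(1 + δ)) := ⟨_, rfl⟩
  have hT0 : 0 < T := by rw [hT]; positivity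
  have hP : (0:ℝ) < 2 ^ n := by positivity
  have hT2 : ((2:ℝ) ^ n / 2) ^ (-(1 + δ)) ≤ 4 ^ (1 + δ) * T := by
    have h1 : (2 * 2 ^ n : ℝ) ^ (-(1 + δ)) ≤ T := by
      rw [hT]
      apply Real.rpow_le_rpow_of_nonpos (by positivity) _ (by linarith)
      have h2 : (2:ℝ) ^ n * |w| ≤ 2 ^ n * (1/2) := mul_le_mul_of_nonneg_left hw hP.le
      have h3 : (1:ℝ) ≤ 2 ^ n := one_le_pow₀ (by norm_num)
      linarith
    have h2 : ((2:ℝ) ^ n / 2) ^ (-(1 + δ)) = 4 ^ (1 + δ) * (2 * 2 ^ n : ℝ) ^ (-(1 + δ)) := by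
      have : (2:ℝ) ^ n / 2 = 4⁻¹ * (2 * 2 ^ n) := by ring
      rw [this, Real.mul_rpow (by norm_num) (by positivity), Real.inv_rpow (by norm_num),
        Real.rpow_neg (by norm_num : (0:ℝ) ≤ 4), inv_inv]
    rw [h2]
    exact mul_le_mul_of_nonneg_left h1 (by positivity)
  have hterm : ∀ i : ℤ, (1 + 2 ^ n * |w + i|) ^ (-(1 + δ)) ≤ (if i = 0 then T else 0) + (4 ^ (1 + δ) * T) * |(i:ℝ)| ^ (-(1 + δ)) := by
    intro i
    by_cases hi : i = 0
    · rw [if_pos hi, hi, Int.cast_zero, add_zero, ← hT]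
      have : 0 ≤ (4 ^ (1 + δ) * T) * |(0:ℝ)| ^ (-(1 + δ)) := by positivity
      linarith
    · rw [if_neg hi, zero_add]
      have hi1 : (1:ℝ) ≤ |(i:ℝ)| := by
        have : (1:ℤ) ≤ |i| := Int.one_le_abs hi
        exact_mod_cast this
      have h1 : |(i:ℝ)| / 2 ≤ |w + i| := by
        have h2 : |(i:ℝ)| ≤ |w + i| + |w| := by
          have := abs_sub (w + i) w
          simpa using this
        linarith
      have h2 : (2 ^ n / 2) * |(i:ℝ)| ≤ 1 + 2 ^ n * |w + i| := by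
        have := mul_le_mul_of_nonneg_left h1 hP.le
        linarith
      calc (1 + 2 ^ n * |w + i|) ^ (-(1 + δ)) ≤ ((2 ^ n / 2) * |(i:ℝ)|) ^ (-(1 + δ)) :=
            Real.rpow_le_rpow_of_nonpos (by positivity) h2 (by linarith)
        _ = (2 ^ n / 2) ^ (-(1 + δ)) * |(i:ℝ)| ^ (-(1 + δ)) := Real.mul_rpow (by positivity) (abs_nonneg _)
        _ ≤ _ := mul_le_mul_of_nonneg_right hT2 (by positivity)
  have hs1 : Summable (fun i : ℤ => if i = 0 then T else 0) := (hasSum_ite_eq (0:ℤ) T).summable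
  have hs2 := (Zc_summable hδ).mul_left (4 ^ (1 + δ) * T)
  have hs : Summable (fun i : ℤ => (1 + 2 ^ n * |w + i|) ^ (-(1 + δ))) :=
    Summable.of_nonneg_of_le (fun i => by positivity) hterm (hs1.add hs2)
  refine ⟨hs, ?_⟩
  refine (hs.tsum_le_tsum hterm (hs1.add hs2)).trans ?_
  rw [hs1.tsum_add hs2, tsum_ite_eq, tsum_mul_left]
  rw [← hT]
  unfold Cz Zc
  linarith

theorem perB {δ : ℝ} (hδ : 0 < δ) (n : ℕ) {w t ρ : ℝ} {k : ℤ} (hw : |w| ≤ 1/2) (hρ0 : 0 ≤ ρ) (hρ1 : ρ * 2 ^ n ≤ 1)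
    (ht : t = w + k + ρ) {D : ℝ} (hD : 0 ≤ D) {f : ℤ → ℝ} (hf : ∀ j : ℤ, |f j| ≤ D * (1 + 2 ^ n * |t + j|) ^ (-(1 + δ))) :
    Summable f ∧ |∑' j, f j| ≤ D * 2 ^ (1 + δ) * Cz δ * (1 + 2 ^ n * |w|) ^ (-(1 + δ)) := by
  obtain ⟨hs, hb⟩ := geoZ hδ n hw
  have hP : (0:ℝ) < 2 ^ n := by positivity
  obtain ⟨g, hg⟩ : ∃ g : ℤ → ℝ, g = fun i : ℤ => (1 + 2 ^ n * |w + i|) ^ (-(1 + δ)) := ⟨_, rfl⟩
  have hterm : ∀ j, |f j| ≤ D * 2 ^ (1 + δ) * g (k + j) := by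
    intro j
    refine (hf j).trans ?_
    rw [mul_assoc]
    apply mul_le_mul_of_nonneg_left _ hD
    have h1 : (1 + 2 ^ n * |w + ((k + j : ℤ) : ℝ)|) / 2 ≤ 1 + 2 ^ n * |t + j| := by
      have h2 : |w + ((k + j : ℤ) : ℝ)| ≤ |t + j| + ρ := by
        have : w + ((k + j : ℤ) : ℝ) = (t + j) - ρ := by rw [ht]; push_cast; ring
        rw [this]
        have := abs_sub (t + j) ρ
        rwa [abs_of_nonneg hρ0] at this
      have h3 := mul_le_mul_of_nonneg_left h2 hP.le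
      have h4 : 0 ≤ 2 ^ n * |t + j| := by positivity
      linarith
    have h5 : (1 + 2 ^ n * |t + j|) ^ (-(1 + δ)) ≤ ((1 + 2 ^ n * |w + ((k + j : ℤ) : ℝ)|) / 2) ^ (-(1 + δ)) :=
      Real.rpow_le_rpow_of_nonpos (by positivity) h1 (by linarith)
    refine h5.trans (le_of_eq ?_)
    rw [Real.div_rpow (by positivity) (by norm_num), Real.rpow_neg (by norm_num : (0:ℝ) ≤ 2), div_inv_eq_mul, hg]
    ring
  have hgs : Summable (fun j => D * 2 ^ (1 + δ) * g (k + j)) := by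
    apply Summable.mul_left
    have := (Equiv.addLeft k).summable_iff.2 (hg ▸ hs : Summable g)
    exact this
  have hfa : Summable fun j => |f j| := Summable.of_nonneg_of_le (fun j => abs_nonneg _) hterm hgs
  refine ⟨hfa.of_abs, ?_⟩
  have h1 : |∑' j, f j| ≤ ∑' j, |f j| := by
    have := norm_tsum_le_tsum_norm (f := f) hfa
    simpa [Real.norm_eq_abs] using this
  refine h1.trans ((hfa.tsum_le_tsum hterm hgs).trans ?_)
  rw [tsum_mul_left]
  have h2 : ∑' j, g (k + j) = ∑' i, g i := (Equiv.addLeft k).tsum_eq g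
  rw [h2, mul_assoc _ (Cz δ)]
  apply mul_le_mul_of_nonneg_left _ (by positivity)
  rw [hg]; exact hb

/-- the periodised function -/
noncomputable def PW (r : ℝ) (n : ℕ) (t : ℝ) : ℝ := ∑' j : ℤ, Wp r (2 ^ n * (t + j))

theorem PW_term {r : ℝ} (hr0 : 0 < r) (hr1 : r < 1) (n : ℕ) (t : ℝ) (j : ℤ) :
    |Wp r (2 ^ n * (t + j))| ≤ 108 * (1 + 2 ^ n * |t + j|) ^ (-(1 + r/2)) := by
  refine (Wp_decay hr0.le hr1 _).trans ?_
  apply mul_le_mul_of_nonneg_left _ (by norm_num)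
  rw [abs_mul, abs_of_pos (by positivity : (0:ℝ) < 2 ^ n)]
  apply Real.rpow_le_rpow_of_exponent_le _ (by linarith)
  have : 0 ≤ 2 ^ n * |t + j| := by positivity
  linarith

theorem PW_summable {r : ℝ} (hr0 : 0 < r) (hr1 : r < 1) (n : ℕ) (t : ℝ) :
    Summable fun j : ℤ => Wp r (2 ^ n * (t + j)) := by
  have h1 : |t - round t| ≤ 1/2 := abs_sub_round t
  exact (perB (show 0 < r/2 by linarith) n h1 (le_refl 0) (by simp) (show t = (t - round t) + (round t : ℤ) + 0 by ring)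
    (by norm_num : (0:ℝ) ≤ 108) (fun j => PW_term hr0 hr1 n t j)).1

theorem PW_bdd {r : ℝ} (hr0 : 0 < r) (hr1 : r < 1) (n : ℕ) (t : ℝ) :
    |PW r n t| ≤ 108 * 2 ^ (1 + r/2) * Cz (r/2) := by
  have h1 : |t - round t| ≤ 1/2 := abs_sub_round t
  have h2 := (perB (show 0 < r/2 by linarith) n h1 (le_refl 0) (by simp) (show t = (t - round t) + (round t : ℤ) + 0 by ring)
    (by norm_num : (0:ℝ) ≤ 108) (fun j => PW_term hr0 hr1 n t j)).2
  refine h2.trans ?_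
  have h3 : (1 + 2 ^ n * |t - round t|) ^ (-(1 + r/2)) ≤ 1 := by
    apply Real.rpow_le_one_of_one_le_of_nonpos _ (by linarith)
    have : 0 ≤ 2 ^ n * |t - round t| := by positivity
    linarith
  have h4 : 0 ≤ 108 * 2 ^ (1 + r/2) * Cz (r/2) := by
    have := Cz_pos (r/2)
    positivity
  nlinarith

theorem PW_per (r : ℝ) (n : ℕ) (t : ℝ) (m : ℤ) : PW r n (t + m) = PW r n t := by
  unfold PW
  have h1 : ∀ j : ℤ, Wp r (2 ^ n * (t + m + j)) = Wp r (2 ^ n * (t + ((m + j : ℤ) : ℝ))) := by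
    intro j; push_cast; congr 2; ring
  simp only [h1]
  exact (Equiv.addLeft m).tsum_eq (fun i : ℤ => Wp r (2 ^ n * (t + (i:ℝ))))

theorem PW_refine {r : ℝ} (hr0 : 0 < r) (hr1 : r < 1) (n : ℕ) (t : ℝ) :
    PW r n t = 2 ^ r * (PW r (n+1) t + (PW r (n+1) (t - 1 / 2 ^ (n+1)) + PW r (n+1) (t + 1 / 2 ^ (n+1))) / 2) := by
  have s1 := PW_summable hr0 hr1 (n+1) t
  have s2 := PW_summable hr0 hr1 (n+1) (t - 1 / 2 ^ (n+1))
  have s3 := PW_summable hr0 hr1 (n+1) (t + 1 / 2 ^ (n+1))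
  unfold PW
  rw [← s2.tsum_add s3, ← tsum_div_const, ← s1.tsum_add ((s2.add s3).div_const 2), ← tsum_mul_left]
  congr 1
  funext j
  have h0 : (0:ℝ) < 2 ^ (n+1) := by positivity
  have h1 : 2 ^ n * (t + (j:ℝ)) = (2 ^ (n+1) * (t + j)) / 2 := by rw [pow_succ]; ring
  have h2 : 2 ^ (n+1) * (t - 1 / 2 ^ (n+1) + (j:ℝ)) = 2 ^ (n+1) * (t + j) - 1 := by field_simp; ring
  have h3 : 2 ^ (n+1) * (t + 1 / 2 ^ (n+1) + (j:ℝ)) = 2 ^ (n+1) * (t + j) + 1 := by field_simp; ring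
  rw [h1, h2, h3]
  exact Wp_refine _

/-- telescoping sum over an arithmetic progression -/
theorem tele_zero {r : ℝ} (hr0 : 0 < r) (hr1 : r < 1) (s : ℝ) (Q : ℕ) (hQ : 0 < Q) :
    Summable (fun i : ℤ => Wp r (s + i / Q)) ∧ ∑' i : ℤ, Wp r (s + i / Q) = 0 := by
  have hQ' : (0:ℝ) < Q := by exact_mod_cast hQ
  obtain ⟨g, hg⟩ : ∃ g : ℤ → ℝ, g = fun i : ℤ => Wp r (s + i / Q) := ⟨_, rfl⟩
  rw [← hg]
  have hsum : Summable g := by
    have hs1 : Summable (fun i : ℤ => if i = 0 then |g 0| else 0) := (hasSum_ite_eq (0:ℤ) |g 0|).summable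
    have hs2 := (Zc_summable hr0).mul_left (108 * ((1 + |s|) ^ (1 + r) * (Q:ℝ) ^ (1 + r)))
    have hterm : ∀ i : ℤ, |g i| ≤ (if i = 0 then |g 0| else 0) + (108 * ((1 + |s|) ^ (1 + r) * (Q:ℝ) ^ (1 + r))) * |(i:ℝ)| ^ (-(1 + r)) := by
      intro i
      by_cases hi : i = 0
      · rw [if_pos hi, hi]
        have : 0 ≤ (108 * ((1 + |s|) ^ (1 + r) * (Q:ℝ) ^ (1 + r))) * |((0:ℤ):ℝ)| ^ (-(1 + r)) := by positivity
        linarith
      · rw [if_neg hi, zero_add, hg]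
        refine (Wp_decay hr0.le hr1 _).trans ?_
        rw [mul_assoc]
        apply mul_le_mul_of_nonneg_left _ (by norm_num)
        have hi1 : (0:ℝ) < |(i:ℝ)| := abs_pos.2 (by exact_mod_cast hi)
        have h1 : |(i:ℝ)| / Q / (1 + |s|) ≤ 1 + |s + i / Q| := by
          rw [div_le_iff₀ (by positivity)]
          have h2 : |(i:ℝ)| / Q ≤ |s + i / Q| + |s| := by
            have h3 : |(i:ℝ)| / Q = |(s + i / Q) - s| := by
              rw [add_sub_cancel_left, abs_div, abs_of_pos hQ']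
            rw [h3]; exact abs_sub _ _
          have h4 := abs_nonneg s
          have h5 := abs_nonneg (s + i / Q)
          nlinarith
        calc (1 + |s + i / Q|) ^ (-(1 + r)) ≤ (|(i:ℝ)| / Q / (1 + |s|)) ^ (-(1 + r)) :=
              Real.rpow_le_rpow_of_nonpos (by positivity) h1 (by linarith)
          _ = _ := by
            rw [Real.div_rpow (by positivity) (by positivity), Real.div_rpow (by positivity) (by positivity),
              Real.rpow_neg (by positivity : (0:ℝ) ≤ (Q:ℝ)), Real.rpow_neg (by positivity : (0:ℝ) ≤ 1 + |s|)]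
            field_simp
    exact (Summable.of_nonneg_of_le (fun i => abs_nonneg _) hterm (hs1.add hs2)).of_abs
  refine ⟨hsum, ?_⟩
  -- reduction to natural numbers
  obtain ⟨k0, hk0⟩ : ∃ k0 : ℕ, s + 1 ≤ k0 / Q := by
    obtain ⟨k, hk⟩ := exists_nat_ge ((s + 1) * Q)
    exact ⟨k, by rw [le_div_iff₀ hQ']; exact hk⟩
  obtain ⟨s', hs'⟩ : ∃ s', s' = s - k0 / Q := ⟨_, rfl⟩
  have hs'1 : s' ≤ -1 := by rw [hs']; linarith
  have hinj : Function.Injective (fun k : ℕ => (k:ℤ) - k0) := by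
    intro a b h; simp only at h; omega
  have hsupp : Function.support g ⊆ Set.range (fun k : ℕ => (k:ℤ) - k0) := by
    intro i hi
    by_contra hcon
    apply hi
    have hneg : i < -(k0:ℤ) := by
      by_contra h
      apply hcon
      exact ⟨(i + k0).toNat, by simp only; omega⟩
    rw [hg]
    apply Wp_neg hr1
    have h1 : (i:ℝ) ≤ -(k0:ℝ) := by exact_mod_cast hneg.le
    have h2 : (i:ℝ) / Q ≤ -(k0:ℝ) / Q := div_le_div_of_nonneg_right h1 hQ'.le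
    rw [neg_div] at h2
    linarith
  rw [← hinj.tsum_eq hsupp]
  have hsum' : Summable (fun k : ℕ => g ((k:ℤ) - k0)) := hsum.comp_injective hinj
  have hval : ∀ k : ℕ, g ((k:ℤ) - k0) = Dp r (s' + k / Q) - Dp r (s' + k / Q - 1) := by
    intro k
    rw [hg]
    simp only
    rw [← Wp_Dp]
    congr 1
    rw [hs']; push_cast; ring
  have hpart : ∀ m : ℕ, ∑ k ∈ range (m + Q), g ((k:ℤ) - k0) = ∑ k ∈ range Q, Dp r (s' + (m + k : ℕ) / Q) := by
    intro m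
    simp only [hval]
    rw [Finset.sum_sub_distrib, Finset.sum_range_add (fun k => Dp r (s' + (k:ℝ) / Q)) m Q]
    rw [add_comm m Q, Finset.sum_range_add (fun k => Dp r (s' + (k:ℝ) / Q - 1)) Q m]
    have h1 : ∑ x ∈ range Q, Dp r (s' + (x:ℝ) / Q - 1) = 0 := by
      apply Finset.sum_eq_zero
      intro x hx
      have hx' : (x:ℝ) ≤ Q := by exact_mod_cast (Finset.mem_range.1 hx).le
      apply Dp_neg hr1
      have : (x:ℝ) / Q ≤ 1 := by rw [div_le_one hQ']; exact hx'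
      linarith
    have h2 : ∑ x ∈ range m, Dp r (s' + ((Q + x : ℕ):ℝ) / Q - 1) = ∑ x ∈ range m, Dp r (s' + (x:ℝ) / Q) := by
      refine Finset.sum_congr rfl fun x _ => ?_
      congr 1
      push_cast; field_simp; ring
    rw [h1, h2]; ring
  have ht1 := hsum'.hasSum.tendsto_sum_nat
  have ht2 := ht1.comp (Filter.tendsto_add_atTop_nat Q)
  have ht3 : Filter.Tendsto (fun m : ℕ => ∑ k ∈ range Q, Dp r (s' + (m + k : ℕ) / Q)) Filter.atTop (nhds 0) := by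
    have h0 : (0:ℝ) = ∑ k ∈ range Q, (0:ℝ) := by simp
    rw [h0]
    refine tendsto_finset_sum _ fun k _ => ?_
    refine (Dp_tendsto hr0 hr1).comp ?_
    apply Filter.tendsto_atTop_add_const_left
    apply Filter.Tendsto.atTop_div_const hQ'
    exact tendsto_natCast_atTop_atTop.comp (Filter.tendsto_add_atTop_nat k)
  refine tendsto_nhds_unique ht2 ?_
  have : ((fun n => ∑ i ∈ range n, g ((i:ℤ) - k0)) ∘ fun a => a + Q) = fun m : ℕ => ∑ k ∈ range Q, Dp r (s' + (m + k : ℕ) / Q) := by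
    funext m; exact hpart m
  rw [this]
  exact ht3

/-- the sum over all translates vanishes -/
theorem PW_zero {r : ℝ} (hr0 : 0 < r) (hr1 : r < 1) {n M : ℕ} (hn : n ≤ M) (t : ℝ) :
    ∑ v ∈ range (2 ^ M), PW r n (t + v / 2 ^ M) = 0 := by
  obtain ⟨N, hN⟩ : ∃ N, N = 2 ^ M := ⟨_, rfl⟩
  haveI : NeZero N := ⟨by rw [hN]; positivity⟩
  obtain ⟨Q, hQ⟩ : ∃ Q, Q = 2 ^ (M - n) := ⟨_, rfl⟩
  have hQ0 : 0 < Q := by rw [hQ]; positivity
  obtain ⟨hs, hz⟩ := tele_zero hr0 hr1 (2 ^ n * t) Q hQ0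
  obtain ⟨g, hg⟩ : ∃ g : ℤ → ℝ, g = fun i : ℤ => Wp r (2 ^ n * t + i / Q) := ⟨_, rfl⟩
  rw [← hg] at hs hz
  have hNQ : (N:ℝ) = 2 ^ n * Q := by
    rw [hN, hQ]; push_cast
    rw [← pow_add]; congr 1; omega
  have hQr : (0:ℝ) < Q := by exact_mod_cast hQ0
  have hval : ∀ (j : ℤ) (v : ℕ), Wp r (2 ^ n * (t + v / 2 ^ M + j)) = g (j * N + v) := by
    intro j v
    rw [hg]
    simp only
    congr 1
    have h2 : (2:ℝ) ^ M = 2 ^ n * Q := by rw [← hNQ, hN]; push_cast; rfl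
    push_cast
    rw [hNQ, h2]
    field_simp
    ring
  have h1 : ∑' i, g i = ∑' p : ℤ × Fin N, g (p.1 * N + (p.2 : ℕ)) := ((Int.divModEquiv N).symm.tsum_eq g).symm
  have h2 : Summable (fun p : ℤ × Fin N => g (p.1 * N + (p.2 : ℕ))) := (Int.divModEquiv N).symm.summable_iff.2 hs
  rw [hz] at h1
  have h3 : ∑' p : ℤ × Fin N, g (p.1 * N + (p.2 : ℕ)) = ∑' (v : Fin N) (j : ℤ), g (j * N + (v : ℕ)) := by
    have h4 : ∑' p : ℤ × Fin N, g (p.1 * N + (p.2 : ℕ)) = ∑' p : Fin N × ℤ, g (p.2 * N + (p.1 : ℕ)) :=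
      ((Equiv.prodComm (Fin N) ℤ).tsum_eq (fun p : ℤ × Fin N => g (p.1 * N + (p.2 : ℕ)))).symm
    rw [h4]
    have h5 : Summable (fun p : Fin N × ℤ => g (p.2 * N + (p.1 : ℕ))) := (Equiv.prodComm (Fin N) ℤ).summable_iff.2 h2
    exact h5.tsum_prod
  rw [h3, tsum_fintype] at h1
  rw [← hN, ← Fin.sum_univ_eq_sum_range (fun v => PW r n (t + v / 2 ^ M)) N, h1]
  refine Finset.sum_congr rfl fun v _ => ?_
  unfold PW
  congr 1
  funext j
  exact hval j v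

end H396C
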