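import Pool.Agent.H396R3.C.Ker2

/-! Laplace and Fourier transforms of the second difference. -/

set_option autoImplicit false

open Finset MeasureTheory Filter Topology

namespace H396C

theorem Gp_pos {r : ℝ} {u : ℝ} (hu : 0 < u) : Gp r u = u ^ (1 - r) := by
  unfold Gp; rw [max_eq_left hu.le]

theorem Gp_nonneg (r u : ℝ) : 0 ≤ Gp r u := Real.rpow_nonneg (le_max_right _ _) _

theorem Gp_exp_int {r : ℝ} (hr1 : r < 1) {s : ℝ} (hs : 0 < s) : Integrable (fun u : ℝ => Gp r u * Real.exp (-s * u)) := by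
  have h1 := integrableOn_rpow_mul_exp_neg_mul_rpow (p := 1) (s := 1 - r) (b := s) (by linarith) one_pos hs
  have h2 : IntegrableOn (fun u : ℝ => Gp r u * Real.exp (-s * u)) (Set.Ioi 0) := by
    refine h1.congr_fun (fun u hu => ?_) measurableSet_Ioi
    simp only
    rw [Gp_pos hu, Real.rpow_one]
  have h3 : IntegrableOn (fun u : ℝ => Gp r u * Real.exp (-s * u)) (Set.Iic 0) := by
    refine integrableOn_zero.congr_fun (fun u hu => ?_) measurableSet_Iic
    simp only
    rw [Gp_neg hr1 hu, zero_mul]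
  have := h3.union h2
  rwa [Set.Iic_union_Ioi, integrableOn_univ] at this

theorem Gp_cexp_int {r : ℝ} (hr1 : r < 1) {z : ℂ} (hz : 0 < z.re) : Integrable (fun u : ℝ => (Gp r u : ℂ) * Complex.exp (-(z * u))) := by
  have h1 := Gp_exp_int (r := r) hr1 hz
  refine h1.mono' ?_ ?_
  · have := Gp_cont hr1
    apply Continuous.aestronglyMeasurable
    fun_prop
  · refine Filter.Eventually.of_forall fun u => ?_
    rw [norm_mul, Complex.norm_real, Real.norm_eq_abs, abs_of_nonneg (Gp_nonneg r u), Complex.norm_exp]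
    simp

/-- the Laplace transform of the truncated power -/
theorem lap_G {r : ℝ} (hr1 : r < 1) {z : ℂ} (hz : 0 < z.re) :
    ∫ u : ℝ, (Gp r u : ℂ) * Complex.exp (-(z * u)) = z ^ (-(2 - r : ℂ)) * Complex.Gamma (2 - r) := by
  obtain ⟨μ, hμ⟩ : ∃ μ : Measure ℝ, μ = (volume : Measure ℝ).withDensity (fun t => ENNReal.ofReal (Gp r t)) := ⟨_, rfl⟩
  have hmeas : Measurable (fun t => ENNReal.ofReal (Gp r t)) := (Gp_cont hr1).measurable.ennreal_ofReal
  have hmgf : ∀ w : ℂ, ProbabilityTheory.complexMGF id μ (-w) = ∫ u : ℝ, (Gp r u : ℂ) * Complex.exp (-(w * u)) := by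
    intro w
    unfold ProbabilityTheory.complexMGF
    rw [hμ, integral_withDensity_eq_integral_toReal_smul hmeas (Filter.Eventually.of_forall fun _ => ENNReal.ofReal_lt_top)]
    congr 1
    funext u
    rw [ENNReal.toReal_ofReal (Gp_nonneg r u), Complex.real_smul]
    simp
  have hset : Set.Iio (0:ℝ) ⊆ ProbabilityTheory.integrableExpSet id μ := by
    intro t ht
    have ht' : 0 < -t := by simpa using ht
    show Integrable _ _
    rw [hμ, integrable_withDensity_iff_integrable_smul' hmeas (Filter.Eventually.of_forall fun _ => ENNReal.ofReal_lt_top)]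
    have h1 := Gp_exp_int hr1 ht'
    refine h1.congr (Filter.Eventually.of_forall fun u => ?_)
    simp only
    rw [ENNReal.toReal_ofReal (Gp_nonneg r u), smul_eq_mul]
    simp
  have hint : Set.Iio (0:ℝ) ⊆ interior (ProbabilityTheory.integrableExpSet id μ) := interior_maximal hset isOpen_Iio
  obtain ⟨U, hU⟩ : ∃ U : Set ℂ, U = {w : ℂ | 0 < w.re} := ⟨_, rfl⟩
  have hUo : IsOpen U := by rw [hU]; exact isOpen_lt continuous_const Complex.continuous_re
  have hUc : Convex ℝ U := by rw [hU]; exact convex_halfSpace_re_gt 0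
  have hf : AnalyticOnNhd ℂ (fun w => ProbabilityTheory.complexMGF id μ (-w)) U := by
    apply DifferentiableOn.analyticOnNhd _ hUo
    intro w hw
    have hw' : (-w).re ∈ interior (ProbabilityTheory.integrableExpSet id μ) := by
      apply hint
      rw [hU] at hw
      have : 0 < w.re := hw
      simpa using this
    have h1 := (ProbabilityTheory.hasDerivAt_complexMGF hw').differentiableAt
    exact (h1.comp w differentiableAt_id.neg).differentiableWithinAt
  have hg : AnalyticOnNhd ℂ (fun w : ℂ => w ^ (-(2 - r : ℂ)) * Complex.Gamma (2 - r)) U := by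
    apply DifferentiableOn.analyticOnNhd _ hUo
    intro w hw
    have hw' : w ∈ Complex.slitPlane := by
      rw [hU] at hw
      exact Or.inl hw
    apply DifferentiableAt.differentiableWithinAt
    apply DifferentiableAt.mul_const
    exact (differentiableAt_id).cpow_const hw'
  have hreal : ∀ s : ℝ, 0 < s → ProbabilityTheory.complexMGF id μ (-(s:ℂ)) = (s:ℂ) ^ (-(2 - r : ℂ)) * Complex.Gamma (2 - r) := by
    intro s hs
    rw [hmgf]
    have h1 := Complex.integral_cpow_mul_exp_neg_mul_Ioi (a := (2 - r : ℂ)) (r := s) (by simp; linarith) hs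
    have h2 : ∫ u : ℝ, (Gp r u : ℂ) * Complex.exp (-((s:ℂ) * u)) = ∫ u : ℝ in Set.Ioi 0, (u:ℂ) ^ ((2 - r : ℂ) - 1) * Complex.exp (-((s:ℂ) * u)) := by
      rw [← integral_indicator measurableSet_Ioi]
      congr 1
      funext u
      by_cases hu : 0 < u
      · rw [Set.indicator_of_mem (show u ∈ Set.Ioi 0 from hu), Gp_pos hu, Complex.ofReal_cpow hu.le]
        congr 2
        push_cast; ring
      · rw [Set.indicator_of_notMem (show u ∉ Set.Ioi 0 from hu), Gp_neg hr1 (not_lt.1 hu)]; simp
    rw [h2, h1]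
    congr 1
    rw [one_div, Complex.inv_cpow _ _ (by
      rw [Complex.arg_ofReal_of_nonneg hs.le]; exact Real.pi_pos.ne), Complex.cpow_neg]
  have h1U : (1:ℂ) ∈ U := by rw [hU]; simp
  have hfreq : ∃ᶠ w in 𝓝[≠] (1:ℂ), (fun w => ProbabilityTheory.complexMGF id μ (-w)) w = (fun w : ℂ => w ^ (-(2 - r : ℂ)) * Complex.Gamma (2 - r)) w := by
    have ht : Tendsto (fun n : ℕ => (((1 + 1 / ((n:ℝ) + 1) : ℝ)) : ℂ)) atTop (𝓝[≠] (1:ℂ)) := by
      rw [tendsto_nhdsWithin_iff]
      constructor
      · have h1 : Tendsto (fun n : ℕ => (1 + 1 / ((n:ℝ) + 1) : ℝ)) atTop (𝓝 1) := by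
          have := (tendsto_one_div_add_atTop_nhds_zero_nat (𝕜 := ℝ)).const_add 1
          simpa using this
        have h2 := (Complex.continuous_ofReal.tendsto (1:ℝ)).comp h1
        rw [Complex.ofReal_one] at h2
        exact h2
      · refine Filter.Eventually.of_forall fun n => ?_
        simp only [Set.mem_compl_iff, Set.mem_singleton_iff]
        intro h
        have h2 : (1 + 1 / ((n:ℝ) + 1) : ℝ) = 1 := by exact_mod_cast h
        have h3 : 0 < 1 / ((n:ℝ) + 1) := by positivity
        linarith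
    refine ht.frequently (Filter.Frequently.of_forall fun n => ?_)
    exact hreal _ (by positivity)
  have heq := hf.eqOn_of_preconnected_of_frequently_eq hg hUc.isPreconnected h1U hfreq
  have hzU : z ∈ U := by rw [hU]; exact hz
  rw [← hmgf]
  exact heq hzU

/-- the Laplace transform of the second difference -/
theorem lap_W {r : ℝ} (hr1 : r < 1) {z : ℂ} (hz : 0 < z.re) :
    ∫ u : ℝ, (Wp r u : ℂ) * Complex.exp (-(z * u)) =
      (Complex.exp z - 2 + Complex.exp (-z)) * (z ^ (-(2 - r : ℂ)) * Complex.Gamma (2 - r)) := by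
  have hi := Gp_cexp_int (r := r) hr1 hz
  obtain ⟨f, hf⟩ : ∃ f : ℝ → ℂ, f = fun u : ℝ => (Gp r u : ℂ) * Complex.exp (-(z * u)) := ⟨_, rfl⟩
  rw [← hf] at hi
  have h1 : ∀ u : ℝ, (Wp r u : ℂ) * Complex.exp (-(z * u)) = Complex.exp z * f (u + 1) - 2 * f u + Complex.exp (-z) * f (u - 1) := by
    intro u
    rw [hf]
    simp only
    have e1 : Complex.exp z * ((Gp r (u+1) : ℂ) * Complex.exp (-(z * ((u + 1 : ℝ) : ℂ)))) = (Gp r (u+1) : ℂ) * Complex.exp (-(z * u)) := by
      rw [mul_left_comm, ← Complex.exp_add]; congr 2; push_cast; ring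
    have e2 : Complex.exp (-z) * ((Gp r (u-1) : ℂ) * Complex.exp (-(z * ((u - 1 : ℝ) : ℂ)))) = (Gp r (u-1) : ℂ) * Complex.exp (-(z * u)) := by
      rw [mul_left_comm, ← Complex.exp_add]; congr 2; push_cast; ring
    rw [e1, e2]
    unfold Wp
    push_cast; ring
  simp only [h1]
  have i1 : Integrable (fun u : ℝ => Complex.exp z * f (u + 1)) := (hi.comp_add_right 1).const_mul _
  have i2 : Integrable (fun u : ℝ => 2 * f u) := hi.const_mul _
  have i3 : Integrable (fun u : ℝ => Complex.exp (-z) * f (u - 1)) := (hi.comp_sub_right 1).const_mul _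
  have i12 : Integrable (fun u : ℝ => Complex.exp z * f (u + 1) - 2 * f u) := i1.sub i2
  rw [integral_add i12 i3, integral_sub i1 i2, integral_const_mul, integral_const_mul, integral_const_mul,
    integral_add_right_eq_self f 1, integral_sub_right_eq_self f 1]
  have h2 := lap_G hr1 hz
  rw [hf, h2]; ring

/-- the Fourier transform of the second difference -/
theorem fou_W {r : ℝ} (hr1 : r < 1) (hint : Integrable (Wp r)) {ξ : ℝ} (hξ : ξ ≠ 0) :
    ∫ u : ℝ, (Wp r u : ℂ) * Complex.exp (-((2 * Real.pi * ξ * Complex.I) * u)) =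
      (Complex.exp (2 * Real.pi * ξ * Complex.I) - 2 + Complex.exp (-(2 * Real.pi * ξ * Complex.I))) *
        ((2 * Real.pi * ξ * Complex.I) ^ (-(2 - r : ℂ)) * Complex.Gamma (2 - r)) := by
  obtain ⟨w, hw⟩ : ∃ w : ℂ, w = 2 * Real.pi * ξ * Complex.I := ⟨_, rfl⟩
  rw [← hw]
  have hwre : w.re = 0 := by rw [hw]; simp
  have hwim : w.im ≠ 0 := by
    rw [hw]
    simp [Real.pi_ne_zero, hξ]
  obtain ⟨zs, hzs⟩ : ∃ zs : ℕ → ℂ, zs = fun n : ℕ => ((1 / ((n:ℝ) + 1) : ℝ) : ℂ) + w := ⟨_, rfl⟩
  have hzre : ∀ n, (zs n).re = 1 / ((n:ℝ) + 1) := by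
    intro n; rw [hzs]; simp only [Complex.add_re, Complex.ofReal_re, hwre, add_zero]
  have hzlim : Tendsto zs atTop (𝓝 w) := by
    rw [hzs]
    have h1 := (Complex.continuous_ofReal.tendsto (0:ℝ)).comp (tendsto_one_div_add_atTop_nhds_zero_nat (𝕜 := ℝ))
    have h2 := h1.add_const w
    simpa using h2
  have hlap : ∀ n, ∫ u : ℝ, (Wp r u : ℂ) * Complex.exp (-(zs n * u)) =
      (Complex.exp (zs n) - 2 + Complex.exp (-(zs n))) * ((zs n) ^ (-(2 - r : ℂ)) * Complex.Gamma (2 - r)) :=
    fun n => lap_W hr1 (by rw [hzre]; positivity)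
  have hL : Tendsto (fun n => ∫ u : ℝ, (Wp r u : ℂ) * Complex.exp (-(zs n * u))) atTop
      (𝓝 (∫ u : ℝ, (Wp r u : ℂ) * Complex.exp (-(w * u)))) := by
    apply tendsto_integral_of_dominated_convergence (fun u => |Wp r u| * Real.exp 1)
    · intro n
      have := Wp_cont hr1
      apply Continuous.aestronglyMeasurable
      fun_prop
    · exact hint.abs.mul_const _
    · intro n
      refine Filter.Eventually.of_forall fun u => ?_
      rw [norm_mul, Complex.norm_real, Real.norm_eq_abs, Complex.norm_exp]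
      by_cases hu : u ≤ -1
      · rw [Wp_neg hr1 hu]; simp
      · apply mul_le_mul_of_nonneg_left _ (abs_nonneg _)
        apply Real.exp_le_exp.2
        have h1 : (-(zs n * (u:ℂ))).re = -(1 / ((n:ℝ) + 1) * u) := by
          rw [Complex.neg_re, Complex.re_mul_ofReal, hzre]
        rw [h1]
        have h2 : 1 / ((n:ℝ) + 1) ≤ 1 := by
          rw [div_le_one (by positivity)]
          have : (0:ℝ) ≤ n := Nat.cast_nonneg n
          linarith
        have h3 : 0 < 1 / ((n:ℝ) + 1) := by positivity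
        push Not at hu
        nlinarith
    · refine Filter.Eventually.of_forall fun u => ?_
      apply Tendsto.const_mul
      exact (Complex.continuous_exp.tendsto _).comp ((hzlim.mul_const _).neg)
  have hR : Tendsto (fun n => (Complex.exp (zs n) - 2 + Complex.exp (-(zs n))) * ((zs n) ^ (-(2 - r : ℂ)) * Complex.Gamma (2 - r))) atTop
      (𝓝 ((Complex.exp w - 2 + Complex.exp (-w)) * (w ^ (-(2 - r : ℂ)) * Complex.Gamma (2 - r)))) := by
    apply Tendsto.mul
    · exact (((Complex.continuous_exp.tendsto _).comp hzlim).sub_const 2).add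
        ((Complex.continuous_exp.tendsto _).comp hzlim.neg)
    · apply Tendsto.mul_const
      have hslit : w ∈ Complex.slitPlane := Or.inr hwim
      exact ((continuousAt_id.cpow continuousAt_const hslit).tendsto).comp hzlim
  simp only [hlap] at hL
  exact tendsto_nhds_unique hL hR

end H396C
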