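import Mathlib

/-! Dyadic martingales on a finite set: the two square function inequalities. -/

set_option autoImplicit false

open Finset

namespace H396C

/-- an abstract dyadic filtration on a finite set -/
structure Fil (X : Type) [Fintype X] (M : ℕ) where
  E : ℕ → (X → ℝ) →ₗ[ℝ] (X → ℝ)
  s : ℕ → X → ℝ
  mono : ∀ (k : ℕ) (f g : X → ℝ), (∀ x, f x ≤ g x) → ∀ x, E k f x ≤ E k g x
  one : ∀ k, E k 1 = 1
  pull : ∀ (k : ℕ) (φ f : X → ℝ), E k φ = φ → E k (φ * f) = φ * E k f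
  idem : ∀ (k : ℕ) (f : X → ℝ), E k (E k f) = E k f
  meas : ∀ (k l : ℕ) (φ : X → ℝ), k ≤ l → E k φ = φ → E l φ = φ
  sum : ∀ (k : ℕ) (f : X → ℝ), ∑ x, E k f x = ∑ x, f x
  top : ∀ f : X → ℝ, E M f = f
  sq : ∀ k x, s k x * s k x = 1
  haar : ∀ (k : ℕ) (f : X → ℝ), k < M → E (k + 1) f = E k f + s k * E k (s k * f)

/-- Bernoulli type inequality -/
theorem tangent (n : ℕ) {a y : ℝ} (ha : 0 ≤ a) (hy : 0 ≤ y) :
    a ^ (n+1) + (n+1) * a ^ n * (y - a) ≤ y ^ (n+1) := by
  induction n with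
  | zero => simp
  | succ n ih =>
    have h1 : y * (a ^ (n+1) + (n+1) * a ^ n * (y - a)) ≤ y * y ^ (n+1) :=
      mul_le_mul_of_nonneg_left ih hy
    have h2 : 0 ≤ a ^ n := pow_nonneg ha n
    have h3 : a ^ (n+1+1) + ((n+1 : ℕ) + 1) * a ^ (n+1) * (y - a) ≤
        y * (a ^ (n+1) + (n+1) * a ^ n * (y - a)) := by
      have : y * (a ^ (n+1) + (n+1) * a ^ n * (y - a)) -
        (a ^ (n+1+1) + ((n+1 : ℕ) + 1) * a ^ (n+1) * (y - a)) = (n+1) * a ^ n * (y - a)^2 := by
        push_cast; ring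
      have h4 : 0 ≤ ((n:ℝ)+1) * a ^ n * (y - a)^2 := by positivity
      linarith
    calc _ ≤ _ := h3
      _ ≤ _ := h1
      _ = _ := by ring

/-- the difference of two powers -/
theorem pow_sub_le (n : ℕ) {a b : ℝ} (ha : 0 ≤ a) (hab : a ≤ b) :
    b ^ (n+1) - a ^ (n+1) ≤ (n+1) * (b - a) * b ^ n := by
  have := tangent n (ha.trans hab) ha
  nlinarith [this]

/-- Young's inequality in the form used for absorption -/
theorem young (n : ℕ) {K N S : ℝ} (hK : 0 < K) (hN : 0 ≤ N) (hS : 0 ≤ S) :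
    N ^ n * S ≤ N ^ (n+1) / K + K ^ n * S ^ (n+1) := by
  rcases le_total (K * S) N with h | h
  · have h1 : N ^ n * S ≤ N ^ (n+1) / K := by
      rw [le_div_iff₀ hK, pow_succ]
      have := mul_le_mul_of_nonneg_left h (pow_nonneg hN n)
      linarith
    have h2 : 0 ≤ K ^ n * S ^ (n+1) := by positivity
    linarith
  · have h1 : N ^ n * S ≤ K ^ n * S ^ (n+1) := by
      calc N ^ n * S ≤ (K * S) ^ n * S := by gcongr
        _ = _ := by rw [mul_pow]; ring
    have h2 : 0 ≤ N ^ (n+1) / K := by positivity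
    linarith

/-- the expansion of a power -/
theorem expand (n : ℕ) {A B C : ℝ} (hA : 0 ≤ A) (hB : |B| ≤ A) (hC : 0 ≤ C) (hBC : B ^ 2 ≤ 4 * A * C) :
    (A + B) ^ (n+1) ≤ A ^ (n+1) + (n+1) * A ^ n * B + 8 ^ (n+1) * A ^ n * C := by
  have h0 : 0 ≤ A + B := by have := (abs_le.1 hB).1; linarith
  have h1 : A + B ≤ 2 * A := by have := (abs_le.1 hB).2; linarith
  induction n with
  | zero => simp; positivity
  | succ n ih =>
    have hAn : 0 ≤ A ^ n := pow_nonneg hA n
    have h2 : (A + B) ^ (n+1+1) ≤ (A + B) * (A ^ (n+1) + (n+1) * A ^ n * B + 8 ^ (n+1) * A ^ n * C) := by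
      rw [pow_succ (A + B) (n+1), mul_comm]
      exact mul_le_mul_of_nonneg_left ih h0
    have h3 : ((n:ℝ)+1) * A ^ n * B ^ 2 ≤ (n+1) * A ^ n * (4 * A * C) :=
      mul_le_mul_of_nonneg_left hBC (by positivity)
    have h4 : (A + B) * (8 ^ (n+1) * A ^ n * C) ≤ (2 * A) * (8 ^ (n+1) * A ^ n * C) :=
      mul_le_mul_of_nonneg_right h1 (by positivity)
    have h5 : ((n:ℝ)+1) ≤ 8 ^ (n+1) := by
      have : ((n+1 : ℕ) : ℝ) < 8 ^ (n+1) := by exact_mod_cast Nat.lt_pow_self (by norm_num)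
      push_cast at this; linarith
    have h6 : 4 * ((n:ℝ)+1) * (A ^ (n+1) * C) ≤ 4 * 8 ^ (n+1) * (A ^ (n+1) * C) := by
      have : 0 ≤ A ^ (n+1) * C := by positivity
      nlinarith
    have h7 : (0:ℝ) ≤ 8 ^ (n+1) * (A ^ (n+1) * C) := by positivity
    push_cast
    calc (A + B) ^ (n+1+1) ≤ (A + B) * (A ^ (n+1) + (n+1) * A ^ n * B + 8 ^ (n+1) * A ^ n * C) := h2
      _ = A ^ (n+1+1) + ((n:ℝ)+1+1) * A ^ (n+1) * B + (n+1) * A ^ n * B ^ 2 + (A + B) * (8 ^ (n+1) * A ^ n * C) := by ring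
      _ ≤ A ^ (n+1+1) + ((n:ℝ)+1+1) * A ^ (n+1) * B + (n+1) * A ^ n * (4 * A * C) + (2 * A) * (8 ^ (n+1) * A ^ n * C) := by
        linarith
      _ = A ^ (n+1+1) + ((n:ℝ)+1+1) * A ^ (n+1) * B + 4 * ((n:ℝ)+1) * (A ^ (n+1) * C) + 2 * (8 ^ (n+1) * (A ^ (n+1) * C)) := by ring
      _ ≤ A ^ (n+1+1) + ((n:ℝ)+1+1) * A ^ (n+1) * B + 8 * (8 ^ (n+1) * (A ^ (n+1) * C)) := by linarith
      _ = _ := by ring

namespace Fil

variable {X : Type} [Fintype X] {M : ℕ} (S : Fil X M)

theorem E_s (k : ℕ) (hk : k < M) : S.E k (S.s k) = 0 := by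
  have h := S.haar k 1 hk
  rw [S.one, S.one, mul_one] at h
  have h2 : S.s k * S.E k (S.s k) = 0 := by
    have : (1 : X → ℝ) + S.s k * S.E k (S.s k) = 1 + 0 := by rw [← h, add_zero]
    exact add_left_cancel this
  funext x
  have h3 := congrFun h2 x
  simp only [Pi.mul_apply, Pi.zero_apply] at h3
  rcases mul_eq_zero.1 h3 with h4 | h4
  · have := S.sq k x
    rw [h4] at this; simp at this
  · exact h4

theorem meas_mul (k : ℕ) {φ ψ : X → ℝ} (h1 : S.E k φ = φ) (h2 : S.E k ψ = ψ) : S.E k (φ * ψ) = φ * ψ := by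
  rw [S.pull k φ ψ h1, h2]

theorem meas_add (k : ℕ) {φ ψ : X → ℝ} (h1 : S.E k φ = φ) (h2 : S.E k ψ = ψ) : S.E k (φ + ψ) = φ + ψ := by
  rw [map_add, h1, h2]

theorem meas_pow (k : ℕ) {φ : X → ℝ} (h1 : S.E k φ = φ) (n : ℕ) : S.E k (φ ^ n) = φ ^ n := by
  induction n with
  | zero => rw [pow_zero]; exact S.one k
  | succ n ih => rw [pow_succ]; exact S.meas_mul k ih h1

theorem meas_sum {ι : Type} (k : ℕ) (J : Finset ι) {φ : ι → X → ℝ} (h : ∀ i ∈ J, S.E k (φ i) = φ i) :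
    S.E k (∑ i ∈ J, φ i) = ∑ i ∈ J, φ i := by
  rw [map_sum]; exact Finset.sum_congr rfl h

theorem sum_mul_E (k : ℕ) {φ : X → ℝ} (h : S.E k φ = φ) (f : X → ℝ) :
    ∑ x, φ x * S.E k f x = ∑ x, φ x * f x := by
  have h1 := S.sum k (φ * f)
  rw [S.pull k φ f h] at h1
  exact h1

theorem sum_s (k : ℕ) (hk : k < M) {φ : X → ℝ} (h : S.E k φ = φ) : ∑ x, φ x * S.s k x = 0 := by
  rw [← S.sum_mul_E k h, S.E_s k hk]; simp

theorem nonneg (k : ℕ) {f : X → ℝ} (h : ∀ x, 0 ≤ f x) (x : X) : 0 ≤ S.E k f x := by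
  have := S.mono k 0 f (fun x => h x) x
  simpa using this

/-- Jensen's inequality for powers -/
theorem jensen (k n : ℕ) {f : X → ℝ} (h : ∀ x, 0 ≤ f x) (x : X) : (S.E k f x) ^ n ≤ S.E k (f ^ n) x := by
  cases n with
  | zero => rw [pow_zero, pow_zero, S.one]; simp
  | succ n =>
    have hm := S.idem k f
    have hg : S.E k (S.E k f ^ (n+1) + ((n+1 : ℝ) • S.E k f ^ n) * (f - S.E k f)) = S.E k f ^ (n+1) := by
      rw [map_add, S.meas_pow k hm, S.pull k _ _ (by rw [map_smul, S.meas_pow k hm]), map_sub, hm, sub_self,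
        mul_zero, add_zero]
    have h1 := S.mono k _ (f ^ (n+1)) (fun y => by
      have := tangent n (S.nonneg k h y) (h y)
      show (S.E k f ^ (n+1) + ((n+1 : ℝ) • S.E k f ^ n) * (f - S.E k f)) y ≤ (f ^ (n+1)) y
      simpa [Pi.add_apply, Pi.mul_apply, Pi.sub_apply, Pi.pow_apply, Pi.smul_apply, mul_assoc] using this) x
    rw [hg] at h1
    exact h1

/-- the coefficient of the Haar sign -/
noncomputable def c (k : ℕ) (f : X → ℝ) : X → ℝ := S.E k (S.s k * f)

theorem c_meas (k : ℕ) (f : X → ℝ) : S.E k (S.c k f) = S.c k f := S.idem k _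

/-- conditional Bessel inequality -/
theorem bessel (k : ℕ) (hk : k < M) (f : X → ℝ) (x : X) :
    (S.E k f x) ^ 2 + (S.c k f x) ^ 2 ≤ S.E k (f ^ 2) x := by
  have hg := S.idem k f
  have hc := S.c_meas k f
  have hs := S.E_s k hk
  have hsq : S.s k * S.s k = 1 := by funext y; exact S.sq k y
  have e : (f - S.E k f - S.c k f * S.s k) ^ 2 = f ^ 2 + S.E k f * (-(2:ℝ) • f) + S.c k f * (-(2:ℝ) • (S.s k * f)) +
      (S.E k f * S.E k f) + (S.E k f * S.c k f) * ((2:ℝ) • S.s k) + S.c k f * S.c k f := by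
    funext y
    have := S.sq k y
    simp only [Pi.pow_apply, Pi.sub_apply, Pi.mul_apply, Pi.add_apply, Pi.smul_apply, smul_eq_mul]
    have h2 : S.c k f y * S.c k f y = (S.c k f y * S.c k f y) * (S.s k y * S.s k y) := by rw [this, mul_one]
    linear_combination (S.c k f y * S.c k f y) * this
  have h0 := S.nonneg k (f := (f - S.E k f - S.c k f * S.s k) ^ 2) (fun y => by
    simp only [Pi.pow_apply]; exact sq_nonneg _) x
  rw [e, map_add, map_add, map_add, map_add, map_add, S.pull k _ _ hg, S.pull k _ _ hc,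
    S.meas_mul k hg hg, S.pull k _ _ (S.meas_mul k hg hc), S.meas_mul k hc hc, map_smul, map_smul, map_smul,
    hs, smul_zero, mul_zero] at h0
  have h1 : S.E k (S.s k * f) = S.c k f := rfl
  rw [h1] at h0
  simp only [Pi.add_apply, Pi.mul_apply, Pi.smul_apply, smul_eq_mul, Pi.zero_apply] at h0
  nlinarith [h0]

section sq
variable {α : Type} (A : Finset α) (G : α → X → ℝ)

/-- square of the norm -/
def nn : X → ℝ := ∑ a ∈ A, (G a) ^ 2

noncomputable def nk (k : ℕ) : X → ℝ := ∑ a ∈ A, (S.E k (G a)) ^ 2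

noncomputable def ck (k : ℕ) : X → ℝ := ∑ a ∈ A, (S.c k (G a)) ^ 2

noncomputable def bk (k : ℕ) : X → ℝ := ∑ a ∈ A, S.E k (G a) * S.c k (G a)

/-- the square function -/
noncomputable def sf : X → ℝ := S.nk A G 0 + ∑ k ∈ range M, S.ck A G k

omit [Fintype X] in
theorem nn_nonneg (x : X) : 0 ≤ nn A G x := by
  unfold nn; simp only [Finset.sum_apply, Pi.pow_apply]; exact Finset.sum_nonneg fun _ _ => sq_nonneg _

theorem nk_nonneg (k : ℕ) (x : X) : 0 ≤ S.nk A G k x := by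
  unfold nk; simp only [Finset.sum_apply, Pi.pow_apply]; exact Finset.sum_nonneg fun _ _ => sq_nonneg _

theorem ck_nonneg (k : ℕ) (x : X) : 0 ≤ S.ck A G k x := by
  unfold ck; simp only [Finset.sum_apply, Pi.pow_apply]; exact Finset.sum_nonneg fun _ _ => sq_nonneg _

theorem sf_nonneg (x : X) : 0 ≤ S.sf A G x := by
  unfold sf
  simp only [Pi.add_apply, Finset.sum_apply]
  exact add_nonneg (S.nk_nonneg A G 0 x) (Finset.sum_nonneg fun k _ => S.ck_nonneg A G k x)

theorem nk_meas (k : ℕ) : S.E k (S.nk A G k) = S.nk A G k :=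
  S.meas_sum k A fun a _ => S.meas_pow k (S.idem k _) 2

theorem ck_meas (k : ℕ) : S.E k (S.ck A G k) = S.ck A G k :=
  S.meas_sum k A fun a _ => S.meas_pow k (S.c_meas k _) 2

theorem bk_meas (k : ℕ) : S.E k (S.bk A G k) = S.bk A G k :=
  S.meas_sum k A fun a _ => S.meas_mul k (S.idem k _) (S.c_meas k _)

theorem nk_top : S.nk A G M = nn A G := by
  unfold nk nn; simp only [S.top]

theorem nk_succ (k : ℕ) (hk : k < M) (x : X) : S.nk A G (k+1) x =
    S.nk A G k x + S.ck A G k x + 2 * (S.bk A G k x * S.s k x) := by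
  unfold nk ck bk
  simp only [Finset.sum_apply, Pi.pow_apply, Pi.mul_apply, Finset.sum_mul, Finset.mul_sum, ← Finset.sum_add_distrib]
  refine Finset.sum_congr rfl fun a _ => ?_
  rw [S.haar k (G a) hk]
  have := S.sq k x
  simp only [Pi.add_apply, Pi.mul_apply]
  have h1 : S.E k (S.s k * G a) = S.c k (G a) := rfl
  rw [h1]
  linear_combination (S.c k (G a) x)^2 * this

theorem cs (k : ℕ) (x : X) : (S.bk A G k x)^2 ≤ S.nk A G k x * S.ck A G k x := by
  unfold nk ck bk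
  simp only [Finset.sum_apply, Pi.pow_apply, Pi.mul_apply]
  exact Finset.sum_mul_sq_le_sq_mul_sq _ _ _

theorem nk_ck_le (k : ℕ) (hk : k < M) (x : X) : S.nk A G k x + S.ck A G k x ≤ S.E k (nn A G) x := by
  unfold nk ck nn
  rw [map_sum]
  simp only [Finset.sum_apply, Pi.pow_apply, ← Finset.sum_add_distrib]
  exact Finset.sum_le_sum fun a _ => S.bessel k hk (G a) x

theorem nk_zero_le (x : X) : S.nk A G 0 x ≤ S.E 0 (nn A G) x := by
  unfold nk nn
  rw [map_sum]
  simp only [Finset.sum_apply, Pi.pow_apply]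
  refine Finset.sum_le_sum fun a _ => ?_
  have := S.jensen 0 2 (f := fun x => |G a x|) (fun x => abs_nonneg _) x
  have h1 : S.E 0 ((fun x => |G a x|) ^ 2) = S.E 0 (G a ^ 2) := by
    congr 1; funext y; simp only [Pi.pow_apply, sq_abs]
  rw [h1] at this
  refine le_trans ?_ this
  have h2 : |S.E 0 (G a) x| ≤ S.E 0 (fun x => |G a x|) x := by
    rw [abs_le]
    constructor
    · have := S.mono 0 (-(fun x => |G a x|)) (G a) (fun y => by
        simp only [Pi.neg_apply]; exact neg_abs_le _) x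
      rw [map_neg] at this
      simpa using this
    · exact S.mono 0 (G a) _ (fun y => le_abs_self _) x
  have h3 := abs_nonneg (S.E 0 (G a) x)
  rw [← sq_abs (S.E 0 (G a) x)]
  exact pow_le_pow_left₀ h3 h2 2

/-- **Square function inequality, synthesis** -/
theorem thmA (n : ℕ) : ∑ x, (nn A G x) ^ (n+1) ≤
    (2 * (8 ^ (n+1) + (n+1) + 1)) ^ (n+1) * ∑ x, (S.sf A G x) ^ (n+1) := by
  obtain ⟨K, hK⟩ : ∃ K : ℝ, K = 8 ^ (n+1) + (n+1) + 1 := ⟨_, rfl⟩
  have hK1 : 1 ≤ K := by rw [hK]; have : (0:ℝ) ≤ 8 ^ (n+1) := by positivity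
                         have : (0:ℝ) ≤ n := Nat.cast_nonneg n
                         linarith
  have hN := nn_nonneg A G
  -- one step
  have step : ∀ k < M, ∑ x, (S.nk A G (k+1) x) ^ (n+1) ≤ ∑ x, (S.nk A G k x) ^ (n+1) +
      K * ∑ x, (nn A G x) ^ n * S.ck A G k x := by
    intro k hk
    obtain ⟨a, ha⟩ : ∃ a : X → ℝ, a = S.nk A G k + S.ck A G k := ⟨_, rfl⟩
    have ham : S.E k a = a := by rw [ha]; exact S.meas_add k (S.nk_meas A G k) (S.ck_meas A G k)
    have ha0 : ∀ x, 0 ≤ a x := fun x => by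
      rw [ha]; exact add_nonneg (S.nk_nonneg A G k x) (S.ck_nonneg A G k x)
    have hbm := S.bk_meas A G k
    have hpt : ∀ x, (S.nk A G (k+1) x) ^ (n+1) ≤ (S.nk A G k x) ^ (n+1) + K * ((a x) ^ n * S.ck A G k x) +
        ((n+1) * 2) * (((a ^ n * S.bk A G k) x) * S.s k x) := by
      intro x
      have h1 := S.nk_nonneg A G k x
      have h2 := S.ck_nonneg A G k x
      have h3 := S.cs A G k x
      have hs := S.sq k x
      have hax : a x = S.nk A G k x + S.ck A G k x := by rw [ha]; rfl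
      have hB2 : (2 * (S.bk A G k x * S.s k x)) ^ 2 = 4 * (S.bk A G k x)^2 := by
        linear_combination 4 * (S.bk A G k x)^2 * hs
      have hBa : |2 * (S.bk A G k x * S.s k x)| ≤ a x := by
        apply abs_le_of_sq_le_sq _ (ha0 x)
        rw [hB2, hax]
        nlinarith [sq_nonneg (S.nk A G k x - S.ck A G k x)]
      have hBC : (2 * (S.bk A G k x * S.s k x)) ^ 2 ≤ 4 * a x * S.ck A G k x := by
        rw [hB2, hax]; nlinarith
      have h4 := expand n (ha0 x) hBa h2 hBC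
      rw [S.nk_succ A G k hk x, ← hax]
      have h5 := pow_sub_le n h1 (show S.nk A G k x ≤ a x by rw [hax]; linarith)
      have h6 : a x - S.nk A G k x = S.ck A G k x := by rw [hax]; ring
      rw [h6] at h5
      have h7 : 0 ≤ (a x)^n * S.ck A G k x := mul_nonneg (pow_nonneg (ha0 x) n) h2
      have h8 : (S.nk A G k x) ^ (n+1) + K * ((a x) ^ n * S.ck A G k x) ≥ (a x)^(n+1) + 8 ^ (n+1) * (a x)^n * S.ck A G k x := by
        rw [hK]; nlinarith
      simp only [Pi.mul_apply, Pi.pow_apply]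
      linarith
    have hz : ∑ x, ((a ^ n * S.bk A G k) x) * S.s k x = 0 :=
      S.sum_s k hk (S.meas_mul k (S.meas_pow k ham n) hbm)
    have hle : ∑ x, (a x) ^ n * S.ck A G k x ≤ ∑ x, (nn A G x) ^ n * S.ck A G k x := by
      calc ∑ x, (a x) ^ n * S.ck A G k x ≤ ∑ x, S.ck A G k x * S.E k ((nn A G) ^ n) x := by
            refine Finset.sum_le_sum fun x _ => ?_
            rw [mul_comm]
            refine mul_le_mul_of_nonneg_left ?_ (S.ck_nonneg A G k x)
            refine le_trans (pow_le_pow_left₀ (ha0 x) ?_ n) (S.jensen k n hN x)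
            rw [ha]; exact S.nk_ck_le A G k hk x
        _ = ∑ x, S.ck A G k x * ((nn A G) ^ n) x := S.sum_mul_E k (S.ck_meas A G k) _
        _ = _ := by
          refine Finset.sum_congr rfl fun x _ => ?_
          rw [mul_comm]; rfl
    calc ∑ x, (S.nk A G (k+1) x) ^ (n+1) ≤ ∑ x, ((S.nk A G k x) ^ (n+1) + K * ((a x) ^ n * S.ck A G k x) +
        ((n+1) * 2) * (((a ^ n * S.bk A G k) x) * S.s k x)) := Finset.sum_le_sum fun x _ => hpt x
      _ = ∑ x, (S.nk A G k x) ^ (n+1) + K * ∑ x, (a x) ^ n * S.ck A G k x +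
          ((n+1) * 2) * ∑ x, ((a ^ n * S.bk A G k) x) * S.s k x := by
          rw [Finset.sum_add_distrib, Finset.sum_add_distrib, ← Finset.mul_sum, ← Finset.mul_sum]
      _ ≤ _ := by
          rw [hz, mul_zero, add_zero]
          have := mul_le_mul_of_nonneg_left hle (show 0 ≤ K by linarith)
          linarith
  have hall : ∀ k ≤ M, ∑ x, (S.nk A G k x) ^ (n+1) ≤ ∑ x, (S.nk A G 0 x) ^ (n+1) +
      K * ∑ x, (nn A G x) ^ n * ∑ j ∈ range k, S.ck A G j x := by
    intro k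
    induction k with
    | zero => intro _; simp
    | succ k ih =>
      intro hk
      have h1 := ih (by omega)
      have h2 := step k (by omega)
      have h3 : ∑ x, (nn A G x) ^ n * ∑ j ∈ range (k+1), S.ck A G j x =
          ∑ x, (nn A G x) ^ n * ∑ j ∈ range k, S.ck A G j x + ∑ x, (nn A G x) ^ n * S.ck A G k x := by
        rw [← Finset.sum_add_distrib]
        refine Finset.sum_congr rfl fun x _ => ?_
        rw [Finset.sum_range_succ]; ring
      rw [h3]
      linarith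
  have h0 : ∑ x, (S.nk A G 0 x) ^ (n+1) ≤ K * ∑ x, (nn A G x) ^ n * S.nk A G 0 x := by
    have h1 : ∑ x, (S.nk A G 0 x) ^ (n+1) ≤ ∑ x, (nn A G x) ^ n * S.nk A G 0 x := by
      calc ∑ x, (S.nk A G 0 x) ^ (n+1) ≤ ∑ x, S.nk A G 0 x * S.E 0 ((nn A G) ^ n) x := by
            refine Finset.sum_le_sum fun x _ => ?_
            rw [pow_succ, mul_comm]
            refine mul_le_mul_of_nonneg_left ?_ (S.nk_nonneg A G 0 x)
            exact le_trans (pow_le_pow_left₀ (S.nk_nonneg A G 0 x) (S.nk_zero_le A G x) n) (S.jensen 0 n hN x)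
        _ = ∑ x, S.nk A G 0 x * ((nn A G) ^ n) x := S.sum_mul_E 0 (S.nk_meas A G 0) _
        _ = _ := by
          refine Finset.sum_congr rfl fun x _ => ?_
          rw [mul_comm]; rfl
    have h2 : 0 ≤ ∑ x, (nn A G x) ^ n * S.nk A G 0 x :=
      Finset.sum_nonneg fun x _ => mul_nonneg (pow_nonneg (hN x) n) (S.nk_nonneg A G 0 x)
    nlinarith
  have hM := hall M le_rfl
  rw [S.nk_top] at hM
  have hs : ∑ x, (nn A G x) ^ n * S.nk A G 0 x + ∑ x, (nn A G x) ^ n * ∑ j ∈ range M, S.ck A G j x =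
      ∑ x, (nn A G x) ^ n * S.sf A G x := by
    rw [← Finset.sum_add_distrib]
    refine Finset.sum_congr rfl fun x _ => ?_
    unfold sf
    simp only [Pi.add_apply, Finset.sum_apply]; ring
  have hY : ∑ x, (nn A G x) ^ n * S.sf A G x ≤ (∑ x, (nn A G x) ^ (n+1)) / (2*K) +
      (2*K) ^ n * ∑ x, (S.sf A G x) ^ (n+1) := by
    rw [Finset.sum_div, Finset.mul_sum, ← Finset.sum_add_distrib]
    exact Finset.sum_le_sum fun x _ => young n (by linarith) (hN x) (S.sf_nonneg A G x)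
  obtain ⟨T, hT⟩ : ∃ T : ℝ, T = ∑ x, (nn A G x) ^ (n+1) := ⟨_, rfl⟩
  have hfin : T ≤ K * (T / (2*K) + (2*K) ^ n * ∑ x, (S.sf A G x) ^ (n+1)) := by
    rw [hT]
    have := mul_le_mul_of_nonneg_left hY (show 0 ≤ K by linarith)
    nlinarith
  have e1 : K * (T / (2*K)) = T / 2 := by field_simp
  have e2 : (2*K) ^ (n+1) * ∑ x, (S.sf A G x) ^ (n+1) = 2 * (K * ((2*K) ^ n * ∑ x, (S.sf A G x) ^ (n+1))) := by
    rw [pow_succ]; ring
  rw [← hT, ← hK, e2]
  rw [mul_add, e1] at hfin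
  linarith

/-- **Square function inequality, analysis** -/
theorem thmB (n : ℕ) : ∑ x, (S.sf A G x) ^ (n+1) ≤
    (2 * (n+1)) ^ (n+1) * ∑ x, (nn A G x) ^ (n+1) := by
  have hN := nn_nonneg A G
  obtain ⟨P, hP⟩ : ∃ P : ℕ → X → ℝ, P = fun j => S.nk A G 0 + ∑ k ∈ range j, S.ck A G k := ⟨_, rfl⟩
  have hP0 : ∀ j x, 0 ≤ P j x := by
    intro j x
    rw [hP]
    simp only [Pi.add_apply, Finset.sum_apply]
    exact add_nonneg (S.nk_nonneg A G 0 x) (Finset.sum_nonneg fun k _ => S.ck_nonneg A G k x)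
  have hPs : ∀ j x, P (j+1) x = P j x + S.ck A G j x := by
    intro j x
    rw [hP]
    simp only [Pi.add_apply, Finset.sum_apply, Finset.sum_range_succ]; ring
  have hPM : P M = S.sf A G := by rw [hP]; rfl
  have hPm : ∀ j, S.E j (P (j+1)) = P (j+1) := by
    intro j
    rw [hP]
    refine S.meas_add j (S.meas 0 j _ (by omega) (S.nk_meas A G 0)) (S.meas_sum j _ fun k hk => ?_)
    exact S.meas k j _ (by have := Finset.mem_range.1 hk; omega) (S.ck_meas A G k)
  have hPm' : ∀ j, S.E j (P j) = P j := by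
    intro j
    cases j with
    | zero => rw [hP]; simp only [Finset.range_zero, Finset.sum_empty, add_zero]; exact S.nk_meas A G 0
    | succ j => exact S.meas j (j+1) _ (by omega) (hPm j)
  -- the tail of the square function
  have tail : ∀ j ≤ M, ∀ φ : X → ℝ, S.E j φ = φ → (∀ x, 0 ≤ φ x) →
      ∑ x, φ x * (S.sf A G x - P j x) ≤ ∑ x, φ x * (nn A G x - S.nk A G j x) := by
    intro j hj φ hφ _
    have h1 : ∀ i, j + i ≤ M → ∑ x, φ x * (P (j+i) x - P j x) =
        ∑ x, φ x * (S.nk A G (j+i) x - S.nk A G j x) := by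
      intro i
      induction i with
      | zero => intro _; simp
      | succ i ih =>
        intro hi
        have h2 := ih (by omega)
        have h3 : ∑ x, (φ * S.bk A G (j+i)) x * S.s (j+i) x = 0 :=
          S.sum_s (j+i) (by omega) (S.meas_mul _ (S.meas j (j+i) _ (by omega) hφ) (S.bk_meas A G _))
        have h4 : ∑ x, φ x * (P (j+(i+1)) x - P j x) = ∑ x, φ x * (P (j+i) x - P j x) +
            ∑ x, φ x * S.ck A G (j+i) x := by
          rw [← Finset.sum_add_distrib]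
          refine Finset.sum_congr rfl fun x _ => ?_
          rw [show j + (i+1) = (j+i)+1 by ring, hPs]; ring
        have h5 : ∑ x, φ x * (S.nk A G (j+(i+1)) x - S.nk A G j x) =
            ∑ x, φ x * (S.nk A G (j+i) x - S.nk A G j x) + ∑ x, φ x * S.ck A G (j+i) x +
            2 * ∑ x, (φ * S.bk A G (j+i)) x * S.s (j+i) x := by
          rw [Finset.mul_sum, ← Finset.sum_add_distrib, ← Finset.sum_add_distrib]
          refine Finset.sum_congr rfl fun x _ => ?_
          rw [show j + (i+1) = (j+i)+1 by ring, S.nk_succ A G (j+i) (by omega), Pi.mul_apply]; ring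
        rw [h4, h5, h2, h3]; ring
    have h2 := h1 (M - j) (by omega)
    rw [show j + (M - j) = M by omega, hPM, S.nk_top] at h2
    exact h2.le
  -- main
  have hn1 : (0:ℝ) < n + 1 := by positivity
  have key : ∑ x, (S.sf A G x) ^ (n+1) ≤ (n / (n+1)) * ∑ x, (S.sf A G x) ^ (n+1) +
      ∑ x, (S.sf A G x) ^ n * nn A G x := by
    cases n with
    | zero =>
      simp only [Nat.cast_zero, zero_div, zero_mul, zero_add, pow_zero, one_mul, pow_one]
      have h1 := tail 0 (by omega) 1 (S.one 0) (fun _ => zero_le_one)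
      simp only [Pi.one_apply, one_mul, Finset.sum_sub_distrib] at h1
      have h2 : ∑ x, P 0 x = ∑ x, S.nk A G 0 x := by
        rw [hP]; simp
      linarith
    | succ n =>
      have hsplit : ∀ x, (S.sf A G x) ^ (n+1) = (P 0 x) ^ (n+1) + ∑ j ∈ range M, ((P (j+1) x) ^ (n+1) - (P j x) ^ (n+1)) := by
        intro x
        rw [Finset.sum_range_sub (fun j => (P j x) ^ (n+1)), hPM]; ring
      have hq : ∀ x, (S.sf A G x) ^ (n+1+1) = (P 0 x) ^ (n+1) * S.sf A G x +
          ∑ j ∈ range M, ((P (j+1) x) ^ (n+1) - (P j x) ^ (n+1)) * S.sf A G x := by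
        intro x
        rw [pow_succ, hsplit x, add_mul, Finset.sum_mul]
      have e1 : ∑ x, (P 0 x) ^ (n+1) * S.sf A G x ≤ ∑ x, (P 0 x) ^ (n+1) * nn A G x := by
        have h1 := tail 0 (by omega) (P 0 ^ (n+1)) (S.meas_pow 0 (hPm' 0) _) (fun x => pow_nonneg (hP0 0 x) _)
        have h2 : P 0 = S.nk A G 0 := by rw [hP]; simp
        simp only [Pi.pow_apply, mul_sub, Finset.sum_sub_distrib] at h1
        rw [h2] at h1 ⊢
        linarith
      have e2 : ∀ j < M, ∑ x, ((P (j+1) x) ^ (n+1) - (P j x) ^ (n+1)) * S.sf A G x ≤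
          ∑ x, ((P (j+1) x) ^ (n+1) - (P j x) ^ (n+1)) * nn A G x +
          ∑ x, ((n+1 : ℝ) / (n+1+1)) * ((P (j+1) x) ^ (n+1+1) - (P j x) ^ (n+1+1)) := by
        intro j hj
        have hφ0 : ∀ x, 0 ≤ (P (j+1) ^ (n+1) - P j ^ (n+1)) x := by
          intro x
          simp only [Pi.sub_apply, Pi.pow_apply, sub_nonneg]
          apply pow_le_pow_left₀ (hP0 j x)
          rw [hPs]; have := S.ck_nonneg A G j x; linarith
        have hφm : S.E j (P (j+1) ^ (n+1) - P j ^ (n+1)) = P (j+1) ^ (n+1) - P j ^ (n+1) := by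
          rw [map_sub, S.meas_pow j (hPm j), S.meas_pow j (hPm' j)]
        have h1 := tail j hj.le _ hφm hφ0
        have h2 : ∀ x, ((P (j+1) x) ^ (n+1) - (P j x) ^ (n+1)) * P j x ≤
            ((n+1 : ℝ) / (n+1+1)) * ((P (j+1) x) ^ (n+1+1) - (P j x) ^ (n+1+1)) := by
          intro x
          have h3 := tangent (n+1) (hP0 (j+1) x) (hP0 j x)
          push_cast at h3
          rw [div_mul_eq_mul_div, le_div_iff₀ (by positivity)]
          have e : ((P (j+1) x) ^ (n+1) - (P j x) ^ (n+1)) * P j x * ((n:ℝ)+1+1) =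
            ((n:ℝ)+1+1) * (P (j+1) x) ^ (n+1) * P j x - ((n:ℝ)+1+1) * (P j x)^(n+1+1) := by ring
          rw [e]
          have e' : (P (j+1) x) ^ (n+1+1) + ((n:ℝ)+1+1) * (P (j+1) x) ^ (n+1) * (P j x - P (j+1) x) =
            ((n:ℝ)+1+1) * (P (j+1) x) ^ (n+1) * P j x - ((n:ℝ)+1) * (P (j+1) x) ^ (n+1+1) := by ring
          rw [e'] at h3
          linarith
        have h4 : ∑ x, ((P (j+1) x) ^ (n+1) - (P j x) ^ (n+1)) * S.sf A G x =
            ∑ x, (P (j+1) ^ (n+1) - P j ^ (n+1)) x * (S.sf A G x - P j x) +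
            ∑ x, ((P (j+1) x) ^ (n+1) - (P j x) ^ (n+1)) * P j x := by
          rw [← Finset.sum_add_distrib]
          refine Finset.sum_congr rfl fun x _ => ?_
          simp only [Pi.sub_apply, Pi.pow_apply]; ring
        have h5 : ∑ x, (P (j+1) ^ (n+1) - P j ^ (n+1)) x * (nn A G x - S.nk A G j x) ≤
            ∑ x, ((P (j+1) x) ^ (n+1) - (P j x) ^ (n+1)) * nn A G x := by
          refine Finset.sum_le_sum fun x _ => ?_
          simp only [Pi.sub_apply, Pi.pow_apply]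
          have h6 := hφ0 x
          simp only [Pi.sub_apply, Pi.pow_apply] at h6
          have h7 := S.nk_nonneg A G j x
          nlinarith
        rw [h4]
        have h8 := Finset.sum_le_sum (s := univ) fun x _ => h2 x
        linarith
      have e3 : ∑ x, (S.sf A G x) ^ (n+1+1) = ∑ x, (P 0 x) ^ (n+1) * S.sf A G x +
          ∑ j ∈ range M, ∑ x, ((P (j+1) x) ^ (n+1) - (P j x) ^ (n+1)) * S.sf A G x := by
        rw [Finset.sum_comm, ← Finset.sum_add_distrib]
        exact Finset.sum_congr rfl fun x _ => hq x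
      have e4 : ∑ x, (S.sf A G x) ^ (n+1) * nn A G x = ∑ x, (P 0 x) ^ (n+1) * nn A G x +
          ∑ j ∈ range M, ∑ x, ((P (j+1) x) ^ (n+1) - (P j x) ^ (n+1)) * nn A G x := by
        rw [Finset.sum_comm, ← Finset.sum_add_distrib]
        refine Finset.sum_congr rfl fun x _ => ?_
        rw [hsplit x, add_mul, Finset.sum_mul]
      have e5 : ∑ j ∈ range M, ∑ x, ((n+1 : ℝ) / (n+1+1)) * ((P (j+1) x) ^ (n+1+1) - (P j x) ^ (n+1+1)) ≤
          ((n+1 : ℝ) / (n+1+1)) * ∑ x, (S.sf A G x) ^ (n+1+1) := by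
        rw [Finset.sum_comm, Finset.mul_sum]
        refine Finset.sum_le_sum fun x _ => ?_
        rw [← Finset.mul_sum, Finset.sum_range_sub (fun j => (P j x) ^ (n+1+1)), hPM]
        have : 0 ≤ (P 0 x) ^ (n+1+1) := pow_nonneg (hP0 0 x) _
        apply mul_le_mul_of_nonneg_left _ (by positivity)
        linarith
      have e6 := Finset.sum_le_sum (s := range M) fun j hj => e2 j (Finset.mem_range.1 hj)
      rw [Finset.sum_add_distrib] at e6
      push_cast
      rw [e3, e4]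
      rw [e3] at e5
      linarith
  have hY : ∑ x, (S.sf A G x) ^ n * nn A G x ≤ (∑ x, (S.sf A G x) ^ (n+1)) / (2*(n+1)) +
      (2*(n+1)) ^ n * ∑ x, (nn A G x) ^ (n+1) := by
    rw [Finset.sum_div, Finset.mul_sum, ← Finset.sum_add_distrib]
    exact Finset.sum_le_sum fun x _ => young n (by positivity) (S.sf_nonneg A G x) (hN x)
  obtain ⟨T, hT⟩ : ∃ T : ℝ, T = ∑ x, (S.sf A G x) ^ (n+1) := ⟨_, rfl⟩
  rw [← hT] at key hY ⊢
  have h1 : T ≤ (n / (n+1)) * T + (T / (2*(n+1)) + (2*(n+1)) ^ n * ∑ x, (nn A G x) ^ (n+1)) := by linarith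
  have h2 : T - (n / (n+1)) * T - T / (2*(n+1)) = T / (2*(n+1)) := by field_simp; ring
  have h3 : T / (2*(n+1)) ≤ (2*(n+1)) ^ n * ∑ x, (nn A G x) ^ (n+1) := by linarith
  rw [div_le_iff₀ (by positivity)] at h3
  calc T ≤ _ := h3
    _ = _ := by rw [pow_succ]; ring

end sq

/-- small weights with respect to a filtration -/
theorem thmD (n K : ℕ) (g θ : ℕ → X → ℝ) (τ : ℝ) (hg0 : ∀ k x, 0 ≤ g k x)
    (hg : ∀ k, S.E (k+1) (g k) = g k) (hθ0 : ∀ k x, 0 ≤ θ k x) (hθ1 : ∀ k x, θ k x ≤ 1)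
    (hτ : ∀ k < K, ∀ x, S.E (k+1) (θ k) x ≤ τ) :
    ∑ x, (∑ k ∈ range K, θ k x * g k x) ^ (n+1) ≤ (n+1) * τ * ∑ x, (∑ k ∈ range K, g k x) ^ (n+1) := by
  obtain ⟨Y, hY⟩ : ∃ Y : ℕ → X → ℝ, Y = fun j x => ∑ k ∈ range j, θ k x * g k x := ⟨_, rfl⟩
  obtain ⟨P, hP⟩ : ∃ P : ℕ → X → ℝ, P = fun j => ∑ k ∈ range j, g k := ⟨_, rfl⟩
  have hY0 : ∀ j x, 0 ≤ Y j x := fun j x => by
    rw [hY]; exact Finset.sum_nonneg fun k _ => mul_nonneg (hθ0 k x) (hg0 k x)
  have hP0 : ∀ j x, 0 ≤ P j x := fun j x => by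
    rw [hP]; simp only [Finset.sum_apply]; exact Finset.sum_nonneg fun k _ => hg0 k x
  have hYP : ∀ j x, Y j x ≤ P j x := fun j x => by
    rw [hY, hP]; simp only [Finset.sum_apply]
    exact Finset.sum_le_sum fun k _ => mul_le_of_le_one_left (hg0 k x) (hθ1 k x)
  have hYs : ∀ j x, Y (j+1) x = Y j x + θ j x * g j x := fun j x => by
    rw [hY]; simp only [Finset.sum_range_succ]
  have hPmono : ∀ j ≤ K, ∀ x, P j x ≤ P K x := by
    intro j hj x
    rw [hP]; simp only [Finset.sum_apply]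
    exact Finset.sum_le_sum_of_subset_of_nonneg (Finset.range_subset_range.2 hj) fun k _ _ => hg0 k x
  have hPm : ∀ j, S.E (j+1) (P (j+1)) = P (j+1) := by
    intro j
    rw [hP]
    exact S.meas_sum (j+1) _ fun k hk => S.meas (k+1) (j+1) _ (by have := Finset.mem_range.1 hk; omega) (hg k)
  have step : ∀ j < K, ∑ x, ((Y (j+1) x) ^ (n+1) - (Y j x) ^ (n+1)) ≤ (n+1) * τ * ∑ x, g j x * (P K x) ^ n := by
    intro j hj
    have hτ0 : ∀ x, 0 ≤ g j x * (P (j+1) x) ^ n := fun x => mul_nonneg (hg0 j x) (pow_nonneg (hP0 _ x) n)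
    calc ∑ x, ((Y (j+1) x) ^ (n+1) - (Y j x) ^ (n+1))
        ≤ ∑ x, (n+1) * ((g j * P (j+1) ^ n) x * θ j x) := by
          refine Finset.sum_le_sum fun x _ => ?_
          have h1 : Y j x ≤ Y (j+1) x := by
            rw [hYs]; have := mul_nonneg (hθ0 j x) (hg0 j x); linarith
          refine (pow_sub_le n (hY0 j x) h1).trans ?_
          have h2 : Y (j+1) x - Y j x = θ j x * g j x := by rw [hYs]; ring
          rw [h2]
          have h3 : (Y (j+1) x) ^ n ≤ (P (j+1) x) ^ n := pow_le_pow_left₀ (hY0 _ x) (hYP _ x) n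
          simp only [Pi.mul_apply, Pi.pow_apply]
          have h4 : 0 ≤ θ j x * g j x := mul_nonneg (hθ0 j x) (hg0 j x)
          calc ((n:ℝ)+1) * (θ j x * g j x) * (Y (j+1) x) ^ n ≤ ((n:ℝ)+1) * (θ j x * g j x) * (P (j+1) x) ^ n := by
                apply mul_le_mul_of_nonneg_left h3; positivity
            _ = _ := by ring
      _ = (n+1) * ∑ x, (g j * P (j+1) ^ n) x * S.E (j+1) (θ j) x := by
          rw [← Finset.mul_sum, S.sum_mul_E (j+1) (S.meas_mul _ (hg j) (S.meas_pow _ (hPm j) n))]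
      _ ≤ (n+1) * ∑ x, τ * (g j x * (P K x) ^ n) := by
          apply mul_le_mul_of_nonneg_left _ (by positivity)
          refine Finset.sum_le_sum fun x _ => ?_
          have h1 := hτ j hj x
          have h2 : 0 ≤ S.E (j+1) (θ j) x := S.nonneg _ (hθ0 j) x
          simp only [Pi.mul_apply, Pi.pow_apply]
          rw [mul_comm]
          apply mul_le_mul h1 _ (hτ0 x) (h2.trans h1)
          apply mul_le_mul_of_nonneg_left _ (hg0 j x)
          exact pow_le_pow_left₀ (hP0 _ x) (hPmono (j+1) (by omega) x) n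
      _ = _ := by rw [← Finset.mul_sum]; ring
  have hfin : ∑ x, (Y K x) ^ (n+1) = ∑ j ∈ range K, ∑ x, ((Y (j+1) x) ^ (n+1) - (Y j x) ^ (n+1)) := by
    rw [Finset.sum_comm]
    refine Finset.sum_congr rfl fun x _ => ?_
    rw [Finset.sum_range_sub (fun j => (Y j x) ^ (n+1))]
    have : Y 0 x = 0 := by rw [hY]; simp
    rw [this]; simp
  have hgoal : ∑ x, (∑ k ∈ range K, θ k x * g k x) ^ (n+1) = ∑ x, (Y K x) ^ (n+1) := by rw [hY]
  rw [hgoal, hfin]
  refine (Finset.sum_le_sum fun j hj => step j (Finset.mem_range.1 hj)).trans (le_of_eq ?_)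
  rw [← Finset.mul_sum, Finset.sum_comm]
  congr 1
  refine Finset.sum_congr rfl fun x _ => ?_
  rw [← Finset.sum_mul, pow_succ]
  have : P K x = ∑ k ∈ range K, g k x := by rw [hP]; simp
  rw [← this]; ring

end Fil

end H396C
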