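import Pool.Agent.H396R3.C.Fool3

/-! Choice of the parameters. -/

set_option autoImplicit false

open Finset MeasureTheory Filter Topology

namespace H396C

/-- shapes of level `l` -/
def shp {e L : ℕ} (l : ℕ) (a : Fin e → Fin L) : Fin (e+1) → ℕ :=
  Fin.cons (l - ∑ i, (a i : ℕ)) (fun i => (a i : ℕ))

theorem shp_sum {e L l : ℕ} (hl : e * L ≤ l) (a : Fin e → Fin L) : ∑ i, shp l a i = l := by
  unfold shp
  rw [Fin.sum_univ_succ]
  simp only [Fin.cons_zero, Fin.cons_succ]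
  have h1 : ∑ i, (a i : ℕ) ≤ e * L := by
    calc ∑ i, (a i : ℕ) ≤ ∑ _i : Fin e, L := Finset.sum_le_sum fun i _ => (a i).2.le
      _ = e * L := by rw [Finset.sum_const, Finset.card_univ, Fintype.card_fin, smul_eq_mul]
  omega

theorem shp_inj {e L l l' : ℕ} {a b : Fin e → Fin L} (h : shp l a = shp l' b) : a = b := by
  funext i
  have := congrFun h i.succ
  unfold shp at this
  simp only [Fin.cons_succ] at this
  exact Fin.ext this

/-- basic size estimate -/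
theorem size_L (e : ℕ) : ∃ m0 : ℕ, ∀ m ≥ m0, 1 ≤ m ∧ 1 ≤ Nat.log 2 m / (e+1) ∧
    Real.log m / (2 * (e+1)) ≤ ((Nat.log 2 m / (e+1) : ℕ) : ℝ) ∧ (e:ℝ) ≤ Real.log m := by
  have h1 : ∀ᶠ m : ℕ in atTop, (2 * (e + 2) : ℝ) ≤ Real.log m :=
    (Real.tendsto_log_atTop.comp tendsto_natCast_atTop_atTop).eventually_ge_atTop _
  obtain ⟨m0, hm0⟩ := eventually_atTop.1 h1
  refine ⟨max m0 1, fun m hm => ?_⟩
  have hm1 : 1 ≤ m := le_trans (le_max_right _ _) hm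
  have hlog := hm0 m (le_trans (le_max_left _ _) hm)
  have he : (0:ℝ) ≤ e := Nat.cast_nonneg e
  have h2 : Real.log m - 1 ≤ (Nat.log 2 m : ℝ) := by
    have h3 : m < 2 ^ (Nat.log 2 m + 1) := Nat.lt_pow_succ_log_self (by norm_num) m
    have h4 : (m:ℝ) < 2 ^ (Nat.log 2 m + 1) := by exact_mod_cast h3
    have h5 : Real.log m ≤ (Nat.log 2 m + 1 : ℕ) * Real.log 2 := by
      rw [← Real.log_pow]
      exact Real.log_le_log (by exact_mod_cast hm1) h4.le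
    have h6 : Real.log 2 ≤ 1 := by have := Real.log_two_lt_d9; linarith
    have h7 : (0:ℝ) ≤ (Nat.log 2 m + 1 : ℕ) := Nat.cast_nonneg _
    push_cast at h5 h7
    nlinarith
  have h3 : (Nat.log 2 m : ℝ) / (e+1) - 1 ≤ ((Nat.log 2 m / (e+1) : ℕ) : ℝ) := by
    have h4 : Nat.log 2 m < (Nat.log 2 m / (e+1) + 1) * (e+1) := by
      have := Nat.div_add_mod (Nat.log 2 m) (e+1)
      have h5 := Nat.mod_lt (Nat.log 2 m) (show 0 < e+1 by omega)
      nlinarith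
    have h5 : (Nat.log 2 m : ℝ) < (((Nat.log 2 m / (e+1) : ℕ) : ℝ) + 1) * (e+1) := by exact_mod_cast h4
    rw [sub_le_iff_le_add, div_le_iff₀ (by positivity)]
    exact h5.le
  have h4 : Real.log m / (2 * (e+1)) ≤ ((Nat.log 2 m / (e+1) : ℕ) : ℝ) := by
    refine le_trans ?_ h3
    have h5 : (Real.log m - 1) / (e+1) ≤ (Nat.log 2 m : ℝ) / (e+1) := by gcongr
    refine le_trans ?_ (sub_le_sub_right h5 1)
    rw [div_le_iff₀ (by positivity)]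
    have h6 : ((Real.log m - 1) / (e+1) - 1) * (2 * (e+1)) = 2 * (Real.log m - 1) - 2 * (e+1) := by field_simp
    rw [h6]; linarith
  refine ⟨hm1, ?_, h4, by linarith⟩
  have h5 : (0:ℝ) < ((Nat.log 2 m / (e+1) : ℕ) : ℝ) := by
    refine lt_of_lt_of_le ?_ h4
    have : 0 < Real.log m := by linarith
    positivity
  exact_mod_cast h5

/-- the first regime -/
theorem regime1 {r : ℝ} (hr0 : 0 < r) (hr1 : r < 1) (e : ℕ) (p : ℝ) :
    ∃ c : ℝ, 0 < c ∧ ∃ m0 : ℕ, ∀ m ≥ m0, ∀ (ξ : Fin m → Fin (e+1) → ℝ) (w : Fin m → ℝ),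
      ∃ f ∈ SobolevClass (e+1) r p, c * (m:ℝ) ^ (-r) * (Real.log m) ^ ((e:ℝ) * (1 - r)) ≤
        |∫ x, f x ∂(torus (e+1)) - ∑ j, w j * f (ξ j)| := by
  obtain ⟨q, hq⟩ := exists_nat_ge p
  have hp : p ≤ 2 * ((q:ℝ) + 1) := by have : (0:ℝ) ≤ q := Nat.cast_nonneg q; linarith
  obtain ⟨c, hc, hlow⟩ := lower hr0 hr1 q (e+1) hp
  obtain ⟨m0, hm0⟩ := size_L e
  obtain ⟨D, hD⟩ : ∃ D : ℝ, D = (2:ℝ) ^ (e+3) := ⟨_, rfl⟩
  have hD0 : 0 < D := by rw [hD]; positivity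
  refine ⟨c * D ^ (-r) * (((1 / (2 * ((e:ℝ)+1))) ^ e) ^ (1 - r)), by positivity, m0, ?_⟩
  intro m hm ξ w
  obtain ⟨hm1, hL1, hLlog, hloge⟩ := hm0 m hm
  obtain ⟨L, hL⟩ : ∃ L, L = Nat.log 2 m / (e+1) := ⟨_, rfl⟩
  rw [← hL] at hL1 hLlog
  obtain ⟨K, hK⟩ : ∃ K, K = L ^ e := ⟨_, rfl⟩
  have hK1 : 1 ≤ K := by rw [hK]; exact Nat.one_le_pow _ _ hL1
  obtain ⟨Y, hY⟩ : ∃ Y, Y = m * K * 2 ^ (e+1+1) := ⟨_, rfl⟩
  have hY1 : 1 < Y := by
    rw [hY]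
    have h1 : 1 ≤ m * K := Nat.one_le_iff_ne_zero.2 (by positivity)
    have h2 : 2 ≤ 2 ^ (e+1+1) := by
      calc 2 = 2 ^ 1 := by norm_num
        _ ≤ _ := Nat.pow_le_pow_right (by norm_num) (by omega)
    nlinarith
  obtain ⟨l, hl⟩ : ∃ l, l = Nat.clog 2 Y := ⟨_, rfl⟩
  have hYl : Y ≤ 2 ^ l := by rw [hl]; exact Nat.le_pow_clog (by norm_num) Y
  have hlY : 2 ^ l < 2 * Y := by
    have h1 := Nat.pow_pred_clog_lt_self (b := 2) (by norm_num) hY1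
    have h2 : 0 < Nat.clog 2 Y := Nat.clog_pos (by norm_num) hY1
    rw [hl]
    obtain ⟨k, hk⟩ : ∃ k, Nat.clog 2 Y = k + 1 := ⟨Nat.clog 2 Y - 1, by omega⟩
    rw [hk] at h1 ⊢
    rw [Nat.pred_succ] at h1
    rw [pow_succ]; omega
  have hel : e * L ≤ l := by
    have h1 : m ≤ Y := by
      rw [hY]
      calc m = m * 1 * 1 := by ring
        _ ≤ m * K * 2 ^ (e+1+1) := Nat.mul_le_mul (Nat.mul_le_mul_left _ hK1) Nat.one_le_two_pow
    have h2 : Nat.log 2 m ≤ l := by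
      have h3 : 2 ^ (Nat.log 2 m) ≤ 2 ^ l := (Nat.pow_log_le_self 2 (by omega)).trans (h1.trans hYl)
      exact (Nat.pow_le_pow_iff_right (by norm_num)).1 h3
    have h3 : L * (e+1) ≤ Nat.log 2 m := by rw [hL]; exact Nat.div_mul_le_self _ _
    nlinarith
  classical
  obtain ⟨A, hA⟩ : ∃ A : Finset (Fin (e+1) → ℕ), A = (univ : Finset (Fin e → Fin L)).image (shp l) := ⟨_, rfl⟩
  have hAcard : A.card = K := by
    rw [hA, Finset.card_image_of_injective _ (fun a b h => shp_inj h), Finset.card_univ, Fintype.card_fun, Fintype.card_fin, Fintype.card_fin, hK]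
  obtain ⟨f, hf, hfb⟩ := hlow m ξ w ({()} : Finset Unit) (Finset.singleton_nonempty _) (fun _ => l) (fun _ => A)
    (fun i _ j _ hij => absurd (Subsingleton.elim i j) hij)
    (fun _ _ s hs => by
      rw [hA] at hs
      obtain ⟨a, _, rfl⟩ := Finset.mem_image.1 hs
      exact shp_sum hel a)
    (fun _ _ => by rw [hAcard, ← hY]; exact hYl)
  refine ⟨f, hf, le_trans ?_ hfb⟩
  simp only [Finset.sum_singleton]
  rw [hAcard]
  have hKr : (0:ℝ) < K := by exact_mod_cast hK1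
  have hmr : (0:ℝ) < m := by exact_mod_cast hm1
  have hsq : Real.sqrt ((2:ℝ) ^ (2 * r * l)) = (2 ^ l : ℝ) ^ r := by
    rw [Real.sqrt_eq_rpow, ← Real.rpow_mul (by norm_num), ← Real.rpow_natCast 2 l, ← Real.rpow_mul (by norm_num)]
    congr 1; ring
  rw [hsq]
  have h1 : (2 ^ l : ℝ) ≤ D * (m * K) := by
    have h2 : (2 ^ l : ℝ) < 2 * Y := by exact_mod_cast hlY
    rw [hY] at h2
    push_cast at h2
    rw [hD]
    have : (2:ℝ) * (m * K * 2 ^ (e+1+1)) = 2 ^ (e+3) * (m * K) := by ring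
    linarith
  have h2 : (2 ^ l : ℝ) ^ r ≤ D ^ r * (m ^ r * K ^ r) := by
    rw [← Real.mul_rpow hmr.le hKr.le, ← Real.mul_rpow hD0.le (by positivity)]
    exact Real.rpow_le_rpow (by positivity) h1 hr0.le
  have h3 : ((1 / (2 * ((e:ℝ)+1))) ^ e) ^ (1 - r) * (Real.log m) ^ ((e:ℝ) * (1 - r)) ≤ (K:ℝ) ^ (1 - r) := by
    have hlogm : 0 ≤ Real.log m := (Nat.cast_nonneg e).trans hloge
    rw [Real.rpow_mul hlogm, Real.rpow_natCast, ← Real.mul_rpow (by positivity) (by positivity), ← mul_pow]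
    apply Real.rpow_le_rpow (by positivity) _ (by linarith)
    rw [hK]; push_cast
    apply pow_le_pow_left₀ (by positivity)
    refine le_trans (le_of_eq ?_) hLlog
    ring
  have hden : 0 < (2 ^ l : ℝ) ^ r := by positivity
  rw [le_div_iff₀ hden]
  have e1 : (m:ℝ) ^ (-r) * m ^ r = 1 := by rw [← Real.rpow_add hmr, neg_add_cancel, Real.rpow_zero]
  have e2 : D ^ (-r) * D ^ r = 1 := by rw [← Real.rpow_add hD0, neg_add_cancel, Real.rpow_zero]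
  have e3 : (K:ℝ) ^ (1 - r) * K ^ r = K := by rw [← Real.rpow_add hKr]; simp
  calc c * D ^ (-r) * (((1 / (2 * ((e:ℝ)+1))) ^ e) ^ (1 - r)) * (m:ℝ) ^ (-r) * (Real.log m) ^ ((e:ℝ) * (1 - r)) * (2 ^ l : ℝ) ^ r
      = c * (D ^ (-r) * (m:ℝ) ^ (-r)) * ((((1 / (2 * ((e:ℝ)+1))) ^ e) ^ (1 - r)) * (Real.log m) ^ ((e:ℝ) * (1 - r))) * (2 ^ l : ℝ) ^ r := by ring
    _ ≤ c * (D ^ (-r) * (m:ℝ) ^ (-r)) * ((K:ℝ) ^ (1 - r)) * (D ^ r * (m ^ r * K ^ r)) := by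
        gcongr
    _ = c * (D ^ (-r) * D ^ r) * ((m:ℝ) ^ (-r) * m ^ r) * ((K:ℝ) ^ (1 - r) * K ^ r) := by ring
    _ = c * K := by rw [e1, e2, e3]; ring

end H396C
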