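import Pool.Agent.H396R3.C.Param

/-! Choice of the parameters, critical smoothness. -/

set_option autoImplicit false

open Finset MeasureTheory Filter Topology

namespace H396C

theorem size_I (e : ℕ) (he : 1 ≤ e) : ∃ m0 : ℕ, ∀ m ≥ m0, 0 < Real.log (Real.log m) ∧
    Real.log (Real.log m) / 4 ≤ ((Nat.log 2 ((Nat.log 2 m / (e+1)) ^ e) : ℕ) : ℝ) := by
  obtain ⟨m1, hm1⟩ := size_L e
  have h1 : ∀ᶠ m : ℕ in atTop, (2 * (e + 1) : ℝ) ≤ Real.log m :=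
    (Real.tendsto_log_atTop.comp tendsto_natCast_atTop_atTop).eventually_ge_atTop _
  have h2 : ∀ᶠ m : ℕ in atTop, (2 * (1 + Real.log (2 * (e + 1))) : ℝ) ≤ Real.log (Real.log m) :=
    (Real.tendsto_log_atTop.comp (Real.tendsto_log_atTop.comp tendsto_natCast_atTop_atTop)).eventually_ge_atTop _
  obtain ⟨m2, hm2⟩ := eventually_atTop.1 (h1.and h2)
  refine ⟨max m1 m2, fun m hm => ?_⟩
  obtain ⟨hma, hL1, hLlog, hloge⟩ := hm1 m (le_trans (le_max_left _ _) hm)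
  obtain ⟨hlog, hll⟩ := hm2 m (le_trans (le_max_right _ _) hm)
  have he' : (1:ℝ) ≤ e := by exact_mod_cast he
  have hlogc : 0 < Real.log (2 * ((e:ℝ) + 1)) := Real.log_pos (by linarith)
  refine ⟨by linarith, ?_⟩
  obtain ⟨L, hL⟩ : ∃ L, L = Nat.log 2 m / (e+1) := ⟨_, rfl⟩
  rw [← hL] at hL1 hLlog ⊢
  obtain ⟨K, hK⟩ : ∃ K, K = L ^ e := ⟨_, rfl⟩
  rw [← hK]
  have hLr : (1:ℝ) ≤ L := by exact_mod_cast hL1
  have hlogm : 0 < Real.log m := by linarith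
  have hKL : (L:ℝ) ≤ K := by
    rw [hK]; push_cast
    calc (L:ℝ) = L ^ 1 := (pow_one _).symm
      _ ≤ L ^ e := pow_le_pow_right₀ hLr he
  have hKlog : Real.log (Real.log m) - Real.log (2 * ((e:ℝ) + 1)) ≤ Real.log K := by
    rw [← Real.log_div hlogm.ne' (by positivity)]
    apply Real.log_le_log (by positivity)
    exact hLlog.trans hKL
  have h3 : K < 2 ^ (Nat.log 2 K + 1) := Nat.lt_pow_succ_log_self (by norm_num) K
  have h4 : (K:ℝ) < 2 ^ (Nat.log 2 K + 1) := by exact_mod_cast h3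
  have hK0 : (0:ℝ) < K := by linarith
  have h5 : Real.log K ≤ (Nat.log 2 K + 1 : ℕ) * Real.log 2 := by
    rw [← Real.log_pow]
    exact Real.log_le_log hK0 h4.le
  have h6 : Real.log 2 ≤ 1 := by have := Real.log_two_lt_d9; linarith
  have h7 : (0:ℝ) ≤ (Nat.log 2 K + 1 : ℕ) := Nat.cast_nonneg _
  push_cast at h5 h7
  have h8 : Real.log K ≤ (Nat.log 2 K : ℝ) + 1 := by nlinarith
  linarith

theorem div_half {K i : ℕ} (h3 : 2 ^ i ≤ K) : (K:ℝ) / 2 ≤ ((K / 2 ^ i : ℕ) : ℝ) * 2 ^ i := by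
  have h4 : 1 ≤ K / 2 ^ i := (Nat.one_le_div_iff (by positivity)).2 h3
  obtain ⟨P, hP⟩ : ∃ P, P = 2 ^ i := ⟨_, rfl⟩
  rw [← hP] at h3 h4
  have h5 : K < (K / P + 1) * P := by
    have h6 := Nat.div_add_mod K P
    have h7 := Nat.mod_lt K (show 0 < P by rw [hP]; positivity)
    rw [add_mul, one_mul, mul_comm]; omega
  have h6 : (K:ℝ) < (((K / P : ℕ) : ℝ) + 1) * P := by exact_mod_cast h5
  have h7 : (1:ℝ) ≤ ((K / P : ℕ) : ℝ) := by exact_mod_cast h4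
  have h8 : (0:ℝ) < P := by rw [hP]; positivity
  have h9 : (2:ℝ) ^ i = P := by rw [hP]; push_cast; rfl
  rw [h9, ← hP]
  nlinarith

theorem idx_lt {K P g k : ℕ} (h1 : (g + 1) * P ≤ K) (h2 : k < P) : g * P + k < K := by
  rw [add_mul, one_mul] at h1; omega

/-- the critical regime -/
theorem regime2 (e : ℕ) (he : 1 ≤ e) (p : ℝ) :
    ∃ c : ℝ, 0 < c ∧ ∃ m0 : ℕ, ∀ m ≥ m0, ∀ (ξ : Fin m → Fin (e+1) → ℝ) (w : Fin m → ℝ),
      ∃ f ∈ SobolevClass (e+1) (1/2) p, c * (m:ℝ) ^ (-(1/2:ℝ)) * (Real.log m) ^ ((e:ℝ) / 2) * Real.sqrt (Real.log (Real.log m)) ≤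
        |∫ x, f x ∂(torus (e+1)) - ∑ j, w j * f (ξ j)| := by
  obtain ⟨q, hq⟩ := exists_nat_ge p
  have hp : p ≤ 2 * ((q:ℝ) + 1) := by have : (0:ℝ) ≤ q := Nat.cast_nonneg q; linarith
  obtain ⟨c, hc, hlow⟩ := lower (r := 1/2) (by norm_num) (by norm_num) q (e+1) hp
  obtain ⟨m1, hm1⟩ := size_L e
  obtain ⟨m2, hm2⟩ := size_I e he
  obtain ⟨D, hD⟩ : ∃ D : ℝ, D = (2:ℝ) ^ (e+3) := ⟨_, rfl⟩
  have hD0 : 0 < D := by rw [hD]; positivity
  refine ⟨c / 4 * Real.sqrt ((1 / (2 * ((e:ℝ)+1))) ^ e) / Real.sqrt D, by positivity, max m1 m2, ?_⟩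
  intro m hm ξ w
  obtain ⟨hma, hL1, hLlog, hloge⟩ := hm1 m (le_trans (le_max_left _ _) hm)
  obtain ⟨hllpos, hI⟩ := hm2 m (le_trans (le_max_right _ _) hm)
  obtain ⟨L, hL⟩ : ∃ L, L = Nat.log 2 m / (e+1) := ⟨_, rfl⟩
  rw [← hL] at hL1 hLlog hI
  obtain ⟨K, hK⟩ : ∃ K, K = L ^ e := ⟨_, rfl⟩
  rw [← hK] at hI
  have hK1 : 1 ≤ K := by rw [hK]; exact Nat.one_le_pow _ _ hL1
  obtain ⟨I, hId⟩ : ∃ I, I = Nat.log 2 K := ⟨_, rfl⟩
  rw [← hId] at hI
  have hIK : ∀ i < I, 2 ^ i ≤ K := by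
    intro i hi
    calc 2 ^ i ≤ 2 ^ I := Nat.pow_le_pow_right (by norm_num) hi.le
      _ ≤ K := by rw [hId]; exact Nat.pow_log_le_self 2 (by omega)
  have hI1 : 1 ≤ I := by
    have : (0:ℝ) < I := lt_of_lt_of_le (by positivity) hI
    exact_mod_cast this
  obtain ⟨l0, hl0⟩ : ∃ l0, l0 = Nat.log 2 m + (e + 3) := ⟨_, rfl⟩
  have hml0 : m * 2 ^ (e+1+1) ≤ 2 ^ l0 := by
    have h3 : m < 2 ^ (Nat.log 2 m + 1) := Nat.lt_pow_succ_log_self (by norm_num) m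
    calc m * 2 ^ (e+1+1) ≤ 2 ^ (Nat.log 2 m + 1) * 2 ^ (e+1+1) := Nat.mul_le_mul_right _ h3.le
      _ = 2 ^ l0 := by rw [← pow_add, hl0]; congr 1; ring
  have hl0m : 2 ^ l0 ≤ m * 2 ^ (e+3) := by
    rw [hl0, pow_add]
    exact Nat.mul_le_mul_right _ (Nat.pow_log_le_self 2 (by omega))
  have hel : e * L ≤ l0 := by
    have h3 : L * (e+1) ≤ Nat.log 2 m := by rw [hL]; exact Nat.div_mul_le_self _ _
    rw [mul_add, mul_one, mul_comm] at h3
    rw [hl0]; omega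
  classical
  -- enumeration
  have hcard : Fintype.card (Fin e → Fin L) = K := by
    rw [Fintype.card_fun, Fintype.card_fin, Fintype.card_fin, hK]
  obtain ⟨E, hE⟩ : ∃ E : ℕ → (Fin e → Fin L), ∀ a b, a < K → b < K → E a = E b → a = b := by
    refine ⟨fun n => (Fintype.equivFinOfCardEq hcard).symm ⟨n % K, Nat.mod_lt _ (by omega)⟩, ?_⟩
    intro a b ha hb h
    have h1 := (Fintype.equivFinOfCardEq hcard).symm.injective h
    have h2 := congrArg Fin.val h1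
    simp only at h2
    rwa [Nat.mod_eq_of_lt ha, Nat.mod_eq_of_lt hb] at h2
  obtain ⟨J, hJ⟩ : ∃ J : Finset ((_ : ℕ) × ℕ), J = (range I).sigma (fun i => range (K / 2 ^ i)) := ⟨_, rfl⟩
  obtain ⟨A, hA⟩ : ∃ A : ((_ : ℕ) × ℕ) → Finset (Fin (e+1) → ℕ), A = fun j =>
      (range (2 ^ j.1)).image (fun k => shp (l0 + j.1) (E (j.2 * 2 ^ j.1 + k))) := ⟨_, rfl⟩
  have hmemJ : ∀ j ∈ J, j.1 < I ∧ (j.2 + 1) * 2 ^ j.1 ≤ K := by
    intro j hj
    rw [hJ, Finset.mem_sigma, Finset.mem_range, Finset.mem_range] at hj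
    refine ⟨hj.1, ?_⟩
    calc (j.2 + 1) * 2 ^ j.1 ≤ (K / 2 ^ j.1) * 2 ^ j.1 := Nat.mul_le_mul_right _ hj.2
      _ ≤ K := Nat.div_mul_le_self _ _
  have hAcard : ∀ j ∈ J, (A j).card = 2 ^ j.1 := by
    intro j hj
    obtain ⟨h1, h2⟩ := hmemJ j hj
    rw [hA]
    simp only
    rw [Finset.card_image_of_injOn, Finset.card_range]
    intro a ha b hb hab
    have ha' := Finset.mem_range.1 (Finset.mem_coe.1 ha)
    have hb' := Finset.mem_range.1 (Finset.mem_coe.1 hb)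
    have h3 := hE _ _ (idx_lt h2 ha') (idx_lt h2 hb') (shp_inj hab)
    exact Nat.add_left_cancel h3
  have hAsum : ∀ j ∈ J, ∀ s ∈ A j, ∑ i, s i = l0 + j.1 := by
    intro j _ s hs
    rw [hA] at hs
    obtain ⟨k, _, rfl⟩ := Finset.mem_image.1 hs
    exact shp_sum (by omega) _
  obtain ⟨f, hf, hfb⟩ := hlow m ξ w J ⟨⟨0, 0⟩, by
      rw [hJ, Finset.mem_sigma, Finset.mem_range, Finset.mem_range]
      exact ⟨hI1, by simp only [pow_zero, Nat.div_one]; omega⟩⟩ (fun j => l0 + j.1) A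
    (fun i hi j hj hij => by
      rw [Finset.disjoint_left]
      intro s hs hs'
      apply hij
      have h1 := hAsum i hi s hs
      have h2 := hAsum j hj s hs'
      have h3 : i.1 = j.1 := by omega
      rw [hA] at hs hs'
      obtain ⟨k, hk, hks⟩ := Finset.mem_image.1 hs
      obtain ⟨k', hk', hks'⟩ := Finset.mem_image.1 hs'
      have hk1 := Finset.mem_range.1 hk
      have hk1' := Finset.mem_range.1 hk'
      obtain ⟨_, hi2⟩ := hmemJ i hi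
      obtain ⟨_, hj2⟩ := hmemJ j hj
      have h4 := hE _ _ (idx_lt hi2 hk1) (idx_lt hj2 hk1') (shp_inj (hks.trans hks'.symm))
      rcases i with ⟨i1, i2⟩
      rcases j with ⟨j1, j2⟩
      simp only at h3 h4 hk1 hk1'
      subst h3
      have h5 : i2 = j2 := by
        have h6 : (i2 * 2 ^ i1 + k) / 2 ^ i1 = (j2 * 2 ^ i1 + k') / 2 ^ i1 := by rw [h4]
        rw [mul_comm i2, mul_comm j2, Nat.mul_add_div (by positivity), Nat.mul_add_div (by positivity),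
          Nat.div_eq_of_lt hk1, Nat.div_eq_of_lt hk1'] at h6
        simpa using h6
      rw [h5])
    hAsum
    (fun j hj => by
      rw [hAcard j hj]
      calc m * 2 ^ j.1 * 2 ^ (e+1+1) = (m * 2 ^ (e+1+1)) * 2 ^ j.1 := by ring
        _ ≤ 2 ^ l0 * 2 ^ j.1 := Nat.mul_le_mul_right _ hml0
        _ = 2 ^ (l0 + j.1) := by rw [pow_add])
  refine ⟨f, hf, le_trans ?_ hfb⟩
  have hKr : (0:ℝ) < K := by exact_mod_cast hK1
  have hmr : (0:ℝ) < m := by exact_mod_cast hma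
  have hIr : (0:ℝ) < I := by exact_mod_cast hI1
  -- cardinalities
  have hc1 : (I:ℝ) * K / 2 ≤ ∑ j ∈ J, ((A j).card : ℝ) := by
    have h1 : ∑ j ∈ J, ((A j).card : ℝ) = ∑ i ∈ range I, ((K / 2 ^ i : ℕ) : ℝ) * 2 ^ i := by
      rw [Finset.sum_congr rfl (fun j hj => by rw [hAcard j hj] : ∀ j ∈ J, ((A j).card : ℝ) = ((2 ^ j.1 : ℕ) : ℝ)), hJ, Finset.sum_sigma]
      refine Finset.sum_congr rfl fun i _ => ?_
      simp only
      rw [Finset.sum_const, Finset.card_range, nsmul_eq_mul]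
      push_cast; rfl
    rw [h1]
    have h2 : ∀ i ∈ range I, (K:ℝ) / 2 ≤ ((K / 2 ^ i : ℕ) : ℝ) * 2 ^ i :=
      fun i hi => div_half (hIK i (Finset.mem_range.1 hi))
    refine le_trans (le_of_eq ?_) (Finset.sum_le_sum h2)
    rw [Finset.sum_const, Finset.card_range, nsmul_eq_mul]; ring
  have hc2 : ∑ j ∈ J, (2:ℝ) ^ (2 * (1/2:ℝ) * ((l0 + j.1 : ℕ) : ℝ)) ≤ (I * K) * (m * D) := by
    have h0 : ∀ j ∈ J, (2:ℝ) ^ (2 * (1/2:ℝ) * ((l0 + j.1 : ℕ) : ℝ)) = 2 ^ l0 * 2 ^ j.1 := by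
      intro j _
      rw [← pow_add, ← Real.rpow_natCast]
      congr 1; ring
    rw [Finset.sum_congr rfl h0, hJ, Finset.sum_sigma]
    have h1 : ∀ i ∈ range I, ∑ _g ∈ range (K / 2 ^ i), (2:ℝ) ^ l0 * 2 ^ i ≤ K * (m * D) := by
      intro i _
      rw [Finset.sum_const, Finset.card_range, nsmul_eq_mul]
      have h3 : ((K / 2 ^ i : ℕ) : ℝ) * 2 ^ i ≤ K := by exact_mod_cast Nat.div_mul_le_self K (2 ^ i)
      have h4 : (2:ℝ) ^ l0 ≤ m * D := by rw [hD]; exact_mod_cast hl0m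
      calc ((K / 2 ^ i : ℕ) : ℝ) * (2 ^ l0 * 2 ^ i) = (((K / 2 ^ i : ℕ) : ℝ) * 2 ^ i) * 2 ^ l0 := by ring
        _ ≤ K * (m * D) := mul_le_mul h3 h4 (by positivity) hKr.le
    refine (Finset.sum_le_sum h1).trans (le_of_eq ?_)
    rw [Finset.sum_const, Finset.card_range, nsmul_eq_mul]; ring
  have hS0 : 0 < ∑ j ∈ J, (2:ℝ) ^ (2 * (1/2:ℝ) * ((l0 + j.1 : ℕ) : ℝ)) := by
    apply Finset.sum_pos (fun _ _ => by positivity)
    exact ⟨⟨0, 0⟩, by
      rw [hJ, Finset.mem_sigma, Finset.mem_range, Finset.mem_range]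
      exact ⟨hI1, by simp only [pow_zero, Nat.div_one]; omega⟩⟩
  have hc3 : Real.sqrt (∑ j ∈ J, (2:ℝ) ^ (2 * (1/2:ℝ) * ((l0 + j.1 : ℕ) : ℝ))) ≤ Real.sqrt (I * K) * Real.sqrt (m * D) := by
    rw [← Real.sqrt_mul (by positivity)]
    exact Real.sqrt_le_sqrt hc2
  have hlogm : 0 ≤ Real.log m := (Nat.cast_nonneg e).trans hloge
  have hK2 : Real.sqrt ((1 / (2 * ((e:ℝ)+1))) ^ e) * (Real.log m) ^ ((e:ℝ) / 2) ≤ Real.sqrt K := by
    have h1 : (Real.log m) ^ ((e:ℝ) / 2) = Real.sqrt ((Real.log m) ^ e) := by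
      rw [Real.sqrt_eq_rpow, ← Real.rpow_natCast (Real.log m) e, ← Real.rpow_mul hlogm]
      congr 1; ring
    rw [h1, ← Real.sqrt_mul (by positivity), ← mul_pow]
    apply Real.sqrt_le_sqrt
    rw [hK]; push_cast
    apply pow_le_pow_left₀ (by positivity)
    refine le_trans (le_of_eq ?_) hLlog
    ring
  have hI2 : Real.sqrt (Real.log (Real.log m)) / 2 ≤ Real.sqrt I := by
    have h1 : Real.sqrt (Real.log (Real.log m)) / 2 = Real.sqrt (Real.log (Real.log m) / 4) := by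
      rw [Real.sqrt_div hllpos.le, show (4:ℝ) = 2 ^ 2 by norm_num, Real.sqrt_sq (by norm_num)]
    rw [h1]; exact Real.sqrt_le_sqrt hI
  have hm12 : (m:ℝ) ^ (-(1/2:ℝ)) = 1 / Real.sqrt m := by
    rw [Real.rpow_neg hmr.le, Real.sqrt_eq_rpow, inv_eq_one_div]
  have hsm : 0 < Real.sqrt m := Real.sqrt_pos.2 hmr
  have hsD : 0 < Real.sqrt D := Real.sqrt_pos.2 hD0
  have hsIK : 0 < Real.sqrt (I * K) := Real.sqrt_pos.2 (by positivity)
  calc c / 4 * Real.sqrt ((1 / (2 * ((e:ℝ)+1))) ^ e) / Real.sqrt D * (m:ℝ) ^ (-(1/2:ℝ)) * (Real.log m) ^ ((e:ℝ) / 2) * Real.sqrt (Real.log (Real.log m))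
      = c / 2 * (Real.sqrt ((1 / (2 * ((e:ℝ)+1))) ^ e) * (Real.log m) ^ ((e:ℝ) / 2)) * (Real.sqrt (Real.log (Real.log m)) / 2) / (Real.sqrt m * Real.sqrt D) := by
        rw [hm12]; field_simp; ring
    _ ≤ c / 2 * Real.sqrt K * Real.sqrt I / (Real.sqrt m * Real.sqrt D) := by
        gcongr
    _ = c * (I * K / 2) / (Real.sqrt (I * K) * Real.sqrt (m * D)) := by
        rw [Real.sqrt_mul hIr.le, Real.sqrt_mul hmr.le]
        have h1 : Real.sqrt I * Real.sqrt I = I := Real.mul_self_sqrt hIr.le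
        have h2 : Real.sqrt K * Real.sqrt K = K := Real.mul_self_sqrt hKr.le
        have h3 : 0 < Real.sqrt I := Real.sqrt_pos.2 hIr
        have h4 : 0 < Real.sqrt K := Real.sqrt_pos.2 hKr
        rw [div_eq_div_iff (by positivity) (by positivity)]
        calc c / 2 * Real.sqrt K * Real.sqrt I * (Real.sqrt I * Real.sqrt K * (Real.sqrt m * Real.sqrt D))
            = c / 2 * (Real.sqrt I * Real.sqrt I) * (Real.sqrt K * Real.sqrt K) * (Real.sqrt m * Real.sqrt D) := by ring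
          _ = _ := by rw [h1, h2]; ring
    _ ≤ c * (∑ j ∈ J, ((A j).card : ℝ)) / (Real.sqrt (I * K) * Real.sqrt (m * D)) := by
        gcongr
    _ ≤ _ := by
        apply div_le_div_of_nonneg_left _ (Real.sqrt_pos.2 hS0) hc3
        exact mul_nonneg hc.le (Finset.sum_nonneg fun _ _ => Nat.cast_nonneg _)

end H396C
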