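import Pool.Agent.H396R3.C.Tens

/-! Refinement identity. -/

set_option autoImplicit false

open Finset

namespace H396C

section
variable {M : ℕ}

/-- the kernel matrix -/
noncomputable def km (κ : ℕ → Zm M → ℤ → ℝ) (n : ℕ) (x y : Zm M) : ℝ := κ n x (cl n y : ℤ) / sc M n

theorem cell_card' (k : ℕ) (hk : k ≤ M) (c : ℕ) (hc : c < 2 ^ k) :
    (univ.filter fun z : Zm M => cl k z = c).card = 2 ^ (M - k) := by
  have h1 : cl k ((c * 2 ^ (M - k) : ℕ) : Zm M) = c := by
    rw [cl_cast hk, Nat.mul_div_cancel _ (by positivity), Nat.mod_eq_of_lt hc]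
  rw [← cell_card k ((c * 2 ^ (M - k) : ℕ) : Zm M), h1]

theorem km_ind (κ : ℕ → Zm M → ℤ → ℝ) (k : ℕ) (hk : k ≤ M) (c : ℕ) (hc : c < 2 ^ k) (x : Zm M) :
    ∑ z, km κ k x z * (if cl k z = c then (1:ℝ) else 0) = κ k x c := by
  have h1 : ∀ z : Zm M, km κ k x z * (if cl k z = c then (1:ℝ) else 0) = if cl k z = c then κ k x c / sc M k else 0 := by
    intro z
    unfold km
    split_ifs with h
    · rw [h, mul_one]
    · simp
  simp only [h1]
  rw [← Finset.sum_filter, Finset.sum_const, cell_card' k hk c hc, nsmul_eq_mul]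
  push_cast
  rw [sc_eq hk]
  have := sc_pos M k
  field_simp

theorem km_em (κ : ℕ → Zm M → ℤ → ℝ) (k : ℕ) (hk : k ≤ M) (x y : Zm M) :
    ∑ z, km κ k x z * em k z y = km κ k x y := by
  have h1 : ∀ z : Zm M, km κ k x z * em k z y = (km κ k x z * (if cl k z = cl k y then (1:ℝ) else 0)) / 2 ^ (M - k) := by
    intro z
    unfold em
    by_cases h : cl k z = cl k y
    · rw [if_pos h.symm, if_pos h]; ring
    · rw [if_neg (fun h' => h h'.symm), if_neg h]; simp
  simp only [h1]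
  rw [← Finset.sum_div, km_ind κ k hk _ (cl_lt hk y), sc_eq hk]
  rfl

theorem ind_id {P e b : ℕ} (he : e < 2 * P) (hb : b < P) :
    (if e % 2 = 1 then ((if b = e / 2 then (1:ℝ) else 0) + (if b = (e / 2 + 1) % P then (1:ℝ) else 0)) / 2
      else if b = e / 2 then (1:ℝ) else 0) =
    (if e = 2 * b then (1:ℝ) else 0) + (if e = 2 * b + 1 then (1:ℝ) else 0) / 2 +
      (if e = (if b = 0 then 2 * P - 1 else 2 * b - 1) then (1:ℝ) else 0) / 2 := by
  have hmod : (e / 2 + 1) % P = if e / 2 + 1 = P then 0 else e / 2 + 1 := by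
    split_ifs with h
    · rw [h, Nat.mod_self]
    · exact Nat.mod_eq_of_lt (by omega)
  rw [hmod]
  by_cases h1 : e % 2 = 1
  · rw [if_pos h1]
    have h2 : ¬ (e = 2 * b) := by omega
    rw [if_neg h2]
    have h3 : (b = e / 2) ↔ e = 2 * b + 1 := by omega
    have h4 : (b = if e / 2 + 1 = P then 0 else e / 2 + 1) ↔ (e = if b = 0 then 2 * P - 1 else 2 * b - 1) := by
      split_ifs <;> omega
    simp only [h3, h4]
    ring
  · rw [if_neg h1]
    have h2 : ¬ (e = 2 * b + 1) := by omega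
    have h3 : (b = e / 2) ↔ e = 2 * b := by omega
    have h4 : ¬ (e = if b = 0 then 2 * P - 1 else 2 * b - 1) := by
      split_ifs <;> omega
    simp only [h3, if_neg h4, if_neg h2]
    ring

theorem refine_step (κ : ℕ → Zm M → ℤ → ℝ) (n : ℕ) (hn : n < M)
    (hper : ∀ x c, κ (n+1) x (c + 2 ^ (n+1)) = κ (n+1) x c)
    (href : ∀ x c, κ n x c = κ (n+1) x (2 * c) + (κ (n+1) x (2 * c + 1) + κ (n+1) x (2 * c - 1)) / 2) (x y : Zm M) :
    km κ (n+1) x y = km κ n x y + ∑ z, km κ (n+1) x z * gam (n+1) z y := by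
  obtain ⟨b, hb⟩ : ∃ b, b = cl n y := ⟨_, rfl⟩
  have hbP : b < 2 ^ n := by rw [hb]; exact cl_lt (by omega) y
  obtain ⟨P, hP⟩ : ∃ P, P = 2 ^ n := ⟨_, rfl⟩
  rw [← hP] at hbP
  have hPP : 2 ^ (n+1) = 2 * P := by rw [hP, pow_succ]; ring
  obtain ⟨b', hb'⟩ : ∃ b', b' = if b = 0 then 2 * P - 1 else 2 * b - 1 := ⟨_, rfl⟩
  have hb'P : b' < 2 ^ (n+1) := by rw [hb', hPP]; split_ifs <;> omega
  have hgam : ∀ z : Zm M, gam (n+1) z y = em (n+1) z y -
      ((if cl (n+1) z = 2 * b then (1:ℝ) else 0) + (if cl (n+1) z = 2 * b + 1 then (1:ℝ) else 0) / 2 +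
      (if cl (n+1) z = b' then (1:ℝ) else 0) / 2) / 2 ^ (M - n) := by
    intro z
    have h1 : gam (n+1) z y = em (n+1) z y - em n z y + (if cl (n+1) z % 2 = 1 then (em n z y - em n (sh n z) y) / 2 else 0) := rfl
    have he : cl (n+1) z < 2 * P := by rw [← hPP]; exact cl_lt (by omega) z
    rw [hb', ← ind_id he hbP, h1]
    have h2 : em n z y = (if b = cl (n+1) z / 2 then (1:ℝ) else 0) / 2 ^ (M - n) := by
      unfold em
      rw [cl_half hn z, ← hb]; split_ifs <;> simp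
    have h3 : em n (sh n z) y = (if b = (cl (n+1) z / 2 + 1) % P then (1:ℝ) else 0) / 2 ^ (M - n) := by
      unfold em
      rw [cl_sh (by omega), Nat.add_div_right _ (by positivity)]
      have : z.val / 2 ^ (M - n) = cl n z := rfl
      rw [this, cl_half hn z, ← hb, ← hP]; split_ifs <;> simp
    rw [h2, h3]
    split_ifs <;> ring
  have hsum : ∑ z, km κ (n+1) x z * gam (n+1) z y = km κ (n+1) x y -
      (κ (n+1) x ((2 * b : ℕ) : ℤ) + κ (n+1) x ((2 * b + 1 : ℕ) : ℤ) / 2 + κ (n+1) x (b' : ℤ) / 2) / 2 ^ (M - n) := by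
    rw [← km_em κ (n+1) (by omega) x y, ← km_ind κ (n+1) (by omega) (2 * b) (by omega) x,
      ← km_ind κ (n+1) (by omega) (2 * b + 1) (by omega) x, ← km_ind κ (n+1) (by omega) b' hb'P x,
      Finset.sum_div, Finset.sum_div, ← Finset.sum_add_distrib, ← Finset.sum_add_distrib, Finset.sum_div,
      ← Finset.sum_sub_distrib]
    refine Finset.sum_congr rfl fun z _ => ?_
    rw [hgam]; ring
  have hb'' : κ (n+1) x (b' : ℤ) = κ (n+1) x (2 * (b:ℤ) - 1) := by
    rw [hb']
    split_ifs with h0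
    · rw [← hper x (2 * (b:ℤ) - 1)]
      congr 1
      rw [h0]
      have : (2:ℤ) ^ (n+1) = ((2 ^ (n+1) : ℕ) : ℤ) := by push_cast; rfl
      rw [this, hPP]
      push_cast
      omega
    · congr 1; omega
  rw [hsum, hb'']
  unfold km
  rw [← hb, href x (b:ℤ), sc_eq (by omega : n ≤ M)]
  push_cast
  ring

theorem refine_all (κ : ℕ → Zm M → ℤ → ℝ)
    (hper : ∀ n x c, κ n x (c + 2 ^ n) = κ n x c)
    (href : ∀ n x c, κ n x c = κ (n+1) x (2 * c) + (κ (n+1) x (2 * c + 1) + κ (n+1) x (2 * c - 1)) / 2)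
    (n : ℕ) (hn : n ≤ M) (x y : Zm M) :
    km κ n x y = ∑ m ∈ range (n+1), ∑ z, km κ m x z * gam m z y := by
  induction n with
  | zero =>
    rw [Finset.sum_range_one]
    exact (km_em κ 0 (by omega) x y).symm
  | succ n ih =>
    rw [Finset.sum_range_succ, ← ih (by omega)]
    exact refine_step κ n (by omega) (hper (n+1)) (href n) x y

/-- tensor refinement -/
theorem refine_tp {d : ℕ} (κ : Fin d → ℕ → Zm M → ℤ → ℝ)
    (hper : ∀ i n x c, κ i n x (c + 2 ^ n) = κ i n x c)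
    (href : ∀ i n x c, κ i n x c = κ i (n+1) x (2 * c) + (κ i (n+1) x (2 * c + 1) + κ i (n+1) x (2 * c - 1)) / 2)
    (s : Fin d → ℕ) (hs : ∀ i, s i ≤ M) (h : (Fin d → Zm M) → ℝ) (x : Fin d → Zm M) :
    tp (fun i => km (κ i)) s h x = ∑ m ∈ Fintype.piFinset (fun i => range (s i + 1)),
      tp (fun i => km (κ i)) m (tp (fun _ => gam) m h) x := by
  have h1 : ∀ y, tk (fun i => km (κ i)) s x y = ∑ m ∈ Fintype.piFinset (fun i => range (s i + 1)),
      ∑ z, tk (fun i => km (κ i)) m x z * tk (fun _ => gam) m z y := by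
    intro y
    unfold tk
    have h2 : ∀ i, km (κ i) (s i) (x i) (y i) = ∑ m ∈ range (s i + 1), ∑ z, km (κ i) m (x i) z * gam m z (y i) :=
      fun i => refine_all (κ i) (hper i) (href i) (s i) (hs i) (x i) (y i)
    simp only [h2]
    rw [Finset.prod_univ_sum]
    refine Finset.sum_congr rfl fun m _ => ?_
    rw [Finset.prod_univ_sum, Fintype.piFinset_univ]
    refine Finset.sum_congr rfl fun z _ => ?_
    rw [Finset.prod_mul_distrib]
  unfold tp
  simp only [h1, Finset.sum_mul, Finset.mul_sum]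
  rw [Finset.sum_comm]
  refine Finset.sum_congr rfl fun m _ => ?_
  rw [Finset.sum_comm]
  refine Finset.sum_congr rfl fun z _ => ?_
  refine Finset.sum_congr rfl fun y _ => ?_
  ring

end

end H396C
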