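import Pool.Agent.H396R3.C.Cut

/-! Synthesis inequality for families of kernels on `ZMod (2^M)`. -/

set_option autoImplicit false

open Finset

namespace H396C

/-- weighted power mean inequality -/
theorem wpm {ι : Type} (J : Finset ι) (w z : ι → ℝ) (hw : ∀ i ∈ J, 0 ≤ w i) (hz : ∀ i ∈ J, 0 ≤ z i)
    (n : ℕ) : (∑ i ∈ J, w i * z i) ^ (n+1) ≤ (∑ i ∈ J, w i) ^ n * ∑ i ∈ J, w i * z i ^ (n+1) := by
  obtain ⟨W, hW⟩ : ∃ W, W = ∑ i ∈ J, w i := ⟨_, rfl⟩
  obtain ⟨T, hT⟩ : ∃ T, T = ∑ i ∈ J, w i * z i := ⟨_, rfl⟩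
  have hW0 : 0 ≤ W := by rw [hW]; exact Finset.sum_nonneg hw
  have hT0 : 0 ≤ T := by rw [hT]; exact Finset.sum_nonneg fun i hi => mul_nonneg (hw i hi) (hz i hi)
  rw [← hW, ← hT]
  rcases hW0.eq_or_lt with h0 | h0
  · have h1 : ∀ i ∈ J, w i = 0 := (Finset.sum_eq_zero_iff_of_nonneg hw).1 (by rw [← hW, h0])
    have h2 : T = 0 := by
      rw [hT]; exact Finset.sum_eq_zero fun i hi => by rw [h1 i hi, zero_mul]
    have h3 : ∑ i ∈ J, w i * z i ^ (n+1) = 0 := Finset.sum_eq_zero fun i hi => by rw [h1 i hi, zero_mul]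
    rw [h2, h3]; simp
  · have hm : 0 ≤ T / W := by positivity
    have h1 : ∀ i ∈ J, w i * ((T/W) ^ (n+1) + (n+1) * (T/W) ^ n * (z i - T/W)) ≤ w i * z i ^ (n+1) :=
      fun i hi => mul_le_mul_of_nonneg_left (tangent n hm (hz i hi)) (hw i hi)
    have h2 := Finset.sum_le_sum h1
    have h3 : ∑ i ∈ J, w i * ((T/W) ^ (n+1) + (n+1) * (T/W) ^ n * (z i - T/W)) = W * (T/W) ^ (n+1) := by
      have e : ∀ i ∈ J, w i * ((T/W) ^ (n+1) + (n+1) * (T/W) ^ n * (z i - T/W)) =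
        ((T/W) ^ (n+1) - (n+1) * (T/W) ^ n * (T/W)) * w i + ((n+1) * (T/W) ^ n) * (w i * z i) := fun i _ => by ring
      rw [Finset.sum_congr rfl e, Finset.sum_add_distrib, ← Finset.mul_sum, ← Finset.mul_sum, ← hW, ← hT]
      field_simp
      ring
    rw [h3] at h2
    calc T ^ (n+1) = W ^ n * (W * (T/W) ^ (n+1)) := by
          rw [div_pow, pow_succ W]; field_simp
      _ ≤ _ := mul_le_mul_of_nonneg_left h2 (pow_nonneg hW0 n)

/-- Cauchy-Schwarz inequality with a majorant -/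
theorem csb {ι : Type} (J : Finset ι) (b p G : ι → ℝ) (hb : ∀ i ∈ J, |b i| ≤ p i) :
    (∑ i ∈ J, b i * G i) ^ 2 ≤ (∑ i ∈ J, |b i|) * ∑ i ∈ J, p i * G i ^ 2 := by
  have h1 := Finset.sum_sq_le_sum_mul_sum_of_sq_eq_mul J (r := fun i => b i * G i) (f := fun i => |b i|)
    (g := fun i => |b i| * G i ^ 2) (fun i _ => abs_nonneg _) (fun i _ => by positivity)
    (fun i _ => by rw [mul_pow, ← sq_abs (b i)]; ring)
  refine h1.trans (mul_le_mul_of_nonneg_left ?_ (Finset.sum_nonneg fun i _ => abs_nonneg _))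
  exact Finset.sum_le_sum fun i hi => mul_le_mul_of_nonneg_right (hb i hi) (sq_nonneg _)

/-- hypotheses on a family of kernels -/
structure KF (δ ε C : ℝ) (M R : ℕ) (a : ℕ → Zm M → Zm M → ℝ) : Prop where
  h1 : ∀ n ≤ R, ∀ x y, |a n x y| ≤ C * (nrm M).pk δ n (x - y)
  h2 : ∀ n ≤ R, ∀ m, n ≤ m → m ≤ M → ∀ x x' y, cl m x' = cl m x →
    |a n x' y - a n x y| ≤ C * (2:ℝ) ^ (-(ε * ((m:ℝ) - n))) * (nrm M).pk δ n (x - y)
  h3 : ∀ n ≤ R, ∀ y, |∑ x, a n x y| ≤ C * (2:ℝ) ^ (-(ε * n))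

/-- the operator with kernel `a n` -/
def op {M : ℕ} (a : ℕ → Zm M → Zm M → ℝ) (n : ℕ) (G : Zm M → ℝ) (x : Zm M) : ℝ := ∑ y, a n x y * G y

section
variable {M : ℕ}

theorem pk_symm (δ : ℝ) (n : ℕ) (z : Zm M) : (nrm M).pk δ n (-z) = (nrm M).pk δ n z := by
  unfold Nrm.pk
  rw [(nrm M).neg]

noncomputable def S1 (δ : ℝ) : ℝ := 2 ^ (1 + δ) * (Nrm.geoC δ * 3)

theorem S1_pos {δ : ℝ} (hδ : 0 < δ) : 0 < S1 δ := by
  unfold S1; have := Nrm.geoC_pos hδ; positivity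

theorem pk_sum_sub (δ : ℝ) (hδ : 0 < δ) (n : ℕ) (hn : n ≤ M) (x : Zm M) :
    ∑ y, (nrm M).pk δ n (x - y) ≤ S1 δ := by
  have h1 : ∑ y, (nrm M).pk δ n (x - y) = ∑ z, (nrm M).pk δ n z :=
    Fintype.sum_equiv (Equiv.subLeft x) _ _ (fun y => rfl)
  rw [h1]; exact (nrm M).pk_sum δ hδ n hn

theorem pk_sum_sub' (δ : ℝ) (hδ : 0 < δ) (n : ℕ) (hn : n ≤ M) (y : Zm M) :
    ∑ w, (nrm M).pk δ n (w - y) ≤ S1 δ := by
  have h1 : ∑ w, (nrm M).pk δ n (w - y) = ∑ z, (nrm M).pk δ n z :=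
    Fintype.sum_equiv (Equiv.subRight y) _ _ (fun y => rfl)
  rw [h1]; exact (nrm M).pk_sum δ hδ n hn

theorem sc_eq {k : ℕ} (hk : k ≤ M) : (2:ℝ) ^ (M - k) = sc M k := by
  unfold sc
  rw [pow_sub₀ _ (by norm_num) hk]; rfl

/-- average of the majorant over a cell -/
theorem avpk (δ : ℝ) (hδ : 0 < δ) {k n : ℕ} (hkn : k ≤ n) (hn : n ≤ M) (x y : Zm M) :
    Av k (fun w => (nrm M).pk δ n (w - y)) x ≤ 4 ^ (1 + δ) * (1 + S1 δ) * (nrm M).pk δ k (x - y) := by
  have hk : k ≤ M := hkn.trans hn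
  have hsk := sc_pos M k
  have hsn := sc_pos M n
  have hS := S1_pos hδ
  have hpk := (nrm M).pk_pos δ k (x - y)
  have hnk : sc M n ≤ sc M k := sc_anti hkn
  obtain ⟨t, ht⟩ : ∃ t : ℝ, t = (nu (x - y) : ℝ) := ⟨_, rfl⟩
  have ht0 : 0 ≤ t := by rw [ht]; positivity
  have hpkt : (nrm M).pk δ k (x - y) = (1 + t / sc M k) ^ (-(1 + δ)) / sc M k := by rw [ht]; rfl
  rcases le_or_gt (2 * sc M k) t with h | h
  · -- far
    have htp : 0 < t := by linarith
    have hpt : ∀ w, cl k w = cl k x → (nrm M).pk δ n (w - y) ≤ 4 ^ (1 + δ) * (nrm M).pk δ k (x - y) := by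
      intro w hw
      have h1 : (nu (x - w) : ℝ) ≤ sc M k := nu_cell hk hw.symm
      have h2 : (nu (x - y) : ℝ) ≤ nu (x - w) + nu (w - y) := by
        have := (nrm M).add (x - w) (w - y)
        rw [sub_add_sub_cancel] at this
        exact_mod_cast this
      have h3 : t / 2 ≤ nu (w - y) := by rw [← ht] at h2; linarith
      have h4 : (nrm M).pk δ n (w - y) = (1 + (nu (w - y) : ℝ) / sc M n) ^ (-(1 + δ)) / sc M n := rfl
      rw [h4, hpkt]
      have h5 : (1 + (nu (w - y) : ℝ) / sc M n) ^ (-(1 + δ)) ≤ (t / (2 * sc M n)) ^ (-(1 + δ)) := by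
        apply Real.rpow_le_rpow_of_nonpos (by positivity) _ (by linarith)
        have : t / (2 * sc M n) = (t / 2) / sc M n := by field_simp
        rw [this]
        have : (t / 2) / sc M n ≤ (nu (w - y) : ℝ) / sc M n := by gcongr
        linarith
      have h6 : (2 * t / sc M k) ^ (-(1 + δ)) ≤ (1 + t / sc M k) ^ (-(1 + δ)) := by
        apply Real.rpow_le_rpow_of_nonpos (by positivity) _ (by linarith)
        have : 1 ≤ t / sc M k := by rw [le_div_iff₀ hsk]; linarith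
        have e : 2 * t / sc M k = t / sc M k + t / sc M k := by ring
        rw [e]; linarith
      have h7 : (t / (2 * sc M n)) ^ (-(1 + δ)) / sc M n = 2 ^ (1 + δ) * t ^ (-(1+δ)) * (sc M n) ^ δ := by
        rw [Real.div_rpow ht0 (by positivity), Real.mul_rpow (by norm_num) hsn.le, Real.rpow_neg (by norm_num : (0:ℝ) ≤ 2),
          Real.rpow_neg hsn.le, Real.rpow_add hsn, Real.rpow_one]
        field_simp
      have h8 : (2 * t / sc M k) ^ (-(1 + δ)) / sc M k = (2 ^ (1 + δ))⁻¹ * t ^ (-(1+δ)) * (sc M k) ^ δ := by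
        rw [Real.div_rpow (by positivity) hsk.le, Real.mul_rpow (by norm_num) ht0, Real.rpow_neg (by norm_num : (0:ℝ) ≤ 2),
          Real.rpow_neg hsk.le, Real.rpow_add hsk, Real.rpow_one]
        field_simp
      have h9 : (4:ℝ) ^ (1 + δ) = 2 ^ (1 + δ) * 2 ^ (1 + δ) := by
        rw [← Real.mul_rpow (by norm_num) (by norm_num)]; norm_num
      calc (1 + (nu (w - y) : ℝ) / sc M n) ^ (-(1 + δ)) / sc M n ≤ (t / (2 * sc M n)) ^ (-(1 + δ)) / sc M n := by gcongr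
        _ = 2 ^ (1 + δ) * t ^ (-(1+δ)) * (sc M n) ^ δ := h7
        _ ≤ 2 ^ (1 + δ) * t ^ (-(1+δ)) * (sc M k) ^ δ := by gcongr
        _ = 4 ^ (1 + δ) * ((2 * t / sc M k) ^ (-(1 + δ)) / sc M k) := by
            rw [h8, h9]; field_simp
        _ ≤ 4 ^ (1 + δ) * ((1 + t / sc M k) ^ (-(1 + δ)) / sc M k) := by gcongr
    calc Av k (fun w => (nrm M).pk δ n (w - y)) x
        ≤ Av k (fun _ => 4 ^ (1 + δ) * (nrm M).pk δ k (x - y)) x := by
          rw [Av_apply, Av_apply]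
          apply div_le_div_of_nonneg_right _ (by positivity)
          exact Finset.sum_le_sum fun w _ => by split_ifs with hw; exacts [hpt w hw, le_rfl]
      _ = 4 ^ (1 + δ) * (nrm M).pk δ k (x - y) := Av_const k (fun _ => 4 ^ (1 + δ) * (nrm M).pk δ k (x - y)) x (fun _ _ => rfl)
      _ ≤ 4 ^ (1 + δ) * (1 + S1 δ) * (nrm M).pk δ k (x - y) := by
          have : 0 ≤ (4:ℝ) ^ (1 + δ) * S1 δ * (nrm M).pk δ k (x - y) := by positivity
          nlinarith
  · -- near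
    have h1 : Av k (fun w => (nrm M).pk δ n (w - y)) x ≤ S1 δ / sc M k := by
      rw [Av_apply, sc_eq hk]
      apply div_le_div_of_nonneg_right _ hsk.le
      refine le_trans (Finset.sum_le_sum fun w _ => ?_) (pk_sum_sub' δ hδ n hn y)
      split_ifs
      · exact le_rfl
      · exact ((nrm M).pk_pos δ n _).le
    have h2 : ((3:ℝ) ^ (1 + δ))⁻¹ / sc M k ≤ (nrm M).pk δ k (x - y) := by
      rw [hpkt, ← Real.rpow_neg (by norm_num)]
      apply div_le_div_of_nonneg_right _ hsk.le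
      apply Real.rpow_le_rpow_of_nonpos (by positivity) _ (by linarith)
      have : t / sc M k ≤ 2 := by rw [div_le_iff₀ hsk]; exact h.le
      linarith
    have h3 : (3:ℝ) ^ (1 + δ) ≤ 4 ^ (1 + δ) := Real.rpow_le_rpow (by norm_num) (by norm_num) (by linarith)
    have h30 : (0:ℝ) < 3 ^ (1 + δ) := by positivity
    calc Av k (fun w => (nrm M).pk δ n (w - y)) x ≤ S1 δ / sc M k := h1
      _ = 3 ^ (1 + δ) * S1 δ * (((3:ℝ) ^ (1 + δ))⁻¹ / sc M k) := by field_simp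
      _ ≤ 3 ^ (1 + δ) * S1 δ * (nrm M).pk δ k (x - y) := by gcongr
      _ ≤ 4 ^ (1 + δ) * (1 + S1 δ) * (nrm M).pk δ k (x - y) := by
          gcongr
          linarith

/-- `min (ν, s)` against the majorant -/
theorem pk_min (δ : ℝ) (hδ : 0 < δ) (hδ2 : δ ≤ 2) {k n : ℕ} (hkn : k ≤ n) (z : Zm M) :
    (nrm M).pk δ n z * min (nu z : ℝ) (sc M k) ≤
      sc M k * (2:ℝ) ^ (-(δ / 2 * ((n:ℝ) - k))) * (nrm M).pk (δ/2) n z := by
  have hsk := sc_pos M k
  have hsn := sc_pos M n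
  obtain ⟨t, ht⟩ : ∃ t : ℝ, t = (nu z : ℝ) := ⟨_, rfl⟩
  have ht0 : 0 ≤ t := by rw [ht]; positivity
  have e1 : (nrm M).pk δ n z = (1 + t / sc M n) ^ (-(1 + δ)) / sc M n := by rw [ht]; rfl
  have e2 : (nrm M).pk (δ/2) n z = (1 + t / sc M n) ^ (-(1 + δ/2)) / sc M n := by rw [ht]; rfl
  rw [e1, e2, ← ht]
  have h1 : min t (sc M k) ≤ t ^ (δ/2) * (sc M k) ^ (1 - δ/2) := by
    have hm0 : 0 ≤ min t (sc M k) := le_min ht0 hsk.le
    rcases hm0.eq_or_lt with h0 | h0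
    · rw [← h0]; positivity
    · calc min t (sc M k) = (min t (sc M k)) ^ (δ/2) * (min t (sc M k)) ^ (1 - δ/2) := by
            rw [← Real.rpow_add h0]; simp
        _ ≤ t ^ (δ/2) * (sc M k) ^ (1 - δ/2) := by
            apply mul_le_mul (Real.rpow_le_rpow hm0 (min_le_left _ _) (by linarith))
              (Real.rpow_le_rpow hm0 (min_le_right _ _) (by linarith)) (by positivity) (by positivity)
  have hge : 0 < 1 + t / sc M n := by positivity
  have h2 : (1 + t / sc M n) ^ (-(1 + δ)) * t ^ (δ/2) ≤ (sc M n) ^ (δ/2) * (1 + t / sc M n) ^ (-(1 + δ/2)) := by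
    have h3 : t ^ (δ/2) ≤ (sc M n) ^ (δ/2) * (1 + t / sc M n) ^ (δ/2) := by
      rw [← Real.mul_rpow hsn.le hge.le]
      apply Real.rpow_le_rpow ht0 _ (by linarith)
      have : sc M n * (1 + t / sc M n) = sc M n + t := by field_simp
      rw [this]; linarith
    calc (1 + t / sc M n) ^ (-(1 + δ)) * t ^ (δ/2) ≤
        (1 + t / sc M n) ^ (-(1 + δ)) * ((sc M n) ^ (δ/2) * (1 + t / sc M n) ^ (δ/2)) := by gcongr
      _ = (sc M n) ^ (δ/2) * ((1 + t / sc M n) ^ (-(1 + δ)) * (1 + t / sc M n) ^ (δ/2)) := by ring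
      _ = _ := by
        rw [← Real.rpow_add hge]; congr 2; ring
  have h4 : (sc M k) ^ (1 - δ/2) * (sc M n) ^ (δ/2) = sc M k * (2:ℝ) ^ (-(δ / 2 * ((n:ℝ) - k))) := by
    obtain ⟨i, rfl⟩ : ∃ i, n = k + i := ⟨n - k, by omega⟩
    have h5 := sc_add M k i
    have hsn' := sc_pos M (k+i)
    rw [h5, Real.mul_rpow (by positivity) hsn'.le, ← Real.rpow_natCast 2 i, ← Real.rpow_mul (by norm_num)]
    have h6 : (sc M (k+i)) ^ (1 - δ/2) * (sc M (k+i)) ^ (δ/2) = sc M (k+i) := by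
      rw [← Real.rpow_add hsn']; simp
    have h7 : (2:ℝ) ^ ((i:ℝ) * (1 - δ/2)) = (2:ℝ) ^ (i:ℝ) * (2:ℝ) ^ (-(δ / 2 * (((k + i : ℕ):ℝ) - k))) := by
      rw [← Real.rpow_add (by norm_num)]; congr 1; push_cast; ring
    calc (2:ℝ) ^ ((i:ℝ) * (1 - δ/2)) * (sc M (k+i)) ^ (1 - δ/2) * (sc M (k+i)) ^ (δ/2)
        = (2:ℝ) ^ ((i:ℝ) * (1 - δ/2)) * ((sc M (k+i)) ^ (1 - δ/2) * (sc M (k+i)) ^ (δ/2)) := by ring
      _ = _ := by rw [h6, h7]; ring
  calc (1 + t / sc M n) ^ (-(1 + δ)) / sc M n * min t (sc M k)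
      ≤ (1 + t / sc M n) ^ (-(1 + δ)) / sc M n * (t ^ (δ/2) * (sc M k) ^ (1 - δ/2)) := by gcongr
    _ = ((1 + t / sc M n) ^ (-(1 + δ)) * t ^ (δ/2)) * ((sc M k) ^ (1 - δ/2) / sc M n) := by ring
    _ ≤ ((sc M n) ^ (δ/2) * (1 + t / sc M n) ^ (-(1 + δ/2))) * ((sc M k) ^ (1 - δ/2) / sc M n) := by
        gcongr
    _ = ((sc M k) ^ (1 - δ/2) * (sc M n) ^ (δ/2)) * ((1 + t / sc M n) ^ (-(1 + δ/2)) / sc M n) := by ring
    _ = _ := by rw [h4]

/-- sum of the majorant over pairs separated by a cell -/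
theorem sep_sum (δ : ℝ) (hδ : 0 < δ) (hδ2 : δ ≤ 2) {k n : ℕ} (hkn : k ≤ n) (hn : n ≤ M) (x : Zm M) :
    ∑ y, ∑ w, (if cl k y = cl k x ∧ cl k w ≠ cl k x then (nrm M).pk δ n (w - y) else 0) ≤
      sc M k * (2:ℝ) ^ (-(δ / 2 * ((n:ℝ) - k))) * S1 (δ/2) := by
  have h1 : ∀ y : Zm M, ∑ w, (if cl k y = cl k x ∧ cl k w ≠ cl k x then (nrm M).pk δ n (w - y) else 0) =
      ∑ z, (if cl k y = cl k x ∧ cl k (y + z) ≠ cl k x then (nrm M).pk δ n z else 0) := by
    intro y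
    refine Fintype.sum_equiv (Equiv.subRight y) _ _ (fun w => ?_)
    simp only [Equiv.subRight_apply, add_sub_cancel]
  simp only [h1]
  rw [Finset.sum_comm]
  calc ∑ z, ∑ y, (if cl k y = cl k x ∧ cl k (y + z) ≠ cl k x then (nrm M).pk δ n z else 0)
      = ∑ z, (nrm M).pk δ n z * (((univ.filter fun y : Zm M => cl k y = cl k x ∧ cl k (y + z) ≠ cl k x).card : ℕ) : ℝ) := by
        refine Finset.sum_congr rfl fun z _ => ?_
        rw [← Finset.sum_filter, Finset.sum_const, nsmul_eq_mul, mul_comm]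
    _ ≤ ∑ z, (nrm M).pk δ n z * min (nu z : ℝ) (sc M k) := by
        refine Finset.sum_le_sum fun z _ => ?_
        exact mul_le_mul_of_nonneg_left (cut_le (hkn.trans hn) x z) ((nrm M).pk_pos δ n z).le
    _ ≤ ∑ z, sc M k * (2:ℝ) ^ (-(δ / 2 * ((n:ℝ) - k))) * (nrm M).pk (δ/2) n z :=
        Finset.sum_le_sum fun z _ => pk_min δ hδ hδ2 hkn z
    _ ≤ _ := by
        rw [← Finset.mul_sum]
        have := sc_pos M k
        apply mul_le_mul_of_nonneg_left _ (by positivity)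
        exact (nrm M).pk_sum (δ/2) (by linarith) n hn

theorem abs_Av_le (k : ℕ) (f : Zm M → ℝ) (x : Zm M) : |Av k f x| ≤ Av k (fun w => |f w|) x := by
  rw [Av_apply, Av_apply, abs_div, abs_of_nonneg (by positivity : (0:ℝ) ≤ 2 ^ (M - k))]
  apply div_le_div_of_nonneg_right _ (by positivity)
  refine (Finset.abs_sum_le_sum_abs _ _).trans (Finset.sum_le_sum fun y _ => ?_)
  split_ifs <;> simp

theorem Av_mono' (k : ℕ) {f g : Zm M → ℝ} (h : ∀ x, f x ≤ g x) (x : Zm M) : Av k f x ≤ Av k g x :=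
  (fil M).mono k f g h x

/-- total mass of the averaged kernel -/
theorem mass (δ ε C : ℝ) (hδ : 0 < δ) (hδ2 : δ ≤ 2) (hε : 0 < ε) (hεδ : ε ≤ δ/2) (hC : 0 < C) {R : ℕ} (hR : R ≤ M)
    {a : ℕ → Zm M → Zm M → ℝ} (ha : KF δ ε C M R a) {k n : ℕ} (hkn : k ≤ n) (hn : n ≤ R) (x : Zm M) :
    ∑ y, |Av k (fun w => a n w y) x| ≤ (C + 2 * C * S1 (δ/2)) * (2:ℝ) ^ (-(ε * ((n:ℝ) - k))) := by
  have hk : k ≤ M := by omega
  have hsk := sc_pos M k
  have hS := S1_pos (show 0 < δ/2 by linarith)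
  have hpos : ∀ z, 0 ≤ (nrm M).pk δ n z := fun z => ((nrm M).pk_pos δ n z).le
  have hnk : (0:ℝ) ≤ (n:ℝ) - k := by
    have : (k:ℝ) ≤ n := by exact_mod_cast hkn
    linarith
  have hpt : ∀ y, sc M k * |Av k (fun w => a n w y) x| ≤
      (if cl k y = cl k x then C * (2:ℝ) ^ (-(ε * n)) else 0) +
      (C * ∑ w, (if cl k y = cl k x ∧ cl k w ≠ cl k x then (nrm M).pk δ n (w - y) else 0) +
       C * ∑ w, (if cl k w = cl k x ∧ cl k y ≠ cl k x then (nrm M).pk δ n (w - y) else 0)) := by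
    intro y
    have e : sc M k * |Av k (fun w => a n w y) x| = |∑ w, if cl k w = cl k x then a n w y else 0| := by
      rw [Av_apply, sc_eq hk, abs_div, abs_of_pos hsk]; field_simp
    rw [e]
    by_cases hy : cl k y = cl k x
    · rw [if_pos hy]
      have h0 : ∑ w, (if cl k w = cl k x ∧ cl k y ≠ cl k x then (nrm M).pk δ n (w - y) else 0) = 0 :=
        Finset.sum_eq_zero fun w _ => by rw [if_neg]; exact fun h => h.2 hy
      rw [h0, mul_zero, add_zero]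
      have hsplit : (∑ w, if cl k w = cl k x then a n w y else 0) =
          ∑ w, a n w y - ∑ w, (if cl k w ≠ cl k x then a n w y else 0) := by
        rw [← Finset.sum_sub_distrib]
        refine Finset.sum_congr rfl fun w _ => ?_
        by_cases h1 : cl k w = cl k x
        · rw [if_pos h1, if_neg (not_not.2 h1)]; ring
        · rw [if_neg h1, if_pos h1]; ring
      rw [hsplit]
      refine (abs_sub _ _).trans ?_
      refine add_le_add (ha.h3 n hn y) ?_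
      rw [Finset.mul_sum]
      refine (Finset.abs_sum_le_sum_abs _ _).trans (Finset.sum_le_sum fun w _ => ?_)
      split_ifs with h1 h2 h2
      · exact ha.h1 n hn w y
      · exact absurd ⟨hy, h1⟩ h2
      · rw [abs_zero]; exact mul_nonneg hC.le (hpos _)
      · simp
    · rw [if_neg hy, zero_add]
      have h0 : ∑ w, (if cl k y = cl k x ∧ cl k w ≠ cl k x then (nrm M).pk δ n (w - y) else 0) = 0 :=
        Finset.sum_eq_zero fun w _ => by rw [if_neg]; exact fun h => hy h.1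
      rw [h0, mul_zero, zero_add, Finset.mul_sum]
      refine (Finset.abs_sum_le_sum_abs _ _).trans (Finset.sum_le_sum fun w _ => ?_)
      split_ifs with h1 h2 h2
      · exact ha.h1 n hn w y
      · exact absurd ⟨h1, hy⟩ h2
      · rw [abs_zero]; exact mul_nonneg hC.le (hpos _)
      · simp
  have h1 : sc M k * ∑ y, |Av k (fun w => a n w y) x| ≤ sc M k * (C * (2:ℝ) ^ (-(ε * n))) +
      (C * (sc M k * (2:ℝ) ^ (-(δ / 2 * ((n:ℝ) - k))) * S1 (δ/2)) +
       C * (sc M k * (2:ℝ) ^ (-(δ / 2 * ((n:ℝ) - k))) * S1 (δ/2))) := by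
    rw [Finset.mul_sum]
    refine (Finset.sum_le_sum fun y _ => hpt y).trans ?_
    rw [Finset.sum_add_distrib, Finset.sum_add_distrib, ← Finset.mul_sum, ← Finset.mul_sum]
    refine add_le_add (le_of_eq ?_) (add_le_add ?_ ?_)
    · rw [← Finset.sum_filter, Finset.sum_const, cell_card, nsmul_eq_mul]
      push_cast
      rw [sc_eq hk]
    · exact mul_le_mul_of_nonneg_left (sep_sum δ hδ hδ2 hkn (hn.trans hR) x) hC.le
    · refine mul_le_mul_of_nonneg_left ?_ hC.le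
      have h2 := sep_sum δ hδ hδ2 hkn (hn.trans hR) x
      rw [Finset.sum_comm] at h2
      refine le_trans (le_of_eq ?_) h2
      refine Finset.sum_congr rfl fun y _ => Finset.sum_congr rfl fun w _ => ?_
      have : (nrm M).pk δ n (w - y) = (nrm M).pk δ n (y - w) := by rw [← pk_symm, neg_sub]
      rw [this]
  have h2 : (2:ℝ) ^ (-(ε * n)) ≤ (2:ℝ) ^ (-(ε * ((n:ℝ) - k))) := by
    apply Real.rpow_le_rpow_of_exponent_le (by norm_num)
    have : (0:ℝ) ≤ k := Nat.cast_nonneg k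
    nlinarith
  have h3 : (2:ℝ) ^ (-(δ / 2 * ((n:ℝ) - k))) ≤ (2:ℝ) ^ (-(ε * ((n:ℝ) - k))) := by
    apply Real.rpow_le_rpow_of_exponent_le (by norm_num)
    nlinarith
  have h4 : sc M k * ∑ y, |Av k (fun w => a n w y) x| ≤
      sc M k * ((C + 2 * C * S1 (δ/2)) * (2:ℝ) ^ (-(ε * ((n:ℝ) - k)))) := by
    refine h1.trans ?_
    calc sc M k * (C * (2:ℝ) ^ (-(ε * n))) +
      (C * (sc M k * (2:ℝ) ^ (-(δ / 2 * ((n:ℝ) - k))) * S1 (δ/2)) +
       C * (sc M k * (2:ℝ) ^ (-(δ / 2 * ((n:ℝ) - k))) * S1 (δ/2)))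
        ≤ sc M k * (C * (2:ℝ) ^ (-(ε * ((n:ℝ) - k)))) +
      (C * (sc M k * (2:ℝ) ^ (-(ε * ((n:ℝ) - k))) * S1 (δ/2)) +
       C * (sc M k * (2:ℝ) ^ (-(ε * ((n:ℝ) - k))) * S1 (δ/2))) := by gcongr
      _ = _ := by ring
  exact le_of_mul_le_mul_left h4 hsk

theorem Av_op {a : ℕ → Zm M → Zm M → ℝ} (k n : ℕ) (G : Zm M → ℝ) (x : Zm M) :
    Av k (op a n G) x = ∑ y, Av k (fun w => a n w y) x * G y := by
  have h1 : op a n G = ∑ y, G y • (fun w => a n w y) := by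
    funext w
    simp only [Finset.sum_apply, Pi.smul_apply, smul_eq_mul, op]
    exact Finset.sum_congr rfl fun y _ => mul_comm _ _
  rw [h1, map_sum]
  simp only [Finset.sum_apply, map_smul, Pi.smul_apply, smul_eq_mul]
  exact Finset.sum_congr rfl fun y _ => mul_comm _ _

/-- low frequencies of the output -/
theorem low (δ ε C : ℝ) (hδ : 0 < δ) (hδ2 : δ ≤ 2) (hε : 0 < ε) (hεδ : ε ≤ δ/2) (hC : 0 < C) {R : ℕ} (hR : R ≤ M)
    {a : ℕ → Zm M → Zm M → ℝ} (ha : KF δ ε C M R a) {k n : ℕ} (hkn : k ≤ n) (hn : n ≤ R) (G : Zm M → ℝ) (x : Zm M) :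
    (Av k (op a n G) x) ^ 2 ≤ ((C + 2 * C * S1 (δ/2)) * (C * (4 ^ (1 + δ) * (1 + S1 δ)))) *
      ((2:ℝ) ^ (-(ε * ((n:ℝ) - k))) * (nrm M).P δ k (fun y => G y ^ 2) x) := by
  have hS := S1_pos (show 0 < δ/2 by linarith)
  have hS' := S1_pos hδ
  rw [Av_op]
  have hb : ∀ y ∈ (univ : Finset (Zm M)), |Av k (fun w => a n w y) x| ≤
      C * (4 ^ (1 + δ) * (1 + S1 δ)) * (nrm M).pk δ k (x - y) := by
    intro y _
    calc |Av k (fun w => a n w y) x| ≤ Av k (fun w => |a n w y|) x := abs_Av_le k _ x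
      _ ≤ Av k (fun w => C * (nrm M).pk δ n (w - y)) x := Av_mono' k (fun w => ha.h1 n hn w y) x
      _ = C * Av k (fun w => (nrm M).pk δ n (w - y)) x := by
          have : (fun w => C * (nrm M).pk δ n (w - y)) = C • (fun w => (nrm M).pk δ n (w - y)) := rfl
          rw [this, map_smul]; rfl
      _ ≤ C * (4 ^ (1 + δ) * (1 + S1 δ) * (nrm M).pk δ k (x - y)) :=
          mul_le_mul_of_nonneg_left (avpk δ hδ hkn (hn.trans hR) x y) hC.le
      _ = _ := by ring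
  refine (csb univ _ _ G hb).trans ?_
  have h1 := mass δ ε C hδ hδ2 hε hεδ hC hR ha hkn hn x
  have h2 : ∑ y, C * (4 ^ (1 + δ) * (1 + S1 δ)) * (nrm M).pk δ k (x - y) * G y ^ 2 =
      C * (4 ^ (1 + δ) * (1 + S1 δ)) * (nrm M).P δ k (fun y => G y ^ 2) x := by
    unfold Nrm.P
    rw [Finset.mul_sum]
    exact Finset.sum_congr rfl fun y _ => by ring
  have h3 : 0 ≤ (nrm M).P δ k (fun y => G y ^ 2) x := (nrm M).P_nonneg δ k (fun y => sq_nonneg _) x
  rw [h2]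
  calc (∑ y, |Av k (fun w => a n w y) x|) * (C * (4 ^ (1 + δ) * (1 + S1 δ)) * (nrm M).P δ k (fun y => G y ^ 2) x)
      ≤ ((C + 2 * C * S1 (δ/2)) * (2:ℝ) ^ (-(ε * ((n:ℝ) - k)))) *
        (C * (4 ^ (1 + δ) * (1 + S1 δ)) * (nrm M).P δ k (fun y => G y ^ 2) x) := by gcongr
    _ = _ := by ring

/-- high frequencies of the output -/
theorem high (δ ε C : ℝ) (hδ : 0 < δ) (hε : 0 < ε) (hC : 0 < C) {R : ℕ} (hR : R ≤ M)
    {a : ℕ → Zm M → Zm M → ℝ} (ha : KF δ ε C M R a) {m n : ℕ} (hnm : n ≤ m) (hn : n ≤ R) (hm : m < M)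
    (G : Zm M → ℝ) (x : Zm M) :
    ((fil M).c m (op a n G) x) ^ 2 ≤ (C * C * S1 δ) *
      ((2:ℝ) ^ (-(ε * ((m:ℝ) - n))) * (nrm M).P δ n (fun y => G y ^ 2) x) := by
  have hS' := S1_pos hδ
  have hmn : (0:ℝ) ≤ (m:ℝ) - n := by
    have : (n:ℝ) ≤ m := by exact_mod_cast hnm
    linarith
  obtain ⟨τ, hτ⟩ : ∃ τ : ℝ, τ = (2:ℝ) ^ (-(ε * ((m:ℝ) - n))) := ⟨_, rfl⟩
  have hτ0 : 0 < τ := by rw [hτ]; positivity
  have hτ1 : τ ≤ 1 := by
    rw [hτ]; apply Real.rpow_le_one_of_one_le_of_nonpos (by norm_num)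
    have : 0 ≤ ε * ((m:ℝ) - n) := by positivity
    linarith
  have hPn : 0 ≤ (nrm M).P δ n (fun y => G y ^ 2) x := (nrm M).P_nonneg δ n (fun y => sq_nonneg _) x
  have hpt : ∀ w, cl m w = cl m x → (op a n G w - op a n G x) ^ 2 ≤
      (C * C * S1 δ) * (τ * (nrm M).P δ n (fun y => G y ^ 2) x) := by
    intro w hw
    have h1 : op a n G w - op a n G x = ∑ y, (a n w y - a n x y) * G y := by
      unfold op
      rw [← Finset.sum_sub_distrib]
      exact Finset.sum_congr rfl fun y _ => by ring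
    rw [h1]
    have hb : ∀ y ∈ (univ : Finset (Zm M)), |a n w y - a n x y| ≤ C * τ * (nrm M).pk δ n (x - y) := by
      intro y _
      rw [hτ]
      exact ha.h2 n hn m hnm hm.le x w y hw
    refine (csb univ _ _ G hb).trans ?_
    have h2 : ∑ y, |a n w y - a n x y| ≤ C * τ * S1 δ := by
      refine (Finset.sum_le_sum hb).trans ?_
      rw [← Finset.mul_sum]
      exact mul_le_mul_of_nonneg_left (pk_sum_sub δ hδ n (hn.trans hR) x) (by positivity)
    have h3 : ∑ y, C * τ * (nrm M).pk δ n (x - y) * G y ^ 2 = C * τ * (nrm M).P δ n (fun y => G y ^ 2) x := by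
      unfold Nrm.P
      rw [Finset.mul_sum]
      exact Finset.sum_congr rfl fun y _ => by ring
    rw [h3]
    calc (∑ y, |a n w y - a n x y|) * (C * τ * (nrm M).P δ n (fun y => G y ^ 2) x)
        ≤ (C * τ * S1 δ) * (C * τ * (nrm M).P δ n (fun y => G y ^ 2) x) := by gcongr
      _ = τ * ((C * C * S1 δ) * (τ * (nrm M).P δ n (fun y => G y ^ 2) x)) := by ring
      _ ≤ _ := mul_le_of_le_one_left (by positivity) hτ1
  have hc : (fil M).c m (op a n G) x = Av m (sgn m * (fun w => op a n G w - op a n G x)) x := by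
    have e : sgn m * op a n G = sgn m * (fun w => op a n G w - op a n G x) + (op a n G x) • (sgn m) := by
      funext w
      simp only [Pi.mul_apply, Pi.add_apply, Pi.smul_apply, smul_eq_mul]; ring
    show Av m (sgn m * op a n G) x = _
    rw [e, map_add, map_smul]
    have := (fil M).E_s m hm
    have h0 : Av m (sgn m : Zm M → ℝ) = 0 := this
    rw [h0]; simp
  rw [hc]
  have h5 : (Av m (sgn m * (fun w => op a n G w - op a n G x)) x) ^ 2 ≤
      Av m ((sgn m * (fun w => op a n G w - op a n G x)) ^ 2) x := by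
    have h6 := (fil M).bessel m hm (sgn m * (fun w => op a n G w - op a n G x)) x
    have h7 := sq_nonneg ((fil M).c m (sgn m * (fun w => op a n G w - op a n G x)) x)
    have h8 : (fil M).E m (sgn m * (fun w => op a n G w - op a n G x)) x =
      Av m (sgn m * (fun w => op a n G w - op a n G x)) x := rfl
    rw [h8] at h6
    have h9 : (fil M).E m ((sgn m * (fun w => op a n G w - op a n G x)) ^ 2) x =
      Av m ((sgn m * (fun w => op a n G w - op a n G x)) ^ 2) x := rfl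
    rw [h9] at h6
    linarith
  refine h5.trans ?_
  rw [← hτ]
  calc Av m ((sgn m * (fun w => op a n G w - op a n G x)) ^ 2) x
      ≤ Av m (fun _ => (C * C * S1 δ) * (τ * (nrm M).P δ n (fun y => G y ^ 2) x)) x := by
        rw [Av_apply, Av_apply]
        apply div_le_div_of_nonneg_right _ (by positivity)
        refine Finset.sum_le_sum fun w _ => ?_
        split_ifs with hw
        · simp only [Pi.pow_apply, Pi.mul_apply, mul_pow]
          have h1 : sgn m w ^ 2 = 1 := by rw [sq]; exact sgn_sq m w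
          rw [h1, one_mul]
          exact hpt w hw
        · exact le_rfl
    _ = _ := Av_const m (fun _ => (C * C * S1 δ) * (τ * (nrm M).P δ n (fun y => G y ^ 2) x)) x (fun _ _ => rfl)

end

end H396C
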