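import Pool.Agent.H396R3.C.Synth

/-! Synthesis inequality, assembly. -/

set_option autoImplicit false

open Finset

namespace H396C

theorem inj_sum (s t : Finset ℕ) (φ : ℕ → ℕ) (g : ℕ → ℝ) (hg : ∀ i ∈ t, 0 ≤ g i)
    (hφ : ∀ i ∈ s, φ i ∈ t) (hinj : Set.InjOn φ s) : ∑ i ∈ s, g (φ i) ≤ ∑ i ∈ t, g i := by
  classical
  rw [← Finset.sum_image (f := g) (g := φ) hinj]
  apply Finset.sum_le_sum_of_subset_of_nonneg
  · intro i hi
    obtain ⟨j, hj, rfl⟩ := Finset.mem_image.1 hi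
    exact hφ j hj
  · intro i hi _; exact hg i hi

/-- weighted Cauchy-Schwarz -/
theorem wcs (J : Finset ℕ) (ω z b : ℕ → ℝ) (hω : ∀ i ∈ J, 0 < ω i) (hz : ∀ i ∈ J, z i ^ 2 ≤ ω i * b i) :
    (∑ i ∈ J, z i) ^ 2 ≤ (∑ i ∈ J, ω i) * ∑ i ∈ J, b i := by
  have h1 := Finset.sum_sq_le_sum_mul_sum_of_sq_eq_mul J (r := z) (f := ω)
    (g := fun i => z i ^ 2 / ω i) (fun i hi => (hω i hi).le) (fun i hi => by have := hω i hi; positivity)
    (fun i hi => by have := hω i hi; field_simp)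
  refine h1.trans (mul_le_mul_of_nonneg_left ?_ (Finset.sum_nonneg fun i hi => (hω i hi).le))
  refine Finset.sum_le_sum fun i hi => ?_
  rw [div_le_iff₀ (hω i hi), mul_comm]
  exact hz i hi

section
variable {M : ℕ}

theorem c_sq (m : ℕ) (hm : m < M) (F : Zm M → ℝ) (x : Zm M) :
    ((fil M).c m F x) ^ 2 ≤ 2 * (Av (m+1) F x) ^ 2 + 2 * (Av m F x) ^ 2 := by
  have h1 : Av (m+1) F x = Av m F x + sgn m x * (fil M).c m F x := by
    have := congrFun ((fil M).haar m F hm) x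
    exact this
  have h2 := sgn_sq m x
  have h3 : (sgn m x * (fil M).c m F x) ^ 2 = ((fil M).c m F x) ^ 2 := by
    linear_combination ((fil M).c m F x)^2 * h2
  have h4 : sgn m x * (fil M).c m F x = Av (m+1) F x - Av m F x := by rw [h1]; ring
  rw [← h3, h4]
  nlinarith [sq_nonneg (Av (m+1) F x + Av m F x)]

/-- the inner sum -/
noncomputable def Yu (δ : ℝ) (n u : ℕ) (g : Zm M → ℝ) (x : Zm M) : ℝ :=
  ∑ v ∈ range (M+1), (2:ℝ) ^ (-(δ * v)) * (nrm M).B (n - (u + v)) g x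

theorem Yu_nonneg (δ : ℝ) (n u : ℕ) {g : Zm M → ℝ} (hg : ∀ x, 0 ≤ g x) (x : Zm M) : 0 ≤ Yu δ n u g x :=
  Finset.sum_nonneg fun v _ => mul_nonneg (by positivity) ((nrm M).B_nonneg _ hg x)

theorem P_le_Yu (δ : ℝ) (hδ : 0 ≤ δ) {n u : ℕ} (hu : u ≤ n) (hn : n ≤ M) {g : Zm M → ℝ} (hg : ∀ x, 0 ≤ g x)
    (x : Zm M) : (nrm M).P δ (n - u) g x ≤ 2 ^ (1 + δ) * Yu δ n u g x := by
  refine ((nrm M).P_le δ hδ (n - u) hg x).trans ?_
  apply mul_le_mul_of_nonneg_left _ (by positivity)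
  unfold Yu
  have h1 : ∀ i ∈ range (n - u + 1), (2:ℝ) ^ (-(δ * i)) * (nrm M).B (n - u - i) g x =
      (2:ℝ) ^ (-(δ * i)) * (nrm M).B (n - (u + i)) g x := by
    intro i _; rw [Nat.sub_sub]
  rw [Finset.sum_congr rfl h1]
  apply Finset.sum_le_sum_of_subset_of_nonneg
  · apply Finset.range_subset_range.2; omega
  · intro v _ _; exact mul_nonneg (by positivity) ((nrm M).B_nonneg _ hg x)

/-- the total sum of one layer -/
noncomputable def Yn (δ η : ℝ) (n : ℕ) (g : Zm M → ℝ) (x : Zm M) : ℝ :=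
  ∑ u ∈ range (M+1), (2:ℝ) ^ (-(η * u)) * Yu δ n u g x

/-- all Haar components of one layer -/
theorem layer_bound (δ ε C : ℝ) (hδ : 0 < δ) (hδ2 : δ ≤ 2) (hε : 0 < ε) (hεδ : ε ≤ δ/2) (hC : 0 < C) :
    ∃ K : ℝ, 0 < K ∧ ∀ (M R : ℕ), R ≤ M → ∀ (a : ℕ → Zm M → Zm M → ℝ), KF δ ε C M R a →
      ∀ n ≤ R, ∀ (G : Zm M → ℝ) (x : Zm M),
      ∃ b : ℕ → ℝ, ∃ b0 : ℝ, (∀ m < M, 0 ≤ b m) ∧ 0 ≤ b0 ∧
        (∀ m < M, ((fil M).c m (op a n G) x) ^ 2 ≤ (2:ℝ) ^ (-(ε / 2 * |(m:ℝ) - n|)) * b m) ∧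
        ((Av 0 (op a n G) x) ^ 2 ≤ (2:ℝ) ^ (-(ε / 2 * n)) * b0) ∧
        b0 + ∑ m ∈ range M, b m ≤ K * Yn δ (ε/2) n (fun y => G y ^ 2) x := by
  obtain ⟨L, hL⟩ : ∃ L : ℝ, L = (C + 2 * C * S1 (δ/2)) * (C * (4 ^ (1 + δ) * (1 + S1 δ))) + C * C * S1 δ := ⟨_, rfl⟩
  have hS := S1_pos (show 0 < δ/2 by linarith)
  have hS' := S1_pos hδ
  have hL1 : (C + 2 * C * S1 (δ/2)) * (C * (4 ^ (1 + δ) * (1 + S1 δ))) ≤ L := by
    rw [hL]; have : 0 < C * C * S1 δ := by positivity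
    linarith
  have hL2 : C * C * S1 δ ≤ L := by
    rw [hL]; have : 0 < (C + 2 * C * S1 (δ/2)) * (C * (4 ^ (1 + δ) * (1 + S1 δ))) := by positivity
    linarith
  have hL0 : 0 < L := by have : 0 < C * C * S1 δ := by positivity
                         linarith
  obtain ⟨η, hη⟩ : ∃ η : ℝ, η = ε / 2 := ⟨_, rfl⟩
  have hη0 : 0 < η := by rw [hη]; linarith
  have hg := Nrm.geoC_pos hη0
  obtain ⟨c, hc⟩ : ∃ c : ℝ, c = 2 ^ (1 + δ) := ⟨_, rfl⟩
  have hc0 : 0 < c := by rw [hc]; positivity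
  refine ⟨L * c * (1 + Nrm.geoC η + 2 + 2 * 2 ^ ε), by positivity, ?_⟩
  intro M R hR a ha n hn G x
  obtain ⟨g, hgd⟩ : ∃ g : Zm M → ℝ, g = fun y => G y ^ 2 := ⟨_, rfl⟩
  have hg0 : ∀ y, 0 ≤ g y := fun y => by rw [hgd]; exact sq_nonneg _
  have hlow := fun k (hk : k ≤ n) => low δ ε C hδ hδ2 hε hεδ hC hR ha hk hn G x
  have hhigh := fun m (hm1 : n ≤ m) (hm2 : m < M) => high δ ε C hδ hε hC hR ha hm1 hn hm2 G x
  rw [← hgd, ← hη]
  rw [← hgd] at hlow hhigh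
  have hY0 : ∀ u, 0 ≤ Yu δ n u g x := fun u => Yu_nonneg δ n u hg0 x
  have hnM : n ≤ M := hn.trans hR
  have hP : ∀ u ≤ n, (nrm M).P δ (n - u) g x ≤ c * Yu δ n u g x := by
    intro u hu; rw [hc]; exact P_le_Yu δ hδ.le hu hnM hg0 x
  -- the bounds
  obtain ⟨b, hb⟩ : ∃ b : ℕ → ℝ, b = fun m => if n ≤ m then L * c * ((2:ℝ) ^ (-(η * ((m - n : ℕ):ℝ))) * Yu δ n 0 g x)
    else L * c * (2 * ((2:ℝ) ^ (-(η * ((n - m : ℕ):ℝ))) * Yu δ n (n - m) g x) +
      2 * 2 ^ ε * ((2:ℝ) ^ (-(η * ((n - m - 1 : ℕ):ℝ))) * Yu δ n (n - m - 1) g x)) := ⟨_, rfl⟩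
  refine ⟨b, L * c * ((2:ℝ) ^ (-(η * n)) * Yu δ n n g x), ?_, ?_, ?_, ?_, ?_⟩
  · intro m _
    rw [hb]; simp only
    have h1 := hY0 0
    have h2 := hY0 (n - m)
    have h3 := hY0 (n - m - 1)
    split_ifs <;> positivity
  · have := hY0 n
    positivity
  · intro m hm
    rw [hb]; simp only
    by_cases hnm : n ≤ m
    · rw [if_pos hnm]
      have hcast : ((m - n : ℕ) : ℝ) = (m:ℝ) - n := Nat.cast_sub hnm
      have hab : |(m:ℝ) - n| = (m:ℝ) - n := abs_of_nonneg (by rw [← hcast]; positivity)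
      rw [hab, hcast]
      have h1 := hhigh m hnm hm
      have h2 := hP 0 (Nat.zero_le n)
      rw [Nat.sub_zero] at h2
      have h3 : 0 ≤ (nrm M).P δ n g x := (nrm M).P_nonneg δ n hg0 x
      have h4 : (2:ℝ) ^ (-(ε * ((m:ℝ) - n))) = (2:ℝ) ^ (-(η * ((m:ℝ) - n))) * (2:ℝ) ^ (-(η * ((m:ℝ) - n))) := by
        rw [← Real.rpow_add (by norm_num)]; congr 1; rw [hη]; ring
      calc _ ≤ C * C * S1 δ * ((2:ℝ) ^ (-(ε * ((m:ℝ) - n))) * (nrm M).P δ n g x) := h1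
        _ ≤ L * ((2:ℝ) ^ (-(ε * ((m:ℝ) - n))) * (c * Yu δ n 0 g x)) := by gcongr
        _ = _ := by rw [h4]; ring
    · rw [if_neg hnm]
      have hmn : m < n := not_le.1 hnm
      have hcast : ((n - m : ℕ) : ℝ) = (n:ℝ) - m := Nat.cast_sub hmn.le
      have hcast1 : ((n - m - 1 : ℕ) : ℝ) = (n:ℝ) - m - 1 := by
        rw [Nat.cast_sub (by omega), hcast]; simp
      have hab : |(m:ℝ) - n| = (n:ℝ) - m := by
        rw [abs_sub_comm]; exact abs_of_nonneg (by rw [← hcast]; positivity)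
      rw [hab, hcast, hcast1]
      have h0 := c_sq m (by omega) (op a n G) x
      have h1 := hlow (m+1) (by omega)
      have h2 := hlow m hmn.le
      have h3 := hP (n - m) (by omega)
      rw [show n - (n - m) = m by omega] at h3
      have h4 := hP (n - m - 1) (by omega)
      rw [show n - (n - m - 1) = m + 1 by omega] at h4
      have h5 : 0 ≤ (nrm M).P δ m g x := (nrm M).P_nonneg δ m hg0 x
      have h6 : 0 ≤ (nrm M).P δ (m+1) g x := (nrm M).P_nonneg δ (m+1) hg0 x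
      have e1 : (2:ℝ) ^ (-(ε * ((n:ℝ) - ((m+1 : ℕ):ℝ)))) ≤ (2:ℝ) ^ (-(η * ((n:ℝ) - m))) * (2 ^ ε * (2:ℝ) ^ (-(η * ((n:ℝ) - m - 1)))) := by
        rw [← Real.rpow_add (by norm_num), ← Real.rpow_add (by norm_num)]
        apply Real.rpow_le_rpow_of_exponent_le (by norm_num)
        push_cast; rw [hη]; nlinarith
      have e2 : (2:ℝ) ^ (-(ε * ((n:ℝ) - m))) = (2:ℝ) ^ (-(η * ((n:ℝ) - m))) * (2:ℝ) ^ (-(η * ((n:ℝ) - m))) := by
        rw [← Real.rpow_add (by norm_num)]; congr 1; rw [hη]; ring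
      calc _ ≤ 2 * (Av (m+1) (op a n G) x) ^ 2 + 2 * (Av m (op a n G) x) ^ 2 := h0
        _ ≤ 2 * (L * ((2:ℝ) ^ (-(ε * ((n:ℝ) - ((m+1 : ℕ):ℝ)))) * (c * Yu δ n (n - m - 1) g x))) +
            2 * (L * ((2:ℝ) ^ (-(ε * ((n:ℝ) - m))) * (c * Yu δ n (n - m) g x))) := by
            refine add_le_add ?_ ?_
            · apply mul_le_mul_of_nonneg_left _ (by norm_num)
              refine h1.trans ?_
              gcongr
            · apply mul_le_mul_of_nonneg_left _ (by norm_num)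
              refine h2.trans ?_
              gcongr
        _ ≤ 2 * (L * (((2:ℝ) ^ (-(η * ((n:ℝ) - m))) * (2 ^ ε * (2:ℝ) ^ (-(η * ((n:ℝ) - m - 1))))) * (c * Yu δ n (n - m - 1) g x))) +
            2 * (L * (((2:ℝ) ^ (-(η * ((n:ℝ) - m))) * (2:ℝ) ^ (-(η * ((n:ℝ) - m)))) * (c * Yu δ n (n - m) g x))) := by
            rw [e2]
            have := hY0 (n - m - 1)
            gcongr
        _ = _ := by ring
  · have h1 := hlow 0 (Nat.zero_le n)
    have h2 := hP n le_rfl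
    rw [Nat.sub_self] at h2
    have h5 : 0 ≤ (nrm M).P δ 0 g x := (nrm M).P_nonneg δ 0 hg0 x
    have e2 : (2:ℝ) ^ (-(ε * ((n:ℝ) - ((0:ℕ):ℝ)))) = (2:ℝ) ^ (-(η * n)) * (2:ℝ) ^ (-(η * n)) := by
      rw [← Real.rpow_add (by norm_num)]; congr 1; rw [hη]; push_cast; ring
    rw [e2] at h1
    calc _ ≤ _ := h1
      _ ≤ L * (((2:ℝ) ^ (-(η * n)) * (2:ℝ) ^ (-(η * n))) * (c * Yu δ n n g x)) := by gcongr
      _ = _ := by ring
  · -- summation
    obtain ⟨F, hF⟩ : ∃ F : ℕ → ℝ, F = fun u : ℕ => (2:ℝ) ^ (-(η * (u:ℝ))) * Yu δ n u g x := ⟨_, rfl⟩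
    have hF0 : ∀ u, 0 ≤ F u := fun u => by rw [hF]; exact mul_nonneg (by positivity) (hY0 u)
    have hYn : Yn δ η n g x = ∑ u ∈ range (M+1), F u := by rw [hF]; rfl
    have hYn0 : 0 ≤ Yn δ η n g x := by rw [hYn]; exact Finset.sum_nonneg fun u _ => hF0 u
    have hone : ∀ u ≤ M, F u ≤ Yn δ η n g x := by
      intro u hu
      rw [hYn]
      exact Finset.single_le_sum (fun u _ => hF0 u) (Finset.mem_range.2 (by omega))
    have hF00 : Yu δ n 0 g x ≤ Yn δ η n g x := by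
      have := hone 0 (Nat.zero_le M)
      rw [hF] at this
      simpa using this
    have hb' : ∀ m ∈ range M, b m ≤ L * c * ((if n ≤ m then (2:ℝ) ^ (-(η * ((m - n : ℕ):ℝ))) else 0) * Yu δ n 0 g x) +
        L * c * (2 * (if n ≤ m then 0 else F (n - m)) + 2 * 2 ^ ε * (if n ≤ m then 0 else F (n - m - 1))) := by
      intro m _
      rw [hb, hF]; simp only
      split_ifs with h
      · have : (0:ℝ) ≤ L * c * (2 * 0 + 2 * 2 ^ ε * 0) := by simp
        linarith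
      · simp
    have s1 : ∑ m ∈ range M, (if n ≤ m then (2:ℝ) ^ (-(η * ((m - n : ℕ):ℝ))) else 0) ≤ Nrm.geoC η := by
      rw [← Finset.sum_filter]
      refine (inj_sum _ (range (M+1)) (fun m => m - n) (fun j => (2:ℝ) ^ (-(η * (j:ℝ)))) (fun _ _ => by positivity)
        (fun i hi => ?_) (fun i hi j hj h => ?_)).trans (Nrm.geo_le hη0 (M+1))
      · have := Finset.mem_range.1 (Finset.mem_filter.1 hi).1
        exact Finset.mem_range.2 (by omega)
      · have h1 := (Finset.mem_filter.1 (Finset.mem_coe.1 hi)).2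
        have h2 := (Finset.mem_filter.1 (Finset.mem_coe.1 hj)).2
        simp only at h
        omega
    have s2 : ∑ m ∈ range M, (if n ≤ m then 0 else F (n - m)) ≤ Yn δ η n g x := by
      have : ∑ m ∈ range M, (if n ≤ m then 0 else F (n - m)) = ∑ m ∈ (range M).filter (fun m => ¬ n ≤ m), F (n - m) := by
        rw [Finset.sum_filter]
        refine Finset.sum_congr rfl fun m _ => ?_
        split_ifs <;> rfl
      rw [this, hYn]
      refine inj_sum _ (range (M+1)) (fun m => n - m) F (fun u _ => hF0 u) (fun i hi => ?_) (fun i hi j hj h => ?_)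
      · exact Finset.mem_range.2 (by omega)
      · have h1 := (Finset.mem_filter.1 (Finset.mem_coe.1 hi)).2
        have h2 := (Finset.mem_filter.1 (Finset.mem_coe.1 hj)).2
        simp only at h
        omega
    have s3 : ∑ m ∈ range M, (if n ≤ m then 0 else F (n - m - 1)) ≤ Yn δ η n g x := by
      have : ∑ m ∈ range M, (if n ≤ m then 0 else F (n - m - 1)) = ∑ m ∈ (range M).filter (fun m => ¬ n ≤ m), F (n - m - 1) := by
        rw [Finset.sum_filter]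
        refine Finset.sum_congr rfl fun m _ => ?_
        split_ifs <;> rfl
      rw [this, hYn]
      refine inj_sum _ (range (M+1)) (fun m => n - m - 1) F (fun u _ => hF0 u) (fun i hi => ?_) (fun i hi j hj h => ?_)
      · exact Finset.mem_range.2 (by omega)
      · have h1 := (Finset.mem_filter.1 (Finset.mem_coe.1 hi)).2
        have h2 := (Finset.mem_filter.1 (Finset.mem_coe.1 hj)).2
        simp only at h
        omega
    have s0 : (2:ℝ) ^ (-(η * n)) * Yu δ n n g x ≤ Yn δ η n g x := by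
      have := hone n hnM
      rw [hF] at this; exact this
    have hLc : 0 < L * c := by positivity
    have hY00 := hY0 0
    have hgg : 0 ≤ Nrm.geoC η := hg.le
    have s4 : (∑ m ∈ range M, (if n ≤ m then (2:ℝ) ^ (-(η * ((m - n : ℕ):ℝ))) else 0)) * Yu δ n 0 g x ≤
        Nrm.geoC η * Yn δ η n g x := by
      apply mul_le_mul s1 hF00 hY00 hgg
    calc L * c * ((2:ℝ) ^ (-(η * n)) * Yu δ n n g x) + ∑ m ∈ range M, b m
        ≤ L * c * Yn δ η n g x + ∑ m ∈ range M, (L * c * ((if n ≤ m then (2:ℝ) ^ (-(η * ((m - n : ℕ):ℝ))) else 0) * Yu δ n 0 g x) +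
        L * c * (2 * (if n ≤ m then 0 else F (n - m)) + 2 * 2 ^ ε * (if n ≤ m then 0 else F (n - m - 1)))) := by
          refine add_le_add ?_ (Finset.sum_le_sum hb')
          exact mul_le_mul_of_nonneg_left s0 hLc.le
      _ = L * c * Yn δ η n g x + (L * c * ((∑ m ∈ range M, (if n ≤ m then (2:ℝ) ^ (-(η * ((m - n : ℕ):ℝ))) else 0)) * Yu δ n 0 g x) +
          L * c * (2 * ∑ m ∈ range M, (if n ≤ m then 0 else F (n - m)) + 2 * 2 ^ ε * ∑ m ∈ range M, (if n ≤ m then 0 else F (n - m - 1)))) := by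
          rw [Finset.sum_add_distrib, ← Finset.mul_sum, ← Finset.sum_mul, ← Finset.mul_sum, Finset.sum_add_distrib,
            ← Finset.mul_sum, ← Finset.mul_sum]
      _ ≤ L * c * Yn δ η n g x + (L * c * (Nrm.geoC η * Yn δ η n g x) +
          L * c * (2 * Yn δ η n g x + 2 * 2 ^ ε * Yn δ η n g x)) := by
          gcongr
      _ = _ := by ring

theorem two_sided_geo {η : ℝ} (hη : 0 < η) (m R : ℕ) :
    ∑ n ∈ range (R+1), (2:ℝ) ^ (-(η * |(m:ℝ) - n|)) ≤ 2 * Nrm.geoC η := by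
  have h1 : ∀ n ∈ range (R+1), (2:ℝ) ^ (-(η * |(m:ℝ) - n|)) ≤
      (if n ≤ m then (2:ℝ) ^ (-(η * ((m - n : ℕ):ℝ))) else 0) + (if n ≤ m then 0 else (2:ℝ) ^ (-(η * ((n - m : ℕ):ℝ)))) := by
    intro n _
    by_cases h : n ≤ m
    · rw [if_pos h, if_pos h, add_zero, Nat.cast_sub h, abs_of_nonneg]
      have : (n:ℝ) ≤ m := by exact_mod_cast h
      linarith
    · rw [if_neg h, if_neg h, zero_add, Nat.cast_sub (by omega), abs_sub_comm, abs_of_nonneg]
      have : (m:ℝ) ≤ n := by exact_mod_cast (by omega : m ≤ n)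
      linarith
  refine (Finset.sum_le_sum h1).trans ?_
  rw [Finset.sum_add_distrib, two_mul]
  refine add_le_add ?_ ?_
  · rw [← Finset.sum_filter]
    refine (inj_sum _ (range (m+1)) (fun n => m - n) (fun j => (2:ℝ) ^ (-(η * (j:ℝ)))) (fun _ _ => by positivity)
      (fun i hi => ?_) (fun i hi j hj h => ?_)).trans (Nrm.geo_le hη (m+1))
    · exact Finset.mem_range.2 (by omega)
    · have h1 := (Finset.mem_filter.1 (Finset.mem_coe.1 hi)).2
      have h2 := (Finset.mem_filter.1 (Finset.mem_coe.1 hj)).2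
      simp only at h
      omega
  · have : ∑ n ∈ range (R+1), (if n ≤ m then 0 else (2:ℝ) ^ (-(η * ((n - m : ℕ):ℝ)))) =
        ∑ n ∈ (range (R+1)).filter (fun n => ¬ n ≤ m), (2:ℝ) ^ (-(η * ((n - m : ℕ):ℝ))) := by
      rw [Finset.sum_filter]
      refine Finset.sum_congr rfl fun m _ => ?_
      split_ifs <;> rfl
    rw [this]
    refine (inj_sum _ (range (R+1)) (fun n => n - m) (fun j => (2:ℝ) ^ (-(η * (j:ℝ)))) (fun _ _ => by positivity)
      (fun i hi => ?_) (fun i hi j hj h => ?_)).trans (Nrm.geo_le hη (R+1))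
    · have := Finset.mem_range.1 (Finset.mem_filter.1 hi).1
      exact Finset.mem_range.2 (by omega)
    · have h1 := (Finset.mem_filter.1 (Finset.mem_coe.1 hi)).2
      have h2 := (Finset.mem_filter.1 (Finset.mem_coe.1 hj)).2
      simp only at h
      omega

/-- **Synthesis inequality** -/
theorem synth (δ ε C : ℝ) (hδ : 0 < δ) (hδ2 : δ ≤ 2) (hε : 0 < ε) (hεδ : ε ≤ δ/2) (hC : 0 < C) (q : ℕ) :
    ∃ K : ℝ, 0 < K ∧ ∀ (M R : ℕ), R ≤ M → ∀ (a : ℕ → Zm M → Zm M → ℝ), KF δ ε C M R a →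
      ∀ {α : Type} (A : Finset α) (G : ℕ → α → Zm M → ℝ),
      ∑ x, (∑ i ∈ A, (∑ n ∈ range (R+1), op a n (G n i) x) ^ 2) ^ (q+1) ≤
        K * ∑ x, (∑ n ∈ range (R+1), ∑ i ∈ A, (G n i x) ^ 2) ^ (q+1) := by
  obtain ⟨K0, hK0, hlb⟩ := layer_bound δ ε C hδ hδ2 hε hεδ hC
  obtain ⟨η, hη⟩ : ∃ η : ℝ, η = ε / 2 := ⟨_, rfl⟩
  have hη0 : 0 < η := by rw [hη]; linarith
  rw [← hη] at hlb
  have hg := Nrm.geoC_pos hη0
  have hgδ := Nrm.geoC_pos hδ
  obtain ⟨KA, hKA⟩ : ∃ K : ℝ, K = (2 * (8 ^ (q+1) + (q+1) + 1)) ^ (q+1) := ⟨_, rfl⟩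
  obtain ⟨KC, hKC⟩ : ∃ K : ℝ, K = (2 * ((q+1) * (3 * 2 ^ q))) ^ (q+1) := ⟨_, rfl⟩
  have hKA0 : 0 < KA := by rw [hKA]; positivity
  have hKC0 : 0 < KC := by rw [hKC]; positivity
  obtain ⟨K1, hK1⟩ : ∃ K1 : ℝ, K1 = 2 * Nrm.geoC η * K0 := ⟨_, rfl⟩
  have hK10 : 0 < K1 := by rw [hK1]; positivity
  obtain ⟨W, hW⟩ : ∃ W : ℝ, W = Nrm.geoC η * Nrm.geoC δ := ⟨_, rfl⟩
  have hW0 : 0 < W := by rw [hW]; positivity
  refine ⟨KA * (K1 ^ (q+1) * (W ^ q * (W * KC))), by positivity, ?_⟩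
  intro M R hR a ha α A G
  obtain ⟨H, hH⟩ : ∃ H : α → Zm M → ℝ, H = fun i x => ∑ n ∈ range (R+1), op a n (G n i) x := ⟨_, rfl⟩
  have hH' : ∀ i, H i = ∑ n ∈ range (R+1), op a n (G n i) := by
    intro i; rw [hH]; funext x; simp
  obtain ⟨g, hgd⟩ : ∃ g : ℕ → Zm M → ℝ, g = fun n x => ∑ i ∈ A, (G n i x) ^ 2 := ⟨_, rfl⟩
  have hg0 : ∀ n x, 0 ≤ g n x := fun n x => by rw [hgd]; exact Finset.sum_nonneg fun _ _ => sq_nonneg _
  -- pointwise bound of the square function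
  have hpt : ∀ x, (fil M).sf A H x ≤ K1 * ∑ n ∈ range (R+1), Yn δ η n (g n) x := by
    intro x
    choose! b b0 hb hb0 hbc hbE hbs using fun n (hn : n ≤ R) i => hlb M R hR a ha n hn (G n i) x
    have hsf : (fil M).sf A H x = ∑ i ∈ A, ((Av 0 (H i) x) ^ 2 + ∑ m ∈ range M, ((fil M).c m (H i) x) ^ 2) := by
      unfold Fil.sf Fil.nk Fil.ck
      simp only [Pi.add_apply, Finset.sum_apply, Pi.pow_apply]
      rw [Finset.sum_comm (s := range M), ← Finset.sum_add_distrib]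
      rfl
    have hi : ∀ i ∈ A, (Av 0 (H i) x) ^ 2 + ∑ m ∈ range M, ((fil M).c m (H i) x) ^ 2 ≤
        K1 * ∑ n ∈ range (R+1), Yn δ η n (fun y => G n i y ^ 2) x := by
      intro i _
      have e0 : Av 0 (H i) x = ∑ n ∈ range (R+1), Av 0 (op a n (G n i)) x := by
        rw [hH', map_sum]; simp
      have ec : ∀ m, (fil M).c m (H i) x = ∑ n ∈ range (R+1), (fil M).c m (op a n (G n i)) x := by
        intro m
        unfold Fil.c
        rw [hH', Finset.mul_sum, map_sum]; simp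
      have t0 : (Av 0 (H i) x) ^ 2 ≤ (2 * Nrm.geoC η) * ∑ n ∈ range (R+1), b0 n i := by
        rw [e0]
        refine (wcs (range (R+1)) (fun n => (2:ℝ) ^ (-(η * n))) _ (fun n => b0 n i) (fun _ _ => by positivity)
          (fun n hn => hbE n (by have := Finset.mem_range.1 hn; omega) i)).trans ?_
        apply mul_le_mul_of_nonneg_right _ (Finset.sum_nonneg fun n hn => hb0 n (by have := Finset.mem_range.1 hn; omega) i)
        have := Nrm.geo_le hη0 (R+1)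
        unfold Nrm.geoC at hg ⊢
        linarith
      have tm : ∀ m ∈ range M, ((fil M).c m (H i) x) ^ 2 ≤ (2 * Nrm.geoC η) * ∑ n ∈ range (R+1), b n i m := by
        intro m hm
        have hm' := Finset.mem_range.1 hm
        rw [ec]
        refine (wcs (range (R+1)) (fun n => (2:ℝ) ^ (-(η * |(m:ℝ) - n|))) _ (fun n => b n i m) (fun _ _ => by positivity)
          (fun n hn => hbc n (by have := Finset.mem_range.1 hn; omega) i m hm')).trans ?_
        apply mul_le_mul_of_nonneg_right (two_sided_geo hη0 m R)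
          (Finset.sum_nonneg fun n hn => hb n (by have := Finset.mem_range.1 hn; omega) i m hm')
      calc (Av 0 (H i) x) ^ 2 + ∑ m ∈ range M, ((fil M).c m (H i) x) ^ 2
          ≤ (2 * Nrm.geoC η) * ∑ n ∈ range (R+1), b0 n i + ∑ m ∈ range M, (2 * Nrm.geoC η) * ∑ n ∈ range (R+1), b n i m :=
            add_le_add t0 (Finset.sum_le_sum tm)
        _ = (2 * Nrm.geoC η) * ∑ n ∈ range (R+1), (b0 n i + ∑ m ∈ range M, b n i m) := by
            rw [← Finset.mul_sum, Finset.sum_comm, Finset.sum_add_distrib]; ring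
        _ ≤ (2 * Nrm.geoC η) * ∑ n ∈ range (R+1), K0 * Yn δ η n (fun y => G n i y ^ 2) x := by
            apply mul_le_mul_of_nonneg_left _ (by positivity)
            exact Finset.sum_le_sum fun n hn => hbs n (by have := Finset.mem_range.1 hn; omega) i
        _ = _ := by rw [← Finset.mul_sum, hK1]; ring
    rw [hsf]
    refine (Finset.sum_le_sum hi).trans (le_of_eq ?_)
    rw [← Finset.mul_sum, Finset.sum_comm]
    congr 1
    refine Finset.sum_congr rfl fun n _ => ?_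
    unfold Yn Yu
    rw [Finset.sum_comm]
    refine Finset.sum_congr rfl fun u _ => ?_
    rw [← Finset.mul_sum, Finset.sum_comm]
    congr 1
    refine Finset.sum_congr rfl fun v _ => ?_
    rw [← Finset.mul_sum, hgd, ← (nrm M).B_sum A _ (fun i y => G n i y ^ 2)]
  -- rearrangement
  obtain ⟨T, hT⟩ : ∃ T : ℕ → Zm M → ℝ, T = fun r x => ∑ n ∈ range (R+1), (nrm M).B (n - r) (g n) x := ⟨_, rfl⟩
  have hT0 : ∀ r x, 0 ≤ T r x := fun r x => by
    rw [hT]; exact Finset.sum_nonneg fun n _ => (nrm M).B_nonneg _ (hg0 n) x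
  have hre : ∀ x, ∑ n ∈ range (R+1), Yn δ η n (g n) x =
      ∑ p ∈ range (M+1) ×ˢ range (M+1), ((2:ℝ) ^ (-(η * p.1)) * (2:ℝ) ^ (-(δ * p.2))) * T (p.1 + p.2) x := by
    intro x
    unfold Yn Yu
    rw [Finset.sum_comm, Finset.sum_product]
    refine Finset.sum_congr rfl fun u _ => ?_
    rw [← Finset.mul_sum, Finset.sum_comm, Finset.mul_sum]
    refine Finset.sum_congr rfl fun v _ => ?_
    rw [hT, ← Finset.mul_sum]; ring
  have hWs : ∑ p ∈ range (M+1) ×ˢ range (M+1), ((2:ℝ) ^ (-(η * (p.1:ℝ))) * (2:ℝ) ^ (-(δ * (p.2:ℝ)))) ≤ W := by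
    rw [Finset.sum_product]
    simp only [← Finset.mul_sum, ← Finset.sum_mul]
    rw [hW]
    apply mul_le_mul (Nrm.geo_le hη0 _) (Nrm.geo_le hδ _) (Finset.sum_nonneg fun _ _ => by positivity) hg.le
  have hWs0 : 0 ≤ ∑ p ∈ range (M+1) ×ˢ range (M+1), ((2:ℝ) ^ (-(η * (p.1:ℝ))) * (2:ℝ) ^ (-(δ * (p.2:ℝ)))) :=
    Finset.sum_nonneg fun _ _ => by positivity
  have hfinal : ∑ x, (∑ n ∈ range (R+1), Yn δ η n (g n) x) ^ (q+1) ≤
      W ^ q * (W * KC) * ∑ x, (∑ n ∈ range (R+1), g n x) ^ (q+1) := by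
    simp only [hre]
    calc ∑ x, (∑ p ∈ range (M+1) ×ˢ range (M+1), ((2:ℝ) ^ (-(η * (p.1:ℝ))) * (2:ℝ) ^ (-(δ * (p.2:ℝ)))) * T (p.1 + p.2) x) ^ (q+1)
        ≤ ∑ x, W ^ q * ∑ p ∈ range (M+1) ×ˢ range (M+1), ((2:ℝ) ^ (-(η * (p.1:ℝ))) * (2:ℝ) ^ (-(δ * (p.2:ℝ)))) * (T (p.1 + p.2) x) ^ (q+1) := by
          refine Finset.sum_le_sum fun x _ => ?_
          refine (wpm _ _ _ (fun _ _ => by positivity) (fun p _ => hT0 _ x) q).trans ?_
          apply mul_le_mul_of_nonneg_right (pow_le_pow_left₀ hWs0 hWs q)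
          exact Finset.sum_nonneg fun p _ => mul_nonneg (by positivity) (pow_nonneg (hT0 _ x) _)
      _ = W ^ q * ∑ p ∈ range (M+1) ×ˢ range (M+1), ((2:ℝ) ^ (-(η * (p.1:ℝ))) * (2:ℝ) ^ (-(δ * (p.2:ℝ)))) * ∑ x, (T (p.1 + p.2) x) ^ (q+1) := by
          rw [← Finset.mul_sum, Finset.sum_comm]
          congr 1
          refine Finset.sum_congr rfl fun p _ => ?_
          rw [Finset.mul_sum]
      _ ≤ W ^ q * ∑ p ∈ range (M+1) ×ˢ range (M+1), ((2:ℝ) ^ (-(η * (p.1:ℝ))) * (2:ℝ) ^ (-(δ * (p.2:ℝ)))) *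
          (KC * ∑ x, (∑ n ∈ range (R+1), g n x) ^ (q+1)) := by
          apply mul_le_mul_of_nonneg_left _ (by positivity)
          refine Finset.sum_le_sum fun p _ => ?_
          apply mul_le_mul_of_nonneg_left _ (by positivity)
          rw [hT, hKC]
          exact (nrm M).thmC q R hR g hg0 (p.1 + p.2)
      _ ≤ _ := by
          rw [← Finset.sum_mul]
          have h1 : 0 ≤ ∑ x, (∑ n ∈ range (R+1), g n x) ^ (q+1) :=
            Finset.sum_nonneg fun x _ => pow_nonneg (Finset.sum_nonneg fun n _ => hg0 n x) _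
          calc W ^ q * ((∑ p ∈ range (M+1) ×ˢ range (M+1), ((2:ℝ) ^ (-(η * (p.1:ℝ))) * (2:ℝ) ^ (-(δ * (p.2:ℝ))))) *
              (KC * ∑ x, (∑ n ∈ range (R+1), g n x) ^ (q+1)))
              ≤ W ^ q * (W * (KC * ∑ x, (∑ n ∈ range (R+1), g n x) ^ (q+1))) := by gcongr
            _ = _ := by ring
  have hA := (fil M).thmA A H q
  rw [← hKA] at hA
  have hnn : ∀ x, Fil.nn A H x = ∑ i ∈ A, (∑ n ∈ range (R+1), op a n (G n i) x) ^ 2 := by
    intro x
    unfold Fil.nn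
    simp only [Finset.sum_apply, Pi.pow_apply, hH]
  simp only [hnn] at hA
  refine hA.trans ?_
  have hsum : ∑ x, (fil M).sf A H x ^ (q+1) ≤ K1 ^ (q+1) * ∑ x, (∑ n ∈ range (R+1), Yn δ η n (g n) x) ^ (q+1) := by
    rw [Finset.mul_sum]
    refine Finset.sum_le_sum fun x _ => ?_
    rw [← mul_pow]
    exact pow_le_pow_left₀ ((fil M).sf_nonneg A H x) (hpt x) _
  have hgx : ∀ x, ∑ n ∈ range (R+1), g n x = ∑ n ∈ range (R+1), ∑ i ∈ A, (G n i x) ^ 2 := by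
    intro x; rw [hgd]
  simp only [hgx] at hfinal
  calc KA * ∑ x, (fil M).sf A H x ^ (q+1) ≤ KA * (K1 ^ (q+1) * ∑ x, (∑ n ∈ range (R+1), Yn δ η n (g n) x) ^ (q+1)) :=
        mul_le_mul_of_nonneg_left hsum hKA0.le
    _ ≤ KA * (K1 ^ (q+1) * (W ^ q * (W * KC) * ∑ x, (∑ n ∈ range (R+1), ∑ i ∈ A, (G n i x) ^ 2) ^ (q+1))) := by
        gcongr
    _ = _ := by ring

end

end H396C
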