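import Pool.Agent.H396R3.C.Anal

/-! Tensor products of the one dimensional inequalities. -/

set_option autoImplicit false

open Finset

namespace H396C

/-- tensor kernel -/
def tk {M d : ℕ} (a : Fin d → ℕ → Zm M → Zm M → ℝ) (s : Fin d → ℕ) (x y : Fin d → Zm M) : ℝ :=
  ∏ i, a i (s i) (x i) (y i)

/-- operator with tensor kernel -/
def tp {M d : ℕ} (a : Fin d → ℕ → Zm M → Zm M → ℝ) (s : Fin d → ℕ) (G : (Fin d → Zm M) → ℝ) (x : Fin d → Zm M) : ℝ :=
  ∑ y, tk a s x y * G y

/-- index boxes -/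
def box (d R : ℕ) : Finset (Fin d → ℕ) := Fintype.piFinset (fun _ => range (R+1))

theorem mem_box {d R : ℕ} {s : Fin d → ℕ} : s ∈ box d R ↔ ∀ i, s i ≤ R := by
  unfold box
  simp [Fintype.mem_piFinset, Nat.lt_succ_iff]

theorem sum_cons {d : ℕ} {β : Type} [Fintype β] (f : (Fin (d+1) → β) → ℝ) :
    ∑ x, f x = ∑ u : β, ∑ x' : Fin d → β, f (Fin.cons u x') := by
  rw [← Fintype.sum_prod_type' (f := fun (u : β) (x' : Fin d → β) => f (Fin.cons u x'))]
  symm
  exact Fintype.sum_equiv (Fin.consEquiv (fun _ => β)) _ _ (fun _ => rfl)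

theorem box_cons {d R : ℕ} (f : (Fin (d+1) → ℕ) → ℝ) :
    ∑ s ∈ box (d+1) R, f s = ∑ n ∈ range (R+1), ∑ s' ∈ box d R, f (Fin.cons n s') := by
  rw [← Finset.sum_product']
  refine Finset.sum_nbij' (fun s => (s 0, Fin.tail s)) (fun p => Fin.cons p.1 p.2) ?_ ?_ ?_ ?_ ?_
  · intro s hs
    rw [mem_box] at hs
    rw [Finset.mem_product, Finset.mem_range, mem_box]
    exact ⟨Nat.lt_succ_of_le (hs 0), fun i => hs i.succ⟩
  · intro p hp
    rw [Finset.mem_product, Finset.mem_range, mem_box] at hp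
    rw [mem_box]
    intro i
    refine Fin.cases ?_ (fun j => ?_) i
    · simpa using Nat.lt_succ_iff.1 hp.1
    · simpa using hp.2 j
  · intro s _; exact Fin.cons_self_tail s
  · intro p _; simp
  · intro s _; rw [Fin.cons_self_tail]

theorem tp_cons {M d : ℕ} (a : Fin (d+1) → ℕ → Zm M → Zm M → ℝ) (n : ℕ) (s' : Fin d → ℕ) (G : (Fin (d+1) → Zm M) → ℝ)
    (u : Zm M) (x' : Fin d → Zm M) :
    tp a (Fin.cons n s' : Fin (d+1) → ℕ) G (Fin.cons u x') =
      ∑ v, a 0 n u v * tp (fun i => a i.succ) s' (fun y' => G (Fin.cons v y')) x' := by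
  unfold tp tk
  rw [sum_cons]
  refine Finset.sum_congr rfl fun v _ => ?_
  rw [Finset.mul_sum]
  refine Finset.sum_congr rfl fun y' _ => ?_
  rw [Fin.prod_univ_succ]
  simp only [Fin.cons_zero, Fin.cons_succ]
  ring

theorem synthD {M R q : ℕ} {K : ℝ} (hK : 0 ≤ K) (d : ℕ) : ∀ (a : Fin d → ℕ → Zm M → Zm M → ℝ),
    (∀ j, ∀ {α : Type} (A : Finset α) (G : ℕ → α → Zm M → ℝ),
      ∑ x, (∑ i ∈ A, (∑ n ∈ range (R+1), op (a j) n (G n i) x) ^ 2) ^ (q+1) ≤
        K * ∑ x, (∑ n ∈ range (R+1), ∑ i ∈ A, (G n i x) ^ 2) ^ (q+1)) →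
    ∀ {α : Type} (A : Finset α) (F : (Fin d → ℕ) → α → (Fin d → Zm M) → ℝ),
      ∑ x, (∑ i ∈ A, (∑ s ∈ box d R, tp a s (F s i) x) ^ 2) ^ (q+1) ≤
        K ^ d * ∑ x, (∑ s ∈ box d R, ∑ i ∈ A, (F s i x) ^ 2) ^ (q+1) := by
  induction d with
  | zero =>
    intro a _ α A F
    have hb : box 0 R = {Fin.elim0} := by
      ext s
      rw [mem_box, Finset.mem_singleton]
      constructor
      · intro _; exact Subsingleton.elim _ _
      · intro _ i; exact i.elim0
    rw [hb]
    simp only [Finset.sum_singleton, pow_zero, one_mul]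
    refine le_of_eq (Finset.sum_congr rfl fun x _ => ?_)
    congr 1
    refine Finset.sum_congr rfl fun i _ => ?_
    congr 1
    unfold tp tk
    simp only [Finset.univ_eq_empty, Finset.prod_empty, one_mul]
    rw [Fintype.sum_subsingleton _ x]
  | succ d ih =>
    intro a H α A F
    rw [sum_cons, sum_cons]
    simp only [box_cons]
    rw [Finset.sum_comm]
    -- first coordinate
    have h1 : ∀ x' : Fin d → Zm M, ∑ u, (∑ i ∈ A, (∑ n ∈ range (R+1), ∑ s' ∈ box d R,
        tp a (Fin.cons n s' : Fin (d+1) → ℕ) (F (Fin.cons n s') i) (Fin.cons u x')) ^ 2) ^ (q+1) ≤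
        K * ∑ u, (∑ n ∈ range (R+1), ∑ i ∈ A, (∑ s' ∈ box d R, tp (fun i => a i.succ) s' (fun y' => F (Fin.cons n s') i (Fin.cons u y')) x') ^ 2) ^ (q+1) := by
      intro x'
      refine le_trans (le_of_eq ?_) (H 0 A (fun n i v => ∑ s' ∈ box d R, tp (fun i => a i.succ) s' (fun y' => F (Fin.cons n s') i (Fin.cons v y')) x'))
      refine Finset.sum_congr rfl fun u _ => ?_
      congr 1
      refine Finset.sum_congr rfl fun i _ => ?_
      congr 1
      refine Finset.sum_congr rfl fun n _ => ?_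
      unfold op
      simp only [tp_cons]
      rw [Finset.sum_comm]
      refine Finset.sum_congr rfl fun v _ => ?_
      rw [Finset.mul_sum]
    -- other coordinates
    have h2 : ∀ u : Zm M, ∑ x' : Fin d → Zm M, (∑ n ∈ range (R+1), ∑ i ∈ A, (∑ s' ∈ box d R, tp (fun i => a i.succ) s' (fun y' => F (Fin.cons n s') i (Fin.cons u y')) x') ^ 2) ^ (q+1) ≤
        K ^ d * ∑ x' : Fin d → Zm M, (∑ n ∈ range (R+1), ∑ s' ∈ box d R, ∑ i ∈ A, (F (Fin.cons n s') i (Fin.cons u x')) ^ 2) ^ (q+1) := by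
      intro u
      have h3 := ih (fun i => a i.succ) (fun j => H j.succ) (range (R+1) ×ˢ A) (fun s' p y' => F (Fin.cons p.1 s') p.2 (Fin.cons u y'))
      simp only [Finset.sum_product] at h3
      refine h3.trans (le_of_eq ?_)
      congr 1
      refine Finset.sum_congr rfl fun x' _ => ?_
      congr 1
      rw [Finset.sum_comm]
    calc _ ≤ ∑ x' : Fin d → Zm M, K * ∑ u, (∑ n ∈ range (R+1), ∑ i ∈ A, (∑ s' ∈ box d R, tp (fun i => a i.succ) s' (fun y' => F (Fin.cons n s') i (Fin.cons u y')) x') ^ 2) ^ (q+1) :=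
          Finset.sum_le_sum fun x' _ => h1 x'
      _ = K * ∑ u : Zm M, ∑ x' : Fin d → Zm M, (∑ n ∈ range (R+1), ∑ i ∈ A, (∑ s' ∈ box d R, tp (fun i => a i.succ) s' (fun y' => F (Fin.cons n s') i (Fin.cons u y')) x') ^ 2) ^ (q+1) := by
          rw [← Finset.mul_sum, Finset.sum_comm]
      _ ≤ K * ∑ u : Zm M, (K ^ d * ∑ x' : Fin d → Zm M, (∑ n ∈ range (R+1), ∑ s' ∈ box d R, ∑ i ∈ A, (F (Fin.cons n s') i (Fin.cons u x')) ^ 2) ^ (q+1)) := by
          apply mul_le_mul_of_nonneg_left _ hK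
          exact Finset.sum_le_sum fun u _ => h2 u
      _ = _ := by
          rw [← Finset.mul_sum, pow_succ]; ring

theorem analD {M R q : ℕ} {K : ℝ} (hK : 0 ≤ K) (d : ℕ) : ∀ (a : Fin d → ℕ → Zm M → Zm M → ℝ),
    (∀ j, ∀ {α : Type} (A : Finset α) (h : α → Zm M → ℝ),
      ∑ x, (∑ n ∈ range (R+1), ∑ i ∈ A, (op (a j) n (h i) x) ^ 2) ^ (q+1) ≤
        K * ∑ x, (∑ i ∈ A, (h i x) ^ 2) ^ (q+1)) →
    ∀ {α : Type} (A : Finset α) (h : α → (Fin d → Zm M) → ℝ),
      ∑ x, (∑ s ∈ box d R, ∑ i ∈ A, (tp a s (h i) x) ^ 2) ^ (q+1) ≤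
        K ^ d * ∑ x, (∑ i ∈ A, (h i x) ^ 2) ^ (q+1) := by
  induction d with
  | zero =>
    intro a _ α A h
    have hb : box 0 R = {Fin.elim0} := by
      ext s
      rw [mem_box, Finset.mem_singleton]
      constructor
      · intro _; exact Subsingleton.elim _ _
      · intro _ i; exact i.elim0
    rw [hb]
    simp only [Finset.sum_singleton, pow_zero, one_mul]
    refine le_of_eq (Finset.sum_congr rfl fun x _ => ?_)
    congr 1
    refine Finset.sum_congr rfl fun i _ => ?_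
    congr 1
    unfold tp tk
    simp only [Finset.univ_eq_empty, Finset.prod_empty, one_mul]
    rw [Fintype.sum_subsingleton _ x]
  | succ d ih =>
    intro a H α A h
    rw [sum_cons, sum_cons]
    simp only [box_cons]
    rw [Finset.sum_comm]
    have h1 : ∀ x' : Fin d → Zm M, ∑ u, (∑ n ∈ range (R+1), ∑ s' ∈ box d R, ∑ i ∈ A,
        (tp a (Fin.cons n s' : Fin (d+1) → ℕ) (h i) (Fin.cons u x')) ^ 2) ^ (q+1) ≤
        K * ∑ u, (∑ s' ∈ box d R, ∑ i ∈ A, (tp (fun i => a i.succ) s' (fun y' => h i (Fin.cons u y')) x') ^ 2) ^ (q+1) := by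
      intro x'
      have h2 := H 0 (box d R ×ˢ A) (fun p v => tp (fun i => a i.succ) p.1 (fun y' => h p.2 (Fin.cons v y')) x')
      simp only [Finset.sum_product] at h2
      refine le_trans (le_of_eq ?_) h2
      refine Finset.sum_congr rfl fun u _ => ?_
      congr 1
      refine Finset.sum_congr rfl fun n _ => ?_
      refine Finset.sum_congr rfl fun s' _ => ?_
      refine Finset.sum_congr rfl fun i _ => ?_
      congr 1
      rw [tp_cons]; rfl
    calc _ ≤ ∑ x' : Fin d → Zm M, K * ∑ u, (∑ s' ∈ box d R, ∑ i ∈ A, (tp (fun i => a i.succ) s' (fun y' => h i (Fin.cons u y')) x') ^ 2) ^ (q+1) :=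
          Finset.sum_le_sum fun x' _ => h1 x'
      _ = K * ∑ u : Zm M, ∑ x' : Fin d → Zm M, (∑ s' ∈ box d R, ∑ i ∈ A, (tp (fun i => a i.succ) s' (fun y' => h i (Fin.cons u y')) x') ^ 2) ^ (q+1) := by
          rw [← Finset.mul_sum, Finset.sum_comm]
      _ ≤ K * ∑ u : Zm M, (K ^ d * ∑ x' : Fin d → Zm M, (∑ i ∈ A, (h i (Fin.cons u x')) ^ 2) ^ (q+1)) := by
          apply mul_le_mul_of_nonneg_left _ hK
          exact Finset.sum_le_sum fun u _ => ih (fun i => a i.succ) (fun j => H j.succ) A (fun i y' => h i (Fin.cons u y'))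
      _ = _ := by
          rw [← Finset.mul_sum, pow_succ]; ring

section
variable {M : ℕ}

/-- matrix of the cell average -/
noncomputable def em (k : ℕ) (x y : Zm M) : ℝ := if cl k y = cl k x then 1 / 2 ^ (M - k) else 0

theorem Av_em (k : ℕ) (h : Zm M → ℝ) (x : Zm M) : Av k h x = ∑ y, em k x y * h y := by
  rw [Av_apply, Finset.sum_div]
  refine Finset.sum_congr rfl fun y _ => ?_
  unfold em
  split_ifs
  · ring
  · simp

/-- matrix of the analysis operator -/
noncomputable def gam (n : ℕ) (x y : Zm M) : ℝ :=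
  match n with
  | 0 => em 0 x y
  | n+1 => em (n+1) x y - em n x y + (if cl (n+1) x % 2 = 1 then (em n x y - em n (sh n x) y) / 2 else 0)

theorem Ga_gam (n : ℕ) (hn : n ≤ M) (h : Zm M → ℝ) (x : Zm M) : Ga n h x = op gam n h x := by
  rcases n with _ | n
  · exact Av_em 0 h x
  · have h1 : Ga (n+1) h x = Dm n h x + (if cl (n+1) x % 2 = 1 then Zd n h x / 2 else 0) := rfl
    have h2 : Dm n h x = Av (n+1) h x - Av n h x := by
      have := congrFun ((fil M).haar n h (by omega)) x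
      have h3 : Av (n+1) h x = Av n h x + Dm n h x := this
      linarith
    rw [h1, h2]
    unfold op Zd
    rw [Av_em, Av_em, Av_em]
    have h4 : ∀ y, gam (n+1) x y * h y = em (n+1) x y * h y - em n x y * h y +
        (if cl (n+1) x % 2 = 1 then (em n x y * h y - em n (sh n x) y * h y) / 2 else 0) := by
      intro y
      have : gam (n+1) x y = em (n+1) x y - em n x y + (if cl (n+1) x % 2 = 1 then (em n x y - em n (sh n x) y) / 2 else 0) := rfl
      rw [this]
      split_ifs <;> ring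
    simp only [h4]
    rw [Finset.sum_add_distrib, Finset.sum_sub_distrib]
    congr 1
    split_ifs
    · rw [← Finset.sum_div, Finset.sum_sub_distrib]
    · simp

end

end H396C
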